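import Mathlib

/-!
# LN: walks in edge-labelled digraphs (module III.1)

An edge is a triple `(source, target, label)` with label in a (noncommutative) ring `B`. `walkL k E a b` is
the sum, over all walks from `a` to `b` that use `k` edges of the list `E`, each at most once (all of them if
`k = E.length`), of the products of the labels.

`RVL τ n us`: for every digraph on `n` vertices whose edges have the labels `us` and all vertices `a, b`, `τ`
vanishes on the sum over all walks from `a` to `b` that use every edge exactly once.

PROOFS (complete).
`picks_sum_perm`: induction on the permutation (for all `f` that respect permutations of the second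
argument; in the `cons` case use it for `fun v l => f v (x :: l)`). `walkL_perm`: induction on `k`.
`picks_append`, `picks_map`, `picks_perm`: easy inductions.
`walkL_inl`, `walkL_inr`: induction on `k` with `picks_map`.
`walk_dead`: if no edge of `E` goes from `inr` to `inl`, and some edge of `E` has its source in `inl`, then
`walkL E.length E (inr i) x = 0`: induction on the length; the current vertex stays in `inr`, and
an edge with source in `inl` can never be used (the first edge used has source `inr i`, so it is a different
one, and its target is in `inr`).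
`walk_dead'`: if no edge of `E` goes from `inl` to `inr`, and some edge of `E` has its source in `inr`, then
`walkL E.length E (inl a) x = 0` (same proof).
`RVL_perm`: a list of edges with labels `us'` is up to a permutation a list of edges with labels
`us` (induction on the permutation, or `List.Perm` and `List.map`: if `us.Perm (E.map f)` then there
is `E'` with `E'.Perm E` and `E'.map f = us`; prove this by induction on the permutation), then `walkL_perm`.
`RVL_smul`: `walkL` is homogeneous in the label of one edge of the list (for fixed vertices): with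
`E = (s, t, r • u) :: E₀`, `walkL k ((s,t,r • u) :: E₀) a b = r • walkL k ((s,t,u) :: E₀) a b` for
`k = E₀.length + 1`, by induction on the length (permutations allowed).
-/

set_option autoImplicit false

namespace Pool.Agent.Helper43.LN

/-- all ways to pick an element of a list -/
def picks {α : Type*} : List α → List (α × List α)
  | [] => []
  | a :: l => (a, l) :: (picks l).map fun p => (p.1, a :: p.2)

theorem picks_append {α : Type*} (l l' : List α) :
    picks (l ++ l') = (picks l).map (fun p => (p.1, p.2 ++ l')) ++
      (picks l').map (fun p => (p.1, l ++ p.2)) := by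
  induction l with
  | nil => simp [picks]
  | cons a l ih =>
    simp only [List.cons_append, picks, ih, List.map_append, List.map_map, List.map_cons]
    rfl

theorem picks_map {α β : Type*} (f : α → β) (l : List α) :
    picks (l.map f) = (picks l).map (fun p => (f p.1, p.2.map f)) := by
  induction l with
  | nil => simp [picks]
  | cons a l ih =>
    simp only [picks, ih, List.map_map, List.map_cons]
    rfl

theorem picks_perm {α : Type*} {l : List α} {p : α × List α} (h : p ∈ picks l) :
    (p.1 :: p.2).Perm l := by
  induction l generalizing p with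
  | nil => simp [picks] at h
  | cons a l ih =>
    simp only [picks, List.mem_cons, List.mem_map] at h
    rcases h with h | ⟨q, hq, rfl⟩
    · rw [h]
    · exact (List.Perm.swap _ _ _).trans ((ih hq).cons a)

theorem picks_sum_perm {α M : Type*} [AddCommMonoid M] (f : α → List α → M)
    (hf : ∀ a l l', l.Perm l' → f a l = f a l') {l l' : List α} (h : l.Perm l') :
    ((picks l).map fun p => f p.1 p.2).sum = ((picks l').map fun p => f p.1 p.2).sum := by
  induction h generalizing f with
  | nil => rfl
  | cons x h ih =>
    simp only [picks, List.map_cons, List.map_map, List.sum_cons]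
    rw [hf x _ _ h]
    congr 1
    exact ih (fun v l => f v (x :: l)) (fun a l l' hl => hf a _ _ (hl.cons x))
  | swap x y l =>
    simp only [picks, List.map_cons, List.map_map, List.sum_cons]
    rw [add_left_comm]
    congr 2
    apply congrArg List.sum
    apply List.map_congr_left
    intro p _
    exact hf _ _ _ (List.Perm.swap _ _ _)
  | trans _ _ ih1 ih2 => exact (ih1 f hf).trans (ih2 f hf)

section Walk

variable {B : Type*} [Ring B]

/-- sum over walks -/
def walkL {ι : Type*} [DecidableEq ι] : ℕ → List (ι × ι × B) → ι → ι → B
  | 0, _, a, b => if a = b then 1 else 0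
  | k + 1, E, a, b => ((picks E).map fun p =>
      if p.1.1 = a then p.1.2.2 * walkL k p.2 p.1.2.1 b else 0).sum

theorem walkL_perm {ι : Type*} [DecidableEq ι] (k : ℕ) {E E' : List (ι × ι × B)} (h : E.Perm E')
    (a b : ι) : walkL k E a b = walkL k E' a b := by
  induction k generalizing E E' a with
  | zero => rfl
  | succ k ih =>
    exact picks_sum_perm (fun (e : ι × ι × B) l =>
      if e.1 = a then e.2.2 * walkL k l e.2.1 b else 0)
      (fun e l l' hl => by simp only [ih hl]) h

/-- edges inside the block -/
def inl' {β ι : Type*} (e : β × β × B) : (β ⊕ ι) × (β ⊕ ι) × B := (Sum.inl e.1, Sum.inl e.2.1, e.2.2)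

/-- edges outside the block -/
def inr' {β ι : Type*} (e : ι × ι × B) : (β ⊕ ι) × (β ⊕ ι) × B := (Sum.inr e.1, Sum.inr e.2.1, e.2.2)

theorem walkL_inl {β ι : Type*} [DecidableEq β] [DecidableEq ι] (k : ℕ) (Q : List (β × β × B))
    (a b : β) : walkL k (Q.map inl' : List ((β ⊕ ι) × (β ⊕ ι) × B)) (Sum.inl a) (Sum.inl b) =
      walkL k Q a b := by
  induction k generalizing Q a with
  | zero => simp [walkL]
  | succ k ih =>
    simp only [walkL, picks_map, List.map_map]
    apply congrArg List.sum
    apply List.map_congr_left
    intro p _
    simp only [Function.comp_apply, inl', ih, Sum.inl.injEq]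

theorem walkL_inr {β ι : Type*} [DecidableEq β] [DecidableEq ι] (k : ℕ) (Q : List (ι × ι × B))
    (a b : ι) : walkL k (Q.map inr' : List ((β ⊕ ι) × (β ⊕ ι) × B)) (Sum.inr a) (Sum.inr b) =
      walkL k Q a b := by
  induction k generalizing Q a with
  | zero => simp [walkL]
  | succ k ih =>
    simp only [walkL, picks_map, List.map_map]
    apply congrArg List.sum
    apply List.map_congr_left
    intro p _
    simp only [Function.comp_apply, inr', ih, Sum.inr.injEq]

theorem walk_dead {β ι : Type*} [DecidableEq β] [DecidableEq ι]
    (E : List ((β ⊕ ι) × (β ⊕ ι) × B)) (i : ι) (x : β ⊕ ι)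
    (h1 : ∀ e ∈ E, ¬ (e.1.isRight ∧ e.2.1.isLeft)) (h2 : ∃ e ∈ E, e.1.isLeft = true) :
    walkL E.length E (Sum.inr i) x = 0 := by
  obtain ⟨n, hn⟩ : ∃ n, E.length = n := ⟨_, rfl⟩
  rw [hn]
  induction n generalizing E i with
  | zero =>
    obtain ⟨e, he, -⟩ := h2
    rw [List.length_eq_zero_iff] at hn
    simp [hn] at he
  | succ n ih =>
    obtain ⟨e, he, hel⟩ := h2
    simp only [walkL]
    apply List.sum_eq_zero
    intro y hy
    rw [List.mem_map] at hy
    obtain ⟨p, hp, rfl⟩ := hy
    have hpp := picks_perm hp
    split_ifs with h
    · have hpE : p.1 ∈ E := hpp.subset (List.mem_cons_self)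
      have h1p := h1 _ hpE
      rw [h] at h1p
      have hlen : p.2.length = n := by
        have := hpp.length_eq
        simp only [List.length_cons] at this
        omega
      have h1' : ∀ e ∈ p.2, ¬ (e.1.isRight ∧ e.2.1.isLeft) := fun e' he' =>
        h1 e' (hpp.subset (List.mem_cons_of_mem _ he'))
      have h2' : ∃ e ∈ p.2, e.1.isLeft = true := by
        refine ⟨e, ?_, hel⟩
        have := hpp.symm.subset he
        rcases List.mem_cons.1 this with h3 | h3
        · rw [h3, h] at hel
          simp at hel
        · exact h3
      cases ht : p.1.2.1 with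
      | inl j =>
        rw [ht] at h1p; simp at h1p
      | inr j =>
        rw [ih p.2 j h1' h2' hlen, mul_zero]
    · rfl

theorem walk_dead' {β ι : Type*} [DecidableEq β] [DecidableEq ι]
    (E : List ((β ⊕ ι) × (β ⊕ ι) × B)) (a : β) (x : β ⊕ ι)
    (h1 : ∀ e ∈ E, ¬ (e.1.isLeft ∧ e.2.1.isRight)) (h2 : ∃ e ∈ E, e.1.isRight = true) :
    walkL E.length E (Sum.inl a) x = 0 := by
  obtain ⟨n, hn⟩ : ∃ n, E.length = n := ⟨_, rfl⟩
  rw [hn]
  induction n generalizing E a with
  | zero =>
    obtain ⟨e, he, -⟩ := h2
    rw [List.length_eq_zero_iff] at hn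
    simp [hn] at he
  | succ n ih =>
    obtain ⟨e, he, hel⟩ := h2
    simp only [walkL]
    apply List.sum_eq_zero
    intro y hy
    rw [List.mem_map] at hy
    obtain ⟨p, hp, rfl⟩ := hy
    have hpp := picks_perm hp
    split_ifs with h
    · have hpE : p.1 ∈ E := hpp.subset (List.mem_cons_self)
      have h1p := h1 _ hpE
      rw [h] at h1p
      have hlen : p.2.length = n := by
        have := hpp.length_eq
        simp only [List.length_cons] at this
        omega
      have h1' : ∀ e ∈ p.2, ¬ (e.1.isLeft ∧ e.2.1.isRight) := fun e' he' =>
        h1 e' (hpp.subset (List.mem_cons_of_mem _ he'))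
      have h2' : ∃ e ∈ p.2, e.1.isRight = true := by
        refine ⟨e, ?_, hel⟩
        have := hpp.symm.subset he
        rcases List.mem_cons.1 this with h3 | h3
        · rw [h3, h] at hel
          simp at hel
        · exact h3
      cases ht : p.1.2.1 with
      | inl j =>
        rw [ih p.2 j h1' h2' hlen, mul_zero]
      | inr j =>
        rw [ht] at h1p; simp at h1p
    · rfl

/-- `τ` vanishes on the walk sums of all digraphs on `n` vertices with the labels `us` -/
def RVL (τ : B → ℚ) (n : ℕ) (us : List B) : Prop :=
  ∀ (ι : Type) [Fintype ι] [DecidableEq ι], Fintype.card ι = n →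
    ∀ E : List (ι × ι × B), E.map (fun e => e.2.2) = us → ∀ a b : ι, τ (walkL E.length E a b) = 0

private theorem perm_lift_Walk {α β : Type*} (f : α → β) {us us' : List β} (h : us.Perm us') :
    ∀ E : List α, E.map f = us → ∃ E' : List α, E'.Perm E ∧ E'.map f = us' := by
  induction h with
  | nil => exact fun E hE => ⟨E, List.Perm.refl _, hE⟩
  | cons x h ih =>
    intro E hE
    cases E with
    | nil => simp at hE
    | cons e E =>
      simp only [List.map_cons, List.cons.injEq] at hE
      obtain ⟨E', h1, h2⟩ := ih E hE.2
      exact ⟨e :: E', h1.cons e, by simp [h2, hE.1]⟩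
  | swap x y l =>
    intro E hE
    cases E with
    | nil => simp at hE
    | cons e E =>
      cases E with
      | nil => simp at hE
      | cons e' E =>
        simp only [List.map_cons, List.cons.injEq] at hE
        exact ⟨e' :: e :: E, List.Perm.swap _ _ _, by simp [hE.1, hE.2.1, hE.2.2]⟩
  | trans _ _ ih1 ih2 =>
    intro E hE
    obtain ⟨E1, h1, h2⟩ := ih1 E hE
    obtain ⟨E2, h3, h4⟩ := ih2 E1 h2
    exact ⟨E2, h3.trans h1, h4⟩

theorem RVL_perm {τ : B → ℚ} {n : ℕ} {us us' : List B} (h : us.Perm us') (hr : RVL τ n us) :
    RVL τ n us' := by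
  intro ι _ _ hc E hE a b
  obtain ⟨E', h1, h2⟩ := perm_lift_Walk (fun e : ι × ι × B => e.2.2) h.symm E hE
  have h3 := hr ι hc E' h2 a b
  rwa [h1.length_eq, walkL_perm _ h1] at h3

private theorem walkL_smul_Walk [Algebra ℚ B] {ι : Type*} [DecidableEq ι] (r : ℚ) (s t : ι) (u : B)
    (b : ι) (n : ℕ) : ∀ (E : List (ι × ι × B)) (a : ι), E.length = n →
      walkL (n + 1) ((s, t, r • u) :: E) a b = r • walkL (n + 1) ((s, t, u) :: E) a b := by
  induction n with
  | zero =>
    intro E a hE
    rw [List.length_eq_zero_iff] at hE
    subst hE
    simp only [walkL, picks, List.map_nil, List.map_cons, List.sum_cons, List.sum_nil, add_zero]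
    split_ifs <;> simp
  | succ n ih =>
    intro E a hE
    rw [walkL, walkL]
    simp only [picks, List.map_cons, List.map_map, List.sum_cons, smul_add, List.smul_sum]
    congr 1
    · split_ifs <;> simp
    · apply congrArg List.sum
      apply List.map_congr_left
      intro p hp
      simp only [Function.comp_apply]
      have hlen : p.2.length = n := by
        have := (picks_perm hp).length_eq
        simp only [List.length_cons] at this
        omega
      rw [ih p.2 _ hlen]
      split_ifs <;> simp

/-- scalars can be removed from a label -/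
theorem RVL_smul [Algebra ℚ B] {τ : B →ₗ[ℚ] ℚ} {n : ℕ} {r : ℚ} (hr : r ≠ 0) {u : B} {us : List B}
    (h : RVL τ n (r • u :: us)) : RVL τ n (u :: us) := by
  intro ι _ _ hc E hE a b
  cases E with
  | nil => simp at hE
  | cons e E =>
    obtain ⟨s, t, v⟩ := e
    simp only [List.map_cons, List.cons.injEq] at hE
    obtain ⟨rfl, hE⟩ := hE
    have h3 := h ι hc ((s, t, r • v) :: E) (by simp [hE]) a b
    simp only [List.length_cons] at h3 ⊢
    rw [walkL_smul_Walk r s t v b _ E a rfl, map_smul, smul_eq_mul] at h3
    exact (mul_eq_zero.1 h3).resolve_left hr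

end Walk

end Pool.Agent.Helper43.LN
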