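import Mathlib
import Pool.Agent.Helper43.LN.Walk

/-!
# LN: peeling of blocks (module III.2)

PROOFS (complete). Vertices `β ⊕ ι`. `Q : List (β × β × B)` are edges inside the block `β`,
`U : List (ι × ι × B)` edges outside, `inl'`/`inr'` embed them. `A = (inr i, inl a₀, uA)` is the only
edge into the block, `C = (inl b₀, inr j, uC)` the only edge out of it.
 (b) `walk_exit`: induction on `Q.length`. First letter `C` (only if `a = b₀`): if `Q = []` this is the
     claim (`walkL_inr`), otherwise the rest is `0` by `walk_dead`. First letter in `Q`: induction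
     hypothesis. First letter in `U`: source in `inr`, no contribution. (If `Q = []` and `a ≠ b₀` both
     sides are `0`.) Use `picks_append`, `picks_map`, `picks_perm` (for the length).
 (c) `walk_block`: induction on `U.length`. First letter `A` (if `i = i'`): use (b). First letter `C` or
     in `Q`: source in `inl`, no contribution. First letter in `U`: induction hypothesis (up to a
     permutation of the edge list).
 (d) `walk_end`: induction on `U.length`. First letter `A` (only if `i' = i`): the rest `Q ++ U` starting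
     in the block: if `U ≠ []` it is `0` by `walk_dead'`, if `U = []` it is `walkL _ Q a₀ b₀`.
     First letter in `Q`: source in `inl`, no contribution. First letter in `U`: induction hypothesis.
`RVL_peel`, `RVL_front`, `RVL_end` are (c), (b), (d), with `card (β ⊕ ι) = card β + card ι`.
-/

set_option autoImplicit false

namespace Pool.Agent.Helper43.LN

variable {B : Type*} [Ring B]

/-- (b) -/
theorem walk_exit {β ι : Type*} [DecidableEq β] [DecidableEq ι] (Q : List (β × β × B))
    (U : List (ι × ι × B)) (b₀ : β) (j : ι) (uC : B) (a : β) (j' : ι) :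
    walkL (Q.length + U.length + 1)
      ((Sum.inl b₀, Sum.inr j, uC) :: (Q.map inl' ++ U.map inr')) (Sum.inl a) (Sum.inr j') =
      walkL Q.length Q a b₀ * uC * walkL U.length U j j' := by
  obtain ⟨n, hn⟩ : ∃ n, Q.length = n := ⟨_, rfl⟩
  induction n generalizing Q a with
  | zero =>
    rw [List.length_eq_zero_iff] at hn
    subst hn
    have h1 : ([] : List (β × β × B)).length + U.length + 1 = U.length + 1 := by simp
    rw [h1, walkL, picks]
    simp only [List.map_nil, List.nil_append, picks_map, List.map_cons, List.sum_cons,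
      List.map_map, List.length_nil]
    have h2 : ((picks U).map ((fun p : ((β ⊕ ι) × (β ⊕ ι) × B) × List ((β ⊕ ι) × (β ⊕ ι) × B) =>
        if p.1.1 = Sum.inl a then p.1.2.2 * walkL U.length p.2 p.1.2.1 (Sum.inr j') else 0) ∘
        (fun p => (p.1, (Sum.inl b₀, Sum.inr j, uC) :: p.2)) ∘
        fun p : (ι × ι × B) × List (ι × ι × B) => (inr' p.1, p.2.map inr'))).sum = 0 := by
      apply List.sum_eq_zero
      intro y hy
      rw [List.mem_map] at hy
      obtain ⟨p, -, rfl⟩ := hy
      simp [inr']
    rw [h2, add_zero, walkL_inr]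
    simp only [walkL, Sum.inl.injEq]
    by_cases h : b₀ = a
    · simp [h]
    · simp [h, Ne.symm h]
  | succ n ih =>
    have h1 : Q.length + U.length + 1 = (n + U.length + 1) + 1 := by omega
    have hdead : walkL (n + U.length + 1) (Q.map inl' ++ U.map inr') (Sum.inr j)
        (Sum.inr j' : β ⊕ ι) = 0 := by
      have h3 : n + U.length + 1 = (Q.map inl' ++ U.map inr' : List ((β ⊕ ι) × (β ⊕ ι) × B)).length := by
        simp only [List.length_append, List.length_map]; omega
      rw [h3]
      apply walk_dead
      · intro e he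
        rw [List.mem_append, List.mem_map, List.mem_map] at he
        rcases he with ⟨q, -, rfl⟩ | ⟨q, -, rfl⟩
        · simp [inl']
        · simp [inr']
      · cases Q with
        | nil => simp at hn
        | cons q Q => exact ⟨inl' q, by simp, by simp [inl']⟩
    rw [h1, walkL, picks, picks_append]
    simp only [picks_map, List.map_cons, List.sum_cons, List.map_append, List.map_map,
      List.sum_append]
    have h2 : ((picks U).map ((fun p : ((β ⊕ ι) × (β ⊕ ι) × B) × List ((β ⊕ ι) × (β ⊕ ι) × B) =>
        if p.1.1 = Sum.inl a then p.1.2.2 * walkL (n + U.length + 1) p.2 p.1.2.1 (Sum.inr j') else 0) ∘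
        (fun p => (p.1, (Sum.inl b₀, Sum.inr j, uC) :: p.2)) ∘
        (fun p => (p.1, Q.map inl' ++ p.2)) ∘
        fun p : (ι × ι × B) × List (ι × ι × B) => (inr' p.1, p.2.map inr'))).sum = 0 := by
      apply List.sum_eq_zero
      intro y hy
      rw [List.mem_map] at hy
      obtain ⟨p, -, rfl⟩ := hy
      simp [inr']
    rw [h2, add_zero, hdead, mul_zero, ite_self, zero_add]
    rw [hn, walkL, ← List.sum_map_mul_right, ← List.sum_map_mul_right]
    apply congrArg List.sum
    apply List.map_congr_left
    intro p hp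
    have hlen : p.2.length = n := by
      have := (picks_perm hp).length_eq
      simp only [List.length_cons] at this
      omega
    have h4 := ih p.2 p.1.2.1 hlen
    rw [hlen] at h4
    simp only [Function.comp_apply, inl', Sum.inl.injEq]
    rw [h4]
    split_ifs <;> simp [mul_assoc]

/-- (c) -/
theorem walk_block {β ι : Type*} [DecidableEq β] [DecidableEq ι] (Q : List (β × β × B))
    (U : List (ι × ι × B)) (a₀ b₀ : β) (i j : ι) (uA uC : B) (i' j' : ι) :
    walkL (Q.length + U.length + 2)
      ((Sum.inr i, Sum.inl a₀, uA) :: (Sum.inl b₀, Sum.inr j, uC) :: (Q.map inl' ++ U.map inr'))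
      (Sum.inr i') (Sum.inr j') =
      walkL (U.length + 1) ((i, j, uA * walkL Q.length Q a₀ b₀ * uC) :: U) i' j' := by
  obtain ⟨n, hn⟩ : ∃ n, U.length = n := ⟨_, rfl⟩
  have key : ∀ (U : List (ι × ι × B)) (i' : ι),
      walkL (Q.length + U.length + 2)
        ((Sum.inr i, Sum.inl a₀, uA) :: (Sum.inl b₀, Sum.inr j, uC) :: (Q.map inl' ++ U.map inr'))
        (Sum.inr i') (Sum.inr j') =
      (if i = i' then uA * (walkL Q.length Q a₀ b₀ * uC * walkL U.length U j j') else 0) +
        ((picks U).map (fun p : (ι × ι × B) × List (ι × ι × B) =>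
          if p.1.1 = i' then p.1.2.2 * walkL (Q.length + U.length + 1)
            ((Sum.inr i, Sum.inl a₀, uA) :: (Sum.inl b₀, Sum.inr j, uC) ::
              (Q.map inl' ++ p.2.map inr')) (Sum.inr p.1.2.1) (Sum.inr j') else 0)).sum := by
    intro U i'
    rw [walkL, picks, picks, picks_append]
    simp only [picks_map, List.map_cons, List.sum_cons, List.map_append, List.map_map,
      List.sum_append]
    have h2 : ∀ g : ((β ⊕ ι) × (β ⊕ ι) × B) × List ((β ⊕ ι) × (β ⊕ ι) × B) →
        ((β ⊕ ι) × (β ⊕ ι) × B) × List ((β ⊕ ι) × (β ⊕ ι) × B), (∀ p, (g p).1 = p.1) →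
        ((picks Q).map ((fun p : ((β ⊕ ι) × (β ⊕ ι) × B) × List ((β ⊕ ι) × (β ⊕ ι) × B) =>
        if p.1.1 = Sum.inr i' then p.1.2.2 * walkL (Q.length + U.length + 1) p.2 p.1.2.1
          (Sum.inr j') else 0) ∘ g ∘
        fun p : (β × β × B) × List (β × β × B) => (inl' p.1, p.2.map inl'))).sum = 0 := by
      intro g hg
      apply List.sum_eq_zero
      intro y hy
      rw [List.mem_map] at hy
      obtain ⟨p, -, rfl⟩ := hy
      simp only [Function.comp_apply, hg, inl']
      simp
    have h3 := h2 ((fun p => (p.1, (Sum.inr i, Sum.inl a₀, uA) :: p.2)) ∘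
        (fun p => (p.1, (Sum.inl b₀, Sum.inr j, uC) :: p.2)) ∘
        (fun p => (p.1, p.2 ++ U.map inr'))) (fun p => rfl)
    rw [show ((fun p : ((β ⊕ ι) × (β ⊕ ι) × B) × List ((β ⊕ ι) × (β ⊕ ι) × B) =>
        if p.1.1 = Sum.inr i' then p.1.2.2 * walkL (Q.length + U.length + 1) p.2 p.1.2.1
          (Sum.inr j') else 0) ∘
        (fun p => (p.1, (Sum.inr i, Sum.inl a₀, uA) :: p.2)) ∘
        (fun p => (p.1, (Sum.inl b₀, Sum.inr j, uC) :: p.2)) ∘
        (fun p => (p.1, p.2 ++ U.map inr')) ∘
        fun p : (β × β × B) × List (β × β × B) => (inl' p.1, p.2.map inl')) =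
        ((fun p : ((β ⊕ ι) × (β ⊕ ι) × B) × List ((β ⊕ ι) × (β ⊕ ι) × B) =>
        if p.1.1 = Sum.inr i' then p.1.2.2 * walkL (Q.length + U.length + 1) p.2 p.1.2.1
          (Sum.inr j') else 0) ∘
        ((fun p => (p.1, (Sum.inr i, Sum.inl a₀, uA) :: p.2)) ∘
        (fun p => (p.1, (Sum.inl b₀, Sum.inr j, uC) :: p.2)) ∘
        (fun p => (p.1, p.2 ++ U.map inr'))) ∘
        fun p : (β × β × B) × List (β × β × B) => (inl' p.1, p.2.map inl')) from rfl, h3]
    rw [walk_exit]
    simp only [zero_add, Sum.inr.injEq, reduceCtorEq, if_false]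
    congr 1
    apply congrArg List.sum
    apply List.map_congr_left
    intro p _
    simp only [Function.comp_apply, inr', Sum.inr.injEq]
  induction n generalizing U i' with
  | zero =>
    rw [List.length_eq_zero_iff] at hn
    subst hn
    rw [key]
    simp only [picks, List.map_nil, List.sum_nil, add_zero, List.length_nil, walkL,
      List.map_cons, List.sum_cons]
    split_ifs <;> simp [mul_assoc]
  | succ n ih =>
    rw [key, walkL, picks]
    simp only [List.map_cons, List.sum_cons, List.map_map]
    congr 1
    · split_ifs <;> simp [mul_assoc]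
    · apply congrArg List.sum
      apply List.map_congr_left
      intro p hp
      have hlen : p.2.length = n := by
        have := (picks_perm hp).length_eq
        simp only [List.length_cons] at this
        omega
      have h4 := ih p.2 p.1.2.1 hlen
      rw [hlen] at h4
      simp only [Function.comp_apply]
      rw [show Q.length + U.length + 1 = Q.length + n + 2 by omega, h4, hn]

/-- (d) -/
theorem walk_end {β ι : Type*} [DecidableEq β] [DecidableEq ι] (Q : List (β × β × B))
    (U : List (ι × ι × B)) (a₀ b₀ : β) (i : ι) (uA : B) (i' : ι) :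
    walkL (Q.length + U.length + 1)
      ((Sum.inr i, Sum.inl a₀, uA) :: (Q.map inl' ++ U.map inr')) (Sum.inr i') (Sum.inl b₀) =
      walkL U.length U i' i * uA * walkL Q.length Q a₀ b₀ := by
  have key : ∀ (U : List (ι × ι × B)) (i' : ι),
      walkL (Q.length + U.length + 1)
        ((Sum.inr i, Sum.inl a₀, uA) :: (Q.map inl' ++ U.map inr'))
        (Sum.inr i') (Sum.inl b₀) =
      (if i = i' then uA * walkL (Q.length + U.length)
          (Q.map inl' ++ U.map inr' : List ((β ⊕ ι) × (β ⊕ ι) × B)) (Sum.inl a₀) (Sum.inl b₀) else 0) +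
        ((picks U).map (fun p : (ι × ι × B) × List (ι × ι × B) =>
          if p.1.1 = i' then p.1.2.2 * walkL (Q.length + U.length)
            ((Sum.inr i, Sum.inl a₀, uA) ::
              (Q.map inl' ++ p.2.map inr')) (Sum.inr p.1.2.1) (Sum.inl b₀) else 0)).sum := by
    intro U i'
    rw [walkL, picks, picks_append]
    simp only [picks_map, List.map_cons, List.sum_cons, List.map_append, List.map_map,
      List.sum_append]
    have h3 : ((picks Q).map ((fun p : ((β ⊕ ι) × (β ⊕ ι) × B) × List ((β ⊕ ι) × (β ⊕ ι) × B) =>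
        if p.1.1 = Sum.inr i' then p.1.2.2 * walkL (Q.length + U.length) p.2 p.1.2.1
          (Sum.inl b₀) else 0) ∘
        (fun p => (p.1, (Sum.inr i, Sum.inl a₀, uA) :: p.2)) ∘
        (fun p => (p.1, p.2 ++ U.map inr')) ∘
        fun p : (β × β × B) × List (β × β × B) => (inl' p.1, p.2.map inl'))).sum = 0 := by
      apply List.sum_eq_zero
      intro y hy
      rw [List.mem_map] at hy
      obtain ⟨p, -, rfl⟩ := hy
      simp only [Function.comp_apply, inl']
      simp
    rw [h3]
    simp only [zero_add, Sum.inr.injEq]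
    congr 1
    apply congrArg List.sum
    apply List.map_congr_left
    intro p _
    simp only [Function.comp_apply, inr', Sum.inr.injEq]
  obtain ⟨n, hn⟩ : ∃ n, U.length = n := ⟨_, rfl⟩
  induction n generalizing U i' with
  | zero =>
    rw [List.length_eq_zero_iff] at hn
    subst hn
    rw [key]
    simp only [picks, List.map_nil, List.sum_nil, add_zero, List.length_nil, List.append_nil,
      walkL_inl]
    simp only [walkL]
    by_cases h : i = i'
    · simp [h]
    · simp [h, Ne.symm h]
  | succ n ih =>
    have hdead : walkL (Q.length + U.length) (Q.map inl' ++ U.map inr') (Sum.inl a₀)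
        (Sum.inl b₀ : β ⊕ ι) = 0 := by
      have h3 : Q.length + U.length = (Q.map inl' ++ U.map inr' : List ((β ⊕ ι) × (β ⊕ ι) × B)).length := by
        simp only [List.length_append, List.length_map]
      rw [h3]
      apply walk_dead'
      · intro e he
        rw [List.mem_append, List.mem_map, List.mem_map] at he
        rcases he with ⟨q, -, rfl⟩ | ⟨q, -, rfl⟩
        · simp [inl']
        · simp [inr']
      · cases U with
        | nil => simp at hn
        | cons q U => exact ⟨inr' q, by simp, by simp [inr']⟩
    rw [key, hdead, mul_zero, ite_self, zero_add, hn, walkL, ← List.sum_map_mul_right,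
      ← List.sum_map_mul_right]
    apply congrArg List.sum
    apply List.map_congr_left
    intro p hp
    have hlen : p.2.length = n := by
      have := (picks_perm hp).length_eq
      simp only [List.length_cons] at this
      omega
    have h4 := ih p.2 p.1.2.1 hlen
    rw [hlen] at h4
    rw [show Q.length + (n + 1) = Q.length + n + 1 by omega, h4]
    split_ifs <;> simp [mul_assoc]

/-- peeling a block inside -/
theorem RVL_peel {τ : B → ℚ} {m : ℕ} {β : Type} [Fintype β] [DecidableEq β]
    (Q : List (β × β × B)) (a₀ b₀ : β) (uA uC : B) (us : List B)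
    (h : RVL τ (Fintype.card β + m) (uA :: uC :: (Q.map (fun e => e.2.2) ++ us))) :
    RVL τ m ((uA * walkL Q.length Q a₀ b₀ * uC) :: us) := by
  intro ι _ _ hc E hE a b
  cases E with
  | nil => simp at hE
  | cons e U =>
    obtain ⟨i, j, w⟩ := e
    simp only [List.map_cons, List.cons.injEq] at hE
    obtain ⟨rfl, rfl⟩ := hE
    have h1 := h (β ⊕ ι) (by rw [Fintype.card_sum, hc])
      ((Sum.inr i, Sum.inl a₀, uA) :: (Sum.inl b₀, Sum.inr j, uC) :: (Q.map inl' ++ U.map inr'))
      (by
        simp only [List.map_cons, List.map_append, List.map_map]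
        rfl) (Sum.inr a) (Sum.inr b)
    have h2 : ((Sum.inr i, Sum.inl a₀, uA) :: (Sum.inl b₀, Sum.inr j, uC) ::
        (Q.map inl' ++ U.map inr') : List ((β ⊕ ι) × (β ⊕ ι) × B)).length =
        Q.length + U.length + 2 := by
      simp
    rw [h2, walk_block] at h1
    exact h1

/-- peeling a block at the beginning -/
theorem RVL_front {τ : B → ℚ} {m : ℕ} {β : Type} [Fintype β] [DecidableEq β]
    (Q : List (β × β × B)) (a₀ b₀ : β) (uC : B) (us : List B)
    (h : RVL τ (Fintype.card β + m) (uC :: (Q.map (fun e => e.2.2) ++ us))) :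
    RVL (fun x => τ (walkL Q.length Q a₀ b₀ * uC * x)) m us := by
  intro ι _ _ hc U hE a b
  subst hE
  have h1 := h (β ⊕ ι) (by rw [Fintype.card_sum, hc])
    ((Sum.inl b₀, Sum.inr a, uC) :: (Q.map inl' ++ U.map inr'))
    (by
      simp only [List.map_cons, List.map_append, List.map_map]
      rfl) (Sum.inl a₀) (Sum.inr b)
  have h2 : ((Sum.inl b₀, Sum.inr a, uC) ::
      (Q.map inl' ++ U.map inr') : List ((β ⊕ ι) × (β ⊕ ι) × B)).length =
      Q.length + U.length + 1 := by
    simp
  rw [h2, walk_exit] at h1
  exact h1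

/-- peeling a block at the end -/
theorem RVL_end {τ : B → ℚ} {m : ℕ} {β : Type} [Fintype β] [DecidableEq β]
    (Q : List (β × β × B)) (a₀ b₀ : β) (uA : B) (us : List B)
    (h : RVL τ (Fintype.card β + m) (uA :: (Q.map (fun e => e.2.2) ++ us))) :
    RVL (fun x => τ (x * uA * walkL Q.length Q a₀ b₀)) m us := by
  intro ι _ _ hc U hE a b
  subst hE
  have h1 := h (β ⊕ ι) (by rw [Fintype.card_sum, hc])
    ((Sum.inr b, Sum.inl a₀, uA) :: (Q.map inl' ++ U.map inr'))
    (by
      simp only [List.map_cons, List.map_append, List.map_map]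
      rfl) (Sum.inr a) (Sum.inl b₀)
  have h2 : ((Sum.inr b, Sum.inl a₀, uA) ::
      (Q.map inl' ++ U.map inr') : List ((β ⊕ ι) × (β ⊕ ι) × B)).length =
      Q.length + U.length + 1 := by
    simp
  rw [h2, walk_end] at h1
  exact h1

end Pool.Agent.Helper43.LN
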