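import Mathlib
import Pool.Agent.Helper22.LB.Root
import Pool.Agent.Helper43.LN.Peel

/-!
# LN: bridge from matrix identities to walk sums, cyclic functionals (module III.3)

PROOFS (complete).
`picks_nodup`: for a list `ls` without duplicates the sum of `f v rest` over `picks ls` is the sum over
`v ∈ ls.toFinset` of `f v (ls.erase v)` (induction, or compare the lists); only used for `f` that depend on the
second argument up to permutations.
`RVL_of_evr`: let `E` be a list of edges with labels `ls.map u`, so `E = ls.map (fun v => (s v, t v, u v))` for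
functions `s, t : V → ι` (`ls` has no duplicates; extend arbitrarily outside `ls`; if `ι` is empty there is
nothing to prove as there are no `a, b`). `ι ≃ Fin n`. Put `x v = Matrix.single (s v) (t v) 1`. Claim (induction on
the length of `ls'`, `ls'` the list of the remaining letters, `pre : B` the product of the letters used):
`τ (pre * walkL ls'.length (ls'.map edge) a b) = (evr x ls'.length ls'.toFinset c') a b` whenever
`c' l = τ (pre * (l.map u).prod)` for all `l.Perm ls'`; the step is
`evr` = `∑ q, x q * evr ..`, and `(Matrix.single (s q) (t q) 1 * M) a b = if s q = a then M (t q) b else 0`.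
(`evr` only depends on the values of `c'` on the lists without duplicates whose `toFinset` is `S`.)
`RVL_mono`: a digraph on `m ≤ n` vertices is a digraph on `n` vertices (add isolated vertices, `ι ⊕ Fin (n - m)`,
`walkL_inl`).
`RVL_chain`: induction on `l.length` (step 2). `l = []`: `RVL_peel` with `β = Unit`, `Q = []`. `l = [x]`: `β = Unit`,
`Q = [((), (), x)]`. `l = x :: y :: l'`: `RVL_peel` with the loop `x`, entry `A` and exit `y`: the composite letter
`A * x * y` is the new entry letter.
`RVL_last`: induction on `l.length` (step 2), front version: a walk that starts at `0`, loop `x`, exit `y`: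
`RVL_front` with `β = Unit`. End: `l = []`: `τ (walk of the empty edge list on one vertex) = τ 1`; `l = [x]`: `τ x`.
`CV_chain`, `CV_cactus`: `CV` says that `τ` (cyclic: `τ (x*y) = τ (y*x)`) vanishes on `gl_n` for
every choice of the first (root) letter. `CV_cactus`: let `z :: ws` be a permutation of
`(d*(a*b+b*a)*c) :: us`. If `z` is the composite letter (and `ws` a permutation of `us`): use the hypothesis with
the root `c` and `RVL_end` (`β = Unit`, two loops `a, b`, entry `d`): `τ (c * (x * d * (a*b+b*a))) =
τ (d*(a*b+b*a)*c*x)`. If `z` is a letter of `us`: root `z`, `RVL_peel` (`β = Unit`, loops `a`, `b`).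
`CV_stair`: root = the last letter, `RVL_last`.
-/

set_option autoImplicit false

namespace Pool.Agent.Helper43.LN

open Finset Pool.Agent.Helper22.LB

private theorem picks_fst_Br {α : Type*} (l : List α) : (picks l).map Prod.fst = l := by
  induction l with
  | nil => rfl
  | cons a l ih =>
    simp only [picks, List.map_cons, List.map_map]
    congr 1

private theorem picks_snd_Br {V : Type*} [DecidableEq V] {l : List V} (hl : l.Nodup)
    {p : V × List V} (hp : p ∈ picks l) :
    p.2.Nodup ∧ p.2.toFinset = l.toFinset.erase p.1 := by
  have h1 := picks_perm hp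
  have h2 : (p.1 :: p.2).Nodup := h1.nodup_iff.2 hl
  rw [List.nodup_cons] at h2
  refine ⟨h2.2, ?_⟩
  have h3 : l.toFinset = (p.1 :: p.2).toFinset := (List.toFinset_eq_of_perm _ _ h1).symm
  rw [h3, List.toFinset_cons, Finset.erase_insert]
  rw [List.mem_toFinset]
  exact h2.1

private theorem picks_nodup_Br {V : Type*} [DecidableEq V] {M : Type*} [AddCommMonoid M]
    {l : List V} (hl : l.Nodup) (G : V → M) :
    ((picks l).map fun p => G p.1).sum = ∑ q ∈ l.toFinset, G q := by
  rw [List.sum_toFinset G hl]
  have h : ((picks l).map fun p => G p.1) = ((picks l).map Prod.fst).map G := by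
    rw [List.map_map]
    rfl
  rw [h, picks_fst_Br]

private theorem ex_edge_Br {V ι B : Type*} [DecidableEq V] (u : V → B) (a : ι) (ls : List V) :
    ls.Nodup → ∀ E : List (ι × ι × B), E.map (fun e => e.2.2) = ls.map u →
      ∃ g : V → ι × ι, E = ls.map (fun v => ((g v).1, (g v).2, u v)) := by
  induction ls with
  | nil =>
    intro _ E hE
    refine ⟨fun _ => (a, a), ?_⟩
    simpa using hE
  | cons v ls ih =>
    intro hnd E hE
    rw [List.nodup_cons] at hnd
    cases E with
    | nil => simp at hE
    | cons e E =>
      simp only [List.map_cons, List.cons.injEq] at hE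
      obtain ⟨g, hg⟩ := ih hnd.2 E hE.2
      refine ⟨Function.update g v (e.1, e.2.1), ?_⟩
      rw [List.map_cons]
      congr 1
      · rw [Function.update_self, ← hE.1]
      · rw [hg]
        apply List.map_congr_left
        intro w hw
        have hwv : w ≠ v := fun h => hnd.1 (h ▸ hw)
        rw [Function.update_of_ne hwv]

private theorem key_Br {V : Type*} [DecidableEq V] {B : Type*} [Ring B] [Algebra ℚ B] {n : ℕ}
    {ι : Type*} [DecidableEq ι] (e : ι ≃ Fin n) (g : V → ι × ι) (u : V → B) (τ : B →ₗ[ℚ] ℚ)
    (b : ι) (k : ℕ) :
    ∀ (ls : List V) (pre : B) (c : List V → ℚ) (a : ι), ls.Nodup → ls.length = k →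
      (∀ l : List V, l.Perm ls → c l = τ (pre * (l.map u).prod)) →
      τ (pre * walkL k (ls.map fun v => ((g v).1, (g v).2, u v)) a b) =
        evr (fun v => Matrix.single (e (g v).1) (e (g v).2) (1 : ℚ)) k ls.toFinset c (e a) (e b) := by
  induction k with
  | zero =>
    intro ls pre c a _ hlen hc
    rw [List.length_eq_zero_iff] at hlen
    subst hlen
    have h0 := hc [] (List.Perm.refl _)
    simp only [List.map_nil, List.prod_nil] at h0
    simp only [walkL, evr, h0, Matrix.smul_apply, smul_eq_mul, Matrix.one_apply,
      EmbeddingLike.apply_eq_iff_eq]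
    split_ifs <;> simp
  | succ k ih =>
    intro ls pre c a hnd hlen hc
    have hstep : ∀ p ∈ picks ls,
        (if (g p.1).1 = a then
          τ (pre * (u p.1 * walkL k (p.2.map fun v => ((g v).1, (g v).2, u v)) (g p.1).2 b))
          else 0) =
        (Matrix.single (e (g p.1).1) (e (g p.1).2) (1 : ℚ) *
          evr (fun v => Matrix.single (e (g v).1) (e (g v).2) (1 : ℚ)) k
            (ls.toFinset.erase p.1) (fun l => c (p.1 :: l))) (e a) (e b) := by
      intro p hp
      obtain ⟨h1, h2⟩ := picks_snd_Br hnd hp
      have hpp := picks_perm hp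
      have hl2 : p.2.length = k := by
        have := hpp.length_eq
        simp only [List.length_cons] at this
        omega
      have h3 := ih p.2 (pre * u p.1) (fun l => c (p.1 :: l)) (g p.1).2 h1 hl2 (by
        intro l hl
        have h4 := hc (p.1 :: l) ((hl.cons p.1).trans hpp)
        rw [h4, List.map_cons, List.prod_cons, mul_assoc])
      rw [← mul_assoc, h3, h2]
      by_cases hga : (g p.1).1 = a
      · rw [if_pos hga, hga]
        rw [Matrix.single_mul_apply_same, one_mul]
      · rw [if_neg hga]
        rw [Matrix.single_mul_apply_of_ne]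
        exact fun h => hga (e.injective h.symm)
    have hL : τ (pre * walkL (k + 1) (ls.map fun v => ((g v).1, (g v).2, u v)) a b) =
        ((picks ls).map fun p => if (g p.1).1 = a then
          τ (pre * (u p.1 * walkL k (p.2.map fun v => ((g v).1, (g v).2, u v)) (g p.1).2 b))
          else 0).sum := by
      rw [walkL, picks_map, List.map_map, ← List.sum_map_mul_left, map_list_sum, List.map_map]
      apply congrArg List.sum
      apply List.map_congr_left
      intro p _
      simp only [Function.comp_apply]
      split_ifs
      · rfl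
      · rw [mul_zero, map_zero]
    rw [hL, List.map_congr_left hstep]
    rw [picks_nodup_Br hnd (fun q => (Matrix.single (e (g q).1) (e (g q).2) (1 : ℚ) *
          evr (fun v => Matrix.single (e (g v).1) (e (g v).2) (1 : ℚ)) k
            (ls.toFinset.erase q) (fun l => c (q :: l))) (e a) (e b))]
    rw [evr, Matrix.sum_apply]

private theorem perm_lift_Br {α β : Type*} (f : α → β) {us us' : List β} (h : us.Perm us') :
    ∀ E : List α, E.map f = us → ∃ E' : List α, E'.Perm E ∧ E'.map f = us' := by
  induction h with
  | nil => exact fun E hE => ⟨E, List.Perm.refl _, hE⟩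
  | cons x h ih =>
    intro E hE
    cases E with
    | nil => simp at hE
    | cons e E =>
      simp only [List.map_cons, List.cons.injEq] at hE
      obtain ⟨E', h1, h2⟩ := ih E hE.2
      exact ⟨e :: E', h1.cons e, by simp [h2, hE.1]⟩
  | swap x y l =>
    intro E hE
    cases E with
    | nil => simp at hE
    | cons e E =>
      cases E with
      | nil => simp at hE
      | cons e' E =>
        simp only [List.map_cons, List.cons.injEq] at hE
        exact ⟨e' :: e :: E, List.Perm.swap _ _ _, by simp [hE.1, hE.2.1, hE.2.2]⟩
  | trans _ _ ih1 ih2 =>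
    intro E hE
    obtain ⟨E1, h1, h2⟩ := ih1 E hE
    obtain ⟨E2, h3, h4⟩ := ih2 E1 h2
    exact ⟨E2, h3.trans h1, h4⟩

/-- **Bridge.** -/
theorem RVL_of_evr {V : Type*} [DecidableEq V] {B : Type*} [Ring B] [Algebra ℚ B] {n : ℕ}
    (S : Finset V) (c : List V → ℚ)
    (h : ∀ x : V → Matrix (Fin n) (Fin n) ℚ, evr x S.card S c = 0)
    (u : V → B) (τ : B →ₗ[ℚ] ℚ)
    (hτ : ∀ l : List V, l.Nodup → l.toFinset = S → τ ((l.map u).prod) = c l)
    (ls : List V) (hnd : ls.Nodup) (hls : ls.toFinset = S) :
    RVL (fun x => τ x) n (ls.map u) := by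
  intro ι _ _ hc E hE a b
  obtain ⟨g, hg⟩ := ex_edge_Br u a ls hnd E hE
  have e : ι ≃ Fin n := Fintype.equivFinOfCardEq hc
  have hlen : E.length = ls.length := by rw [hg, List.length_map]
  have hcard : ls.length = S.card := by rw [← hls, List.toFinset_card_of_nodup hnd]
  have h1 := key_Br e g u τ b ls.length ls 1 c a hnd rfl (by
    intro l hl
    rw [one_mul]
    exact (hτ l (hl.nodup_iff.2 hnd) (by rw [List.toFinset_eq_of_perm _ _ hl, hls])).symm)
  rw [one_mul, hls, hcard, h, Matrix.zero_apply] at h1
  show τ (walkL E.length E a b) = 0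
  rw [hlen, hcard, hg]
  exact h1

variable {B : Type*} [Ring B]

theorem RVL_mono {τ : B → ℚ} {m n : ℕ} (h : m ≤ n) {us : List B} (hr : RVL τ n us) :
    RVL τ m us := by
  intro ι _ _ hc E hE a b
  have h1 := hr (ι ⊕ Fin (n - m)) (by simp [hc]; omega) (E.map inl')
    (by rw [List.map_map, ← hE]; rfl) (Sum.inl a) (Sum.inl b)
  rwa [walkL_inl, List.length_map] at h1

private theorem walk_one_Bridge (x : B) :
    walkL [((), (), x)].length [((), (), x)] () () = x := by
  simp [walkL, picks]

private theorem walk_two_Bridge (x y : B) :
    walkL [((), (), x), ((), (), y)].length [((), (), x), ((), (), y)] () () = x * y + y * x := by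
  simp [walkL, picks]

/-- a chain of `l.length / 2 + 1` vertices between the letters `A` and `C` -/
theorem RVL_chain {τ : B → ℚ} {m : ℕ} (A C : B) (l us : List B)
    (h : RVL τ (m + (l.length / 2 + 1)) (A :: C :: (l ++ us))) :
    RVL τ m (A * l.prod * C :: us) := by
  induction l using List.twoStepInduction generalizing A with
  | nil =>
    have h1 := RVL_peel (τ := τ) (m := m) (β := Unit) [] () () A C us (by
      rw [Fintype.card_unit, add_comm]
      simpa using h)
    simpa [walkL] using h1
  | singleton x =>
    have h1 := RVL_peel (τ := τ) (m := m) (β := Unit) [((), (), x)] () () A C us (by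
      rw [Fintype.card_unit, add_comm]
      simpa using h)
    rw [walk_one_Bridge] at h1
    simpa using h1
  | cons_cons x y l ih1 ih2 =>
    have h1 := RVL_peel (τ := τ) (m := m + (l.length / 2 + 1)) (β := Unit) [((), (), x)] () () A y
      (C :: (l ++ us)) (by
        have e1 : Fintype.card Unit + (m + (l.length / 2 + 1)) =
            m + ((x :: y :: l).length / 2 + 1) := by
          simp only [Fintype.card_unit, List.length_cons]
          omega
        rw [e1]
        refine RVL_perm ?_ h
        refine List.Perm.cons _ ?_
        simp only [List.map_cons, List.map_nil, List.cons_append, List.nil_append]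
        refine (List.Perm.swap _ _ _).trans ?_
        refine (((List.Perm.swap _ _ _).cons x)).trans ?_
        exact List.Perm.swap _ _ _)
    rw [walk_one_Bridge] at h1
    have h2 := ih1 (A * x * y) h1
    simpa [mul_assoc] using h2

/-- the last chain -/
theorem RVL_last {τ : B → ℚ} (l : List B) (h : RVL τ (l.length / 2 + 1) l) : τ l.prod = 0 := by
  induction l using List.twoStepInduction generalizing τ with
  | nil =>
    have h1 := h Unit (by simp) [] (by simp) () ()
    simpa [walkL] using h1
  | singleton x =>
    have h1 := h Unit (by simp) [((), (), x)] (by simp) () ()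
    rw [walk_one_Bridge] at h1
    simpa using h1
  | cons_cons x y l ih1 ih2 =>
    have h1 := RVL_front (τ := τ) (m := l.length / 2 + 1) (β := Unit) [((), (), x)] () () y l (by
      have e1 : Fintype.card Unit + (l.length / 2 + 1) = (x :: y :: l).length / 2 + 1 := by
        simp only [Fintype.card_unit, List.length_cons]
        omega
      rw [e1]
      exact RVL_perm (List.Perm.swap _ _ _) h)
    rw [walk_one_Bridge] at h1
    have h2 := ih1 h1
    simpa [mul_assoc] using h2

/-- `τ` vanishes on `gl_n` for every root -/
def CV (τ : B → ℚ) (n : ℕ) (us : List B) : Prop :=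
  ∀ (z : B) (ws : List B), us.Perm (z :: ws) → RVL (fun x => τ (z * x)) n ws

theorem CV_perm {τ : B → ℚ} {n : ℕ} {us us' : List B} (h : us.Perm us') (hr : CV τ n us) :
    CV τ n us' := by
  intro z ws hz
  exact hr z ws (h.trans hz)

theorem CV_cactus {τ : B → ℚ} (hcyc : ∀ x y, τ (x * y) = τ (y * x)) {n : ℕ} (a b c d : B)
    (us : List B) (h : CV τ (n + 1) (d :: a :: b :: c :: us)) :
    CV τ n (d * (a * b + b * a) * c :: us) := by
  intro z ws hz
  have hmem : d * (a * b + b * a) * c ∈ z :: ws := hz.subset List.mem_cons_self
  rcases List.mem_cons.1 hmem with hD | hD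
  · rw [hD] at hz
    have h1 : us.Perm ws := hz.cons_inv
    have h2 := h c (d :: a :: b :: us) (by
      refine (((List.Perm.swap c b us).cons a).cons d).trans ?_
      refine ((List.Perm.swap c a (b :: us)).cons d).trans ?_
      exact List.Perm.swap c d (a :: b :: us))
    have h3 := RVL_end (τ := fun x => τ (c * x)) (m := n) (β := Unit)
      [((), (), a), ((), (), b)] () () d us (by
        rw [Fintype.card_unit, add_comm]
        exact h2)
    rw [walk_two_Bridge] at h3
    have h4 : (fun x => τ (z * x)) = fun x => τ (c * (x * d * (a * b + b * a))) := by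
      funext x
      rw [← hD, hcyc c, hcyc _ x]
      simp only [mul_assoc]
    rw [h4]
    exact RVL_perm h1 h3
  · obtain ⟨s, t, hst⟩ := List.append_of_mem hD
    have h1 : ws.Perm (d * (a * b + b * a) * c :: (s ++ t)) := by
      rw [hst]; exact List.perm_middle
    have h2 : us.Perm (z :: (s ++ t)) := by
      have h3 := hz.trans ((h1.cons z).trans (List.Perm.swap _ _ _))
      exact h3.cons_inv
    have h3 := h z (d :: c :: a :: b :: (s ++ t)) (by
      have e1 : (d :: a :: b :: c :: us).Perm (d :: a :: b :: c :: z :: (s ++ t)) :=
        (((h2.cons c).cons b).cons a).cons d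
      refine e1.trans ?_
      have e2 : (d :: a :: b :: c :: z :: (s ++ t)).Perm (z :: d :: a :: b :: c :: (s ++ t)) :=
        List.perm_middle (l₁ := [d, a, b, c]) (l₂ := s ++ t)
      refine e2.trans (List.Perm.cons _ (List.Perm.cons _ ?_))
      exact List.perm_middle (l₁ := [a, b]) (l₂ := s ++ t))
    have h4 := RVL_peel (τ := fun x => τ (z * x)) (m := n) (β := Unit)
      [((), (), a), ((), (), b)] () () d c (s ++ t) (by
        rw [Fintype.card_unit, add_comm]
        exact h3)
    rw [walk_two_Bridge] at h4
    exact RVL_perm h1.symm h4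

/-- staircase -/
theorem CV_stair {τ : B → ℚ} {n : ℕ} (hn : 1 ≤ n) (us : List B) (h : CV τ n us)
    (hlen : us.length = 2 * n) : τ us.prod = 0 := by
  cases us with
  | nil => simp at hlen; omega
  | cons z ws =>
    have h1 := h z ws (List.Perm.refl _)
    have h2 : ws.length / 2 + 1 = n := by
      simp only [List.length_cons] at hlen
      omega
    rw [← h2] at h1
    have h3 := RVL_last ws h1
    simpa using h3

/-- the bridge for cyclic functionals -/
theorem CV_of_evr {V : Type*} [DecidableEq V] [Algebra ℚ B] {n : ℕ} (F : List V → ℚ)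
    (ls : List V) (hnd : ls.Nodup)
    (h : ∀ z ∈ ls, ∀ x : V → Matrix (Fin n) (Fin n) ℚ,
      evr x (ls.toFinset.erase z).card (ls.toFinset.erase z) (fun l => F (z :: l)) = 0)
    (u : V → B) (τ : B →ₗ[ℚ] ℚ)
    (hτ : ∀ l : List V, l.Perm ls → τ ((l.map u).prod) = F l) :
    CV (fun x => τ x) n (ls.map u) := by
  intro z' ws hp
  obtain ⟨E', h1, h2⟩ := perm_lift_Br u hp ls rfl
  cases E' with
  | nil => simp at h2
  | cons z l' =>
    simp only [List.map_cons, List.cons.injEq] at h2
    obtain ⟨rfl, rfl⟩ := h2
    have hnd' : (z :: l').Nodup := h1.nodup_iff.2 hnd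
    have hnd2 := List.nodup_cons.1 hnd'
    have hzl : z ∈ ls := h1.subset List.mem_cons_self
    have hS : l'.toFinset = ls.toFinset.erase z := by
      rw [← List.toFinset_eq_of_perm _ _ h1, List.toFinset_cons, Finset.erase_insert]
      rw [List.mem_toFinset]
      exact hnd2.1
    have key := RVL_of_evr (ls.toFinset.erase z) (fun l => F (z :: l)) (h z hzl) u
      (τ.comp (LinearMap.mulLeft ℚ (u z))) (by
        intro l hl hlS
        have hzn : z ∉ l := by
          intro hz
          have : z ∈ l.toFinset := List.mem_toFinset.2 hz
          rw [hlS] at this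
          exact Finset.notMem_erase _ _ this
        have hpl : (z :: l).Perm ls := by
          refine List.perm_of_nodup_nodup_toFinset_eq (List.nodup_cons.2 ⟨hzn, hl⟩) hnd ?_
          rw [List.toFinset_cons, hlS, Finset.insert_erase (List.mem_toFinset.2 hzl)]
        have := hτ (z :: l) hpl
        rw [List.map_cons, List.prod_cons] at this
        rw [LinearMap.comp_apply, LinearMap.mulLeft_apply]
        exact this) l' hnd2.2 hS
    exact key

end Pool.Agent.Helper43.LN
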