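import Mathlib
import Pool.Agent.Helper43.LN.Bridge
import Pool.Agent.LieLow.Cactus

/-!
# LN: cactus bound (module I)

Assembled from Pool/Agent/LieLow/Pairs.lean (helper29: claim (I.1)) and Pool/Agent/LieLow/Young.lean
(helper53: (I.2), theorem `young` with `K = 2 e - 2`, `4 (K + 1) < N` is `7 e < 2 n + 4`).
-/

set_option autoImplicit false

namespace Pool.Agent.Helper43.LN

open Finset Pool.Agent.Helper22.LB

theorem cactus_main {N n e : ℕ} (hN : N = 2 * n + e) (he : 2 ≤ e) (h7 : 7 * e < 2 * n + 4)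
    (F : List (Fin N) → ℚ) (hcyc : ∀ l l', F (l ++ l') = F (l' ++ l))
    (hvan : ∀ z, ∀ x : Fin N → Matrix (Fin n) (Fin n) ℚ,
      evr x (univ.erase z).card (univ.erase z) (fun l => F (z :: l)) = 0)
    (w₀ : List (Fin N)) (h0 : w₀.Perm (List.finRange N)) (hw : F w₀ ≠ 0) :
    ∃ T : Finset (Fin N), T.card + 2 * (e - 1) = N ∧ ∃ w : List (Fin N),
      w.Perm (List.finRange N) ∧
      ∑ σ ∈ univ.filter (fun σ : Equiv.Perm (Fin N) => ∀ x, x ∉ T → σ x = x),
        ((Equiv.Perm.sign σ : ℤ) : ℚ) * F (w.map σ) ≠ 0 :=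
  LieLow.cactus (by omega) (by omega) h7 hN F (fun l l' _ => hcyc l l') hvan w₀ h0 hw

end Pool.Agent.Helper43.LN
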