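import Mathlib

/-!
# LN: the degree of Lie identities of `gl_n`, definitions for the combinatorial part

`Del L c a = (∏_{(g,h) ∈ L} (T_g - T_h)) c (a)` where `(T_g c)(a) = c (a + e_g)`.
-/

set_option autoImplicit false

namespace Pool.Agent.Helper43.LN

/-- iterated differences -/
def Del {q : ℕ} {R : Type*} [Sub R] (c : (Fin q → ℕ) → R) :
    List (Fin q × Fin q) → (Fin q → ℕ) → R
  | [], a => c a
  | p :: L, a => Del c L (a + Pi.single p.1 1) - Del c L (a + Pi.single p.2 1)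

/-- the valence of a list of pairs -/
def vl {q : ℕ} : List (Fin q × Fin q) → (Fin q → ℕ)
  | [] => 0
  | p :: L => vl L + Pi.single p.1 1 + Pi.single p.2 1

/-- noncrossing lists of pairs -/
def NCr {q : ℕ} (L : List (Fin q × Fin q)) : Prop :=
  (∀ p ∈ L, p.1 < p.2) ∧ ∀ p ∈ L, ∀ r ∈ L, ¬ (p.1 < r.1 ∧ r.1 < p.2 ∧ p.2 < r.2)

/-- noncrossing lists of pairs, inductively: the first argument is the list of the labels that are
still there. -/
inductive NCi {q : ℕ} : List (Fin q) → List (Fin q × Fin q) → Prop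
  | single (g : Fin q) : NCi [g] []
  | skip (Γ₁ Γ₂ : List (Fin q)) (g h : Fin q) (L : List (Fin q × Fin q))
      (hg : ∀ p ∈ L, p.1 ≠ g ∧ p.2 ≠ g) (hL : NCi (Γ₁ ++ h :: Γ₂) L) :
      NCi (Γ₁ ++ g :: h :: Γ₂) L
  | arc (Γ₁ Γ₂ : List (Fin q)) (g h : Fin q) (L : List (Fin q × Fin q))
      (hL : NCi (Γ₁ ++ g :: h :: Γ₂) L) : NCi (Γ₁ ++ g :: h :: Γ₂) ((g, h) :: L)

theorem Del_perm {q : ℕ} {R : Type*} [AddCommGroup R] (c : (Fin q → ℕ) → R)
    {L L' : List (Fin q × Fin q)} (h : L.Perm L') (a : Fin q → ℕ) : Del c L a = Del c L' a := by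
  induction h generalizing a with
  | nil => rfl
  | cons x _ ih => rw [Del, Del, ih, ih]
  | swap x y l =>
    rw [Del, Del, Del, Del, Del, Del]
    have e : ∀ i j : Fin q, a + Pi.single i 1 + Pi.single j 1 = a + Pi.single j 1 + Pi.single i 1 :=
      fun i j => add_right_comm _ _ _
    rw [e y.1 x.1, e y.1 x.2, e y.2 x.1, e y.2 x.2]
    abel
  | trans _ _ h1 h2 => rw [h1, h2]

theorem vl_perm {q : ℕ} {L L' : List (Fin q × Fin q)} (h : L.Perm L') : vl L = vl L' := by
  induction h with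
  | nil => rfl
  | cons x _ ih => rw [vl, vl, ih]
  | swap x y l => rw [vl, vl, vl, vl]; abel
  | trans _ _ h1 h2 => rw [h1, h2]

theorem sum_vl {q : ℕ} (L : List (Fin q × Fin q)) : ∑ g, vl L g = 2 * L.length := by
  induction L with
  | nil => simp [vl]
  | cons p L ih =>
    simp only [vl, Pi.add_apply, Finset.sum_add_distrib, ih, List.length_cons,
      Finset.sum_pi_single', Finset.mem_univ, if_true]
    ring

end Pool.Agent.Helper43.LN
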