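import Mathlib
import Pool.Agent.Helper43.LN.Bridge

/-!
# LN: gadgets in `A ⊗ Λ` (module III.4)

`A` is the algebra of the patterns, `x ∈ A` the odd letter, `Λ` a Grassmann algebra with generators
`ξ s` (only `ξ s * ξ t = - ξ t * ξ s` is used). Labels are `x ⊗ ξ s` and `k ⊗ xi l`, `xi l = ∏ ξ s`.

PROOFS (complete).
`xi_even`: `ξ s * ξ t` commutes with every `xi l` (induction on `l`).
`arc_gadget`: write `G` for the left hand side. Walks from `false` to `true` through all five edges: let `K = k ⊗ xi l`,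
`L = x ⊗ ξ ℓ`, `L' = x ⊗ ξ ℓ'`, `D' = x ⊗ ξ d'`, `D = x ⊗ ξ d`; `G` is the sum of the eight words
`L K L' D' D + L K D' D L' + K L' D' L D + K D' L D L' + L D L' D' K + L D D' K L' + D L' D' L K +
D D' L K L'` (unfold `walkL` and `picks`, `simp`). With `xi_even` and the anticommutation:
`K L' D' L D + K D' L D L' = 0`, `L D L' D' K + D L' D' L K = 0`, `L K D' D L' = L K L' D' D =
(x k x^3) ⊗ (ξℓ xi l ξℓ' ξd' ξd)`, `D D' L K L' = L D D' K L' = - (x^3 k x) ⊗ (ξℓ xi l ξℓ' ξd' ξd)`.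
`arc_peel`: `RVL_peel` with `β = Bool`, `Q` the five edges of `arc_gadget`, `a₀ = false`, `b₀ = true`, entry
`x ⊗ ξ a`, exit `x ⊗ ξ c` (permute the letters with `RVL_perm`), then `RVL_smul` with the scalar `2`.
`gap_peel`: `RVL_chain`; the product of the labels `x ⊗ ξ s`, `s ∈ r`, is `x ^ r.length ⊗ xi r`.
`RVL_root`: for a digraph `E` with the labels `l` and vertices `a, b` add the edge `(b, a, Y)` and start at `b`:
`walkL _ ((b,a,Y) :: E) b b = Y * walkL _ E a b + ∑` (words that start with a letter of `l`).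
`last_peel`: `RVL_root` and `RVL_last`.
-/

set_option autoImplicit false

namespace Pool.Agent.Helper43.LN

open scoped TensorProduct

variable {A Λ : Type*} [Ring A] [Algebra ℚ A] [Ring Λ] [Algebra ℚ Λ] {S : Type*}

/-- products of odd generators -/
def xi (ξ : S → Λ) (l : List S) : Λ := (l.map ξ).prod

theorem xi_even (ξ : S → Λ) (hξ : ∀ s t, ξ s * ξ t = - (ξ t * ξ s)) (s t : S) (l : List S) :
    ξ s * ξ t * xi ξ l = xi ξ l * (ξ s * ξ t) := by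
  induction l with
  | nil => simp [xi]
  | cons a l ih =>
    have e : xi ξ (a :: l) = ξ a * xi ξ l := by simp [xi]
    have e2 : ξ s * ξ t * ξ a = ξ a * (ξ s * ξ t) := by
      rw [mul_assoc, hξ t a, mul_neg, ← mul_assoc, hξ s a, neg_mul, neg_neg, mul_assoc]
    rw [e, ← mul_assoc, e2, mul_assoc, ih, mul_assoc]

private theorem rot3_Gadget (ξ : S → Λ) (hξ : ∀ s t, ξ s * ξ t = - (ξ t * ξ s)) (p q r : S) :
    ξ p * (ξ q * ξ r) = ξ r * (ξ p * ξ q) := by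
  rw [hξ q r, mul_neg, ← mul_assoc, hξ p r, neg_mul, neg_neg, mul_assoc]

private theorem arc_words_Gadget (ξ : S → Λ) (hξ : ∀ s t, ξ s * ξ t = - (ξ t * ξ s)) (l : List S)
    (a b d' d : S) (W : Λ) (hW : W = ξ a * (xi ξ l * (ξ b * (ξ d' * ξ d)))) :
    ξ a * (xi ξ l * (ξ d' * (ξ d * ξ b))) = W ∧
    xi ξ l * (ξ d' * (ξ a * (ξ d * ξ b))) = - (xi ξ l * (ξ b * (ξ d' * (ξ a * ξ d)))) ∧
    ξ d * (ξ b * (ξ d' * (ξ a * xi ξ l))) = - (ξ a * (ξ d * (ξ b * (ξ d' * xi ξ l)))) ∧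
    ξ a * (ξ d * (ξ d' * (xi ξ l * ξ b))) = - W ∧
    ξ d * (ξ d' * (ξ a * (xi ξ l * ξ b))) = - W := by
  have h6 : ξ a * (ξ d * (ξ d' * (xi ξ l * ξ b))) = - W := by
    have h1 := xi_even ξ hξ d d' l
    have h2 : ξ d * (ξ d' * (xi ξ l * ξ b)) = xi ξ l * (ξ d * (ξ d' * ξ b)) := by
      rw [← mul_assoc (ξ d'), ← mul_assoc (ξ d), ← mul_assoc (ξ d), h1]
      simp only [mul_assoc]
    rw [h2, rot3_Gadget ξ hξ d d' b, hξ d d', hW]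
    simp only [mul_neg]
  refine ⟨?_, ?_, ?_, h6, ?_⟩
  · rw [rot3_Gadget ξ hξ d' d b, hW]
  · rw [← mul_neg]
    congr 1
    rw [rot3_Gadget ξ hξ a d b, ← mul_assoc, hξ d' b]
    simp only [neg_mul, mul_assoc]
  · have h1 : ξ d * (ξ b * (ξ d' * ξ a)) = - (ξ a * (ξ d * (ξ b * ξ d'))) := by
      rw [rot3_Gadget ξ hξ b d' a, ← mul_assoc, hξ d a]
      simp only [neg_mul, mul_assoc]
    calc ξ d * (ξ b * (ξ d' * (ξ a * xi ξ l))) = ξ d * (ξ b * (ξ d' * ξ a)) * xi ξ l := by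
          simp only [mul_assoc]
      _ = _ := by rw [h1]; simp only [neg_mul, mul_assoc]
  · rw [← h6]
    have h1 : ξ d * (ξ d' * ξ a) = ξ a * (ξ d * ξ d') := rot3_Gadget ξ hξ d d' a
    calc ξ d * (ξ d' * (ξ a * (xi ξ l * ξ b))) = ξ d * (ξ d' * ξ a) * (xi ξ l * ξ b) := by
          simp only [mul_assoc]
      _ = _ := by rw [h1]; simp only [mul_assoc]

theorem arc_gadget (ξ : S → Λ) (hξ : ∀ s t, ξ s * ξ t = - (ξ t * ξ s)) (x k : A) (l : List S)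
    (a b d' d : S) :
    walkL 5 [(false, false, x ⊗ₜ[ℚ] ξ a), (false, true, k ⊗ₜ[ℚ] xi ξ l),
      (true, true, x ⊗ₜ[ℚ] ξ b), (true, false, x ⊗ₜ[ℚ] ξ d'), (false, true, x ⊗ₜ[ℚ] ξ d)]
      false true = (2 : ℚ) • ((x * k * x ^ 3 - x ^ 3 * k * x) ⊗ₜ[ℚ] xi ξ (a :: (l ++ [b, d', d]))) := by
  have hW : xi ξ (a :: (l ++ [b, d', d])) = ξ a * (xi ξ l * (ξ b * (ξ d' * ξ d))) := by
    simp [xi, mul_assoc]
  obtain ⟨h2, h4, h7, h6, h8⟩ := arc_words_Gadget ξ hξ l a b d' d _ hW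
  have hexp : walkL 5 [(false, false, x ⊗ₜ[ℚ] ξ a), (false, true, k ⊗ₜ[ℚ] xi ξ l),
      (true, true, x ⊗ₜ[ℚ] ξ b), (true, false, x ⊗ₜ[ℚ] ξ d'), (false, true, x ⊗ₜ[ℚ] ξ d)]
      false true =
      (x * (k * (x * (x * x)))) ⊗ₜ[ℚ] (ξ a * (xi ξ l * (ξ b * (ξ d' * ξ d)))) +
      (x * (k * (x * (x * x)))) ⊗ₜ[ℚ] (ξ a * (xi ξ l * (ξ d' * (ξ d * ξ b)))) +
      (x * (x * (x * (x * k)))) ⊗ₜ[ℚ] (ξ a * (ξ d * (ξ b * (ξ d' * xi ξ l)))) +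
      (x * (x * (x * (k * x)))) ⊗ₜ[ℚ] (ξ a * (ξ d * (ξ d' * (xi ξ l * ξ b)))) +
      (k * (x * (x * (x * x)))) ⊗ₜ[ℚ] (xi ξ l * (ξ b * (ξ d' * (ξ a * ξ d)))) +
      (k * (x * (x * (x * x)))) ⊗ₜ[ℚ] (xi ξ l * (ξ d' * (ξ a * (ξ d * ξ b)))) +
      (x * (x * (x * (x * k)))) ⊗ₜ[ℚ] (ξ d * (ξ b * (ξ d' * (ξ a * xi ξ l)))) +
      (x * (x * (x * (k * x)))) ⊗ₜ[ℚ] (ξ d * (ξ d' * (ξ a * (xi ξ l * ξ b)))) := by
    simp [walkL, picks]
    simp only [mul_add, Algebra.TensorProduct.tmul_mul_tmul]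
    abel
  rw [hexp, h2, h4, h7, h6, h8, ← hW]
  simp only [TensorProduct.tmul_neg, TensorProduct.sub_tmul, smul_sub, pow_succ, pow_zero, one_mul,
    mul_assoc, two_smul]
  abel

theorem arc_peel (ξ : S → Λ) (hξ : ∀ s t, ξ s * ξ t = - (ξ t * ξ s)) (x k : A) (l : List S)
    (s₁ s₂ s₃ s₄ s₅ s₆ : S) (τ : A ⊗[ℚ] Λ →ₗ[ℚ] ℚ) (m : ℕ) (us : List (A ⊗[ℚ] Λ))
    (h : RVL (fun z => τ z) (m + 2) (k ⊗ₜ[ℚ] xi ξ l ::
      ([s₁, s₂, s₃, s₄, s₅, s₆].map (fun s => x ⊗ₜ[ℚ] ξ s) ++ us))) :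
    RVL (fun z => τ z) m ((x ^ 2 * k * x ^ 4 - x ^ 4 * k * x ^ 2) ⊗ₜ[ℚ]
      xi ξ ([s₁, s₂] ++ l ++ [s₃, s₄, s₅, s₆]) :: us) := by
  have h1 := RVL_peel (τ := fun z => τ z) (m := m) (β := Bool)
    [(false, false, x ⊗ₜ[ℚ] ξ s₂), (false, true, k ⊗ₜ[ℚ] xi ξ l),
      (true, true, x ⊗ₜ[ℚ] ξ s₃), (true, false, x ⊗ₜ[ℚ] ξ s₄), (false, true, x ⊗ₜ[ℚ] ξ s₅)]
    false true (x ⊗ₜ[ℚ] ξ s₁) (x ⊗ₜ[ℚ] ξ s₆) us (by
      rw [Fintype.card_bool, add_comm]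
      refine RVL_perm ?_ h
      simp only [List.map_cons, List.map_nil, List.cons_append, List.nil_append]
      refine (List.Perm.swap _ _ _).trans ?_
      refine List.Perm.cons _ ?_
      refine List.Perm.trans ?_ (List.perm_middle (l₁ := [x ⊗ₜ[ℚ] ξ s₂, k ⊗ₜ[ℚ] xi ξ l,
        x ⊗ₜ[ℚ] ξ s₃, x ⊗ₜ[ℚ] ξ s₄, x ⊗ₜ[ℚ] ξ s₅]) (l₂ := us))
      simp only [List.cons_append, List.nil_append]
      exact List.Perm.swap _ _ _)
  have h2 : (x ⊗ₜ[ℚ] ξ s₁) * walkL 5 [(false, false, x ⊗ₜ[ℚ] ξ s₂), (false, true, k ⊗ₜ[ℚ] xi ξ l),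
      (true, true, x ⊗ₜ[ℚ] ξ s₃), (true, false, x ⊗ₜ[ℚ] ξ s₄), (false, true, x ⊗ₜ[ℚ] ξ s₅)]
      false true * (x ⊗ₜ[ℚ] ξ s₆) = (2 : ℚ) • ((x ^ 2 * k * x ^ 4 - x ^ 4 * k * x ^ 2) ⊗ₜ[ℚ]
      xi ξ ([s₁, s₂] ++ l ++ [s₃, s₄, s₅, s₆])) := by
    rw [arc_gadget ξ hξ, mul_smul_comm, smul_mul_assoc, Algebra.TensorProduct.tmul_mul_tmul,
      Algebra.TensorProduct.tmul_mul_tmul]
    congr 2
    · simp only [mul_sub, sub_mul, pow_succ, pow_zero, one_mul, mul_assoc]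
    · simp [xi, mul_assoc]
  have h3 : RVL (fun z => τ z) m ((2 : ℚ) • ((x ^ 2 * k * x ^ 4 - x ^ 4 * k * x ^ 2) ⊗ₜ[ℚ]
      xi ξ ([s₁, s₂] ++ l ++ [s₃, s₄, s₅, s₆])) :: us) := by
    rw [← h2]
    exact h1
  exact RVL_smul (τ := τ) two_ne_zero h3

private theorem prod_xi_Gadget (ξ : S → Λ) (x : A) (r : List S) :
    (r.map (fun s => x ⊗ₜ[ℚ] ξ s)).prod = (x ^ r.length) ⊗ₜ[ℚ] xi ξ r := by
  induction r with
  | nil => simp [xi, Algebra.TensorProduct.one_def]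
  | cons s r ih =>
    rw [List.map_cons, List.prod_cons, ih, Algebra.TensorProduct.tmul_mul_tmul, List.length_cons,
      pow_succ']
    simp [xi]

theorem gap_peel (ξ : S → Λ) (x k k' : A) (l l' r : List S) (τ : A ⊗[ℚ] Λ →ₗ[ℚ] ℚ) (m : ℕ)
    (us : List (A ⊗[ℚ] Λ))
    (h : RVL (fun z => τ z) (m + (r.length / 2 + 1)) (k ⊗ₜ[ℚ] xi ξ l :: k' ⊗ₜ[ℚ] xi ξ l' ::
      (r.map (fun s => x ⊗ₜ[ℚ] ξ s) ++ us))) :
    RVL (fun z => τ z) m ((k * x ^ r.length * k') ⊗ₜ[ℚ] xi ξ (l ++ r ++ l') :: us) := by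
  have h1 := RVL_chain (τ := fun z => τ z) (m := m) (k ⊗ₜ[ℚ] xi ξ l) (k' ⊗ₜ[ℚ] xi ξ l')
    (r.map (fun s => x ⊗ₜ[ℚ] ξ s)) us (by rw [List.length_map]; exact h)
  rw [prod_xi_Gadget, Algebra.TensorProduct.tmul_mul_tmul,
    Algebra.TensorProduct.tmul_mul_tmul] at h1
  have h2 : xi ξ (l ++ r ++ l') = xi ξ l * xi ξ r * xi ξ l' := by simp [xi, mul_assoc]
  rw [h2]
  exact h1

theorem RVL_root {B : Type*} [Ring B] {τ : B → ℚ} {n : ℕ} (hadd : ∀ y z, τ (y + z) = τ y + τ z)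
    (Y : B) (l : List B) (hk : ∀ y ∈ l, ∀ z, τ (y * z) = 0) (h : RVL τ n (Y :: l)) :
    RVL (fun z => τ (Y * z)) n l := by
  intro ι _ _ hc E hE a b
  have h1 := h ι hc ((b, a, Y) :: E) (by simp [hE]) b b
  have h0 : τ 0 = 0 := by
    have := hadd 0 0
    rw [add_zero] at this
    linarith
  have hsum : ∀ L : List B, (∀ y ∈ L, τ y = 0) → τ L.sum = 0 := by
    intro L
    induction L with
    | nil => intro _; simpa using h0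
    | cons y L ih =>
      intro hL
      rw [List.sum_cons, hadd, hL y List.mem_cons_self,
        ih (fun z hz => hL z (List.mem_cons_of_mem _ hz)), add_zero]
  rw [List.length_cons, walkL] at h1
  simp only [picks, List.map_cons, List.sum_cons, if_true, hadd] at h1
  rw [hsum, add_zero] at h1
  · exact h1
  · intro y hy
    rw [List.map_map, List.mem_map] at hy
    obtain ⟨p, hp, rfl⟩ := hy
    simp only [Function.comp_apply]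
    split_ifs
    · refine hk _ ?_ _
      rw [← hE]
      exact List.mem_map.2 ⟨p.1, (picks_perm hp).subset List.mem_cons_self, rfl⟩
    · exact h0

theorem last_peel (ξ : S → Λ) (x k : A) (l r : List S) (τ : A ⊗[ℚ] Λ →ₗ[ℚ] ℚ)
    (hk : ∀ (s : S) (z : A ⊗[ℚ] Λ), τ ((x ⊗ₜ[ℚ] ξ s) * z) = 0)
    (h : RVL (fun z => τ z) (r.length / 2 + 1) (k ⊗ₜ[ℚ] xi ξ l ::
      r.map (fun s => x ⊗ₜ[ℚ] ξ s))) :
    τ ((k * x ^ r.length) ⊗ₜ[ℚ] xi ξ (l ++ r)) = 0 := by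
  have h1 := RVL_root (τ := fun z => τ z) (fun y z => map_add τ y z) (k ⊗ₜ[ℚ] xi ξ l)
    (r.map (fun s => x ⊗ₜ[ℚ] ξ s)) (by
      intro y hy z
      obtain ⟨s, -, rfl⟩ := List.mem_map.1 hy
      exact hk s z) h
  have h2 := RVL_last (r.map (fun s => x ⊗ₜ[ℚ] ξ s)) (by rw [List.length_map]; exact h1)
  rw [prod_xi_Gadget, Algebra.TensorProduct.tmul_mul_tmul] at h2
  have h3 : xi ξ (l ++ r) = xi ξ l * xi ξ r := by simp [xi]
  rw [h3]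
  exact h2

end Pool.Agent.Helper43.LN
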