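import Mathlib
import Pool.Agent.Helper43.LN.Def
import Pool.Agent.Helper43.LN.Gadget

/-!
# LN: evaluation on noncrossing structures (module III.5)

`Z` is the list of the gaps that are still there: `(g, k, l)` = (label of the gap, the element `k` of `A` in front of
the gap, the list `l` of the odd letters used in it; the label in the ring is `k ⊗ xi l`). `rest` is the list
of the odd letters not yet used.

PROOF of `evalC` (complete): induction on `NCi Γ L`, for all `Z, P, rest, n`.
 `single g`: `Z = [(g,k,l)]`, `rest.length = 2 P g + ε g`, `n = P g + 1 = rest.length / 2 + 1`: `last_peel` and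
 `β (xi (l ++ rest)) ≠ 0`.
 `skip` (`Γ = Γ₁ ++ g :: h :: Γ₂`, `g` in no pair of `L`): `Z = Z₁ ++ (g,k,l) :: (h,k',l') :: Z₂`,
 `rest = r ++ rest'`, `r.length = 2 P g + ε g`. By `gap_peel` (permute with `RVL_perm`) the hypothesis holds for
 `Z' = Z₁ ++ (h, k * x^r.length * k', l ++ r ++ l') :: Z₂`, `rest'` and `n - (P g + 1)`. The functions
 `c_Z(a) = f (∏ k x^(2 a g + ε g))` and `c_{Z'}` agree for all `a` with `a g = P g`, and `Del c L (P + vl L)`
 only uses such `a` (`Del_congr_at`), as `vl L g = 0`.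
 `arc` (`L = (g,h) :: L₀`): `Z = Z₁ ++ (g,k,l) :: (h,k',l') :: Z₂`, `rest = [s₁,…,s₆] ++ rest'`; by `arc_peel` the
 hypothesis holds for `Z' = Z₁ ++ (g,k,l) :: (h, x^2*k'*x^4 - x^4*k'*x^2, [s₁,s₂]++l'++[s₃,..,s₆]) :: Z₂`, `rest'`,
 `n - 2`, `L₀`. Since the labels are distinct, `c_{Z'}(a) = c_Z(a + e_g + 2 e_h) - c_Z(a + 2 e_g + e_h)`, so
 `0 = Del c_{Z'} L₀ (P + vl L₀) = Del c_Z L₀ (P + vl L₀ + e_g + 2 e_h) - Del c_Z L₀ (P + vl L₀ + 2 e_g + e_h)
 = - Del c_Z ((g,h) :: L₀) (P + vl ((g,h) :: L₀))`. (`Del_sub`, `Del_shift`.)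
-/

set_option autoImplicit false

namespace Pool.Agent.Helper43.LN

open scoped TensorProduct

theorem Del_congr_at {q : ℕ} {R : Type*} [AddCommGroup R] (c c' : (Fin q → ℕ) → R) (g : Fin q)
    (m : ℕ) (h : ∀ a : Fin q → ℕ, a g = m → c a = c' a) (L : List (Fin q × Fin q))
    (hg : ∀ p ∈ L, p.1 ≠ g ∧ p.2 ≠ g) (a : Fin q → ℕ) (ha : a g = m) : Del c L a = Del c' L a := by
  induction L generalizing a with
  | nil => exact h a ha
  | cons p L ih =>
    have hp := hg p List.mem_cons_self
    have hL : ∀ r ∈ L, r.1 ≠ g ∧ r.2 ≠ g := fun r hr => hg r (List.mem_cons_of_mem _ hr)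
    rw [Del, Del, ih hL (a + Pi.single p.1 1) (by
        rw [Pi.add_apply, Pi.single_eq_of_ne hp.1.symm, ha, add_zero]),
      ih hL (a + Pi.single p.2 1) (by
        rw [Pi.add_apply, Pi.single_eq_of_ne hp.2.symm, ha, add_zero])]

theorem Del_sub {q : ℕ} {R : Type*} [AddCommGroup R] (c c' : (Fin q → ℕ) → R)
    (L : List (Fin q × Fin q)) (a : Fin q → ℕ) :
    Del (fun a => c a - c' a) L a = Del c L a - Del c' L a := by
  induction L generalizing a with
  | nil => rfl
  | cons p L ih =>
    rw [Del, Del, Del, ih, ih]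
    abel

theorem Del_shift {q : ℕ} {R : Type*} [AddCommGroup R] (c : (Fin q → ℕ) → R) (v : Fin q → ℕ)
    (L : List (Fin q × Fin q)) (a : Fin q → ℕ) :
    Del (fun a => c (a + v)) L a = Del c L (a + v) := by
  induction L generalizing a with
  | nil => rfl
  | cons p L ih =>
    rw [Del, Del, ih, ih, add_right_comm a _ v, add_right_comm a _ v]

theorem vl_zero_of_EvC {q : ℕ} (g : Fin q) (L : List (Fin q × Fin q))
    (hg : ∀ p ∈ L, p.1 ≠ g ∧ p.2 ≠ g) : vl L g = 0 := by
  induction L with
  | nil => rfl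
  | cons p L ih =>
    have hp := hg p List.mem_cons_self
    rw [vl, Pi.add_apply, Pi.add_apply, ih fun r hr => hg r (List.mem_cons_of_mem _ hr),
      Pi.single_eq_of_ne hp.1.symm, Pi.single_eq_of_ne hp.2.symm]
    rfl

variable {A Λ : Type*} [Ring A] [Algebra ℚ A] [Ring Λ] [Algebra ℚ Λ] {S : Type*}

/-- the function on exponent vectors given by a list of gaps -/
def cZ {q : ℕ} (f : A → ℚ) (x : A) (ε : Fin q → ℕ) (Z : List (Fin q × A × List S))
    (a : Fin q → ℕ) : ℚ :=
  f ((Z.map fun z => z.2.1 * x ^ (2 * a z.1 + ε z.1)).prod)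

theorem evalC {q : ℕ} (ξ : S → Λ) (hξ : ∀ s t, ξ s * ξ t = - (ξ t * ξ s)) (x : A)
    (f : A →ₗ[ℚ] ℚ) (β : Λ →ₗ[ℚ] ℚ) (τ : A ⊗[ℚ] Λ →ₗ[ℚ] ℚ)
    (hτ : ∀ (k : A) (w : Λ), τ (k ⊗ₜ[ℚ] w) = f k * β w)
    (hkill : ∀ k : A, f (x * k) = 0)
    (ε : Fin q → ℕ) (hε : ∀ g, ε g ≤ 1) (full : List S)
    (hβ : ∀ l : List S, l.Perm full → β (xi ξ l) ≠ 0)
    (Γ : List (Fin q)) (L : List (Fin q × Fin q)) (hNC : NCi Γ L) (hΓ : Γ.Nodup)
    (Z : List (Fin q × A × List S)) (P : Fin q → ℕ) (rest : List S) (n : ℕ)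
    (hZ : Z.map (fun z => z.1) = Γ)
    (hn : n = (Γ.map fun g => P g + 1).sum + 2 * L.length)
    (hrest : rest.length = (Γ.map fun g => 2 * P g + ε g).sum + 6 * L.length)
    (hfull : ((Z.map fun z => z.2.2).flatten ++ rest).Perm full)
    (hR : RVL (fun z => τ z) n (Z.map (fun z => z.2.1 ⊗ₜ[ℚ] xi ξ z.2.2) ++
      rest.map (fun s => x ⊗ₜ[ℚ] ξ s))) :
    Del (cZ f x ε Z) L (P + vl L) = 0 := by
  have hk : ∀ (s : S) (z : A ⊗[ℚ] Λ), τ ((x ⊗ₜ[ℚ] ξ s) * z) = 0 := by
    intro s z
    induction z using TensorProduct.induction_on with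
    | zero => rw [mul_zero, map_zero]
    | tmul a w => rw [Algebra.TensorProduct.tmul_mul_tmul, hτ, hkill, zero_mul]
    | add y z hy hz => rw [mul_add, map_add, hy, hz, add_zero]
  induction hNC generalizing Z P rest n with
  | single g =>
    obtain ⟨z, Z', rfl, hz1, hz2⟩ := List.map_eq_cons_iff.1 hZ
    rw [List.map_eq_nil_iff] at hz2
    subst hz2
    obtain ⟨g', k, l⟩ := z
    simp only at hz1
    subst hz1
    have hε' := hε g'
    have hlen : rest.length = 2 * P g' + ε g' := by simpa using hrest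
    have hn' : n = rest.length / 2 + 1 := by
      have h1 : n = P g' + 1 := by simpa using hn
      omega
    rw [hn'] at hR
    have h1 := last_peel ξ x k l rest τ hk (by simpa using hR)
    rw [hτ] at h1
    have h2 : β (xi ξ (l ++ rest)) ≠ 0 := hβ _ (by simpa using hfull)
    have h3 := (mul_eq_zero.1 h1).resolve_right h2
    rw [hlen] at h3
    simpa [Del, cZ, vl] using h3
  | skip Γ₁ Γ₂ g h L hg hL ih =>
    obtain ⟨Z₁, Z₂, rfl, hZ1, hZ2⟩ := List.map_eq_append_iff.1 hZ
    obtain ⟨z, Z₃, rfl, hz1, hz2⟩ := List.map_eq_cons_iff.1 hZ2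
    obtain ⟨w, Z₄, rfl, hw1, hw2⟩ := List.map_eq_cons_iff.1 hz2
    obtain ⟨g', k, l⟩ := z
    obtain ⟨h', k', l'⟩ := w
    simp only at hz1 hw1
    subst hz1 hw1
    have hε' := hε g'
    simp only [List.map_append, List.map_cons, List.sum_append, List.sum_cons] at hn hrest
    obtain ⟨r, rest', hrr, hr⟩ : ∃ r rest' : List S, rest = r ++ rest' ∧
        r.length = 2 * P g' + ε g' :=
      ⟨rest.take (2 * P g' + ε g'), rest.drop (2 * P g' + ε g'), (List.take_append_drop _ _).symm,
        by rw [List.length_take]; omega⟩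
    subst hrr
    rw [List.length_append] at hrest
    have hr2 : r.length / 2 = P g' := by omega
    have hnd : (Γ₁ ++ h' :: Γ₂).Nodup := by
      refine hΓ.sublist ?_
      exact List.Sublist.append_left (List.sublist_cons_self _ _) _
    have key := ih hnd (Z₁ ++ (h', k * x ^ r.length * k', l ++ r ++ l') :: Z₄) P rest'
      (n - (P g' + 1)) (by simp [hZ1, hw2]) (by
        simp only [List.map_append, List.map_cons, List.sum_append, List.sum_cons]
        omega) (by
        simp only [List.map_append, List.map_cons, List.sum_append, List.sum_cons]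
        omega) (by
        refine List.Perm.trans ?_ hfull
        simp only [List.map_append, List.map_cons, List.flatten_append, List.flatten_cons,
          List.append_assoc]
        refine List.Perm.append_left _ (List.Perm.append_left _ ?_)
        refine (List.perm_append_comm_assoc _ _ _).trans ?_
        refine List.Perm.append_left _ ?_
        exact List.perm_append_comm_assoc _ _ _) (by
        have h1 := gap_peel ξ x k k' l l' r τ (n - (P g' + 1))
          (Z₁.map (fun z => z.2.1 ⊗ₜ[ℚ] xi ξ z.2.2) ++ (Z₄.map (fun z => z.2.1 ⊗ₜ[ℚ] xi ξ z.2.2) ++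
            rest'.map (fun s => x ⊗ₜ[ℚ] ξ s))) (by
            have h2 : n - (P g' + 1) + (r.length / 2 + 1) = n := by omega
            rw [h2]
            refine RVL_perm ?_ hR
            simp only [List.map_append, List.map_cons, List.append_assoc, List.cons_append]
            refine List.perm_middle.trans (List.Perm.cons _ ?_)
            refine List.perm_middle.trans (List.Perm.cons _ ?_)
            refine (List.Perm.append_left _ (List.perm_append_comm_assoc _ _ _)).trans ?_
            exact List.perm_append_comm_assoc _ _ _)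
        refine RVL_perm ?_ h1
        simp only [List.map_append, List.map_cons, List.append_assoc, List.cons_append]
        exact List.perm_middle.symm)
    rw [← key]
    refine Del_congr_at _ _ g' (P g') (fun a ha => ?_) L hg _ ?_
    · unfold cZ
      simp only [List.map_append, List.map_cons, List.prod_append, List.prod_cons, ha, hr]
      simp only [mul_assoc]
    · rw [Pi.add_apply, vl_zero_of_EvC g' L hg, add_zero]
  | arc Γ₁ Γ₂ g h L hL ih =>
    obtain ⟨Z₁, Z₂, rfl, hZ1, hZ2⟩ := List.map_eq_append_iff.1 hZ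
    obtain ⟨z, Z₃, rfl, hz1, hz2⟩ := List.map_eq_cons_iff.1 hZ2
    obtain ⟨w, Z₄, rfl, hw1, hw2⟩ := List.map_eq_cons_iff.1 hz2
    obtain ⟨g', k, l⟩ := z
    obtain ⟨h', k', l'⟩ := w
    simp only at hz1 hw1
    subst hz1 hw1
    rw [List.length_cons] at hn hrest
    obtain ⟨s₁, s₂, s₃, s₄, s₅, s₆, rest', rfl⟩ : ∃ s₁ s₂ s₃ s₄ s₅ s₆ : S, ∃ rest' : List S,
        rest = [s₁, s₂, s₃, s₄, s₅, s₆] ++ rest' := by
      rcases rest with _ | ⟨s₁, _ | ⟨s₂, _ | ⟨s₃, _ | ⟨s₄, _ | ⟨s₅, _ | ⟨s₆, r⟩⟩⟩⟩⟩⟩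
      case cons.cons.cons.cons.cons.cons => exact ⟨s₁, s₂, s₃, s₄, s₅, s₆, r, rfl⟩
      all_goals (simp only [List.length_cons, List.length_nil] at hrest; omega)
    have hlen : rest'.length = (List.map (fun g => 2 * P g + ε g)
        (Γ₁ ++ g' :: h' :: Γ₂)).sum + 6 * L.length := by
      simp only [List.length_append, List.length_cons, List.length_nil] at hrest
      omega
    have key := ih hΓ (Z₁ ++ (g', k, l) :: (h', x ^ 2 * k' * x ^ 4 - x ^ 4 * k' * x ^ 2,
      [s₁, s₂] ++ l' ++ [s₃, s₄, s₅, s₆]) :: Z₄) P rest' (n - 2) (by simp [hZ1, hw2])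
      (by omega) hlen (by
        refine List.Perm.trans ?_ hfull
        simp only [List.map_append, List.map_cons, List.flatten_append, List.flatten_cons,
          List.append_assoc]
        refine List.Perm.append_left _ (List.Perm.append_left _ ?_)
        have h1 : ∀ a b c d e : List S, (a ++ (b ++ (c ++ (d ++ e)))).Perm
            (b ++ (d ++ (a ++ (c ++ e)))) := by
          intro a b c d e
          refine (List.perm_append_comm_assoc _ _ _).trans (List.Perm.append_left _ ?_)
          refine (List.Perm.append_left _ (List.perm_append_comm_assoc _ _ _)).trans ?_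
          exact List.perm_append_comm_assoc _ _ _
        exact h1 [s₁, s₂] l' [s₃, s₄, s₅, s₆] _ rest') (by
        have h1 := arc_peel ξ hξ x k' l' s₁ s₂ s₃ s₄ s₅ s₆ τ (n - 2)
          (Z₁.map (fun z => z.2.1 ⊗ₜ[ℚ] xi ξ z.2.2) ++ (k ⊗ₜ[ℚ] xi ξ l) ::
            (Z₄.map (fun z => z.2.1 ⊗ₜ[ℚ] xi ξ z.2.2) ++ rest'.map (fun s => x ⊗ₜ[ℚ] ξ s))) (by
            have h2 : n - 2 + 2 = n := by omega
            rw [h2]
            refine RVL_perm ?_ hR
            rw [List.map_append, List.map_cons, List.map_cons, List.map_append]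
            simp only [List.append_assoc, List.cons_append]
            have h3 : ∀ (U V W R : List (A ⊗[ℚ] Λ)) (y z : A ⊗[ℚ] Λ),
                (U ++ y :: z :: (V ++ (R ++ W))).Perm (z :: (R ++ (U ++ y :: (V ++ W)))) := by
              intro U V W R y z
              have e1 : (U ++ y :: z :: (V ++ (R ++ W))).Perm (z :: (U ++ y :: (V ++ (R ++ W)))) := by
                refine (List.Perm.append_left U (List.Perm.swap z y _)).trans ?_
                exact List.perm_middle
              refine e1.trans (List.Perm.cons _ ?_)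
              have e2 : (y :: (V ++ (R ++ W))).Perm (R ++ y :: (V ++ W)) := by
                refine (List.Perm.cons y (List.perm_append_comm_assoc V R W)).trans ?_
                exact List.perm_middle.symm
              refine (List.Perm.append_left U e2).trans ?_
              exact List.perm_append_comm_assoc _ _ _
            exact h3 _ _ _ _ _ _)
        refine RVL_perm ?_ h1
        rw [List.map_append, List.map_cons, List.map_cons]
        simp only [List.append_assoc, List.cons_append]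
        refine List.perm_middle.symm.trans ?_
        exact List.Perm.append_left _ (List.Perm.swap _ _ _))
    have hgh : g' ≠ h' ∧ (∀ z ∈ Z₁, z.1 ≠ g' ∧ z.1 ≠ h') ∧ ∀ z ∈ Z₄, z.1 ≠ g' ∧ z.1 ≠ h' := by
      rw [List.nodup_append] at hΓ
      obtain ⟨-, h2, h3⟩ := hΓ
      rw [List.nodup_cons, List.nodup_cons, List.mem_cons, not_or] at h2
      refine ⟨h2.1.1, fun z hz => ?_, fun z hz => ?_⟩
      · have hm : z.1 ∈ Γ₁ := by
          rw [← hZ1]
          exact List.mem_map_of_mem hz
        exact ⟨h3 _ hm _ List.mem_cons_self, h3 _ hm _ (List.mem_cons_of_mem _ List.mem_cons_self)⟩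
      · have hm : z.1 ∈ Γ₂ := by
          rw [← hw2]
          exact List.mem_map_of_mem hz
        refine ⟨fun hc => h2.1.2 (hc ▸ hm), fun hc => h2.2.1 (hc ▸ hm)⟩
    have hval : ∀ a : Fin q → ℕ, cZ (fun y => f y) x ε (Z₁ ++ (g', k, l) ::
        (h', x ^ 2 * k' * x ^ 4 - x ^ 4 * k' * x ^ 2, [s₁, s₂] ++ l' ++ [s₃, s₄, s₅, s₆]) :: Z₄) a =
        cZ (fun y => f y) x ε (Z₁ ++ (g', k, l) :: (h', k', l') :: Z₄)
          (a + (Pi.single g' 1 + Pi.single h' 1 + Pi.single h' 1)) -
        cZ (fun y => f y) x ε (Z₁ ++ (g', k, l) :: (h', k', l') :: Z₄)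
          (a + (Pi.single g' 1 + Pi.single h' 1 + Pi.single g' 1)) := by
      intro a
      have e0 : ∀ (v : Fin q → ℕ) (W : List (Fin q × A × List S)), (∀ z ∈ W, v z.1 = 0) →
          (W.map fun z => z.2.1 * x ^ (2 * (a + v) z.1 + ε z.1)) =
            W.map fun z => z.2.1 * x ^ (2 * a z.1 + ε z.1) := by
        intro v W hv
        refine List.map_congr_left fun z hz => ?_
        rw [Pi.add_apply, hv z hz, add_zero]
      have hv1 : ∀ i : Fin q, i ≠ g' ∧ i ≠ h' → (Pi.single g' 1 + Pi.single h' 1 +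
          Pi.single h' 1 : Fin q → ℕ) i = 0 := by
        intro i hi
        rw [Pi.add_apply, Pi.add_apply, Pi.single_eq_of_ne hi.1, Pi.single_eq_of_ne hi.2]
        try rfl
      have hv2 : ∀ i : Fin q, i ≠ g' ∧ i ≠ h' → (Pi.single g' 1 + Pi.single h' 1 +
          Pi.single g' 1 : Fin q → ℕ) i = 0 := by
        intro i hi
        rw [Pi.add_apply, Pi.add_apply, Pi.single_eq_of_ne hi.1, Pi.single_eq_of_ne hi.2]
        try rfl
      have hg1 : (Pi.single g' 1 + Pi.single h' 1 + Pi.single h' 1 : Fin q → ℕ) g' = 1 := by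
        rw [Pi.add_apply, Pi.add_apply, Pi.single_eq_same, Pi.single_eq_of_ne hgh.1]
        try rfl
      have hh1 : (Pi.single g' 1 + Pi.single h' 1 + Pi.single h' 1 : Fin q → ℕ) h' = 2 := by
        rw [Pi.add_apply, Pi.add_apply, Pi.single_eq_same, Pi.single_eq_of_ne hgh.1.symm]
        try rfl
      have hg2 : (Pi.single g' 1 + Pi.single h' 1 + Pi.single g' 1 : Fin q → ℕ) g' = 2 := by
        rw [Pi.add_apply, Pi.add_apply, Pi.single_eq_same, Pi.single_eq_of_ne hgh.1]
        try rfl
      have hh2 : (Pi.single g' 1 + Pi.single h' 1 + Pi.single g' 1 : Fin q → ℕ) h' = 1 := by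
        rw [Pi.add_apply, Pi.add_apply, Pi.single_eq_same, Pi.single_eq_of_ne hgh.1.symm]
        try rfl
      unfold cZ
      rw [← map_sub]
      congr 1
      rw [List.map_append, List.map_append, List.map_append, List.map_cons, List.map_cons,
        List.map_cons, List.map_cons, List.map_cons, List.map_cons,
        e0 _ Z₁ fun z hz => hv1 _ (hgh.2.1 z hz), e0 _ Z₄ fun z hz => hv1 _ (hgh.2.2 z hz),
        e0 _ Z₁ fun z hz => hv2 _ (hgh.2.1 z hz), e0 _ Z₄ fun z hz => hv2 _ (hgh.2.2 z hz)]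
      simp only [List.prod_append, List.prod_cons]
      have ag1 : (a + (Pi.single g' 1 + Pi.single h' 1 + Pi.single h' 1) : Fin q → ℕ) g' = a g' + 1 := by
        rw [Pi.add_apply, hg1]
      have ag2 : (a + (Pi.single g' 1 + Pi.single h' 1 + Pi.single h' 1) : Fin q → ℕ) h' = a h' + 2 := by
        rw [Pi.add_apply, hh1]
      have bg1 : (a + (Pi.single g' 1 + Pi.single h' 1 + Pi.single g' 1) : Fin q → ℕ) g' = a g' + 2 := by
        rw [Pi.add_apply, hg2]
      have bg2 : (a + (Pi.single g' 1 + Pi.single h' 1 + Pi.single g' 1) : Fin q → ℕ) h' = a h' + 1 := by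
        rw [Pi.add_apply, hh2]
      rw [← mul_sub, ag1, ag2, bg1, bg2]
      congr 1
      have e1 : x ^ (2 * (a g' + 1) + ε g') = x ^ (2 * a g' + ε g') * x ^ 2 := by
        rw [← pow_add]; congr 1; ring
      have e2 : x ^ (2 * (a g' + 2) + ε g') = x ^ (2 * a g' + ε g') * x ^ 4 := by
        rw [← pow_add]; congr 1; ring
      have e3 : x ^ (2 * (a h' + 2) + ε h') = x ^ 4 * x ^ (2 * a h' + ε h') := by
        rw [← pow_add]; congr 1; ring
      have e4 : x ^ (2 * (a h' + 1) + ε h') = x ^ 2 * x ^ (2 * a h' + ε h') := by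
        rw [← pow_add]; congr 1; ring
      rw [e1, e2, e3, e4]
      simp only [sub_mul, mul_sub, mul_assoc]
    have h5 : Del (cZ (fun y => f y) x ε (Z₁ ++ (g', k, l) ::
        (h', x ^ 2 * k' * x ^ 4 - x ^ 4 * k' * x ^ 2, [s₁, s₂] ++ l' ++ [s₃, s₄, s₅, s₆]) :: Z₄)) L
          (P + vl L) = Del (cZ (fun y => f y) x ε (Z₁ ++ (g', k, l) :: (h', k', l') :: Z₄)) L
            (P + vl L + (Pi.single g' 1 + Pi.single h' 1 + Pi.single h' 1)) -
          Del (cZ (fun y => f y) x ε (Z₁ ++ (g', k, l) :: (h', k', l') :: Z₄)) L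
            (P + vl L + (Pi.single g' 1 + Pi.single h' 1 + Pi.single g' 1)) := by
      rw [funext hval, Del_sub, Del_shift, Del_shift]
    rw [h5] at key
    rw [Del, vl]
    have e5 : P + (vl L + Pi.single g' 1 + Pi.single h' 1) + Pi.single g' 1 =
        P + vl L + (Pi.single g' 1 + Pi.single h' 1 + Pi.single g' 1) := by
      simp only [add_assoc]
    have e6 : P + (vl L + Pi.single g' 1 + Pi.single h' 1) + Pi.single h' 1 =
        P + vl L + (Pi.single g' 1 + Pi.single h' 1 + Pi.single h' 1) := by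
      simp only [add_assoc]
    show Del _ L (P + (vl L + Pi.single g' 1 + Pi.single h' 1) + Pi.single g' 1) -
      Del _ L (P + (vl L + Pi.single g' 1 + Pi.single h' 1) + Pi.single h' 1) = 0
    rw [e5, e6, sub_eq_zero]
    exact (sub_eq_zero.1 key).symm

end Pool.Agent.Helper43.LN
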