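import Mathlib
import Pool.Agent.Helper43.LN.Def

/-!
# LN: straightening (module IV)

PROOF (complete).
`straight`: it is enough to know the vanishing for noncrossing lists. Write `Z(L)` for: for all `P` with
`∑ P + 3 κ = D`, `Del c L (P + vl L) = 0`; both `Del` and `vl` are invariant under permutations of the
list, so `Z` is. A pair `(g,g)` gives `Del = 0` (identically). Replacing `(h,g)` by `(g,h)` changes `Del` by the sign
and not `vl`, so we may assume `p.1 < p.2` for all pairs. Plücker relation for `i < j < k < l`: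
`(T_i - T_k)(T_j - T_l) = (T_i - T_j)(T_k - T_l) + (T_i - T_l)(T_j - T_k)`, i.e. for every `L`
`Del c ((i,k)::(j,l)::L) a = Del c ((i,j)::(k,l)::L) a + Del c ((i,l)::(j,k)::L) a`, and the three lists
have the same `vl`. Induction on the measure `∑_{p ∈ L} w(p.2 - p.1)`, `w(t) = t (2 q - t)` (`t < q`;
strictly increasing and strictly concave for `t ≤ q`): if `L` (all pairs `p.1 < p.2`) is not `NCr` then
there are pairs `(i,k), (j,l) ∈ L` with `i < j < k < l`; they are different, so up to a permutation
`L = (i,k)::(j,l)::L₀`, and both lists on the right hand side have smaller measure: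
`w(j-i) + w(l-k) < w(k-i) + w(l-j)` and `w(l-i) + w(k-j) < w(k-i) + w(l-j)`.

`ncr_nci`: a noncrossing list `L` whose labels lie in the nonempty strictly increasing list `Γ` is, up to a
permutation, `NCi Γ`. Induction on `Γ.length + L.length`. If `Γ = [g]` then `L = []`. Otherwise, if some
label `g` of `Γ` that is not the last one occurs in no pair of `L`, use `skip` (`Γ = Γ₁ ++ g :: h :: Γ₂`; the
list `Γ₁ ++ h :: Γ₂` is strictly increasing and contains the labels of `L`). Otherwise every label
of `Γ` but the last one occurs in `L`, so `L ≠ []`; take `(g,h) ∈ L` with the number of labels `x ∈ Γ`,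
`g < x < h`, minimal. This number is `0`: if `g < x < h`, `x ∈ Γ`, then `x` is not the last label, so it occurs in a
pair `r ∈ L`; since `r` does not cross `(g,h)`, `g ≤ r.1 < r.2 ≤ h`, and there are fewer labels strictly
between `r.1` and `r.2` (as `x` is one of `r.1, r.2`), a contradiction. So `Γ = Γ₁ ++ g :: h :: Γ₂` and
`L` is a permutation of `(g,h) :: L₀`; use the induction hypothesis for `Γ, L₀` and `arc`.
-/

set_option autoImplicit false

namespace Pool.Agent.Helper43.LN

open Finset

/-- the weight of a pair -/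
private def wt (q : ℕ) (p : Fin q × Fin q) : ℕ :=
  (p.2.val - p.1.val) * (2 * q - (p.2.val - p.1.val))

private theorem wt_key (A G E s : ℕ) (hA : 1 ≤ A) (hG : 1 ≤ G) (hE : 1 ≤ E) :
    A * (2 * (A + G + E + s + 1) - A) + E * (2 * (A + G + E + s + 1) - E) <
      (A + G) * (2 * (A + G + E + s + 1) - (A + G)) +
        (G + E) * (2 * (A + G + E + s + 1) - (G + E)) ∧
    (A + G + E) * (2 * (A + G + E + s + 1) - (A + G + E)) + G * (2 * (A + G + E + s + 1) - G) <
      (A + G) * (2 * (A + G + E + s + 1) - (A + G)) +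
        (G + E) * (2 * (A + G + E + s + 1) - (G + E)) := by
  have e1 : 2 * (A + G + E + s + 1) - A = A + 2 * G + 2 * E + 2 * s + 2 := by omega
  have e2 : 2 * (A + G + E + s + 1) - E = 2 * A + 2 * G + E + 2 * s + 2 := by omega
  have e3 : 2 * (A + G + E + s + 1) - (A + G) = A + G + 2 * E + 2 * s + 2 := by omega
  have e4 : 2 * (A + G + E + s + 1) - (G + E) = 2 * A + G + E + 2 * s + 2 := by omega
  have e5 : 2 * (A + G + E + s + 1) - (A + G + E) = A + G + E + 2 * s + 2 := by omega
  have e6 : 2 * (A + G + E + s + 1) - G = 2 * A + G + 2 * E + 2 * s + 2 := by omega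
  rw [e1, e2, e3, e4, e5, e6]
  constructor
  · nlinarith [Nat.zero_le (G * s), Nat.zero_le (A * s), Nat.zero_le (E * s), Nat.mul_le_mul hA hG,
      Nat.mul_le_mul hG hE, Nat.mul_le_mul hA hE, Nat.mul_le_mul hG hG]
  · nlinarith [Nat.mul_le_mul hA hE]

private theorem wt_lt {q : ℕ} (i j k l : Fin q) (h1 : i < j) (h2 : j < k) (h3 : k < l) :
    wt q (i, j) + wt q (k, l) < wt q (i, k) + wt q (j, l) ∧
    wt q (i, l) + wt q (j, k) < wt q (i, k) + wt q (j, l) := by
  have h4 := l.isLt
  rw [Fin.lt_def] at h1 h2 h3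
  obtain ⟨A, hA⟩ : ∃ A, A = j.val - i.val := ⟨_, rfl⟩
  obtain ⟨G, hG⟩ : ∃ G, G = k.val - j.val := ⟨_, rfl⟩
  obtain ⟨E, hE⟩ : ∃ E, E = l.val - k.val := ⟨_, rfl⟩
  obtain ⟨s, hs⟩ : ∃ s, q = A + G + E + s + 1 := ⟨q - (A + G + E + 1), by omega⟩
  have f1 : k.val - i.val = A + G := by omega
  have f2 : l.val - j.val = G + E := by omega
  have f3 : l.val - i.val = A + G + E := by omega
  have h := wt_key A G E s (by omega) (by omega) (by omega)
  show (j.val - i.val) * (2 * q - (j.val - i.val)) + (l.val - k.val) * (2 * q - (l.val - k.val)) <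
    (k.val - i.val) * (2 * q - (k.val - i.val)) + (l.val - j.val) * (2 * q - (l.val - j.val)) ∧
    (l.val - i.val) * (2 * q - (l.val - i.val)) + (k.val - j.val) * (2 * q - (k.val - j.val)) <
    (k.val - i.val) * (2 * q - (k.val - i.val)) + (l.val - j.val) * (2 * q - (l.val - j.val))
  rw [f1, f2, f3, ← hA, ← hG, ← hE, hs]
  exact h

/-- the Plücker relation -/
private theorem Del_pl {q : ℕ} (c : (Fin q → ℕ) → ℚ) (i j k l : Fin q) (L : List (Fin q × Fin q))
    (a : Fin q → ℕ) : Del c ((i, k) :: (j, l) :: L) a =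
      Del c ((i, j) :: (k, l) :: L) a + Del c ((i, l) :: (j, k) :: L) a := by
  simp only [Del]
  have e : ∀ x y : Fin q, a + Pi.single x 1 + Pi.single y 1 = a + Pi.single y 1 + Pi.single x 1 :=
    fun x y => add_right_comm _ _ _
  rw [e k j, e l j, e l k]
  ring

private theorem vl_pl1 {q : ℕ} (i j k l : Fin q) (L : List (Fin q × Fin q)) :
    vl ((i, j) :: (k, l) :: L) = vl ((i, k) :: (j, l) :: L) := by
  simp only [vl]
  abel

private theorem vl_pl2 {q : ℕ} (i j k l : Fin q) (L : List (Fin q × Fin q)) :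
    vl ((i, l) :: (j, k) :: L) = vl ((i, k) :: (j, l) :: L) := by
  simp only [vl]
  abel

/-- lists of increasing pairs are enough -/
private theorem Del_inc {q : ℕ} (c : (Fin q → ℕ) → ℚ) (L : List (Fin q × Fin q)) :
    (∀ a, Del c L a = 0) ∨ ∃ (L' : List (Fin q × Fin q)) (s : ℚ), L'.length = L.length ∧
      (∀ p ∈ L', p.1 < p.2) ∧ vl L' = vl L ∧ ∀ a, Del c L a = s * Del c L' a := by
  induction L with
  | nil => exact Or.inr ⟨[], 1, rfl, by simp, rfl, by simp⟩
  | cons p L ih =>
    rcases ih with ih | ⟨L', s, h1, h2, h3, h4⟩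
    · left
      intro a
      rw [Del, ih, ih, sub_zero]
    · rcases lt_trichotomy p.1 p.2 with h | h | h
      · refine Or.inr ⟨p :: L', s, by simp [h1], ?_, by rw [vl, vl, h3], ?_⟩
        · intro r hr
          rcases List.mem_cons.1 hr with hr | hr
          · rw [hr]
            exact h
          · exact h2 r hr
        · intro a
          rw [Del, Del, h4, h4]
          ring
      · left
        intro a
        rw [Del, h, sub_self]
      · refine Or.inr ⟨(p.2, p.1) :: L', -s, by simp [h1], ?_, ?_, ?_⟩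
        · intro r hr
          rcases List.mem_cons.1 hr with hr | hr
          · rw [hr]
            exact h
          · exact h2 r hr
        · rw [vl, vl, h3]
          exact add_right_comm _ _ _
        · intro a
          rw [Del, Del, h4, h4]
          ring

/-- straightening of a list of increasing pairs -/
private theorem straight_inc {q κ D : ℕ} (c : (Fin q → ℕ) → ℚ)
    (M : ∀ L : List (Fin q × Fin q), NCr L → L.length = κ → ∀ P : Fin q → ℕ,
      ∑ g, P g + 3 * κ = D → Del c L (P + vl L) = 0) (n : ℕ) :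
    ∀ L : List (Fin q × Fin q), (L.map (wt q)).sum = n → (∀ p ∈ L, p.1 < p.2) → L.length = κ →
      ∀ P : Fin q → ℕ, ∑ g, P g + 3 * κ = D → Del c L (P + vl L) = 0 := by
  induction n using Nat.strong_induction_on with
  | _ n ih =>
    intro L hn hL hlen P hP
    by_cases hN : NCr L
    · exact M L hN hlen P hP
    · have hN' : ∃ p ∈ L, ∃ r ∈ L, p.1 < r.1 ∧ r.1 < p.2 ∧ p.2 < r.2 := by
        by_contra hcon
        exact hN ⟨hL, fun p hp r hr h => hcon ⟨p, hp, r, hr, h⟩⟩
      obtain ⟨p, hp, r, hr, h1, h2, h3⟩ := hN'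
      have hne : r ≠ p := by
        intro he
        rw [he] at h1
        exact lt_irrefl _ h1
      have hr' : r ∈ L.erase p := (List.mem_erase_of_ne hne).2 hr
      obtain ⟨L₀, hL₀⟩ : ∃ L₀, L.Perm (p :: r :: L₀) := ⟨(L.erase p).erase r,
        (List.perm_cons_erase hp).trans ((List.perm_cons_erase hr').cons p)⟩
      obtain ⟨i, k⟩ := p
      obtain ⟨j, l⟩ := r
      have hsum : (L.map (wt q)).sum = wt q (i, k) + (wt q (j, l) + (L₀.map (wt q)).sum) := by
        rw [(hL₀.map (wt q)).sum_eq]
        simp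
      have hlen' : L₀.length + 2 = κ := by
        rw [← hlen, hL₀.length_eq]
        simp
      have hmem : ∀ x ∈ L₀, x.1 < x.2 := fun x hx =>
        hL x (hL₀.mem_iff.2 (List.mem_cons_of_mem _ (List.mem_cons_of_mem _ hx)))
      obtain ⟨w1, w2⟩ := wt_lt i j k l h1 h2 h3
      have hm : ∀ x y : Fin q × Fin q, x.1 < x.2 → y.1 < y.2 → ∀ z ∈ x :: y :: L₀, z.1 < z.2 := by
        intro x y hx hy z hz
        rcases List.mem_cons.1 hz with hz | hz
        · rw [hz]
          exact hx
        · rcases List.mem_cons.1 hz with hz | hz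
          · rw [hz]
            exact hy
          · exact hmem z hz
      have c1 := ih (((i, j) :: (k, l) :: L₀).map (wt q)).sum (by
        rw [← hn, hsum]
        simp only [List.map_cons, List.sum_cons]
        omega) _ rfl (hm _ _ h1 h3) (by simp only [List.length_cons]; omega) P hP
      have c2 := ih (((i, l) :: (j, k) :: L₀).map (wt q)).sum (by
        rw [← hn, hsum]
        simp only [List.map_cons, List.sum_cons]
        omega) _ rfl (hm _ _ (h1.trans (h2.trans h3)) h2) (by simp only [List.length_cons]; omega) P hP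
      rw [vl_pl1] at c1
      rw [vl_pl2] at c2
      rw [Del_perm c hL₀, vl_perm hL₀, Del_pl, c1, c2, add_zero]

/-- **Straightening** (IV). -/
theorem straight {q κ D : ℕ} (c : (Fin q → ℕ) → ℚ)
    (M : ∀ L : List (Fin q × Fin q), NCr L → L.length = κ → ∀ P : Fin q → ℕ,
      ∑ g, P g + 3 * κ = D → Del c L (P + vl L) = 0)
    (L : List (Fin q × Fin q)) (hL : L.length = κ) (P : Fin q → ℕ) (hP : ∑ g, P g + 3 * κ = D) :
    Del c L (P + vl L) = 0 := by
  rcases Del_inc c L with h | ⟨L', s, h1, h2, h3, h4⟩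
  · exact h _
  · rw [h4, ← h3, straight_inc c M _ L' rfl h2 (h1.trans hL) P hP, mul_zero]

theorem ncr_nci {q : ℕ} (Γ : List (Fin q)) (hΓ : Γ.Pairwise (· < ·)) (hne : Γ ≠ [])
    (L : List (Fin q × Fin q)) (hL : NCr L) (hsub : ∀ p ∈ L, p.1 ∈ Γ ∧ p.2 ∈ Γ) :
    ∃ L' : List (Fin q × Fin q), L'.Perm L ∧ NCi Γ L' := by
  obtain ⟨n, hn⟩ : ∃ n, Γ.length + L.length = n := ⟨_, rfl⟩
  induction n using Nat.strong_induction_on generalizing Γ L with
  | _ n ih =>
    by_cases hsk : ∃ Γ₁ g h Γ₂, Γ = Γ₁ ++ g :: h :: Γ₂ ∧ ∀ p ∈ L, p.1 ≠ g ∧ p.2 ≠ g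
    · obtain ⟨Γ₁, g, h, Γ₂, rfl, hg⟩ := hsk
      have hs : List.Sublist (Γ₁ ++ h :: Γ₂) (Γ₁ ++ g :: h :: Γ₂) :=
        List.Sublist.append_left (List.sublist_cons_self _ _) _
      have hmem : ∀ x, x ∈ Γ₁ ++ g :: h :: Γ₂ → x ≠ g → x ∈ Γ₁ ++ h :: Γ₂ := by
        intro x hx hxg
        simp only [List.mem_append, List.mem_cons] at hx ⊢
        tauto
      have hlt : (Γ₁ ++ h :: Γ₂).length + L.length < n := by
        rw [← hn]
        simp only [List.length_append, List.length_cons]
        omega
      obtain ⟨L', hp, hn'⟩ := ih _ hlt (Γ₁ ++ h :: Γ₂) (hΓ.sublist hs) (by simp) L hL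
        (fun p hp => ⟨hmem _ (hsub p hp).1 (hg p hp).1, hmem _ (hsub p hp).2 (hg p hp).2⟩) rfl
      exact ⟨L', hp, NCi.skip _ _ _ _ _ (fun p hp' => hg p (hp.mem_iff.1 hp')) hn'⟩
    · by_cases hLe : L = []
      · subst hLe
        rcases Γ with _ | ⟨g, _ | ⟨h, Γ₂⟩⟩
        · exact absurd rfl hne
        · exact ⟨[], List.Perm.refl _, NCi.single g⟩
        · exact absurd ⟨[], g, h, Γ₂, rfl, by simp⟩ hsk
      · have hLf : L.toFinset.Nonempty := by
          obtain ⟨p, hp⟩ := List.exists_mem_of_ne_nil L hLe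
          exact ⟨p, by simpa using hp⟩
        obtain ⟨p, hp, hmin⟩ := L.toFinset.exists_min_image
          (fun p : Fin q × Fin q => p.2.val - p.1.val) hLf
        rw [List.mem_toFinset] at hp
        have hmin' : ∀ r ∈ L, p.2.val - p.1.val ≤ r.2.val - r.1.val :=
          fun r hr => hmin r (by simpa using hr)
        have hp12 := hL.1 p hp
        have hp1 := (hsub p hp).1
        have hp2 := (hsub p hp).2
        -- a label of `Γ` below another label of `Γ` occurs in `L`
        have hocc : ∀ x ∈ Γ, ∀ y ∈ Γ, x < y → ∃ r ∈ L, r.1 = x ∨ r.2 = x := by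
          intro x hx y hy hxy
          obtain ⟨Γ₁, T, rfl⟩ := List.append_of_mem hx
          rw [List.pairwise_append] at hΓ
          have hyT : y ∈ T := by
            rw [List.mem_append, List.mem_cons] at hy
            rcases hy with hy | hy | hy
            · have := hΓ.2.2 y hy x (by simp)
              exact absurd hxy (lt_asymm this)
            · exact absurd hxy (by rw [hy]; exact lt_irrefl _)
            · exact hy
          rcases T with _ | ⟨h, Γ₂⟩
          · simp at hyT
          · by_contra hcon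
            apply hsk
            refine ⟨Γ₁, x, h, Γ₂, rfl, fun r hr => ⟨fun he => hcon ⟨r, hr, Or.inl he⟩,
              fun he => hcon ⟨r, hr, Or.inr he⟩⟩⟩
        have hno : ∀ x ∈ Γ, p.1 < x → x < p.2 → False := by
          intro x hx h1 h2
          obtain ⟨r, hr, hrx⟩ := hocc x hx p.2 hp2 h2
          have hr12 := hL.1 r hr
          have hm := hmin' r hr
          rcases hrx with hrx | hrx
          · have h3 := hL.2 p hp r hr
            rw [hrx] at h3 hr12 hm
            have h4 : r.2 ≤ p.2 := by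
              by_contra hc
              exact h3 ⟨h1, h2, not_le.1 hc⟩
            rw [Fin.lt_def] at h1 h2 hr12
            rw [Fin.le_def] at h4
            omega
          · have h3 := hL.2 r hr p hp
            rw [hrx] at h3 hr12 hm
            have h4 : p.1 ≤ r.1 := by
              by_contra hc
              exact h3 ⟨not_le.1 hc, h1, h2⟩
            rw [Fin.lt_def] at h1 h2 hr12
            rw [Fin.le_def] at h4
            omega
        obtain ⟨L₀, hL₀⟩ : ∃ L₀, L.Perm (p :: L₀) := ⟨L.erase p, List.perm_cons_erase hp⟩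
        have hsub₀ : ∀ r ∈ L₀, r ∈ L := fun r hr => hL₀.mem_iff.2 (List.mem_cons_of_mem _ hr)
        have hlen : L.length = L₀.length + 1 := by rw [hL₀.length_eq, List.length_cons]
        obtain ⟨L', hp', hn'⟩ := ih (Γ.length + L₀.length) (by omega) Γ hΓ hne L₀
          ⟨fun r hr => hL.1 r (hsub₀ r hr), fun r hr s hs => hL.2 r (hsub₀ r hr) s (hsub₀ s hs)⟩
          (fun r hr => hsub r (hsub₀ r hr)) rfl
        refine ⟨p :: L', (hp'.cons p).trans hL₀.symm, ?_⟩
        obtain ⟨Γ₁, T, hT⟩ := List.append_of_mem hp1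
        rw [hT] at hn' hΓ hp2 hno ⊢
        rw [List.pairwise_append] at hΓ
        have hpT : p.2 ∈ T := by
          rw [List.mem_append, List.mem_cons] at hp2
          rcases hp2 with hy | hy | hy
          · have := hΓ.2.2 p.2 hy p.1 (by simp)
            exact absurd hp12 (lt_asymm this)
          · exact absurd hp12 (by rw [hy]; exact lt_irrefl _)
          · exact hy
        rcases T with _ | ⟨h, Γ₂⟩
        · simp at hpT
        · have h2 := hΓ.2.1
          rw [List.pairwise_cons, List.pairwise_cons] at h2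
          have hh : h = p.2 := by
            rw [List.mem_cons] at hpT
            rcases hpT with h3 | h3
            · exact h3.symm
            · exact (hno h (by simp) (h2.1 h (by simp)) (h2.2.1 _ h3)).elim
          subst hh
          exact NCi.arc Γ₁ Γ₂ p.1 p.2 L' hn'

end Pool.Agent.Helper43.LN
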