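import Mathlib
import Pool.Agent.Helper43.LN.Straight

/-!
# LN sharp version: noncrossing structures on stations

`NCs Γ P L`: the gap `g ∈ Γ` has `P g + 1` stations; the pairs of `L` are matched to stations, noncrossing, each
station in at most one pair; the last gap keeps an unpaired station at the end.

PROOF (complete) of `ncr_ncs`: induction on `Γ.length + L.length` (as `ncr_nci` in Straight.lean). `Γ = [g]`: `L = []`.
If some label `g` of `Γ` which is not the last one occurs in no pair of `L`: `skip`. Otherwise every label but the last one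
occurs in a pair, and as in `ncr_nci` (take a pair with the least number of labels strictly between)
there is a pair `(g, h) ∈ L` with `Γ = Γ₁ ++ g :: h :: Γ₂`; `L` is a permutation of `(g,h) :: L₀`,
`vl L = vl L₀ + e_g + e_h`. (Permutations: `∃ L'`.)
 - `1 ≤ P g`, `1 ≤ P h`: `arcA` with `P - e_g - e_h` (the hypotheses on `vl` are inherited, also for the last label).
 - `P g = 0`, `1 ≤ P h`: `vl L g ≤ 1`, so `g` is in no pair of `L₀`: `arcB` with `Γ₁ ++ h :: Γ₂`, `P - e_h`.
 - `P h = 0`: then `h` is not the last label (`vl L h ≥ 1`), so `Γ₂ = l :: Γ₂'`, and `h` is in no pair of `L₀`;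
   `1 ≤ P g`: `arcC` with `Γ₁ ++ g :: l :: Γ₂'`, `P - e_g`; `P g = 0`: `g` is in no pair of `L₀`, `arcD` with
   `Γ₁ ++ l :: Γ₂'`, `P`.
-/

set_option autoImplicit false

namespace Pool.Agent.Helper43.LN

/-- noncrossing structures on stations -/
inductive NCs {q : ℕ} : List (Fin q) → (Fin q → ℕ) → List (Fin q × Fin q) → Prop
  | single (g : Fin q) (P : Fin q → ℕ) : NCs [g] P []
  | skip (Γ₁ Γ₂ : List (Fin q)) (g h : Fin q) (P : Fin q → ℕ) (L : List (Fin q × Fin q))
      (hg : ∀ p ∈ L, p.1 ≠ g ∧ p.2 ≠ g) (hL : NCs (Γ₁ ++ h :: Γ₂) P L) :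
      NCs (Γ₁ ++ g :: h :: Γ₂) P L
  | arcA (Γ₁ Γ₂ : List (Fin q)) (g h : Fin q) (P : Fin q → ℕ) (L : List (Fin q × Fin q))
      (hL : NCs (Γ₁ ++ g :: h :: Γ₂) P L) :
      NCs (Γ₁ ++ g :: h :: Γ₂) (P + Pi.single g 1 + Pi.single h 1) ((g, h) :: L)
  | arcB (Γ₁ Γ₂ : List (Fin q)) (g h : Fin q) (P : Fin q → ℕ) (L : List (Fin q × Fin q))
      (hg : ∀ p ∈ L, p.1 ≠ g ∧ p.2 ≠ g) (hP : P g = 0) (hL : NCs (Γ₁ ++ h :: Γ₂) P L) :
      NCs (Γ₁ ++ g :: h :: Γ₂) (P + Pi.single h 1) ((g, h) :: L)
  | arcC (Γ₁ Γ₂ : List (Fin q)) (g h l : Fin q) (P : Fin q → ℕ) (L : List (Fin q × Fin q))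
      (hh : ∀ p ∈ L, p.1 ≠ h ∧ p.2 ≠ h) (hP : P h = 0) (hL : NCs (Γ₁ ++ g :: l :: Γ₂) P L) :
      NCs (Γ₁ ++ g :: h :: l :: Γ₂) (P + Pi.single g 1) ((g, h) :: L)
  | arcD (Γ₁ Γ₂ : List (Fin q)) (g h l : Fin q) (P : Fin q → ℕ) (L : List (Fin q × Fin q))
      (hg : ∀ p ∈ L, p.1 ≠ g ∧ p.2 ≠ g) (hh : ∀ p ∈ L, p.1 ≠ h ∧ p.2 ≠ h) (hPg : P g = 0)
      (hPh : P h = 0) (hL : NCs (Γ₁ ++ l :: Γ₂) P L) :
      NCs (Γ₁ ++ g :: h :: l :: Γ₂) P ((g, h) :: L)

private theorem vl_zero {q : ℕ} (L : List (Fin q × Fin q)) (g : Fin q) (h : vl L g = 0) :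
    ∀ p ∈ L, p.1 ≠ g ∧ p.2 ≠ g := by
  induction L with
  | nil => simp
  | cons a L ih =>
    intro p hp
    simp only [vl, Pi.add_apply] at h
    rcases List.mem_cons.1 hp with hp | hp
    · subst hp
      refine ⟨fun he => ?_, fun he => ?_⟩
      · rw [← he] at h
        simp at h
      · rw [← he] at h
        simp at h
    · exact ih (by omega) p hp

private theorem last_drop {q : ℕ} (Γ₁ Γ₂ : List (Fin q)) (g h : Fin q) :
    (Γ₁ ++ g :: h :: Γ₂).getLast? = (Γ₁ ++ h :: Γ₂).getLast? := by
  simp [List.getLast?_append, List.getLast?_cons_cons]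

private theorem pos_last {q : ℕ} (Γ₁ : List (Fin q)) (g h : Fin q) :
    (Γ₁ ++ g :: h :: []).getLast? = some h := by
  simp [List.getLast?_append, List.getLast?_cons_cons]

private theorem ncs_aux {q : ℕ} (n : ℕ) (Γ : List (Fin q)) (hΓ : Γ.Pairwise (· < ·)) (z : Fin q)
    (hz : Γ.getLast? = some z)
    (L : List (Fin q × Fin q)) (hL : NCr L) (hsub : ∀ p ∈ L, p.1 ∈ Γ ∧ p.2 ∈ Γ)
    (P : Fin q → ℕ) (hP : ∀ g ∈ Γ, vl L g ≤ P g + 1) (hlast : vl L z ≤ P z)
    (hn : Γ.length + L.length = n) :
    ∃ L' : List (Fin q × Fin q), L'.Perm L ∧ NCs Γ P L' := by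
  induction n using Nat.strong_induction_on generalizing Γ L P with
  | _ n ih =>
    by_cases hsk : ∃ Γ₁ g h Γ₂, Γ = Γ₁ ++ g :: h :: Γ₂ ∧ ∀ p ∈ L, p.1 ≠ g ∧ p.2 ≠ g
    · obtain ⟨Γ₁, g, h, Γ₂, rfl, hg⟩ := hsk
      have hs : List.Sublist (Γ₁ ++ h :: Γ₂) (Γ₁ ++ g :: h :: Γ₂) :=
        List.Sublist.append_left (List.sublist_cons_self _ _) _
      have hmem : ∀ x, x ∈ Γ₁ ++ g :: h :: Γ₂ → x ≠ g → x ∈ Γ₁ ++ h :: Γ₂ := by
        intro x hx hxg
        simp only [List.mem_append, List.mem_cons] at hx ⊢
        tauto
      have hlt : (Γ₁ ++ h :: Γ₂).length + L.length < n := by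
        rw [← hn]
        simp only [List.length_append, List.length_cons]
        omega
      obtain ⟨L', hp, hn'⟩ := ih _ hlt (Γ₁ ++ h :: Γ₂) (hΓ.sublist hs)
        (by rw [← last_drop Γ₁ Γ₂ g h]; exact hz) L hL
        (fun p hp => ⟨hmem _ (hsub p hp).1 (hg p hp).1, hmem _ (hsub p hp).2 (hg p hp).2⟩) P
        (fun x hx => hP x (hs.subset hx)) hlast rfl
      exact ⟨L', hp, NCs.skip _ _ _ _ _ _ (fun p hp' => hg p (hp.mem_iff.1 hp')) hn'⟩
    · by_cases hLe : L = []
      · subst hLe
        rcases Γ with _ | ⟨g, _ | ⟨h, Γ₂⟩⟩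
        · simp at hz
        · exact ⟨[], List.Perm.refl _, NCs.single g P⟩
        · exact absurd ⟨[], g, h, Γ₂, rfl, by simp⟩ hsk
      · have hLf : L.toFinset.Nonempty := by
          obtain ⟨p, hp⟩ := List.exists_mem_of_ne_nil L hLe
          exact ⟨p, by simpa using hp⟩
        obtain ⟨p, hp, hmin⟩ := L.toFinset.exists_min_image
          (fun p : Fin q × Fin q => p.2.val - p.1.val) hLf
        rw [List.mem_toFinset] at hp
        have hmin' : ∀ r ∈ L, p.2.val - p.1.val ≤ r.2.val - r.1.val :=
          fun r hr => hmin r (by simpa using hr)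
        have hp12 := hL.1 p hp
        have hp1 := (hsub p hp).1
        have hp2 := (hsub p hp).2
        have hocc : ∀ x ∈ Γ, ∀ y ∈ Γ, x < y → ∃ r ∈ L, r.1 = x ∨ r.2 = x := by
          intro x hx y hy hxy
          obtain ⟨Γ₁, T, rfl⟩ := List.append_of_mem hx
          rw [List.pairwise_append] at hΓ
          have hyT : y ∈ T := by
            rw [List.mem_append, List.mem_cons] at hy
            rcases hy with hy | hy | hy
            · have := hΓ.2.2 y hy x (by simp)
              exact absurd hxy (lt_asymm this)
            · exact absurd hxy (by rw [hy]; exact lt_irrefl _)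
            · exact hy
          rcases T with _ | ⟨h, Γ₂⟩
          · simp at hyT
          · by_contra hcon
            apply hsk
            refine ⟨Γ₁, x, h, Γ₂, rfl, fun r hr => ⟨fun he => hcon ⟨r, hr, Or.inl he⟩,
              fun he => hcon ⟨r, hr, Or.inr he⟩⟩⟩
        have hno : ∀ x ∈ Γ, p.1 < x → x < p.2 → False := by
          intro x hx h1 h2
          obtain ⟨r, hr, hrx⟩ := hocc x hx p.2 hp2 h2
          have hr12 := hL.1 r hr
          have hm := hmin' r hr
          rcases hrx with hrx | hrx
          · have h3 := hL.2 p hp r hr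
            rw [hrx] at h3 hr12 hm
            have h4 : r.2 ≤ p.2 := by
              by_contra hc
              exact h3 ⟨h1, h2, not_le.1 hc⟩
            rw [Fin.lt_def] at h1 h2 hr12
            rw [Fin.le_def] at h4
            omega
          · have h3 := hL.2 r hr p hp
            rw [hrx] at h3 hr12 hm
            have h4 : p.1 ≤ r.1 := by
              by_contra hc
              exact h3 ⟨not_le.1 hc, h1, h2⟩
            rw [Fin.lt_def] at h1 h2 hr12
            rw [Fin.le_def] at h4
            omega
        obtain ⟨L₀, hL₀⟩ : ∃ L₀, L.Perm (p :: L₀) := ⟨L.erase p, List.perm_cons_erase hp⟩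
        have hsub₀ : ∀ r ∈ L₀, r ∈ L := fun r hr => hL₀.mem_iff.2 (List.mem_cons_of_mem _ hr)
        have hlen : L.length = L₀.length + 1 := by rw [hL₀.length_eq, List.length_cons]
        have hvl : ∀ x, vl L x = vl L₀ x + (Pi.single p.1 1 : Fin q → ℕ) x +
            (Pi.single p.2 1 : Fin q → ℕ) x := by
          intro x
          rw [vl_perm hL₀, vl]
          rfl
        have hN₀ : NCr L₀ :=
          ⟨fun r hr => hL.1 r (hsub₀ r hr), fun r hr s hs => hL.2 r (hsub₀ r hr) s (hsub₀ s hs)⟩
        obtain ⟨Γ₁, Γ₂, hG⟩ : ∃ Γ₁ Γ₂, Γ = Γ₁ ++ p.1 :: p.2 :: Γ₂ := by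
          obtain ⟨Γ₁, T, hT⟩ := List.append_of_mem hp1
          rw [hT] at hΓ hp2 hno
          rw [List.pairwise_append] at hΓ
          have hpT : p.2 ∈ T := by
            rw [List.mem_append, List.mem_cons] at hp2
            rcases hp2 with hy | hy | hy
            · have := hΓ.2.2 p.2 hy p.1 (by simp)
              exact absurd hp12 (lt_asymm this)
            · exact absurd hp12 (by rw [hy]; exact lt_irrefl _)
            · exact hy
          rcases T with _ | ⟨h, Γ₂⟩
          · simp at hpT
          · have h2 := hΓ.2.1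
            rw [List.pairwise_cons, List.pairwise_cons] at h2
            have hh : h = p.2 := by
              rw [List.mem_cons] at hpT
              rcases hpT with h3 | h3
              · exact h3.symm
              · exact (hno h (by simp) (h2.1 h (by simp)) (h2.2.1 _ h3)).elim
            exact ⟨Γ₁, Γ₂, by rw [hT, hh]⟩
        obtain ⟨g, h⟩ := p
        simp only at hp12 hp1 hp2 hvl hG
        clear hno hocc hmin' hmin hLf hsk hLe
        have hgh : g ≠ h := ne_of_lt hp12
        have hvg : vl L g = vl L₀ g + 1 := by
          rw [hvl, Pi.single_eq_same, Pi.single_eq_of_ne hgh, add_zero]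
        have hvh : vl L h = vl L₀ h + 1 := by
          rw [hvl, Pi.single_eq_same, Pi.single_eq_of_ne hgh.symm, add_zero]
        have hvo : ∀ x, x ≠ g → x ≠ h → vl L x = vl L₀ x := by
          intro x h1 h2
          rw [hvl, Pi.single_eq_of_ne h1, Pi.single_eq_of_ne h2, add_zero, add_zero]
        have hvle : ∀ x, vl L₀ x ≤ vl L x := by
          intro x
          rw [hvl]
          omega
        have hPg' := hP g hp1
        have hPh' := hP h hp2
        subst hG
        -- the lists without `g`, without `h`, without both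
        have s1 : List.Sublist (Γ₁ ++ h :: Γ₂) (Γ₁ ++ g :: h :: Γ₂) :=
          List.Sublist.append_left (List.sublist_cons_self _ _) _
        have m1 : ∀ x, x ∈ Γ₁ ++ g :: h :: Γ₂ → x ≠ g → x ∈ Γ₁ ++ h :: Γ₂ := by
          intro x hx hxg
          simp only [List.mem_append, List.mem_cons] at hx ⊢
          tauto
        rcases Nat.eq_zero_or_pos (P h) with hPh | hPh
        · -- `P h = 0`
          have hv0 : vl L₀ h = 0 := by omega
          have hh0 := vl_zero L₀ h hv0
          have hzh : z ≠ h := by
            intro he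
            rw [he] at hlast
            omega
          rcases Γ₂ with _ | ⟨l, Γ₂⟩
          · rw [pos_last] at hz
            exact absurd (Option.some.inj hz).symm hzh
          · have hz2 : (Γ₁ ++ g :: l :: Γ₂).getLast? = some z := by
              rw [last_drop, last_drop] at hz
              rw [last_drop]
              exact hz
            have hz3 : (Γ₁ ++ l :: Γ₂).getLast? = some z := by
              rw [last_drop] at hz2
              exact hz2
            have s2 : List.Sublist (Γ₁ ++ g :: l :: Γ₂) (Γ₁ ++ g :: h :: l :: Γ₂) :=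
              List.Sublist.append_left ((List.sublist_cons_self _ _).cons_cons _) _
            have s3 : List.Sublist (Γ₁ ++ l :: Γ₂) (Γ₁ ++ g :: l :: Γ₂) :=
              List.Sublist.append_left (List.sublist_cons_self _ _) _
            have m2 : ∀ x, x ∈ Γ₁ ++ g :: h :: l :: Γ₂ → x ≠ h → x ∈ Γ₁ ++ g :: l :: Γ₂ := by
              intro x hx hxg
              simp only [List.mem_append, List.mem_cons] at hx ⊢
              tauto
            have m3 : ∀ x, x ∈ Γ₁ ++ g :: h :: l :: Γ₂ → x ≠ g → x ≠ h → x ∈ Γ₁ ++ l :: Γ₂ := by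
              intro x hx hxg hxh
              simp only [List.mem_append, List.mem_cons] at hx ⊢
              tauto
            rcases Nat.eq_zero_or_pos (P g) with hPg | hPg
            · have hg0 := vl_zero L₀ g (by omega)
              obtain ⟨L', hp', hn'⟩ := ih _ (by
                rw [← hn, hlen]
                simp only [List.length_append, List.length_cons]
                omega) (Γ₁ ++ l :: Γ₂) ((hΓ.sublist s2).sublist s3) hz3 L₀ hN₀
                (fun r hr => ⟨m3 _ (hsub r (hsub₀ r hr)).1 (hg0 r hr).1 (hh0 r hr).1,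
                  m3 _ (hsub r (hsub₀ r hr)).2 (hg0 r hr).2 (hh0 r hr).2⟩) P
                (fun x hx => (hvle x).trans (hP x ((s3.trans s2).subset hx)))
                ((hvle z).trans hlast) rfl
              exact ⟨(g, h) :: L', (hp'.cons _).trans hL₀.symm,
                NCs.arcD Γ₁ Γ₂ g h l P L' (fun r hr => hg0 r (hp'.mem_iff.1 hr))
                  (fun r hr => hh0 r (hp'.mem_iff.1 hr)) hPg hPh hn'⟩
            · have hQ : P = (P - Pi.single g 1) + Pi.single g 1 := by
                funext x
                by_cases hx : x = g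
                · subst hx
                  simp only [Pi.add_apply, Pi.sub_apply, Pi.single_eq_same]
                  omega
                · simp [Pi.single_eq_of_ne hx]
              obtain ⟨Q, hQd⟩ : ∃ Q, Q = P - Pi.single g 1 := ⟨_, rfl⟩
              rw [← hQd] at hQ
              have q1 : P g = Q g + 1 := by rw [hQ]; simp
              have q2 : ∀ x, x ≠ g → P x = Q x := by
                intro x hx
                rw [hQ]
                simp [Pi.single_eq_of_ne hx]
              obtain ⟨L', hp', hn'⟩ := ih _ (by
                rw [← hn, hlen]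
                simp only [List.length_append, List.length_cons]
                omega) (Γ₁ ++ g :: l :: Γ₂) (hΓ.sublist s2) hz2 L₀ hN₀
                (fun r hr => ⟨m2 _ (hsub r (hsub₀ r hr)).1 (hh0 r hr).1,
                  m2 _ (hsub r (hsub₀ r hr)).2 (hh0 r hr).2⟩) Q
                (by
                  intro x hx
                  by_cases hxg : x = g
                  · rw [hxg]
                    omega
                  · rw [← q2 x hxg]
                    exact (hvle x).trans (hP x (s2.subset hx)))
                (by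
                  by_cases hxg : z = g
                  · rw [hxg] at hlast ⊢
                    omega
                  · rw [← q2 z hxg]
                    exact (hvle z).trans hlast) rfl
              refine ⟨(g, h) :: L', (hp'.cons _).trans hL₀.symm, ?_⟩
              rw [hQ]
              exact NCs.arcC Γ₁ Γ₂ g h l Q L' (fun r hr => hh0 r (hp'.mem_iff.1 hr))
                (by rw [← q2 h hgh.symm]; exact hPh) hn'
        · -- `1 ≤ P h`
          rcases Nat.eq_zero_or_pos (P g) with hPg | hPg
          · have hg0 := vl_zero L₀ g (by omega)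
            have hQ : P = (P - Pi.single h 1) + Pi.single h 1 := by
              funext x
              by_cases hx : x = h
              · subst hx
                simp only [Pi.add_apply, Pi.sub_apply, Pi.single_eq_same]
                omega
              · simp [Pi.single_eq_of_ne hx]
            obtain ⟨Q, hQd⟩ : ∃ Q, Q = P - Pi.single h 1 := ⟨_, rfl⟩
            rw [← hQd] at hQ
            have q1 : P h = Q h + 1 := by rw [hQ]; simp
            have q2 : ∀ x, x ≠ h → P x = Q x := by
              intro x hx
              rw [hQ]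
              simp [Pi.single_eq_of_ne hx]
            obtain ⟨L', hp', hn'⟩ := ih _ (by
              rw [← hn, hlen]
              simp only [List.length_append, List.length_cons]
              omega) (Γ₁ ++ h :: Γ₂) (hΓ.sublist s1)
              (by rw [← last_drop Γ₁ Γ₂ g h]; exact hz) L₀ hN₀
              (fun r hr => ⟨m1 _ (hsub r (hsub₀ r hr)).1 (hg0 r hr).1,
                m1 _ (hsub r (hsub₀ r hr)).2 (hg0 r hr).2⟩) Q
              (by
                intro x hx
                by_cases hxg : x = h
                · rw [hxg]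
                  omega
                · rw [← q2 x hxg]
                  exact (hvle x).trans (hP x (s1.subset hx)))
              (by
                by_cases hxg : z = h
                · rw [hxg] at hlast ⊢
                  omega
                · rw [← q2 z hxg]
                  exact (hvle z).trans hlast) rfl
            refine ⟨(g, h) :: L', (hp'.cons _).trans hL₀.symm, ?_⟩
            rw [hQ]
            exact NCs.arcB Γ₁ Γ₂ g h Q L' (fun r hr => hg0 r (hp'.mem_iff.1 hr))
              (by rw [← q2 g hgh]; exact hPg) hn'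
          · have hQ : P = (P - Pi.single g 1 - Pi.single h 1) + Pi.single g 1 + Pi.single h 1 := by
              funext x
              by_cases hx : x = h
              · subst hx
                simp only [Pi.add_apply, Pi.sub_apply, Pi.single_eq_same,
                  Pi.single_eq_of_ne hgh.symm]
                omega
              · by_cases hx' : x = g
                · subst hx'
                  simp only [Pi.add_apply, Pi.sub_apply, Pi.single_eq_same, Pi.single_eq_of_ne hx]
                  omega
                · simp [Pi.single_eq_of_ne hx, Pi.single_eq_of_ne hx']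
            obtain ⟨Q, hQd⟩ : ∃ Q, Q = P - Pi.single g 1 - Pi.single h 1 := ⟨_, rfl⟩
            rw [← hQd] at hQ
            have q1 : P h = Q h + 1 := by
              rw [hQ]
              simp [Pi.single_eq_of_ne hgh.symm]
            have q0 : P g = Q g + 1 := by
              rw [hQ]
              simp [Pi.single_eq_of_ne hgh]
            have q2 : ∀ x, x ≠ g → x ≠ h → P x = Q x := by
              intro x hx hx'
              rw [hQ]
              simp [Pi.single_eq_of_ne hx, Pi.single_eq_of_ne hx']
            obtain ⟨L', hp', hn'⟩ := ih _ (by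
              rw [← hn, hlen]
              omega) (Γ₁ ++ g :: h :: Γ₂) hΓ hz L₀ hN₀
              (fun r hr => hsub r (hsub₀ r hr)) Q
              (by
                intro x hx
                by_cases hxg : x = h
                · rw [hxg]
                  omega
                · by_cases hxg' : x = g
                  · rw [hxg']
                    omega
                  · rw [← q2 x hxg' hxg]
                    exact (hvle x).trans (hP x hx))
              (by
                by_cases hxg : z = h
                · rw [hxg] at hlast ⊢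
                  omega
                · by_cases hxg' : z = g
                  · rw [hxg'] at hlast ⊢
                    omega
                  · rw [← q2 z hxg' hxg]
                    exact (hvle z).trans hlast) rfl
            refine ⟨(g, h) :: L', (hp'.cons _).trans hL₀.symm, ?_⟩
            rw [hQ]
            exact NCs.arcA Γ₁ Γ₂ g h Q L' hn'

theorem ncr_ncs {q : ℕ} (Γ : List (Fin q)) (hΓ : Γ.Pairwise (· < ·)) (hne : Γ ≠ [])
    (L : List (Fin q × Fin q)) (hL : NCr L) (hsub : ∀ p ∈ L, p.1 ∈ Γ ∧ p.2 ∈ Γ)
    (P : Fin q → ℕ) (hP : ∀ g ∈ Γ, vl L g ≤ P g + 1)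
    (hlast : vl L (Γ.getLast hne) ≤ P (Γ.getLast hne)) :
    ∃ L' : List (Fin q × Fin q), L'.Perm L ∧ NCs Γ P L' := by
  exact ncs_aux _ Γ hΓ (Γ.getLast hne) (List.getLast?_eq_getLast_of_ne_nil hne) L hL hsub P hP hlast rfl

end Pool.Agent.Helper43.LN
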