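import Mathlib
import Pool.Agent.Helper43.LN.NCs
import Pool.Agent.Helper43.LN.EvalC

/-!
# LN sharp version: evaluation on noncrossing station structures

As `evalC` in EvalC.lean (same notation `Z`, `rest`, `cZ`), but now `P g + 1` is the number of ALL stations of the gap `g`
(paired or not), all gaps but the last one are odd (`ε g = 1`).

PROOF of `arc_peel_gen`: as `arc_peel` in Gadget.lean (`RVL_peel` with `β = Bool` and `arc_gadget`, then `RVL_smul`).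
PROOF of `evalS` (complete): induction on `NCs Γ P L`, for all `Z, rest, n`. Claim: `Del (cZ f x ε Z) L P = 0`.
 `single g`: as in `evalC` (`last_peel`).
 `skip`: as in `evalC`: `r.length = 2 P g + 1`, `gap_peel`, `Z' = Z₁ ++ (h, k * x^r.length * k', l ++ r ++ l') :: Z₂`, and
   `Del_congr_at` (only `a` with `a g = P g` matter).
 `arcA`: `P = P₀ + e_g + e_h`, `L = (g,h) :: L₀`: `arc_peel` (entry and exit letters `x`), `Z' =` replace the entry of `h` by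
   `(h, x^2*k'*x^4 - x^4*k'*x^2, [s₁,s₂]++l'++[s₃,..,s₆])`; `c_{Z'}(a) = c_Z(a + e_g + 2e_h) - c_Z(a + 2e_g + e_h)`, so
   `0 = Del c_{Z'} L₀ P₀ = - Del c_Z ((g,h)::L₀) (P₀ + e_g + e_h)`.
 `arcB`: `P = P₀ + e_h`, `P₀ g = 0` : `arc_peel_gen` with the entry letter `k_g ⊗ xi l_g` (the gap `g` disappears) and the exit
   letter `x ⊗ ξ s₅`: `Z' = Z₁ ++ (h, k_g*(x*k'*x^3 - x^3*k'*x)*x, l_g ++ [s₁] ++ l' ++ [s₂,s₃,s₄,s₅]) :: Z₂`; for `a g = 0`:
   `c_{Z'}(a) = c_Z(a + 2e_h) - c_Z(a + e_g + e_h)`; so `0 = Del c_{Z'} L₀ P₀ = - Del c_Z ((g,h)::L₀) (P₀ + e_h)`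
   (`Del_congr_at` for the label `g`, value `0`, then `Del_sub`, `Del_shift`).
 `arcC`: `P = P₀ + e_g`, `P₀ h = 0`: entry letter `x ⊗ ξ s₁`, exit letter `k_l ⊗ xi l_l` (the gap `h` disappears):
   `Z' = Z₁ ++ (g, …) :: (l, x*(x*k'*x^3 - x^3*k'*x)*k_l, [s₁,s₂] ++ l' ++ [s₃,s₄,s₅] ++ l_l) :: Z₂`; for `a h = 0`:
   `c_{Z'}(a) = c_Z(a + e_g + e_h) - c_Z(a + 2e_g)`.
 `arcD`: `P₀ g = P₀ h = 0`: entry letter `k_g ⊗ xi l_g`, exit letter `k_l ⊗ xi l_l`, both gaps disappear: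
   `Z' = Z₁ ++ (l, k_g*(x*k'*x^3 - x^3*k'*x)*k_l, l_g ++ [s₁] ++ l' ++ [s₂,s₃,s₄] ++ l_l) :: Z₂`; for `a g = a h = 0`:
   `c_{Z'}(a) = c_Z(a + e_h) - c_Z(a + e_g)`.
 The number of letters: `rest.length = ∑_{g ∈ Γ} (2 P g + ε g) + 2 L.length`, `n = ∑_{g ∈ Γ} (P g + 1)`; `arcA` uses 6 letters,
 `arcB`, `arcC` 5, `arcD` 4, all of them 2 vertices (`ε g = 1` for all labels but the last one).
-/

set_option autoImplicit false

namespace Pool.Agent.Helper43.LN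

open scoped TensorProduct

variable {A Λ : Type*} [Ring A] [Algebra ℚ A] [Ring Λ] [Algebra ℚ Λ] {S : Type*}

theorem arc_peel_gen (ξ : S → Λ) (hξ : ∀ s t, ξ s * ξ t = - (ξ t * ξ s)) (x k : A) (l : List S)
    (C D : A ⊗[ℚ] Λ) (s₁ s₂ s₃ s₄ : S) (τ : A ⊗[ℚ] Λ →ₗ[ℚ] ℚ) (m : ℕ) (us : List (A ⊗[ℚ] Λ))
    (h : RVL (fun z => τ z) (m + 2) (C :: D :: k ⊗ₜ[ℚ] xi ξ l ::
      ([s₁, s₂, s₃, s₄].map (fun s => x ⊗ₜ[ℚ] ξ s) ++ us))) :
    RVL (fun z => τ z) m (C * ((x * k * x ^ 3 - x ^ 3 * k * x) ⊗ₜ[ℚ]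
      xi ξ ([s₁] ++ l ++ [s₂, s₃, s₄])) * D :: us) := by
  have h1 := RVL_peel (τ := fun z => τ z) (m := m) (β := Bool)
    [(false, false, x ⊗ₜ[ℚ] ξ s₁), (false, true, k ⊗ₜ[ℚ] xi ξ l),
      (true, true, x ⊗ₜ[ℚ] ξ s₂), (true, false, x ⊗ₜ[ℚ] ξ s₃), (false, true, x ⊗ₜ[ℚ] ξ s₄)]
    false true C D us (by
      rw [Fintype.card_bool, add_comm]
      refine RVL_perm ?_ h
      simp only [List.map_cons, List.map_nil, List.cons_append, List.nil_append]
      refine List.Perm.cons _ (List.Perm.cons _ ?_)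
      exact List.Perm.swap _ _ _)
  have h2 : C * walkL 5 [(false, false, x ⊗ₜ[ℚ] ξ s₁), (false, true, k ⊗ₜ[ℚ] xi ξ l),
      (true, true, x ⊗ₜ[ℚ] ξ s₂), (true, false, x ⊗ₜ[ℚ] ξ s₃), (false, true, x ⊗ₜ[ℚ] ξ s₄)]
      false true * D = (2 : ℚ) • (C * ((x * k * x ^ 3 - x ^ 3 * k * x) ⊗ₜ[ℚ]
      xi ξ ([s₁] ++ l ++ [s₂, s₃, s₄])) * D) := by
    rw [arc_gadget ξ hξ, mul_smul_comm, smul_mul_assoc]
    rfl
  have h3 : RVL (fun z => τ z) m ((2 : ℚ) • (C * ((x * k * x ^ 3 - x ^ 3 * k * x) ⊗ₜ[ℚ]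
      xi ξ ([s₁] ++ l ++ [s₂, s₃, s₄])) * D) :: us) := by
    rw [← h2]
    exact h1
  exact RVL_smul (τ := τ) two_ne_zero h3

/-- the composite letter with entry and exit letters of the form `c ⊗ xi l` -/
private theorem peel2_EvS (ξ : S → Λ) (hξ : ∀ s t, ξ s * ξ t = - (ξ t * ξ s)) (x c₀ d₀ k : A)
    (lc ld l : List S) (s₁ s₂ s₃ s₄ : S) (τ : A ⊗[ℚ] Λ →ₗ[ℚ] ℚ) (m : ℕ) (us : List (A ⊗[ℚ] Λ))
    (h : RVL (fun z => τ z) (m + 2) (c₀ ⊗ₜ[ℚ] xi ξ lc :: d₀ ⊗ₜ[ℚ] xi ξ ld :: k ⊗ₜ[ℚ] xi ξ l ::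
      ([s₁, s₂, s₃, s₄].map (fun s => x ⊗ₜ[ℚ] ξ s) ++ us))) :
    RVL (fun z => τ z) m ((c₀ * (x * k * x ^ 3 - x ^ 3 * k * x) * d₀) ⊗ₜ[ℚ]
      xi ξ (lc ++ ([s₁] ++ l ++ [s₂, s₃, s₄]) ++ ld) :: us) := by
  have h1 := arc_peel_gen ξ hξ x k l _ _ s₁ s₂ s₃ s₄ τ m us h
  rw [Algebra.TensorProduct.tmul_mul_tmul, Algebra.TensorProduct.tmul_mul_tmul] at h1
  have h2 : ∀ a b : List S, xi ξ (a ++ b) = xi ξ a * xi ξ b := by
    intro a b
    simp [xi]
  rw [h2 (lc ++ _) ld, h2 lc]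
  exact h1

private theorem xi_one_EvS (ξ : S → Λ) (s : S) : xi ξ [s] = ξ s := by
  simp [xi]

private theorem Del_congr_on_EvS {q : ℕ} {R : Type*} [AddCommGroup R] (c c' : (Fin q → ℕ) → R)
    (G : Fin q → Prop) (L : List (Fin q × Fin q)) (hg : ∀ p ∈ L, ¬ G p.1 ∧ ¬ G p.2)
    (P : Fin q → ℕ) (h : ∀ a : Fin q → ℕ, (∀ g, G g → a g = P g) → c a = c' a)
    (a : Fin q → ℕ) (ha : ∀ g, G g → a g = P g) : Del c L a = Del c' L a := by
  induction L generalizing a with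
  | nil => exact h a ha
  | cons p L ih =>
    have hp := hg p List.mem_cons_self
    have hL : ∀ r ∈ L, ¬ G r.1 ∧ ¬ G r.2 := fun r hr => hg r (List.mem_cons_of_mem _ hr)
    rw [Del, Del, ih hL (a + Pi.single p.1 1) (by
        intro g hg'
        have hne : g ≠ p.1 := fun hc => hp.1 (hc ▸ hg')
        rw [Pi.add_apply, Pi.single_eq_of_ne hne, ha g hg', add_zero]),
      ih hL (a + Pi.single p.2 1) (by
        intro g hg'
        have hne : g ≠ p.2 := fun hc => hp.2 (hc ▸ hg')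
        rw [Pi.add_apply, Pi.single_eq_of_ne hne, ha g hg', add_zero])]

private theorem Del_arc_EvS {q : ℕ} (c c' : (Fin q → ℕ) → ℚ) (G : Fin q → Prop)
    (P u : Fin q → ℕ) (g h : Fin q) (L : List (Fin q × Fin q)) (hG : ∀ p ∈ L, ¬ G p.1 ∧ ¬ G p.2)
    (hc : ∀ a : Fin q → ℕ, (∀ i, G i → a i = P i) →
      c' a = c (a + (u + Pi.single h 1)) - c (a + (u + Pi.single g 1)))
    (h0 : Del c' L P = 0) : Del c ((g, h) :: L) (P + u) = 0 := by
  rw [Del_congr_on_EvS c' (fun a => c (a + (u + Pi.single h 1)) - c (a + (u + Pi.single g 1))) G L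
    hG P hc P (fun _ _ => rfl), Del_sub, Del_shift c (u + Pi.single h 1),
    Del_shift c (u + Pi.single g 1)] at h0
  show Del c L (P + u + Pi.single g 1) - Del c L (P + u + Pi.single h 1) = 0
  rw [add_assoc P u, add_assoc P u, sub_eq_zero]
  exact (sub_eq_zero.1 h0).symm

private theorem cZ_add_EvS {q : ℕ} (f : A → ℚ) (x : A) (ε : Fin q → ℕ)
    (Z₁ Z₄ : List (Fin q × A × List S)) (g h : Fin q) (k k' : A) (l l' : List S)
    (a v : Fin q → ℕ) (hv1 : ∀ z ∈ Z₁, v z.1 = 0) (hv4 : ∀ z ∈ Z₄, v z.1 = 0) (m n : ℕ)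
    (hm : v g = m) (hn : v h = n) :
    cZ f x ε (Z₁ ++ (g, k, l) :: (h, k', l') :: Z₄) (a + v) =
      f ((Z₁.map fun z => z.2.1 * x ^ (2 * a z.1 + ε z.1)).prod *
        ((k * x ^ (2 * (a g + m) + ε g)) * ((k' * x ^ (2 * (a h + n) + ε h)) *
          (Z₄.map fun z => z.2.1 * x ^ (2 * a z.1 + ε z.1)).prod))) := by
  have e0 : ∀ W : List (Fin q × A × List S), (∀ z ∈ W, v z.1 = 0) →
      (W.map fun z => z.2.1 * x ^ (2 * (a + v) z.1 + ε z.1)) =
        W.map fun z => z.2.1 * x ^ (2 * a z.1 + ε z.1) := by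
    intro W hW
    refine List.map_congr_left fun z hz => ?_
    rw [Pi.add_apply, hW z hz, add_zero]
  unfold cZ
  rw [List.map_append, List.map_cons, List.map_cons, e0 _ hv1, e0 _ hv4]
  simp only [List.prod_append, List.prod_cons, Pi.add_apply, hm, hn]

private theorem nd_EvS {q : ℕ} (Γ₁ Γ₂ : List (Fin q)) (g h : Fin q)
    (hΓ : (Γ₁ ++ g :: h :: Γ₂).Nodup) (Z₁ Z₄ : List (Fin q × A × List S))
    (h1 : Z₁.map (fun z => z.1) = Γ₁) (h2 : Z₄.map (fun z => z.1) = Γ₂) :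
    g ≠ h ∧ (∀ z ∈ Z₁, z.1 ≠ g ∧ z.1 ≠ h) ∧ ∀ z ∈ Z₄, z.1 ≠ g ∧ z.1 ≠ h := by
  rw [List.nodup_append] at hΓ
  obtain ⟨-, h3, h4⟩ := hΓ
  rw [List.nodup_cons, List.nodup_cons, List.mem_cons, not_or] at h3
  refine ⟨h3.1.1, fun z hz => ?_, fun z hz => ?_⟩
  · have hm : z.1 ∈ Γ₁ := by
      rw [← h1]
      exact List.mem_map_of_mem hz
    exact ⟨h4 _ hm _ List.mem_cons_self, h4 _ hm _ (List.mem_cons_of_mem _ List.mem_cons_self)⟩
  · have hm : z.1 ∈ Γ₂ := by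
      rw [← h2]
      exact List.mem_map_of_mem hz
    refine ⟨fun hc => h3.1.2 (hc ▸ hm), fun hc => h3.2.1 (hc ▸ hm)⟩

private theorem dl_EvS {q : ℕ} {ε : Fin q → ℕ} (Γ₁ Γ₂ : List (Fin q)) (g h : Fin q)
    (hε1 : ∀ i ∈ (Γ₁ ++ g :: h :: Γ₂).dropLast, ε i = 1) :
    ε g = 1 ∧ ∀ i ∈ (Γ₁ ++ h :: Γ₂).dropLast, ε i = 1 := by
  rw [List.dropLast_append_of_ne_nil (List.cons_ne_nil _ _), List.dropLast_cons_cons] at hε1
  rw [List.dropLast_append_of_ne_nil (List.cons_ne_nil _ _)]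
  refine ⟨hε1 g (List.mem_append_right _ List.mem_cons_self), fun i hi => hε1 i ?_⟩
  rcases List.mem_append.1 hi with hi | hi
  · exact List.mem_append_left _ hi
  · exact List.mem_append_right _ (List.mem_cons_of_mem _ hi)

private theorem nd2_EvS {q : ℕ} (Γ₁ Γ₂ : List (Fin q)) (g h : Fin q)
    (hΓ : (Γ₁ ++ g :: h :: Γ₂).Nodup) : (∀ i ∈ Γ₁, i ≠ g ∧ i ≠ h) ∧ ∀ i ∈ Γ₂, i ≠ g ∧ i ≠ h := by
  rw [List.nodup_append] at hΓ
  obtain ⟨-, h3, h4⟩ := hΓ
  rw [List.nodup_cons, List.nodup_cons, List.mem_cons, not_or] at h3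
  refine ⟨fun i hi => ⟨h4 _ hi _ List.mem_cons_self,
    h4 _ hi _ (List.mem_cons_of_mem _ List.mem_cons_self)⟩, fun i hi =>
    ⟨fun hc => h3.1.2 (hc ▸ hi), fun hc => h3.2.1 (hc ▸ hi)⟩⟩

private theorem cnt_EvS {q : ℕ} (Γ₁ Γ₂ : List (Fin q)) (g h : Fin q)
    (hΓ : (Γ₁ ++ g :: h :: Γ₂).Nodup) (P u : Fin q → ℕ) (hu : ∀ i, i ≠ g → i ≠ h → u i = 0)
    (m n : ℕ) (hm : u g = m) (hn : u h = n) (b : ℕ) (ε : Fin q → ℕ) :
    (List.map (fun i => b * (P + u) i + ε i) (Γ₁ ++ g :: h :: Γ₂)).sum =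
      (Γ₁.map fun i => b * P i + ε i).sum + ((b * (P g + m) + ε g) + ((b * (P h + n) + ε h) +
        (Γ₂.map fun i => b * P i + ε i).sum)) := by
  obtain ⟨h1, h2⟩ := nd2_EvS Γ₁ Γ₂ g h hΓ
  have e : ∀ W : List (Fin q), (∀ i ∈ W, i ≠ g ∧ i ≠ h) →
      W.map (fun i => b * (P + u) i + ε i) = W.map fun i => b * P i + ε i := by
    intro W hW
    refine List.map_congr_left fun i hi => ?_
    rw [Pi.add_apply, hu i (hW i hi).1 (hW i hi).2, add_zero]
  rw [List.map_append, List.map_cons, List.map_cons, List.sum_append, List.sum_cons, List.sum_cons,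
    e Γ₁ h1, e Γ₂ h2, Pi.add_apply, Pi.add_apply, hm, hn]

private theorem fin_EvS {q : ℕ} (f : A →ₗ[ℚ] ℚ) (x : A) (ε : Fin q → ℕ)
    (Z₁ Z₄ Z' : List (Fin q × A × List S)) (g h : Fin q) (k k' : A) (l l' : List S)
    (Γ₁ Γ₂ : List (Fin q)) (hΓ : (Γ₁ ++ g :: h :: Γ₂).Nodup)
    (h1 : Z₁.map (fun z => z.1) = Γ₁) (h2 : Z₄.map (fun z => z.1) = Γ₂)
    (G : Fin q → Prop) (P u : Fin q → ℕ) (L : List (Fin q × Fin q))
    (hG : ∀ p ∈ L, ¬ G p.1 ∧ ¬ G p.2) (hu : ∀ i, i ≠ g → i ≠ h → u i = 0)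
    (m n : ℕ) (hm : u g = m) (hn : u h = n)
    (hc : ∀ a : Fin q → ℕ, (∀ i, G i → a i = P i) →
      (Z'.map fun z => z.2.1 * x ^ (2 * a z.1 + ε z.1)).prod =
      (Z₁.map fun z => z.2.1 * x ^ (2 * a z.1 + ε z.1)).prod *
        ((k * x ^ (2 * (a g + m) + ε g)) * ((k' * x ^ (2 * (a h + (n + 1)) + ε h)) *
          (Z₄.map fun z => z.2.1 * x ^ (2 * a z.1 + ε z.1)).prod)) -
      (Z₁.map fun z => z.2.1 * x ^ (2 * a z.1 + ε z.1)).prod *
        ((k * x ^ (2 * (a g + (m + 1)) + ε g)) * ((k' * x ^ (2 * (a h + n) + ε h)) *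
          (Z₄.map fun z => z.2.1 * x ^ (2 * a z.1 + ε z.1)).prod)))
    (h0 : Del (cZ (fun y => f y) x ε Z') L P = 0) :
    Del (cZ (fun y => f y) x ε (Z₁ ++ (g, k, l) :: (h, k', l') :: Z₄)) ((g, h) :: L) (P + u) = 0 := by
  obtain ⟨hgh, hz1, hz4⟩ := nd_EvS Γ₁ Γ₂ g h hΓ Z₁ Z₄ h1 h2
  refine Del_arc_EvS _ _ G P u g h L hG (fun a ha => ?_) h0
  have hs : ∀ (j : Fin q), (j = g ∨ j = h) → ∀ i, i ≠ g → i ≠ h →
      (u + Pi.single j 1 : Fin q → ℕ) i = 0 := by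
    intro j hj i hig hih
    have hij : i ≠ j := by
      rcases hj with rfl | rfl
      · exact hig
      · exact hih
    rw [Pi.add_apply, hu i hig hih, Pi.single_eq_of_ne hij]
    rfl
  rw [cZ_add_EvS (fun y => f y) x ε Z₁ Z₄ g h k k' l l' a (u + Pi.single h 1)
      (fun z hz => hs h (Or.inr rfl) _ (hz1 z hz).1 (hz1 z hz).2)
      (fun z hz => hs h (Or.inr rfl) _ (hz4 z hz).1 (hz4 z hz).2) m (n + 1)
      (by rw [Pi.add_apply, Pi.single_eq_of_ne hgh, hm, add_zero])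
      (by rw [Pi.add_apply, Pi.single_eq_same, hn]),
    cZ_add_EvS (fun y => f y) x ε Z₁ Z₄ g h k k' l l' a (u + Pi.single g 1)
      (fun z hz => hs g (Or.inl rfl) _ (hz1 z hz).1 (hz1 z hz).2)
      (fun z hz => hs g (Or.inl rfl) _ (hz4 z hz).1 (hz4 z hz).2) (m + 1) n
      (by rw [Pi.add_apply, Pi.single_eq_same, hm])
      (by rw [Pi.add_apply, Pi.single_eq_of_ne hgh.symm, hn, add_zero])]
  show f _ = f _ - f _
  rw [← map_sub, hc a ha]

private theorem evalS_aux_EvS {q : ℕ} (ξ : S → Λ) (hξ : ∀ s t, ξ s * ξ t = - (ξ t * ξ s)) (x : A)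
    (f : A →ₗ[ℚ] ℚ) (β : Λ →ₗ[ℚ] ℚ) (τ : A ⊗[ℚ] Λ →ₗ[ℚ] ℚ)
    (hτ : ∀ (k : A) (w : Λ), τ (k ⊗ₜ[ℚ] w) = f k * β w)
    (hkill : ∀ k : A, f (x * k) = 0)
    (ε : Fin q → ℕ) (hε : ∀ g, ε g ≤ 1) (full : List S)
    (hβ : ∀ l : List S, l.Perm full → β (xi ξ l) ≠ 0)
    (Γ : List (Fin q)) (P : Fin q → ℕ) (L : List (Fin q × Fin q)) (hNC : NCs Γ P L)
    (hΓ : Γ.Nodup) (hε1 : ∀ i ∈ Γ.dropLast, ε i = 1)
    (Z : List (Fin q × A × List S)) (rest : List S) (n : ℕ)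
    (hZ : Z.map (fun z => z.1) = Γ)
    (hn : n = (Γ.map fun g => P g + 1).sum)
    (hrest : rest.length = (Γ.map fun g => 2 * P g + ε g).sum + 2 * L.length)
    (hfull : ((Z.map fun z => z.2.2).flatten ++ rest).Perm full)
    (hR : RVL (fun z => τ z) n (Z.map (fun z => z.2.1 ⊗ₜ[ℚ] xi ξ z.2.2) ++
      rest.map (fun s => x ⊗ₜ[ℚ] ξ s))) :
    Del (cZ f x ε Z) L P = 0 := by
  have hk : ∀ (s : S) (z : A ⊗[ℚ] Λ), τ ((x ⊗ₜ[ℚ] ξ s) * z) = 0 := by
    intro s z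
    induction z using TensorProduct.induction_on with
    | zero => rw [mul_zero, map_zero]
    | tmul a w => rw [Algebra.TensorProduct.tmul_mul_tmul, hτ, hkill, zero_mul]
    | add y z hy hz => rw [mul_add, map_add, hy, hz, add_zero]
  induction hNC generalizing Z rest n with
  | single g P =>
    obtain ⟨z, Z', rfl, hz1, hz2⟩ := List.map_eq_cons_iff.1 hZ
    rw [List.map_eq_nil_iff] at hz2
    subst hz2
    obtain ⟨g', k, l⟩ := z
    simp only at hz1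
    subst hz1
    have hε' := hε g'
    have hlen : rest.length = 2 * P g' + ε g' := by simpa using hrest
    have hn' : n = rest.length / 2 + 1 := by
      have h1 : n = P g' + 1 := by simpa using hn
      omega
    rw [hn'] at hR
    have h1 := last_peel ξ x k l rest τ hk (by simpa using hR)
    rw [hτ] at h1
    have h2 : β (xi ξ (l ++ rest)) ≠ 0 := hβ _ (by simpa using hfull)
    have h3 := (mul_eq_zero.1 h1).resolve_right h2
    rw [hlen] at h3
    simpa [Del, cZ] using h3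
  | skip Γ₁ Γ₂ g h P L hg hL ih =>
    obtain ⟨Z₁, Z₂, rfl, hZ1, hZ2⟩ := List.map_eq_append_iff.1 hZ
    obtain ⟨z, Z₃, rfl, hz1, hz2⟩ := List.map_eq_cons_iff.1 hZ2
    obtain ⟨w, Z₄, rfl, hw1, hw2⟩ := List.map_eq_cons_iff.1 hz2
    obtain ⟨g', k, l⟩ := z
    obtain ⟨h', k', l'⟩ := w
    simp only at hz1 hw1
    subst hz1 hw1
    have hε' := hε g'
    simp only [List.map_append, List.map_cons, List.sum_append, List.sum_cons] at hn hrest
    obtain ⟨r, rest', hrr, hr⟩ : ∃ r rest' : List S, rest = r ++ rest' ∧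
        r.length = 2 * P g' + ε g' :=
      ⟨rest.take (2 * P g' + ε g'), rest.drop (2 * P g' + ε g'), (List.take_append_drop _ _).symm,
        by rw [List.length_take]; omega⟩
    subst hrr
    rw [List.length_append] at hrest
    have hr2 : r.length / 2 = P g' := by omega
    have hnd : (Γ₁ ++ h' :: Γ₂).Nodup := by
      refine hΓ.sublist ?_
      exact List.Sublist.append_left (List.sublist_cons_self _ _) _
    have key := ih hnd (dl_EvS Γ₁ Γ₂ g' h' hε1).2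
      (Z₁ ++ (h', k * x ^ r.length * k', l ++ r ++ l') :: Z₄) rest'
      (n - (P g' + 1)) (by simp [hZ1, hw2]) (by
        simp only [List.map_append, List.map_cons, List.sum_append, List.sum_cons]
        omega) (by
        simp only [List.map_append, List.map_cons, List.sum_append, List.sum_cons]
        omega) (by
        refine List.Perm.trans ?_ hfull
        rw [← Multiset.coe_eq_coe]
        simp only [List.map_append, List.map_cons, List.flatten_append, List.flatten_cons,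
          ← Multiset.coe_add]
        abel) (by
        have h1 := gap_peel ξ x k k' l l' r τ (n - (P g' + 1))
          (Z₁.map (fun z => z.2.1 ⊗ₜ[ℚ] xi ξ z.2.2) ++ (Z₄.map (fun z => z.2.1 ⊗ₜ[ℚ] xi ξ z.2.2) ++
            rest'.map (fun s => x ⊗ₜ[ℚ] ξ s))) (by
            have h2 : n - (P g' + 1) + (r.length / 2 + 1) = n := by omega
            rw [h2]
            refine RVL_perm ?_ hR
            rw [← Multiset.coe_eq_coe]
            simp only [List.map_append, List.map_cons, ← Multiset.coe_add, ← Multiset.cons_coe,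
              ← Multiset.singleton_add]
            abel)
        refine RVL_perm ?_ h1
        rw [← Multiset.coe_eq_coe]
        simp only [List.map_append, List.map_cons, ← Multiset.coe_add, ← Multiset.cons_coe,
          ← Multiset.singleton_add]
        abel)
    rw [← key]
    refine Del_congr_at _ _ g' (P g') (fun a ha => ?_) L hg _ rfl
    unfold cZ
    simp only [List.map_append, List.map_cons, List.prod_append, List.prod_cons, ha, hr]
    simp only [mul_assoc]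
  | arcA Γ₁ Γ₂ g h P L hL ih =>
    obtain ⟨Z₁, Z₂, rfl, hZ1, hZ2⟩ := List.map_eq_append_iff.1 hZ
    obtain ⟨z, Z₃, rfl, hz1, hz2⟩ := List.map_eq_cons_iff.1 hZ2
    obtain ⟨w, Z₄, rfl, hw1, hw2⟩ := List.map_eq_cons_iff.1 hz2
    obtain ⟨g', k, l⟩ := z
    obtain ⟨h', k', l'⟩ := w
    simp only at hz1 hw1
    subst hz1 hw1
    have hgh := nd_EvS Γ₁ Γ₂ g' h' hΓ Z₁ Z₄ hZ1 hw2
    have hu : ∀ i, i ≠ g' → i ≠ h' → (Pi.single g' 1 + Pi.single h' 1 : Fin q → ℕ) i = 0 := by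
      intro i h1 h2
      rw [Pi.add_apply, Pi.single_eq_of_ne h1, Pi.single_eq_of_ne h2]
      rfl
    have hug : (Pi.single g' 1 + Pi.single h' 1 : Fin q → ℕ) g' = 1 := by
      rw [Pi.add_apply, Pi.single_eq_same, Pi.single_eq_of_ne hgh.1]
      try rfl
    have huh : (Pi.single g' 1 + Pi.single h' 1 : Fin q → ℕ) h' = 1 := by
      rw [Pi.add_apply, Pi.single_eq_same, Pi.single_eq_of_ne hgh.1.symm]
      try rfl
    have c1 := cnt_EvS Γ₁ Γ₂ g' h' hΓ P _ hu 1 1 hug huh 1 (fun _ => 1)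
    have c2 := cnt_EvS Γ₁ Γ₂ g' h' hΓ P _ hu 1 1 hug huh 2 ε
    rw [add_assoc P] at hn hrest ⊢
    simp only [one_mul] at c1
    rw [c1] at hn
    rw [c2, List.length_cons] at hrest
    obtain ⟨s₁, s₂, s₃, s₄, s₅, s₆, rest', rfl⟩ : ∃ s₁ s₂ s₃ s₄ s₅ s₆ : S, ∃ rest' : List S,
        rest = [s₁, s₂, s₃, s₄, s₅, s₆] ++ rest' := by
      rcases rest with _ | ⟨s₁, _ | ⟨s₂, _ | ⟨s₃, _ | ⟨s₄, _ | ⟨s₅, _ | ⟨s₆, r⟩⟩⟩⟩⟩⟩
      case cons.cons.cons.cons.cons.cons => exact ⟨s₁, s₂, s₃, s₄, s₅, s₆, r, rfl⟩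
      all_goals (simp only [List.length_cons, List.length_nil] at hrest; omega)
    simp only [List.length_append, List.length_cons, List.length_nil] at hrest
    have key := ih hΓ hε1 (Z₁ ++ (g', k, l) :: (h', x * (x * k' * x ^ 3 - x ^ 3 * k' * x) * x,
      [s₁] ++ ([s₂] ++ l' ++ [s₃, s₄, s₅]) ++ [s₆]) :: Z₄) rest' (n - 2) (by simp [hZ1, hw2])
      (by simp only [List.map_append, List.map_cons, List.sum_append, List.sum_cons]; omega)
      (by simp only [List.map_append, List.map_cons, List.sum_append, List.sum_cons]; omega) (by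
        refine List.Perm.trans ?_ hfull
        rw [← Multiset.coe_eq_coe]
        simp only [List.map_append, List.map_cons, List.flatten_append, List.flatten_cons,
          ← Multiset.coe_add, ← Multiset.cons_coe, ← Multiset.singleton_add, Multiset.coe_nil]
        abel) (by
        have h1 := peel2_EvS ξ hξ x x x k' [s₁] [s₆] l' s₂ s₃ s₄ s₅ τ (n - 2)
          (Z₁.map (fun z => z.2.1 ⊗ₜ[ℚ] xi ξ z.2.2) ++ (k ⊗ₜ[ℚ] xi ξ l) ::
            (Z₄.map (fun z => z.2.1 ⊗ₜ[ℚ] xi ξ z.2.2) ++ rest'.map (fun s => x ⊗ₜ[ℚ] ξ s))) (by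
            have h2 : n - 2 + 2 = n := by omega
            rw [h2]
            refine RVL_perm ?_ hR
            rw [← Multiset.coe_eq_coe]
            simp only [List.map_append, List.map_cons, List.map_nil, xi_one_EvS,
              ← Multiset.coe_add, ← Multiset.cons_coe, ← Multiset.singleton_add, Multiset.coe_nil]
            abel)
        refine RVL_perm ?_ h1
        rw [← Multiset.coe_eq_coe]
        simp only [List.map_append, List.map_cons, List.map_nil, xi_one_EvS,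
          ← Multiset.coe_add, ← Multiset.cons_coe, ← Multiset.singleton_add, Multiset.coe_nil]
        abel)
    refine fin_EvS f x ε Z₁ Z₄ _ g' h' k k' l l' Γ₁ Γ₂ hΓ hZ1 hw2 (fun _ => False) P _ L
      (fun _ _ => ⟨id, id⟩) hu 1 1 hug huh (fun a _ => ?_) key
    simp only [List.map_append, List.map_cons, List.prod_append, List.prod_cons]
    rw [← mul_sub]
    congr 1
    have e1 : x ^ (2 * (a g' + 1) + ε g') = x ^ (2 * a g' + ε g') * x ^ 2 := by
      rw [← pow_add]; congr 1; ring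
    have e2 : x ^ (2 * (a g' + (1 + 1)) + ε g') = x ^ (2 * a g' + ε g') * x ^ 4 := by
      rw [← pow_add]; congr 1; ring
    have e3 : x ^ (2 * (a h' + (1 + 1)) + ε h') = x ^ 4 * x ^ (2 * a h' + ε h') := by
      rw [← pow_add]; congr 1; ring
    have e4 : x ^ (2 * (a h' + 1) + ε h') = x ^ 2 * x ^ (2 * a h' + ε h') := by
      rw [← pow_add]; congr 1; ring
    rw [e1, e2, e3, e4]
    simp only [pow_succ', pow_zero, mul_one, sub_mul, mul_sub, mul_assoc]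
  | arcB Γ₁ Γ₂ g h P L hg hP hL ih =>
    obtain ⟨Z₁, Z₂, rfl, hZ1, hZ2⟩ := List.map_eq_append_iff.1 hZ
    obtain ⟨z, Z₃, rfl, hz1, hz2⟩ := List.map_eq_cons_iff.1 hZ2
    obtain ⟨w, Z₄, rfl, hw1, hw2⟩ := List.map_eq_cons_iff.1 hz2
    obtain ⟨g', k, l⟩ := z
    obtain ⟨h', k', l'⟩ := w
    simp only at hz1 hw1
    subst hz1 hw1
    have hgh := nd_EvS Γ₁ Γ₂ g' h' hΓ Z₁ Z₄ hZ1 hw2
    have hu : ∀ i, i ≠ g' → i ≠ h' → (Pi.single h' 1 : Fin q → ℕ) i = 0 := by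
      intro i h1 h2
      rw [Pi.single_eq_of_ne h2]
    have hug : (Pi.single h' 1 : Fin q → ℕ) g' = 0 := Pi.single_eq_of_ne hgh.1 _
    have huh : (Pi.single h' 1 : Fin q → ℕ) h' = 1 := Pi.single_eq_same _ _
    have c1 := cnt_EvS Γ₁ Γ₂ g' h' hΓ P _ hu 0 1 hug huh 1 (fun _ => 1)
    have c2 := cnt_EvS Γ₁ Γ₂ g' h' hΓ P _ hu 0 1 hug huh 2 ε
    simp only [one_mul] at c1
    rw [c1] at hn
    rw [c2, List.length_cons] at hrest
    obtain ⟨hεg, hε2⟩ := dl_EvS Γ₁ Γ₂ g' h' hε1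
    obtain ⟨s₁, s₂, s₃, s₄, s₅, rest', rfl⟩ : ∃ s₁ s₂ s₃ s₄ s₅ : S, ∃ rest' : List S,
        rest = [s₁, s₂, s₃, s₄, s₅] ++ rest' := by
      rcases rest with _ | ⟨s₁, _ | ⟨s₂, _ | ⟨s₃, _ | ⟨s₄, _ | ⟨s₅, r⟩⟩⟩⟩⟩
      case cons.cons.cons.cons.cons => exact ⟨s₁, s₂, s₃, s₄, s₅, r, rfl⟩
      all_goals (simp only [List.length_cons, List.length_nil] at hrest; omega)
    simp only [List.length_append, List.length_cons, List.length_nil] at hrest
    have hnd : (Γ₁ ++ h' :: Γ₂).Nodup := by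
      refine hΓ.sublist ?_
      exact List.Sublist.append_left (List.sublist_cons_self _ _) _
    have key := ih hnd hε2 (Z₁ ++ (h', k * (x * k' * x ^ 3 - x ^ 3 * k' * x) * x,
      l ++ ([s₁] ++ l' ++ [s₂, s₃, s₄]) ++ [s₅]) :: Z₄) rest' (n - 2) (by simp [hZ1, hw2])
      (by simp only [List.map_append, List.map_cons, List.sum_append, List.sum_cons]; omega)
      (by simp only [List.map_append, List.map_cons, List.sum_append, List.sum_cons]; omega) (by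
        refine List.Perm.trans ?_ hfull
        rw [← Multiset.coe_eq_coe]
        simp only [List.map_append, List.map_cons, List.flatten_append, List.flatten_cons,
          ← Multiset.coe_add, ← Multiset.cons_coe, ← Multiset.singleton_add, Multiset.coe_nil]
        abel) (by
        have h1 := peel2_EvS ξ hξ x k x k' l [s₅] l' s₁ s₂ s₃ s₄ τ (n - 2)
          (Z₁.map (fun z => z.2.1 ⊗ₜ[ℚ] xi ξ z.2.2) ++
            (Z₄.map (fun z => z.2.1 ⊗ₜ[ℚ] xi ξ z.2.2) ++ rest'.map (fun s => x ⊗ₜ[ℚ] ξ s))) (by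
            have h2 : n - 2 + 2 = n := by omega
            rw [h2]
            refine RVL_perm ?_ hR
            rw [← Multiset.coe_eq_coe]
            simp only [List.map_append, List.map_cons, List.map_nil, xi_one_EvS,
              ← Multiset.coe_add, ← Multiset.cons_coe, ← Multiset.singleton_add, Multiset.coe_nil]
            abel)
        refine RVL_perm ?_ h1
        rw [← Multiset.coe_eq_coe]
        simp only [List.map_append, List.map_cons, List.map_nil, xi_one_EvS,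
          ← Multiset.coe_add, ← Multiset.cons_coe, ← Multiset.singleton_add, Multiset.coe_nil]
        abel)
    refine fin_EvS f x ε Z₁ Z₄ _ g' h' k k' l l' Γ₁ Γ₂ hΓ hZ1 hw2 (fun i => i = g') P _ L
      hg hu 0 1 hug huh (fun a ha => ?_) key
    have hag : a g' = 0 := by rw [ha g' rfl, hP]
    simp only [List.map_append, List.map_cons, List.prod_append, List.prod_cons]
    rw [← mul_sub]
    congr 1
    have e1 : x ^ (2 * (a g' + 0) + ε g') = x := by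
      rw [hag, hεg]
      simp
    have e2 : x ^ (2 * (a g' + (0 + 1)) + ε g') = x ^ 3 := by
      rw [hag, hεg]
    have e3 : x ^ (2 * (a h' + (1 + 1)) + ε h') = x ^ 4 * x ^ (2 * a h' + ε h') := by
      rw [← pow_add]; congr 1; ring
    have e4 : x ^ (2 * (a h' + 1) + ε h') = x ^ 2 * x ^ (2 * a h' + ε h') := by
      rw [← pow_add]; congr 1; ring
    rw [e1, e2, e3, e4]
    simp only [pow_succ', pow_zero, mul_one, sub_mul, mul_sub, mul_assoc]
  | arcC Γ₁ Γ₂ g h l P L hh hP hL ih =>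
    obtain ⟨Z₁, Z₂, rfl, hZ1, hZ2⟩ := List.map_eq_append_iff.1 hZ
    obtain ⟨z, Z₃, rfl, hz1, hz2⟩ := List.map_eq_cons_iff.1 hZ2
    obtain ⟨w, Z₄, rfl, hw1, hw2⟩ := List.map_eq_cons_iff.1 hz2
    obtain ⟨g', k, l⟩ := z
    obtain ⟨h', k', l'⟩ := w
    simp only at hz1 hw1
    subst hz1 hw1
    obtain ⟨w', Z₅, rfl, hv1, hv2⟩ := List.map_eq_cons_iff.1 hw2
    obtain ⟨l₀, k₀, t₀⟩ := w'
    simp only at hv1
    subst hv1
    have hgh := nd_EvS Γ₁ _ g' h' hΓ Z₁ _ hZ1 hw2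
    have hu : ∀ i, i ≠ g' → i ≠ h' → (Pi.single g' 1 : Fin q → ℕ) i = 0 := by
      intro i h1 h2
      rw [Pi.single_eq_of_ne h1]
    have hug : (Pi.single g' 1 : Fin q → ℕ) g' = 1 := Pi.single_eq_same _ _
    have huh : (Pi.single g' 1 : Fin q → ℕ) h' = 0 := Pi.single_eq_of_ne hgh.1.symm _
    have c1 := cnt_EvS Γ₁ (l₀ :: Γ₂) g' h' hΓ P _ hu 1 0 hug huh 1 (fun _ => 1)
    have c2 := cnt_EvS Γ₁ (l₀ :: Γ₂) g' h' hΓ P _ hu 1 0 hug huh 2 ε
    simp only [one_mul] at c1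
    rw [c1, List.map_cons, List.sum_cons] at hn
    rw [c2, List.map_cons, List.sum_cons, List.length_cons] at hrest
    obtain ⟨hεg, hε2⟩ := dl_EvS Γ₁ (l₀ :: Γ₂) g' h' hε1
    have hε3 := dl_EvS (Γ₁ ++ [g']) Γ₂ h' l₀ (by
      rw [List.append_assoc, List.singleton_append]
      exact hε1)
    rw [List.append_assoc, List.singleton_append] at hε3
    obtain ⟨hεh, hε3⟩ := hε3
    obtain ⟨s₁, s₂, s₃, s₄, s₅, rest', rfl⟩ : ∃ s₁ s₂ s₃ s₄ s₅ : S, ∃ rest' : List S,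
        rest = [s₁, s₂, s₃, s₄, s₅] ++ rest' := by
      rcases rest with _ | ⟨s₁, _ | ⟨s₂, _ | ⟨s₃, _ | ⟨s₄, _ | ⟨s₅, r⟩⟩⟩⟩⟩
      case cons.cons.cons.cons.cons => exact ⟨s₁, s₂, s₃, s₄, s₅, r, rfl⟩
      all_goals (simp only [List.length_cons, List.length_nil] at hrest; omega)
    simp only [List.length_append, List.length_cons, List.length_nil] at hrest
    have hnd : (Γ₁ ++ g' :: l₀ :: Γ₂).Nodup := by
      refine hΓ.sublist ?_
      exact List.Sublist.append_left (List.Sublist.cons_cons _ (List.sublist_cons_self _ _)) _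
    have key := ih hnd hε3 (Z₁ ++ (g', k, l) :: (l₀, x * (x * k' * x ^ 3 - x ^ 3 * k' * x) * k₀,
      [s₁] ++ ([s₂] ++ l' ++ [s₃, s₄, s₅]) ++ t₀) :: Z₅) rest' (n - 2) (by simp [hZ1, hv2])
      (by simp only [List.map_append, List.map_cons, List.sum_append, List.sum_cons]; omega)
      (by simp only [List.map_append, List.map_cons, List.sum_append, List.sum_cons]; omega) (by
        refine List.Perm.trans ?_ hfull
        rw [← Multiset.coe_eq_coe]
        simp only [List.map_append, List.map_cons, List.flatten_append, List.flatten_cons,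
          ← Multiset.coe_add, ← Multiset.cons_coe, ← Multiset.singleton_add, Multiset.coe_nil]
        abel) (by
        have h1 := peel2_EvS ξ hξ x x k₀ k' [s₁] t₀ l' s₂ s₃ s₄ s₅ τ (n - 2)
          (Z₁.map (fun z => z.2.1 ⊗ₜ[ℚ] xi ξ z.2.2) ++ (k ⊗ₜ[ℚ] xi ξ l) ::
            (Z₅.map (fun z => z.2.1 ⊗ₜ[ℚ] xi ξ z.2.2) ++ rest'.map (fun s => x ⊗ₜ[ℚ] ξ s))) (by
            have h2 : n - 2 + 2 = n := by omega
            rw [h2]
            refine RVL_perm ?_ hR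
            rw [← Multiset.coe_eq_coe]
            simp only [List.map_append, List.map_cons, List.map_nil, xi_one_EvS,
              ← Multiset.coe_add, ← Multiset.cons_coe, ← Multiset.singleton_add, Multiset.coe_nil]
            abel)
        refine RVL_perm ?_ h1
        rw [← Multiset.coe_eq_coe]
        simp only [List.map_append, List.map_cons, List.map_nil, xi_one_EvS,
          ← Multiset.coe_add, ← Multiset.cons_coe, ← Multiset.singleton_add, Multiset.coe_nil]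
        abel)
    refine fin_EvS f x ε Z₁ _ _ g' h' k k' l l' Γ₁ _ hΓ hZ1 hw2 (fun i => i = h') P _ L
      hh hu 1 0 hug huh (fun a ha => ?_) key
    have hah : a h' = 0 := by rw [ha h' rfl, hP]
    simp only [List.map_append, List.map_cons, List.prod_append, List.prod_cons]
    rw [← mul_sub]
    congr 1
    have e1 : x ^ (2 * (a h' + 0) + ε h') = x := by
      rw [hah, hεh]
      simp
    have e2 : x ^ (2 * (a h' + (0 + 1)) + ε h') = x ^ 3 := by
      rw [hah, hεh]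
    have e3 : x ^ (2 * (a g' + (1 + 1)) + ε g') = x ^ (2 * a g' + ε g') * x ^ 4 := by
      rw [← pow_add]; congr 1; ring
    have e4 : x ^ (2 * (a g' + 1) + ε g') = x ^ (2 * a g' + ε g') * x ^ 2 := by
      rw [← pow_add]; congr 1; ring
    rw [e1, e2, e3, e4]
    simp only [pow_succ', pow_zero, mul_one, sub_mul, mul_sub, mul_assoc]
  | arcD Γ₁ Γ₂ g h l P L hg hh hPg hPh hL ih =>
    obtain ⟨Z₁, Z₂, rfl, hZ1, hZ2⟩ := List.map_eq_append_iff.1 hZ
    obtain ⟨z, Z₃, rfl, hz1, hz2⟩ := List.map_eq_cons_iff.1 hZ2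
    obtain ⟨w, Z₄, rfl, hw1, hw2⟩ := List.map_eq_cons_iff.1 hz2
    obtain ⟨g', k, l⟩ := z
    obtain ⟨h', k', l'⟩ := w
    simp only at hz1 hw1
    subst hz1 hw1
    obtain ⟨w', Z₅, rfl, hv1, hv2⟩ := List.map_eq_cons_iff.1 hw2
    obtain ⟨l₀, k₀, t₀⟩ := w'
    simp only at hv1
    subst hv1
    have hgh := nd_EvS Γ₁ _ g' h' hΓ Z₁ _ hZ1 hw2
    have hu : ∀ i, i ≠ g' → i ≠ h' → (0 : Fin q → ℕ) i = 0 := fun _ _ _ => rfl
    have hug : (0 : Fin q → ℕ) g' = 0 := rfl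
    have huh : (0 : Fin q → ℕ) h' = 0 := rfl
    have c1 := cnt_EvS Γ₁ (l₀ :: Γ₂) g' h' hΓ P _ hu 0 0 hug huh 1 (fun _ => 1)
    have c2 := cnt_EvS Γ₁ (l₀ :: Γ₂) g' h' hΓ P _ hu 0 0 hug huh 2 ε
    rw [← add_zero P] at hn hrest ⊢
    simp only [one_mul] at c1
    rw [c1, List.map_cons, List.sum_cons] at hn
    rw [c2, List.map_cons, List.sum_cons, List.length_cons] at hrest
    obtain ⟨hεg, hε2⟩ := dl_EvS Γ₁ (l₀ :: Γ₂) g' h' hε1
    obtain ⟨hεh, hε3⟩ := dl_EvS Γ₁ Γ₂ h' l₀ hε2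
    obtain ⟨s₁, s₂, s₃, s₄, rest', rfl⟩ : ∃ s₁ s₂ s₃ s₄ : S, ∃ rest' : List S,
        rest = [s₁, s₂, s₃, s₄] ++ rest' := by
      rcases rest with _ | ⟨s₁, _ | ⟨s₂, _ | ⟨s₃, _ | ⟨s₄, r⟩⟩⟩⟩
      case cons.cons.cons.cons => exact ⟨s₁, s₂, s₃, s₄, r, rfl⟩
      all_goals (simp only [List.length_cons, List.length_nil] at hrest; omega)
    simp only [List.length_append, List.length_cons, List.length_nil] at hrest
    have hnd : (Γ₁ ++ l₀ :: Γ₂).Nodup := by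
      refine hΓ.sublist ?_
      exact List.Sublist.append_left ((List.sublist_cons_self _ _).trans
        (List.sublist_cons_self _ _)) _
    have key := ih hnd hε3 (Z₁ ++ (l₀, k * (x * k' * x ^ 3 - x ^ 3 * k' * x) * k₀,
      l ++ ([s₁] ++ l' ++ [s₂, s₃, s₄]) ++ t₀) :: Z₅) rest' (n - 2) (by simp [hZ1, hv2])
      (by simp only [List.map_append, List.map_cons, List.sum_append, List.sum_cons]; omega)
      (by simp only [List.map_append, List.map_cons, List.sum_append, List.sum_cons]; omega) (by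
        refine List.Perm.trans ?_ hfull
        rw [← Multiset.coe_eq_coe]
        simp only [List.map_append, List.map_cons, List.flatten_append, List.flatten_cons,
          ← Multiset.coe_add, ← Multiset.cons_coe, ← Multiset.singleton_add, Multiset.coe_nil]
        abel) (by
        have h1 := peel2_EvS ξ hξ x k k₀ k' l t₀ l' s₁ s₂ s₃ s₄ τ (n - 2)
          (Z₁.map (fun z => z.2.1 ⊗ₜ[ℚ] xi ξ z.2.2) ++
            (Z₅.map (fun z => z.2.1 ⊗ₜ[ℚ] xi ξ z.2.2) ++ rest'.map (fun s => x ⊗ₜ[ℚ] ξ s))) (by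
            have h2 : n - 2 + 2 = n := by omega
            rw [h2]
            refine RVL_perm ?_ hR
            rw [← Multiset.coe_eq_coe]
            simp only [List.map_append, List.map_cons, List.map_nil, xi_one_EvS,
              ← Multiset.coe_add, ← Multiset.cons_coe, ← Multiset.singleton_add, Multiset.coe_nil]
            abel)
        refine RVL_perm ?_ h1
        rw [← Multiset.coe_eq_coe]
        simp only [List.map_append, List.map_cons, List.map_nil, xi_one_EvS,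
          ← Multiset.coe_add, ← Multiset.cons_coe, ← Multiset.singleton_add, Multiset.coe_nil]
        abel)
    refine fin_EvS f x ε Z₁ _ _ g' h' k k' l l' Γ₁ _ hΓ hZ1 hw2 (fun i => i = g' ∨ i = h') P _ L
      (fun p hp => ⟨fun hc => hc.elim (hg p hp).1 (hh p hp).1,
        fun hc => hc.elim (hg p hp).2 (hh p hp).2⟩) hu 0 0 hug huh (fun a ha => ?_) key
    have hag : a g' = 0 := by rw [ha g' (Or.inl rfl), hPg]
    have hah : a h' = 0 := by rw [ha h' (Or.inr rfl), hPh]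
    simp only [List.map_append, List.map_cons, List.prod_append, List.prod_cons]
    rw [← mul_sub]
    congr 1
    have e1 : x ^ (2 * (a h' + 0) + ε h') = x := by
      rw [hah, hεh]
      simp
    have e2 : x ^ (2 * (a h' + (0 + 1)) + ε h') = x ^ 3 := by
      rw [hah, hεh]
    have e3 : x ^ (2 * (a g' + 0) + ε g') = x := by
      rw [hag, hεg]
      simp
    have e4 : x ^ (2 * (a g' + (0 + 1)) + ε g') = x ^ 3 := by
      rw [hag, hεg]
    rw [e1, e2, e3, e4]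
    simp only [pow_succ', pow_zero, mul_one, sub_mul, mul_sub, mul_assoc]

theorem evalS {q : ℕ} (ξ : S → Λ) (hξ : ∀ s t, ξ s * ξ t = - (ξ t * ξ s)) (x : A)
    (f : A →ₗ[ℚ] ℚ) (β : Λ →ₗ[ℚ] ℚ) (τ : A ⊗[ℚ] Λ →ₗ[ℚ] ℚ)
    (hτ : ∀ (k : A) (w : Λ), τ (k ⊗ₜ[ℚ] w) = f k * β w)
    (hkill : ∀ k : A, f (x * k) = 0)
    (ε : Fin q → ℕ) (hε : ∀ g, ε g ≤ 1) (full : List S)
    (hβ : ∀ l : List S, l.Perm full → β (xi ξ l) ≠ 0)
    (Γ : List (Fin q)) (P : Fin q → ℕ) (L : List (Fin q × Fin q)) (hNC : NCs Γ P L)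
    (hΓ : Γ.Nodup) (hε1 : ∀ Γ₁ g h Γ₂, Γ = Γ₁ ++ g :: h :: Γ₂ → ε g = 1)
    (Z : List (Fin q × A × List S)) (rest : List S) (n : ℕ)
    (hZ : Z.map (fun z => z.1) = Γ)
    (hn : n = (Γ.map fun g => P g + 1).sum)
    (hrest : rest.length = (Γ.map fun g => 2 * P g + ε g).sum + 2 * L.length)
    (hfull : ((Z.map fun z => z.2.2).flatten ++ rest).Perm full)
    (hR : RVL (fun z => τ z) n (Z.map (fun z => z.2.1 ⊗ₜ[ℚ] xi ξ z.2.2) ++
      rest.map (fun s => x ⊗ₜ[ℚ] ξ s))) :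
    Del (cZ f x ε Z) L P = 0 := by
  refine evalS_aux_EvS ξ hξ x f β τ hτ hkill ε hε full hβ Γ P L hNC hΓ (fun i hi => ?_) Z rest n hZ hn
    hrest hfull hR
  have hne : Γ ≠ [] := by
    rintro rfl
    simp at hi
  obtain ⟨s, t, hst⟩ := List.append_of_mem hi
  have h1 := List.dropLast_append_getLast hne
  rw [hst, List.append_assoc, List.cons_append] at h1
  rcases t with _ | ⟨b, t⟩
  · exact hε1 s i _ [] h1.symm
  · exact hε1 s i b (t ++ [Γ.getLast hne]) h1.symm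

end Pool.Agent.Helper43.LN
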