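import Mathlib

/-!
# LN: Grassmann algebra with Berezin integral (module III.0)

PROOF (complete). `exists_grassmann`: `Λ = ExteriorAlgebra ℚ (Fin p → ℚ)`, `ξ s = ι (Pi.single s 1)`,
`β = ExteriorAlgebra.liftAlternating` of the family that is the determinant in degree `p`
(`Matrix.detRowAlternating`, an alternating map on `Fin p → ℚ`) and `0` in the other degrees;
`ExteriorAlgebra.liftAlternating_apply_ιMulti`, `ExteriorAlgebra.ιMulti_apply`, and the determinant of
the rows `Pi.single (σ i) 1` is `sign σ` (`Matrix.det_permutation` or a transpose of it).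
-/

set_option autoImplicit false

namespace Pool.Agent.Helper43.LN

theorem exists_grassmann (p : ℕ) : ∃ (Λ : Type) (_ : Ring Λ) (_ : Algebra ℚ Λ) (ξ : Fin p → Λ)
    (β : Λ →ₗ[ℚ] ℚ), (∀ s t, ξ s * ξ t = - (ξ t * ξ s)) ∧
      ∀ σ : Equiv.Perm (Fin p), β (((List.finRange p).map fun i => ξ (σ i)).prod) =
        ((Equiv.Perm.sign σ : ℤ) : ℚ) := by
  classical
  refine ⟨ExteriorAlgebra ℚ (Fin p → ℚ), inferInstance, inferInstance,
    fun s => ExteriorAlgebra.ι ℚ (Pi.single s 1),
    ExteriorAlgebra.liftAlternating (R := ℚ) (M := Fin p → ℚ) (N := ℚ)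
      (fun i => if h : p = i then
        h ▸ (Matrix.detRowAlternating : (Fin p → ℚ) [⋀^Fin p]→ₗ[ℚ] ℚ) else 0), ?_, ?_⟩
  · intro s t
    exact eq_neg_of_add_eq_zero_left (ExteriorAlgebra.ι_add_mul_swap _ _)
  · intro σ
    have h : ((List.finRange p).map fun i => ExteriorAlgebra.ι ℚ (Pi.single (σ i) (1 : ℚ) : Fin p → ℚ)).prod
        = ExteriorAlgebra.ιMulti ℚ p (fun i => (Pi.single (σ i) (1 : ℚ) : Fin p → ℚ)) := by
      rw [ExteriorAlgebra.ιMulti_apply, List.ofFn_eq_map]
    rw [h, ExteriorAlgebra.liftAlternating_apply_ιMulti, dif_pos rfl]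
    change Matrix.det (fun i => (Pi.single (σ i) (1 : ℚ) : Fin p → ℚ)) = _
    have h2 : (fun i => (Pi.single (σ i) (1 : ℚ) : Fin p → ℚ)) = (Equiv.toPEquiv σ).toMatrix := by
      ext i j
      simp [PEquiv.toMatrix_apply, Pi.single_apply, Equiv.toPEquiv_apply, eq_comm]
    rw [h2, Matrix.det_permutation]

end Pool.Agent.Helper43.LN
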