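import Mathlib
import Pool.Agent.Helper43.LN.Gadget

/-!
# LN: insertions (module II.1)

Insertions: for lists `w` of elements of a ring `B`, `ins1 C w = ∑_p ∏ (w.insertIdx p C)` and
`ins2 C D w = ∑_{j} ∑_{k ≤ j} ∏ ((w.insertIdx j D).insertIdx k C)`.

PROOFS (complete).
`ins1_sep`, `ins2_sep` (a separating letter `y`): `ins1 C (w ++ y :: w') = ins1 C w * y * ∏ w' +
∏ w * y * ins1 C w'` and `ins2 C D (w ++ y :: w') = ins2 C D w * y * ∏ w' + ∏ w * y * ins2 C D w' +
ins1 C w * y * ins1 D w'`: split the range of the positions at `w.length` (positions `≤ w.length` are in `w`,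
positions `> w.length` are in `w'`).
`ins1_run`, `ins2_run`: for a run of `n` odd letters `x ⊗ ξ s`, `s ∈ r`: inserting `x ⊗ ξ c` at position `t`
and moving `ξ c` to the right end gives the sign `(-1)^(n-t)`; `∑_{t ≤ n} (-1)^(n-t) = [n even]`; for two letters
`∑_{t ≤ t' ≤ n} (-1)^(t+t') = n/2 + 1`.
-/

set_option autoImplicit false

namespace Pool.Agent.Helper43.LN

open scoped TensorProduct
open Finset

/-- one insertion -/
def ins1 {B : Type*} [Ring B] (C : B) (w : List B) : B :=
  ∑ p ∈ range (w.length + 1), (w.insertIdx p C).prod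

/-- two insertions, `C` before `D` -/
def ins2 {B : Type*} [Ring B] (C D : B) (w : List B) : B :=
  ∑ j ∈ range (w.length + 1), ∑ k ∈ range (j + 1), ((w.insertIdx j D).insertIdx k C).prod

theorem ins1_nil {B : Type*} [Ring B] (C : B) : ins1 C [] = C := by
  simp [ins1]

theorem ins1_cons {B : Type*} [Ring B] (C a : B) (w : List B) :
    ins1 C (a :: w) = C * (a * w.prod) + a * ins1 C w := by
  unfold ins1
  rw [List.length_cons, Finset.sum_range_succ', Finset.mul_sum, add_comm]
  simp

theorem ins2_nil {B : Type*} [Ring B] (C D : B) : ins2 C D [] = C * D := by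
  simp [ins2]

theorem ins2_cons {B : Type*} [Ring B] (C D a : B) (w : List B) :
    ins2 C D (a :: w) = C * ins1 D (a :: w) + a * ins2 C D w := by
  rw [ins1_cons]
  unfold ins2 ins1
  rw [List.length_cons, Finset.sum_range_succ']
  have h : ∀ j ∈ range (w.length + 1),
      (∑ k ∈ range (j + 1 + 1), (((a :: w).insertIdx (j + 1) D).insertIdx k C).prod) =
      C * (a * (w.insertIdx j D).prod) +
        a * ∑ k ∈ range (j + 1), ((w.insertIdx j D).insertIdx k C).prod := by
    intro j _
    rw [Finset.sum_range_succ', Finset.mul_sum, add_comm]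
    simp
  rw [Finset.sum_congr rfl h, Finset.sum_add_distrib, ← Finset.mul_sum, ← Finset.mul_sum,
    ← Finset.mul_sum]
  simp only [zero_add, Finset.range_one, Finset.sum_singleton, List.insertIdx_zero,
    List.prod_cons]
  noncomm_ring

theorem ins1_sep {B : Type*} [Ring B] (C y : B) (w w' : List B) :
    ins1 C (w ++ y :: w') = ins1 C w * y * w'.prod + w.prod * y * ins1 C w' := by
  induction w with
  | nil =>
    rw [List.nil_append, ins1_cons, ins1_nil, List.prod_nil]
    noncomm_ring
  | cons a w ih =>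
    rw [List.cons_append, ins1_cons, ih, ins1_cons, List.prod_append, List.prod_cons,
      List.prod_cons]
    noncomm_ring

theorem ins2_sep {B : Type*} [Ring B] (C D y : B) (w w' : List B) :
    ins2 C D (w ++ y :: w') = ins2 C D w * y * w'.prod + w.prod * y * ins2 C D w' +
      ins1 C w * y * ins1 D w' := by
  induction w with
  | nil =>
    rw [List.nil_append, ins2_cons, ins1_cons, ins1_nil, ins2_nil, List.prod_nil]
    noncomm_ring
  | cons a w ih =>
    rw [List.cons_append, ins2_cons, ih, ins2_cons, ← List.cons_append, ins1_sep, ins1_cons C a w,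
      List.prod_cons]
    noncomm_ring

variable {A Λ : Type*} [Ring A] [Algebra ℚ A] [Ring Λ] [Algebra ℚ Λ] {S : Type*}

omit [Algebra ℚ Λ] in
theorem xi_nil (ξ : S → Λ) : xi ξ [] = 1 := by
  simp [xi]

omit [Algebra ℚ Λ] in
theorem xi_cons (ξ : S → Λ) (s : S) (l : List S) : xi ξ (s :: l) = ξ s * xi ξ l := by
  simp [xi]

omit [Algebra ℚ Λ] in
/-- a letter moved through a run -/
theorem xi_comm_of_even (ξ : S → Λ) (hξ : ∀ s t, ξ s * ξ t = - (ξ t * ξ s)) (c : S) (l : List S) :
    (l.length % 2 = 0 → ξ c * xi ξ l = xi ξ l * ξ c) ∧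
      (l.length % 2 = 1 → ξ c * xi ξ l = - (xi ξ l * ξ c)) := by
  induction l with
  | nil => simp [xi]
  | cons s l ih =>
    refine ⟨fun h => ?_, fun h => ?_⟩
    · have h1 : l.length % 2 = 1 := by
        rw [List.length_cons] at h
        omega
      rw [xi_cons, ← mul_assoc, hξ c s, neg_mul, mul_assoc, ih.2 h1]
      noncomm_ring
    · have h1 : l.length % 2 = 0 := by
        rw [List.length_cons] at h
        omega
      rw [xi_cons, ← mul_assoc, hξ c s, neg_mul, mul_assoc, ih.1 h1]
      noncomm_ring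

/-- the product of a run -/
theorem run_prod (ξ : S → Λ) (x : A) (r : List S) :
    (r.map fun s => x ⊗ₜ[ℚ] ξ s).prod = (x ^ r.length) ⊗ₜ[ℚ] xi ξ r := by
  induction r with
  | nil => simp [xi, Algebra.TensorProduct.one_def]
  | cons s r ih =>
    rw [List.map_cons, List.prod_cons, ih, Algebra.TensorProduct.tmul_mul_tmul, xi_cons,
      List.length_cons, pow_succ']

theorem ins1_run (ξ : S → Λ) (hξ : ∀ s t, ξ s * ξ t = - (ξ t * ξ s)) (x : A) (r : List S) (c : S) :
    ins1 (x ⊗ₜ[ℚ] ξ c) (r.map fun s => x ⊗ₜ[ℚ] ξ s) =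
      if r.length % 2 = 0 then (x ^ (r.length + 1)) ⊗ₜ[ℚ] (xi ξ r * ξ c) else 0 := by
  induction r with
  | nil => simp [ins1_nil, xi]
  | cons s r ih =>
    rw [List.map_cons, ins1_cons, ih, run_prod, Algebra.TensorProduct.tmul_mul_tmul,
      Algebra.TensorProduct.tmul_mul_tmul, ← pow_succ', ← pow_succ', ← xi_cons,
      List.length_cons]
    rcases Nat.mod_two_eq_zero_or_one r.length with h | h
    · have h1 : (s :: r).length % 2 = 1 := by
        rw [List.length_cons]
        omega
      have h2 : ¬ (r.length + 1) % 2 = 0 := by omega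
      rw [if_pos h, if_neg h2, (xi_comm_of_even ξ hξ c (s :: r)).2 h1,
        Algebra.TensorProduct.tmul_mul_tmul, ← pow_succ', xi_cons, TensorProduct.tmul_neg,
        mul_assoc]
      exact neg_add_cancel _
    · have h1 : (s :: r).length % 2 = 0 := by
        rw [List.length_cons]
        omega
      have h2 : (r.length + 1) % 2 = 0 := by omega
      have h3 : ¬ r.length % 2 = 0 := by omega
      rw [if_neg h3, if_pos h2, (xi_comm_of_even ξ hξ c (s :: r)).1 h1, mul_zero, add_zero]

theorem ins2_run (ξ : S → Λ) (hξ : ∀ s t, ξ s * ξ t = - (ξ t * ξ s)) (x : A) (r : List S)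
    (c d : S) :
    ins2 (x ⊗ₜ[ℚ] ξ c) (x ⊗ₜ[ℚ] ξ d) (r.map fun s => x ⊗ₜ[ℚ] ξ s) =
      ((r.length / 2 + 1 : ℕ) : ℚ) • ((x ^ (r.length + 2)) ⊗ₜ[ℚ] (xi ξ r * (ξ c * ξ d))) := by
  induction r with
  | nil =>
    rw [List.map_nil, ins2_nil, Algebra.TensorProduct.tmul_mul_tmul, xi_nil]
    simp [pow_two]
  | cons s r ih =>
    have e := ins1_run ξ hξ x (s :: r) d
    rw [List.map_cons] at e
    rw [List.map_cons, ins2_cons, ih, e, mul_smul_comm, Algebra.TensorProduct.tmul_mul_tmul,
      ← pow_succ', ← mul_assoc (ξ s), ← xi_cons, List.length_cons]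
    rcases Nat.mod_two_eq_zero_or_one r.length with h | h
    · have h2 : ¬ (r.length + 1) % 2 = 0 := by omega
      have h4 : (r.length + 1) / 2 = r.length / 2 := by omega
      rw [if_neg h2, mul_zero, zero_add, h4]
    · have h1 : (s :: r).length % 2 = 0 := by
        rw [List.length_cons]
        omega
      have h2 : (r.length + 1) % 2 = 0 := by omega
      have h4 : (r.length + 1) / 2 = r.length / 2 + 1 := by omega
      rw [if_pos h2, Algebra.TensorProduct.tmul_mul_tmul, ← pow_succ', ← mul_assoc (ξ c),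
        (xi_comm_of_even ξ hξ c (s :: r)).1 h1, mul_assoc, h4]
      have e5 : r.length + 1 + 1 + 1 = r.length + 1 + 2 := by ring
      have e6 : r.length + 2 + 1 = r.length + 1 + 2 := by ring
      rw [e5, e6]
      push_cast
      simp only [add_smul, one_smul]
      abel

end Pool.Agent.Helper43.LN
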