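import Mathlib
import Pool.Agent.Helper43.LN.Ins

/-!
# LN: the relation (TI) in the top sector (module II)

Insertions: for lists `w` of elements of a ring `B`, `ins1 C w = ∑_p ∏ (w.insertIdx p C)` and
`ins2 C D w = ∑_{j} ∑_{k ≤ j} ∏ ((w.insertIdx j D).insertIdx k C)`.

PROOFS (complete).
`TI`: apply the hypothesis `H2` to lists `r g` of `2 a g + ε g` odd letters. By induction on the number of gaps
(`ins*_sep`, `ins*_run`, `ξ c * ξ d` is central) the sum of the insertions into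
`w = X r₀ ++ k₁ :: X r₁ ++ …` is
`∑_g (a g + 1) (pattern with 2(a g + 1) + ε g in the gap g) ⊗ (ξ_r ξ_c ξ_d)
 + ∑_{g < h, ε g = ε h = 0} ± (pattern with 2 a g + 1 and 2 a h + 1 in the gaps g, h) ⊗ (ξ_r ξ_c ξ_d)`,
and `f` vanishes on the patterns in the second sum by `hmax`.
Suggestion: prove by induction on a list of blocks `(k, r)` the existence statement: `ins2` of the word equals
`(∑_g … + z) ⊗ …` where `z` is in the span of the patterns with two more odd gaps; for `ins1` the same with the span of the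
patterns with one more odd gap.
-/

set_option autoImplicit false

namespace Pool.Agent.Helper43.LN

open scoped TensorProduct
open Finset

variable {A Λ : Type*} [Ring A] [Algebra ℚ A] [Ring Λ] [Algebra ℚ Λ] {S : Type*}

/-- the pattern with `n g` letters `x` in the gap `g` -/
def pat {q : ℕ} (x : A) (k : Fin q → A) (n : Fin q → ℕ) : A :=
  (List.ofFn fun g => k g * x ^ (n g)).prod

private theorem pat_succ_ti {q : ℕ} (x : A) (k : Fin (q + 1) → A) (n : Fin (q + 1) → ℕ) :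
    pat x k n = k 0 * x ^ n 0 * pat x (fun g => k g.succ) (fun g => n g.succ) := by
  simp [pat, List.ofFn_succ]

/-- the span of the patterns of degree `N` with at least `b` odd gaps -/
private def Zs_ti (Λ : Type*) [Ring Λ] [Algebra ℚ Λ] {q : ℕ} (x : A) (k : Fin q → A) (N b : ℕ) :
    Submodule ℚ (A ⊗[ℚ] Λ) :=
  Submodule.span ℚ {z | ∃ (m : Fin q → ℕ) (w : Λ), ∑ g, m g = N ∧ b ≤ ∑ g, m g % 2 ∧
    z = pat x k m ⊗ₜ[ℚ] w}

private theorem Zs_mul_ti {q : ℕ} (x : A) (k : Fin (q + 1) → A) (N b j N' b' : ℕ) (hN : N' = j + N)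
    (hb : b' = j % 2 + b) (w0 : Λ) {z : A ⊗[ℚ] Λ} (hz : z ∈ Zs_ti Λ x (fun g => k g.succ) N b) :
    ((k 0 * x ^ j) ⊗ₜ[ℚ] w0) * z ∈ Zs_ti Λ x k N' b' := by
  subst hN hb
  unfold Zs_ti at hz
  induction hz using Submodule.span_induction with
  | mem z hz =>
    obtain ⟨m, w, h1, h2, rfl⟩ := hz
    refine Submodule.subset_span ⟨Fin.cons j m, w0 * w, ?_, ?_, ?_⟩
    · simp [Fin.sum_univ_succ, h1]
    · simp [Fin.sum_univ_succ]
      exact h2
    · rw [pat_succ_ti]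
      simp [Algebra.TensorProduct.tmul_mul_tmul]
  | zero => simp
  | add y z _ _ hy hz => rw [mul_add]; exact Submodule.add_mem _ hy hz
  | smul c y _ hy => rw [mul_smul_comm]; exact Submodule.smul_mem _ _ hy

/-- the word -/
private def wrd_ti {q : ℕ} (ξ : S → Λ) (x : A) (k : Fin q → A) (r : Fin q → List S) : List (A ⊗[ℚ] Λ) :=
  (List.ofFn fun g => (k g ⊗ₜ[ℚ] (1 : Λ)) :: (r g).map fun s => x ⊗ₜ[ℚ] ξ s).flatten

private theorem wrd_succ_ti {q : ℕ} (ξ : S → Λ) (x : A) (k : Fin (q + 1) → A) (r : Fin (q + 1) → List S) :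
    wrd_ti ξ x k r = (k 0 ⊗ₜ[ℚ] (1 : Λ)) :: ((r 0).map (fun s => x ⊗ₜ[ℚ] ξ s) ++
      wrd_ti ξ x (fun g => k g.succ) (fun g => r g.succ)) := by
  simp [wrd_ti, List.ofFn_succ]

private theorem run_prod_ti (ξ : S → Λ) (x : A) (r : List S) :
    (r.map fun s => x ⊗ₜ[ℚ] ξ s).prod = (x ^ r.length) ⊗ₜ[ℚ] xi ξ r := by
  induction r with
  | nil => simp [xi, Algebra.TensorProduct.one_def]
  | cons a r ih =>
    simp only [List.map_cons, List.prod_cons, ih, List.length_cons, xi,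
      Algebra.TensorProduct.tmul_mul_tmul, pow_succ']

private theorem xi_app_ti (ξ : S → Λ) (l l' : List S) : xi ξ (l ++ l') = xi ξ l * xi ξ l' := by
  simp [xi]

private theorem wrd_prod_ti {q : ℕ} (ξ : S → Λ) (x : A) (k : Fin q → A) (r : Fin q → List S) :
    (wrd_ti ξ x k r).prod = pat x k (fun g => (r g).length) ⊗ₜ[ℚ] xi ξ (List.ofFn r).flatten := by
  induction q with
  | zero => simp [wrd_ti, pat, xi, Algebra.TensorProduct.one_def]
  | succ q ih =>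
    rw [wrd_succ_ti, List.prod_cons, List.prod_append, ih, run_prod_ti, pat_succ_ti, List.ofFn_succ,
      List.flatten_cons, xi_app_ti, Algebra.TensorProduct.tmul_mul_tmul,
      Algebra.TensorProduct.tmul_mul_tmul, one_mul, mul_assoc (k 0)]

private theorem J1_ti {q : ℕ} (ξ : S → Λ) (hξ : ∀ s t, ξ s * ξ t = - (ξ t * ξ s)) (x : A)
    (k : Fin (q + 1) → A) (r : Fin (q + 1) → List S) (c : S) (N b : ℕ)
    (hN : N = ∑ g, (r g).length + 1) (hb : b = ∑ g, (r g).length % 2 + 1) :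
    (k 0 ⊗ₜ[ℚ] (1 : Λ)) * ins1 (x ⊗ₜ[ℚ] ξ c) ((r 0).map (fun s => x ⊗ₜ[ℚ] ξ s) ++
      wrd_ti ξ x (fun g => k g.succ) (fun g => r g.succ)) ∈ Zs_ti Λ x k N b := by
  induction q generalizing N b with
  | zero =>
    have e : wrd_ti ξ x (fun g : Fin 0 => k g.succ) (fun g => r g.succ) = [] := by simp [wrd_ti]
    rw [e, List.append_nil, ins1_run ξ hξ]
    split_ifs with h
    · refine Submodule.subset_span ⟨fun g => (r g).length + 1, 1 * (xi ξ (r 0) * ξ c), ?_, ?_, ?_⟩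
      · simp [hN]
      · rw [hb]
        simp
        omega
      · rw [Algebra.TensorProduct.tmul_mul_tmul, pat_succ_ti]
        simp [pat]
    · simp
  | succ q ih =>
    have e1 := ih (fun g => k g.succ) (fun g => r g.succ) _ _ rfl rfl
    rw [wrd_succ_ti, ins1_sep, mul_add]
    have e2 : wrd_ti ξ x (fun g : Fin (q + 1) => k g.succ) (fun g => r g.succ) = _ := wrd_succ_ti ξ x _ _
    have e3 := congrArg List.prod e2
    rw [wrd_prod_ti, List.prod_cons] at e3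
    refine Submodule.add_mem _ ?_ ?_
    · rw [mul_assoc (ins1 _ _), ← e3, ins1_run ξ hξ]
      split_ifs with h
      · rw [← mul_assoc, Algebra.TensorProduct.tmul_mul_tmul]
        refine Zs_mul_ti x k (∑ g : Fin (q + 1), (r g.succ).length)
          (∑ g : Fin (q + 1), (r g.succ).length % 2) _ _ _ ?_ ?_ _
          (Submodule.subset_span ⟨_, _, rfl, le_rfl, rfl⟩)
        · rw [hN, Fin.sum_univ_succ]; ring
        · rw [hb, Fin.sum_univ_succ]; omega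
      · simp
    · rw [run_prod_ti, mul_assoc _ _ (ins1 _ _), ← mul_assoc (k 0 ⊗ₜ[ℚ] (1 : Λ)),
        Algebra.TensorProduct.tmul_mul_tmul]
      refine Zs_mul_ti x k _ _ _ _ _ ?_ ?_ _ e1
      · rw [hN, Fin.sum_univ_succ]; ring
      · rw [hb, Fin.sum_univ_succ]; omega

private theorem pat_single_zero_ti {q : ℕ} (x : A) (k : Fin (q + 1) → A) (n : Fin (q + 1) → ℕ) (j : ℕ) :
    pat x k (n + Pi.single 0 j) = k 0 * x ^ (n 0 + j) * pat x (fun g => k g.succ) (fun g => n g.succ) := by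
  rw [pat_succ_ti]
  simp [Fin.succ_ne_zero]

private theorem pat_single_succ_ti {q : ℕ} (x : A) (k : Fin (q + 1) → A) (n : Fin (q + 1) → ℕ) (g : Fin q)
    (j : ℕ) : pat x k (n + Pi.single g.succ j) =
      k 0 * x ^ (n 0) * pat x (fun g => k g.succ) ((fun g => n g.succ) + Pi.single g j) := by
  have e : (fun h : Fin q => (n + Pi.single g.succ j : Fin (q + 1) → ℕ) h.succ) =
      (fun g => n g.succ) + Pi.single g j := by
    funext h
    simp [Pi.single_apply]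
  have e0 : (n + Pi.single g.succ j : Fin (q + 1) → ℕ) 0 = n 0 := by
    simp [(Fin.succ_ne_zero _).symm]
  rw [pat_succ_ti, e, e0]

private theorem J2_ti {q : ℕ} (ξ : S → Λ) (hξ : ∀ s t, ξ s * ξ t = - (ξ t * ξ s)) (x : A)
    (k : Fin (q + 1) → A) (r : Fin (q + 1) → List S) (c d : S) (N b : ℕ)
    (hN : N = ∑ g, (r g).length + 2) (hb : b = ∑ g, (r g).length % 2 + 2) :
    (k 0 ⊗ₜ[ℚ] (1 : Λ)) * ins2 (x ⊗ₜ[ℚ] ξ c) (x ⊗ₜ[ℚ] ξ d) ((r 0).map (fun s => x ⊗ₜ[ℚ] ξ s) ++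
      wrd_ti ξ x (fun g => k g.succ) (fun g => r g.succ)) -
      ∑ g, (((r g).length / 2 + 1 : ℕ) : ℚ) •
        (pat x k ((fun h => (r h).length) + Pi.single g 2) ⊗ₜ[ℚ]
          (xi ξ (List.ofFn r).flatten * (ξ c * ξ d))) ∈ Zs_ti Λ x k N b := by
  induction q generalizing N b with
  | zero =>
    have e : wrd_ti ξ x (fun g : Fin 0 => k g.succ) (fun g => r g.succ) = [] := by simp [wrd_ti]
    rw [e, List.append_nil, ins2_run ξ hξ]
    convert Submodule.zero_mem _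
    rw [sub_eq_zero, Fin.sum_univ_one, mul_smul_comm, Algebra.TensorProduct.tmul_mul_tmul]
    simp [pat, List.ofFn_succ]
  | succ q ih =>
    have e1 := ih (fun g => k g.succ) (fun g => r g.succ) _ _ rfl rfl
    have e4 := J1_ti ξ hξ x (fun g => k g.succ) (fun g => r g.succ) d _ _ rfl rfl
    rw [wrd_succ_ti, ins2_sep, mul_add, mul_add]
    have e2 : wrd_ti ξ x (fun g : Fin (q + 1) => k g.succ) (fun g => r g.succ) = _ := wrd_succ_ti ξ x _ _
    have e3 := congrArg List.prod e2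
    rw [wrd_prod_ti, List.prod_cons] at e3
    have efl : xi ξ (List.ofFn r).flatten =
        xi ξ (r 0) * xi ξ (List.ofFn fun g => r g.succ).flatten := by
      rw [List.ofFn_succ, List.flatten_cons, xi_app_ti]
    set T := ((r (Fin.succ 0)).map (fun s => x ⊗ₜ[ℚ] ξ s) ++
      wrd_ti ξ x (fun g : Fin q => k g.succ.succ) (fun g => r g.succ.succ)) with hT
    have e5 : xi ξ (r 0) * (ξ c * ξ d) * xi ξ (List.ofFn fun g => r g.succ).flatten =
        xi ξ (r 0) * xi ξ (List.ofFn fun g => r g.succ).flatten * (ξ c * ξ d) := by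
      rw [mul_assoc, xi_even ξ hξ, ← mul_assoc]
    have f1 : (k 0 ⊗ₜ[ℚ] (1 : Λ)) * (ins2 (x ⊗ₜ[ℚ] ξ c) (x ⊗ₜ[ℚ] ξ d)
        ((r 0).map fun s => x ⊗ₜ[ℚ] ξ s) * (k (Fin.succ 0) ⊗ₜ[ℚ] (1 : Λ)) * T.prod) =
        (((r 0).length / 2 + 1 : ℕ) : ℚ) • (pat x k ((fun h => (r h).length) + Pi.single 0 2) ⊗ₜ[ℚ]
          (xi ξ (List.ofFn r).flatten * (ξ c * ξ d))) := by
      rw [mul_assoc (ins2 _ _ _), ← e3, ins2_run ξ hξ, smul_mul_assoc, mul_smul_comm,
        Algebra.TensorProduct.tmul_mul_tmul, Algebra.TensorProduct.tmul_mul_tmul,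
        pat_single_zero_ti, efl, one_mul, e5, ← mul_assoc (k 0)]
    have f2 : ∀ g : Fin (q + 1), ((k 0 * x ^ (r 0).length) ⊗ₜ[ℚ] xi ξ (r 0)) *
        ((((r g.succ).length / 2 + 1 : ℕ) : ℚ) •
        (pat x (fun g => k g.succ) ((fun h => (r h.succ).length) + Pi.single g 2) ⊗ₜ[ℚ]
          (xi ξ (List.ofFn fun g => r g.succ).flatten * (ξ c * ξ d)))) =
        (((r g.succ).length / 2 + 1 : ℕ) : ℚ) •
        (pat x k ((fun h => (r h).length) + Pi.single g.succ 2) ⊗ₜ[ℚ]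
          (xi ξ (List.ofFn r).flatten * (ξ c * ξ d))) := by
      intro g
      rw [mul_smul_comm, Algebra.TensorProduct.tmul_mul_tmul, pat_single_succ_ti, efl,
        ← mul_assoc (xi ξ (r 0))]
    have f3 : (k 0 ⊗ₜ[ℚ] (1 : Λ)) * (((r 0).map fun s => x ⊗ₜ[ℚ] ξ s).prod *
        (k (Fin.succ 0) ⊗ₜ[ℚ] (1 : Λ)) * ins2 (x ⊗ₜ[ℚ] ξ c) (x ⊗ₜ[ℚ] ξ d) T) =
        ((k 0 * x ^ (r 0).length) ⊗ₜ[ℚ] xi ξ (r 0)) *
        ((k (Fin.succ 0) ⊗ₜ[ℚ] (1 : Λ)) * ins2 (x ⊗ₜ[ℚ] ξ c) (x ⊗ₜ[ℚ] ξ d) T) := by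
      rw [run_prod_ti, mul_assoc _ _ (ins2 _ _ _), ← mul_assoc (k 0 ⊗ₜ[ℚ] (1 : Λ)),
        Algebra.TensorProduct.tmul_mul_tmul, one_mul]
    have f4 : (k 0 ⊗ₜ[ℚ] (1 : Λ)) * (ins1 (x ⊗ₜ[ℚ] ξ c) ((r 0).map fun s => x ⊗ₜ[ℚ] ξ s) *
        (k (Fin.succ 0) ⊗ₜ[ℚ] (1 : Λ)) * ins1 (x ⊗ₜ[ℚ] ξ d) T) ∈ Zs_ti Λ x k N b := by
      rw [mul_assoc (ins1 _ _), ins1_run ξ hξ]
      split_ifs with h
      · rw [← mul_assoc, Algebra.TensorProduct.tmul_mul_tmul]
        refine Zs_mul_ti x k _ _ _ _ _ ?_ ?_ _ e4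
        · rw [hN, Fin.sum_univ_succ]; ring
        · rw [hb, Fin.sum_univ_succ]; omega
      · simp
    rw [Fin.sum_univ_succ, f1, f3]
    have f5 := Zs_mul_ti x k _ _ (r 0).length N b (by rw [hN, Fin.sum_univ_succ]; ring)
      (by rw [hb, Fin.sum_univ_succ]; omega) (xi ξ (r 0)) e1
    rw [mul_sub, Finset.mul_sum, Finset.sum_congr rfl fun g _ => f2 g] at f5
    have f6 := Submodule.add_mem _ f5 f4
    convert f6 using 1
    abel

private theorem exists_split_ti {q : ℕ} (n : Fin q → ℕ) (l : List S) (h : ∑ g, n g = l.length) :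
    ∃ r : Fin q → List S, (∀ g, (r g).length = n g) ∧ (List.ofFn r).flatten = l := by
  induction q generalizing l with
  | zero =>
    refine ⟨fun _ => [], fun g => g.elim0, ?_⟩
    have : l.length = 0 := by rw [← h]; simp
    rw [List.length_eq_zero_iff] at this
    simp [this]
  | succ q ih =>
    rw [Fin.sum_univ_succ] at h
    obtain ⟨r, h1, h2⟩ := ih (fun g => n g.succ) (l.drop (n 0)) (by rw [List.length_drop]; omega)
    refine ⟨Fin.cons (l.take (n 0)) r, fun g => ?_, ?_⟩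
    · refine Fin.cases ?_ (fun g => ?_) g
      · simp; omega
      · simp [h1]
    · simp [List.ofFn_succ, h2]

private theorem TI_aux_ti {q : ℕ} (ξ : S → Λ) (hξ : ∀ s t, ξ s * ξ t = - (ξ t * ξ s)) (x : A)
    (k : Fin (q + 2) → A)
    (f : A →ₗ[ℚ] ℚ) (β : Λ →ₗ[ℚ] ℚ) (τ : A ⊗[ℚ] Λ →ₗ[ℚ] ℚ)
    (hτ : ∀ (k : A) (w : Λ), τ (k ⊗ₜ[ℚ] w) = f k * β w)
    (full : List S)
    (hβ : ∀ l : List S, l.Perm full → β (xi ξ l) ≠ 0)
    (H2 : ∀ (r : Fin (q + 2) → List S) (c d : S), ((List.ofFn r).flatten ++ [c, d]).Perm full →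
      ∀ (w : List (A ⊗[ℚ] Λ)) (y : A ⊗[ℚ] Λ),
        (List.ofFn fun g => (k g ⊗ₜ[ℚ] (1 : Λ)) :: (r g).map fun s => x ⊗ₜ[ℚ] ξ s).flatten = y :: w →
        w ≠ [] → τ (y * ins2 (x ⊗ₜ[ℚ] ξ c) (x ⊗ₜ[ℚ] ξ d) w) = 0)
    (ε : Fin (q + 2) → ℕ) (hε : ∀ g, ε g ≤ 1)
    (hmax : ∀ n : Fin (q + 2) → ℕ, ∑ g, n g = full.length → ∑ g, ε g < ∑ g, n g % 2 →
      f (pat x k n) = 0)
    (a : Fin (q + 2) → ℕ) (ha : ∑ g, (2 * a g + ε g) + 2 = full.length) :
    ∑ g, ((a g : ℚ) + 1) * f (pat x k fun h => 2 * (a + Pi.single g 1 : Fin (q + 2) → ℕ) h + ε h) = 0 := by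
  obtain ⟨l, c, d, hl⟩ : ∃ l c d, full = l ++ [c, d] := by
    rcases List.eq_nil_or_concat full with h | ⟨l1, d, h⟩
    · rw [h] at ha
      simp at ha
    · rcases List.eq_nil_or_concat l1 with h' | ⟨l2, c, h'⟩
      · rw [h, h'] at ha
        simp at ha
      · exact ⟨l2, c, d, by rw [h, h']; simp⟩
  obtain ⟨r, hr1, hr2⟩ := exists_split_ti (fun g => 2 * a g + ε g) l (by
    rw [hl, List.length_append] at ha
    simpa using ha)
  have hp : ((List.ofFn r).flatten ++ [c, d]).Perm full := by rw [hr2, hl]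
  have h1 := H2 r c d hp _ _ (wrd_succ_ti ξ x k r) (by rw [wrd_succ_ti]; simp)
  have h2 := J2_ti ξ hξ x k r c d _ _ rfl rfl
  have h3 : ∀ z ∈ Zs_ti Λ x k (∑ g, (r g).length + 2) (∑ g, (r g).length % 2 + 2), τ z = 0 := by
    intro z hz
    unfold Zs_ti at hz
    induction hz using Submodule.span_induction with
    | mem z hz =>
      obtain ⟨m, w, h1, h2, rfl⟩ := hz
      rw [hτ, hmax m, zero_mul]
      · rw [h1, ← ha]
        simp only [hr1]
      · refine lt_of_lt_of_le ?_ h2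
        have : ∑ g, (r g).length % 2 = ∑ g, ε g := by
          refine Finset.sum_congr rfl fun g _ => ?_
          rw [hr1]
          have := hε g
          omega
        omega
    | zero => simp
    | add y z _ _ hy hz => rw [map_add, hy, hz, add_zero]
    | smul c y _ hy => rw [map_smul, hy, smul_zero]
  have h4 := h3 _ h2
  rw [map_sub, h1, zero_sub, neg_eq_zero, map_sum] at h4
  have h5 : β (xi ξ (List.ofFn r).flatten * (ξ c * ξ d)) ≠ 0 := by
    have := hβ _ hp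
    rwa [xi_app_ti, show xi ξ [c, d] = ξ c * ξ d by simp [xi]] at this
  have h6 : (∑ g, ((a g : ℚ) + 1) *
      f (pat x k fun h => 2 * (a + Pi.single g 1 : Fin (q + 2) → ℕ) h + ε h)) *
      β (xi ξ (List.ofFn r).flatten * (ξ c * ξ d)) = 0 := by
    rw [← h4, Finset.sum_mul]
    refine Finset.sum_congr rfl fun g _ => ?_
    have e1 : (((r g).length / 2 + 1 : ℕ) : ℚ) = (a g : ℚ) + 1 := by
      have := hε g
      have e : (2 * a g + ε g) / 2 = a g := by omega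
      rw [hr1, e]
      push_cast
      ring
    have e2 : ((fun h => (r h).length) + Pi.single g 2 : Fin (q + 2) → ℕ) =
        fun h => 2 * (a + Pi.single g 1 : Fin (q + 2) → ℕ) h + ε h := by
      funext h
      simp only [Pi.add_apply, hr1, Pi.single_apply]
      split_ifs <;> ring
    rw [map_smul, hτ, smul_eq_mul, e1, e2]
    ring
  exact (mul_eq_zero.1 h6).resolve_right h5

theorem TI {q : ℕ} (hq : 2 ≤ q) (ξ : S → Λ) (hξ : ∀ s t, ξ s * ξ t = - (ξ t * ξ s)) (x : A) (k : Fin q → A)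
    (f : A →ₗ[ℚ] ℚ) (β : Λ →ₗ[ℚ] ℚ) (τ : A ⊗[ℚ] Λ →ₗ[ℚ] ℚ)
    (hτ : ∀ (k : A) (w : Λ), τ (k ⊗ₜ[ℚ] w) = f k * β w)
    (full : List S) (hfull : 2 ≤ full.length)
    (hβ : ∀ l : List S, l.Perm full → β (xi ξ l) ≠ 0)
    (H2 : ∀ (r : Fin q → List S) (c d : S), ((List.ofFn r).flatten ++ [c, d]).Perm full →
      ∀ (w : List (A ⊗[ℚ] Λ)) (y : A ⊗[ℚ] Λ),
        (List.ofFn fun g => (k g ⊗ₜ[ℚ] (1 : Λ)) :: (r g).map fun s => x ⊗ₜ[ℚ] ξ s).flatten = y :: w →
        w ≠ [] → τ (y * ins2 (x ⊗ₜ[ℚ] ξ c) (x ⊗ₜ[ℚ] ξ d) w) = 0)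
    (ε : Fin q → ℕ) (hε : ∀ g, ε g ≤ 1)
    (hmax : ∀ n : Fin q → ℕ, ∑ g, n g = full.length → ∑ g, ε g < ∑ g, n g % 2 →
      f (pat x k n) = 0)
    (a : Fin q → ℕ) (ha : ∑ g, (2 * a g + ε g) + 2 = full.length) :
    ∑ g, ((a g : ℚ) + 1) * f (pat x k fun h => 2 * (a + Pi.single g 1 : Fin q → ℕ) h + ε h) = 0 := by
  obtain ⟨q, rfl⟩ : ∃ q', q = q' + 2 := ⟨q - 2, by omega⟩
  exact TI_aux_ti ξ hξ x k f β τ hτ full hβ H2 ε hε hmax a ha

end Pool.Agent.Helper43.LN
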