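import Mathlib
import Pool.Agent.Helper43.LN.TI

/-!
# LN: from an alternating functional on words to a functional on `A ⊗ Λ` (module II.0)

Letters `Fin q ⊕ Fin p`: `inl i` = `y_i`, `inr s` = odd letters. `A = NC ℚ (Option (Fin q))`,
`x = mon [none]`, `y_i = mon [some i]`, the label of `inl i` is `y_i ⊗ 1`, the label of `inr s` is `x ⊗ ξ s`.

PROOF (complete).
`fill : List (Option (Fin q)) → List (Fin p) → List (Fin q ⊕ Fin p)` replaces the occurrences of
`none` by the letters `inr s` of the second list, in order. For a word `w` let `pt w` be its pattern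
(`inl i ↦ some i`, `inr s ↦ none`) and `od w` the list of its odd letters: `fill (pt w) (od w) = w` and
`((w.map lab).prod) = mon (pt w) ⊗ xi (od w)` (induction on `w`).
The root is `z = inl i₀`. `f` is the linear extension (`lext` of Helper22.LB.Words) of
`P ↦ if P.head? = some (some i₀) and (fill P (finRange p)).Perm letters then F (fill P (finRange p)) else 0`.
`τ = f ⊗ β` (`TensorProduct.lift`).
Key: for `w.Perm letters` with first letter `z`: `od w = (finRange p).map σ` for a permutation `σ`, so
`τ (∏ lab w) = f (mon (pt w)) * β (xi (od w)) = F (fill (pt w) (finRange p)) * sign σ = F w` by `alt`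
(`fill P (l.map σ) = (fill P l).map (Sum.map id σ)`); for `w.Perm letters` with another first letter it is `0`.
(C0) is clear (patterns that start with `none`).
(C1): `RVL_of_evr` with `S = univ`, `c w = if w.head? = some z then F w else 0`; `evr x _ univ c =
x z * evr x _ (univ.erase z) (fun l => F (z :: l)) + ∑ x q * 0 = 0`; then `RVL_perm`.
(C2): the word `y :: w` is `mon [some (π 0)] ⊗ 1 :: w`, `w = (wv.map lab)` for a list `wv` of letters; if `π 0 ≠ i₀` all
values are `0`; if `π 0 = i₀` the left hand side is the sum in `ins` (use `List.map_insertIdx` to pull the labels out).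
(C3): `F (z :: w) = τ (∏ lab)`, and for a word that starts with `z` the pattern is
`pat x (fun g => y_{π g}) n` for the order `π` in which the `y_i` occur and the gap sizes `n`.
-/

set_option autoImplicit false

namespace Pool.Agent.Helper43.LN

open scoped TensorProduct
open Finset Pool.Agent.Helper22.LB

/-- all letters -/
def letters (q p : ℕ) : List (Fin q ⊕ Fin p) :=
  (List.finRange q).map Sum.inl ++ (List.finRange p).map Sum.inr

/-- the odd letter `x` of the pattern algebra -/
noncomputable def xx (q : ℕ) : NC ℚ (Option (Fin q)) := mon ℚ [none]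

/-- the letters `y_i` of the pattern algebra -/
noncomputable def yy {q : ℕ} (i : Fin q) : NC ℚ (Option (Fin q)) := mon ℚ [some i]

/-- alternating functionals on words, root `inl 0`, that vanish on `gl_n` and satisfy the two-letter shuffle
relations -/
structure AltF (q p n : ℕ) (F : List (Fin q ⊕ Fin p) → ℚ) (z : Fin q ⊕ Fin p) : Prop where
  hz : ∃ i, z = Sum.inl i
  alt : ∀ (σ : Equiv.Perm (Fin p)) (w : List (Fin q ⊕ Fin p)), w.Perm (letters q p) →
    F (w.map (Sum.map id σ)) = ((Equiv.Perm.sign σ : ℤ) : ℚ) * F w
  van : ∀ x : Fin q ⊕ Fin p → Matrix (Fin n) (Fin n) ℚ,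
    evr x (univ.erase z).card (univ.erase z) (fun l => F (z :: l)) = 0
  ins : ∀ (c d : Fin q ⊕ Fin p) (l : List (Fin q ⊕ Fin p)), l ≠ [] →
    (z :: c :: d :: l).Perm (letters q p) →
    ∑ j ∈ range (l.length + 1), ∑ k ∈ range (j + 1),
      F (z :: ((l.insertIdx j d).insertIdx k c)) = 0

private def pt {q p : ℕ} (w : List (Fin q ⊕ Fin p)) : List (Option (Fin q)) :=
  w.map (Sum.elim some (fun _ => none))

private def od {q p : ℕ} (w : List (Fin q ⊕ Fin p)) : List (Fin p) := w.filterMap Sum.getRight?

private def fill {q p : ℕ} : List (Option (Fin q)) → List (Fin p) → List (Fin q ⊕ Fin p)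
  | [], _ => []
  | some i :: P, l => Sum.inl i :: fill P l
  | none :: P, [] => fill P []
  | none :: P, s :: l => Sum.inr s :: fill P l

private theorem fill_pt {q p : ℕ} (w : List (Fin q ⊕ Fin p)) : fill (pt w) (od w) = w := by
  induction w with
  | nil => rfl
  | cons a w ih =>
    cases a with
    | inl i =>
      have h1 : pt (Sum.inl i :: w) = some i :: pt w := rfl
      have h2 : od (Sum.inl i :: w) = od w := rfl
      rw [h1, h2, fill, ih]
    | inr s =>
      have h1 : pt (Sum.inr s :: w) = none :: pt w := rfl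
      have h2 : od (Sum.inr s :: w) = s :: od w := rfl
      rw [h1, h2, fill, ih]

private theorem fill_map {q p : ℕ} (σ : Equiv.Perm (Fin p)) (P : List (Option (Fin q))) :
    ∀ l : List (Fin p), fill P (l.map σ) = (fill P l).map (Sum.map id σ) := by
  induction P with
  | nil => intro l; rfl
  | cons a P ih =>
    intro l
    cases a with
    | none =>
      cases l with
      | nil =>
        have := ih []
        simpa only [List.map_nil, fill] using this
      | cons s l => simp only [List.map_cons, fill, ih, Sum.map_inr]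
    | some i => simp only [fill, List.map_cons, ih, Sum.map_inl, id]

private noncomputable def lab {q p : ℕ} {Λ : Type} [Ring Λ] [Algebra ℚ Λ] (ξ : Fin p → Λ) :
    Fin q ⊕ Fin p → NC ℚ (Option (Fin q)) ⊗[ℚ] Λ :=
  Sum.elim (fun i => yy i ⊗ₜ[ℚ] (1 : Λ)) (fun s => xx q ⊗ₜ[ℚ] ξ s)

private theorem prod_lab {q p : ℕ} {Λ : Type} [Ring Λ] [Algebra ℚ Λ] (ξ : Fin p → Λ)
    (w : List (Fin q ⊕ Fin p)) :
    (w.map (lab ξ)).prod = mon ℚ (pt w) ⊗ₜ[ℚ] xi ξ (od w) := by
  induction w with
  | nil =>
    have h1 : pt ([] : List (Fin q ⊕ Fin p)) = [] := rfl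
    have h2 : od ([] : List (Fin q ⊕ Fin p)) = [] := rfl
    rw [h1, h2, mon_nil, xi, List.map_nil, List.map_nil, List.prod_nil, List.prod_nil,
      Algebra.TensorProduct.one_def]
  | cons a w ih =>
    rw [List.map_cons, List.prod_cons, ih]
    cases a with
    | inl i =>
      have h1 : pt (Sum.inl i :: w) = some i :: pt w := rfl
      have h2 : od (Sum.inl i :: w) = od w := rfl
      rw [h1, h2, mon_cons]
      simp only [lab, Sum.elim_inl, yy, Algebra.TensorProduct.tmul_mul_tmul, one_mul]
    | inr s =>
      have h1 : pt (Sum.inr s :: w) = none :: pt w := rfl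
      have h2 : od (Sum.inr s :: w) = s :: od w := rfl
      rw [h1, h2, mon_cons]
      simp only [lab, Sum.elim_inr, xx, xi, Algebra.TensorProduct.tmul_mul_tmul, List.map_cons,
        List.prod_cons]

private theorem ex_ofFn {α : Type*} (L : List α) (n : ℕ) (h : L.length = n) :
    ∃ f : Fin n → α, L = List.ofFn f := by
  subst h
  exact ⟨L.get, (List.ofFn_get L).symm⟩

private theorem ex_perm {p : ℕ} (l : List (Fin p)) (hl : l.Perm (List.finRange p)) :
    ∃ σ : Equiv.Perm (Fin p), l = (List.finRange p).map σ := by
  obtain ⟨f, rfl⟩ := ex_ofFn l p (by rw [hl.length_eq, List.length_finRange])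
  have h1 : Function.Injective f := List.nodup_ofFn.1 (hl.nodup_iff.2 (List.nodup_finRange p))
  refine ⟨Equiv.ofBijective f (Finite.injective_iff_bijective.1 h1), ?_⟩
  rw [List.ofFn_eq_map]
  rfl

private theorem od_letters (q p : ℕ) : od (letters q p) = List.finRange p := by
  rw [od, letters, List.filterMap_append, List.filterMap_map, List.filterMap_map]
  have h1 : Sum.getRight? ∘ (Sum.inl : Fin q → Fin q ⊕ Fin p) = fun _ => none := rfl
  have h2 : Sum.getRight? ∘ (Sum.inr : Fin p → Fin q ⊕ Fin p) = some := rfl
  rw [h1, h2, List.filterMap_some]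
  simp

private theorem od_perm {q p : ℕ} {w : List (Fin q ⊕ Fin p)} (hw : w.Perm (letters q p)) :
    (od w).Perm (List.finRange p) := by
  rw [← od_letters q p]
  exact hw.filterMap _

private theorem map_letters {q p : ℕ} (σ : Equiv.Perm (Fin p)) :
    ((letters q p).map (Sum.map id σ)).Perm (letters q p) := by
  rw [letters, List.map_append, List.map_map, List.map_map]
  refine List.Perm.append ?_ ?_
  · exact List.Perm.refl _
  · have h : (Sum.map id σ ∘ Sum.inr : Fin p → Fin q ⊕ Fin p) = Sum.inr ∘ σ := rfl
    rw [h, ← List.map_map]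
    exact List.Perm.map _ (Equiv.Perm.map_finRange_perm σ)

open Classical in
private noncomputable def phi {q p : ℕ} (F : List (Fin q ⊕ Fin p) → ℚ) (i₀ : Fin q)
    (P : List (Option (Fin q))) : ℚ :=
  if P.head? = some (some i₀) ∧ (fill P (List.finRange p)).Perm (letters q p) then
    F (fill P (List.finRange p)) else 0

private theorem phi_key {q p n : ℕ} (F : List (Fin q ⊕ Fin p) → ℚ) (i₀ : Fin q)
    (hF : AltF q p n F (Sum.inl i₀))
    {Λ : Type} [Ring Λ] [Algebra ℚ Λ] (ξ : Fin p → Λ) (β : Λ →ₗ[ℚ] ℚ)
    (hβ : ∀ σ : Equiv.Perm (Fin p), β (((List.finRange p).map fun i => ξ (σ i)).prod) =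
        ((Equiv.Perm.sign σ : ℤ) : ℚ))
    (w : List (Fin q ⊕ Fin p)) (hw : w.Perm (letters q p)) :
    phi F i₀ (pt w) * β (xi ξ (od w)) = if w.head? = some (Sum.inl i₀) then F w else 0 := by
  obtain ⟨σ, hσ⟩ := ex_perm (od w) (od_perm hw)
  have hb : β (xi ξ (od w)) = ((Equiv.Perm.sign σ : ℤ) : ℚ) := by
    rw [hσ, xi, List.map_map]
    exact hβ σ
  obtain ⟨w₀, hw0⟩ : ∃ w₀, w₀ = fill (pt w) (List.finRange p) := ⟨_, rfl⟩
  have h1 : w = w₀.map (Sum.map id σ) := by
    rw [hw0, ← fill_map, ← hσ, fill_pt]
  have hp : w₀.Perm (letters q p) := by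
    have h2 : w.map (Sum.map id σ.symm) = w₀ := by
      rw [h1, List.map_map]
      have h3 : (Sum.map id σ.symm ∘ Sum.map id σ : Fin q ⊕ Fin p → Fin q ⊕ Fin p) = id := by
        funext a
        cases a <;> simp
      rw [h3, List.map_id]
    rw [← h2]
    exact (hw.map _).trans (map_letters σ.symm)
  have hFw : F w = ((Equiv.Perm.sign σ : ℤ) : ℚ) * F w₀ := by
    rw [← hF.alt σ w₀ hp, ← h1]
  have hh : (pt w).head? = some (some i₀) ↔ w.head? = some (Sum.inl i₀) := by
    cases w with
    | nil => simp [pt]
    | cons a w => cases a <;> simp [pt]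
  rw [phi, hb, ← hw0]
  by_cases h : w.head? = some (Sum.inl i₀)
  · rw [if_pos h, if_pos ⟨hh.2 h, hp⟩, hFw, mul_comm]
  · rw [if_neg h, if_neg (fun h' => h (hh.1 h'.1)), zero_mul]

private theorem flat_perm {α β : Type*} (a : α → β) (b : α → List β) (L : List α) :
    ((L.map fun g => a g :: b g).flatten).Perm (L.map a ++ (L.map b).flatten) := by
  induction L with
  | nil => exact List.Perm.refl _
  | cons g L ih =>
    simp only [List.map_cons, List.flatten_cons, List.cons_append]
    refine List.Perm.cons _ ?_
    refine (ih.append_left (b g)).trans ?_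
    rw [← List.append_assoc, ← List.append_assoc]
    exact List.Perm.append_right _ List.perm_append_comm

private theorem ex_decomp {α : Type*} (P : List (Option α)) :
    ∃ (n : ℕ) (L : List (α × ℕ)), P = List.replicate n none ++
      (L.map fun e => some e.1 :: List.replicate e.2 none).flatten := by
  induction P with
  | nil => exact ⟨0, [], rfl⟩
  | cons a P ih =>
    obtain ⟨n, L, h⟩ := ih
    cases a with
    | none =>
      refine ⟨n + 1, L, ?_⟩
      rw [h, List.replicate_succ, List.cons_append]
    | some i =>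
      refine ⟨0, (i, n) :: L, ?_⟩
      rw [h]
      simp

private theorem decomp_fst {α : Type*} (L : List (α × ℕ)) :
    ((L.map fun e => some e.1 :: List.replicate e.2 none).flatten).filterMap id =
      L.map Prod.fst := by
  induction L with
  | nil => rfl
  | cons e L ih =>
    simp only [List.map_cons, List.flatten_cons, List.filterMap_append, ih]
    have h : (some e.1 :: List.replicate e.2 (none : Option α)).filterMap id = [e.1] := by
      simp
    rw [h]
    rfl

private theorem mon_decomp {q : ℕ} (L : List (Fin q × ℕ)) :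
    mon ℚ ((L.map fun e => some e.1 :: List.replicate e.2 none).flatten) =
      (L.map fun e => yy e.1 * xx q ^ e.2).prod := by
  induction L with
  | nil => exact mon_nil ℚ
  | cons e L ih =>
    rw [List.map_cons, List.flatten_cons, mon_append, ih, List.map_cons, List.prod_cons, mon_cons]
    congr 2
    generalize e.2 = m
    induction m with
    | zero => rw [pow_zero]; exact mon_nil ℚ
    | succ m ihm => rw [List.replicate_succ, mon_cons, ihm, pow_succ']; rfl

private theorem lf_letters (q p : ℕ) :
    (letters q p).filterMap Sum.getLeft? = List.finRange q := by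
  rw [letters, List.filterMap_append, List.filterMap_map, List.filterMap_map]
  have h1 : Sum.getLeft? ∘ (Sum.inr : Fin p → Fin q ⊕ Fin p) = fun _ => none := rfl
  have h2 : Sum.getLeft? ∘ (Sum.inl : Fin q → Fin q ⊕ Fin p) = some := rfl
  rw [h1, h2, List.filterMap_some]
  simp

private theorem pt_filter {q p : ℕ} (w : List (Fin q ⊕ Fin p)) :
    (pt w).filterMap id = w.filterMap Sum.getLeft? := by
  rw [pt, List.filterMap_map]
  congr 1
  funext a
  cases a <;> rfl

private theorem nodup_letters (q p : ℕ) : (letters q p).Nodup := by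
  rw [letters, List.nodup_append]
  refine ⟨(List.nodup_finRange q).map Sum.inl_injective,
    (List.nodup_finRange p).map Sum.inr_injective, ?_⟩
  intro a ha b hb
  obtain ⟨i, _, rfl⟩ := List.mem_map.1 ha
  obtain ⟨s, _, rfl⟩ := List.mem_map.1 hb
  simp

private theorem toFinset_letters (q p : ℕ) : (letters q p).toFinset = univ := by
  ext a
  cases a <;> simp [letters]

theorem init {q p n : ℕ} (F : List (Fin q ⊕ Fin p) → ℚ) (z : Fin q ⊕ Fin p) (hF : AltF q p n F z)
    {Λ : Type} [Ring Λ] [Algebra ℚ Λ] (ξ : Fin p → Λ) (β : Λ →ₗ[ℚ] ℚ)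
    (hξ : ∀ s t, ξ s * ξ t = - (ξ t * ξ s))
    (hβ : ∀ σ : Equiv.Perm (Fin p), β (((List.finRange p).map fun i => ξ (σ i)).prod) =
        ((Equiv.Perm.sign σ : ℤ) : ℚ)) :
    ∃ (f : NC ℚ (Option (Fin q)) →ₗ[ℚ] ℚ) (τ : NC ℚ (Option (Fin q)) ⊗[ℚ] Λ →ₗ[ℚ] ℚ),
      (∀ k w, τ (k ⊗ₜ[ℚ] w) = f k * β w) ∧ (∀ k, f (xx q * k) = 0) ∧
      (∀ π : Equiv.Perm (Fin q), RVL (fun z => τ z) n
        ((List.ofFn fun g => yy (π g) ⊗ₜ[ℚ] (1 : Λ)) ++
          (List.finRange p).map (fun s => xx q ⊗ₜ[ℚ] ξ s))) ∧
      (∀ π : Equiv.Perm (Fin q), ∀ (r : Fin q → List (Fin p)) (c d : Fin p),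
        ((List.ofFn r).flatten ++ [c, d]).Perm (List.finRange p) →
        ∀ (w : List (NC ℚ (Option (Fin q)) ⊗[ℚ] Λ)) (y : NC ℚ (Option (Fin q)) ⊗[ℚ] Λ),
        (List.ofFn fun g => (yy (π g) ⊗ₜ[ℚ] (1 : Λ)) ::
          (r g).map fun s => xx q ⊗ₜ[ℚ] ξ s).flatten = y :: w →
        w ≠ [] → τ (y * ins2 (xx q ⊗ₜ[ℚ] ξ c) (xx q ⊗ₜ[ℚ] ξ d) w) = 0) ∧
      ((∀ (π : Equiv.Perm (Fin q)) (m : Fin q → ℕ), ∑ g, m g = p →
          f (pat (xx q) (fun g => yy (π g)) m) = 0) →
        ∀ w : List (Fin q ⊕ Fin p), (z :: w).Perm (letters q p) → F (z :: w) = 0) := by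
  obtain ⟨i₀, rfl⟩ := hF.hz
  obtain ⟨f, hf⟩ : ∃ f : NC ℚ (Option (Fin q)) →ₗ[ℚ] ℚ, f = lext (phi F i₀) := ⟨_, rfl⟩
  obtain ⟨τ, hτ⟩ : ∃ τ : NC ℚ (Option (Fin q)) ⊗[ℚ] Λ →ₗ[ℚ] ℚ,
      τ = (LinearMap.mul' ℚ ℚ) ∘ₗ TensorProduct.map f β := ⟨_, rfl⟩
  have hτv : ∀ k w, τ (k ⊗ₜ[ℚ] w) = f k * β w := by
    intro k w
    rw [hτ, LinearMap.comp_apply, TensorProduct.map_tmul, LinearMap.mul'_apply]
  have hfm : ∀ P, f (mon ℚ P) = phi F i₀ P := by
    intro P
    rw [hf, lext_mon]
  have hkey : ∀ w : List (Fin q ⊕ Fin p), w.Perm (letters q p) →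
      τ ((w.map (lab ξ)).prod) = if w.head? = some (Sum.inl i₀) then F w else 0 := by
    intro w hw
    rw [prod_lab, hτv, hfm]
    exact phi_key F i₀ hF ξ β hβ w hw
  refine ⟨f, τ, hτv, ?_, ?_, ?_, ?_⟩
  · intro k
    induction k using nc_ind with
    | zero => simp
    | add g h hg hh => rw [mul_add, map_add, hg, hh, add_zero]
    | smul r l =>
      rw [mul_smul_comm, map_smul, xx, ← mon_append, hfm, phi, if_neg, smul_zero]
      rintro ⟨h, _⟩
      simp at h
  · intro π
    have h1 : RVL (fun z => τ z) n ((letters q p).map (lab ξ)) := by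
      refine RVL_of_evr (univ : Finset (Fin q ⊕ Fin p))
        (fun w => if w.head? = some (Sum.inl i₀) then F w else 0) ?_ (lab ξ) τ ?_
        (letters q p) (nodup_letters q p) (toFinset_letters q p)
      · intro x
        have hc : (univ : Finset (Fin q ⊕ Fin p)).card =
            ((univ : Finset (Fin q ⊕ Fin p)).erase (Sum.inl i₀)).card + 1 :=
          (Finset.card_erase_add_one (mem_univ _)).symm
        rw [hc, evr]
        refine Finset.sum_eq_zero fun a _ => ?_
        by_cases ha : a = Sum.inl i₀
        · subst ha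
          have h2 : (fun l : List (Fin q ⊕ Fin p) =>
              if (Sum.inl i₀ :: l).head? = some (Sum.inl i₀) then F (Sum.inl i₀ :: l) else 0) =
              fun l => F (Sum.inl i₀ :: l) := by
            funext l
            simp
          rw [h2, hF.van x, mul_zero]
        · have h2 : (fun l : List (Fin q ⊕ Fin p) =>
              if (a :: l).head? = some (Sum.inl i₀) then F (a :: l) else 0) =
              fun _ => 0 := by
            funext l
            simp [ha]
          rw [h2, evr_zero, mul_zero]
      · intro l hl hl2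
        refine hkey l ?_
        refine List.perm_of_nodup_nodup_toFinset_eq hl (nodup_letters q p) ?_
        rw [hl2, toFinset_letters]
    refine RVL_perm ?_ h1
    rw [letters, List.map_append, List.map_map, List.map_map]
    refine List.Perm.append ?_ (List.Perm.refl _)
    rw [List.ofFn_eq_map]
    have h2 : (List.finRange q).map (fun g => yy (π g) ⊗ₜ[ℚ] (1 : Λ)) =
        ((List.finRange q).map π).map (lab ξ ∘ Sum.inl) := by
      rw [List.map_map]
      rfl
    rw [h2]
    exact (List.Perm.map _ (Equiv.Perm.map_finRange_perm π)).symm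
  · intro π r c d hp w y hw hne
    obtain ⟨W, hW⟩ : ∃ W : List (Fin q ⊕ Fin p), W =
        ((List.finRange q).map fun g => Sum.inl (π g) :: (r g).map Sum.inr).flatten := ⟨_, rfl⟩
    have hWl : W.map (lab ξ) = y :: w := by
      rw [← hw, hW, List.map_flatten, List.map_map, List.ofFn_eq_map]
      congr 1
      refine List.map_congr_left fun g _ => ?_
      simp only [Function.comp_apply, List.map_cons, List.map_map]
      rfl
    have hWp : (W ++ [Sum.inr c, Sum.inr d]).Perm (letters q p) := by
      have h1 := flat_perm (fun g => (Sum.inl (π g) : Fin q ⊕ Fin p)) (fun g => (r g).map Sum.inr)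
        (List.finRange q)
      rw [← hW] at h1
      refine (h1.append_right _).trans ?_
      rw [List.append_assoc, letters]
      refine List.Perm.append ?_ ?_
      · have h2 : (List.finRange q).map (fun g => (Sum.inl (π g) : Fin q ⊕ Fin p)) =
            ((List.finRange q).map π).map Sum.inl := by
          rw [List.map_map]
          rfl
        rw [h2]
        exact List.Perm.map _ (Equiv.Perm.map_finRange_perm π)
      · have h2 := hp.map (Sum.inr : Fin p → Fin q ⊕ Fin p)
        rw [List.map_append, List.map_flatten, List.ofFn_eq_map, List.map_map] at h2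
        exact h2
    cases W with
    | nil => simp at hWl
    | cons v W =>
      rw [List.map_cons, List.cons.injEq] at hWl
      obtain ⟨hy, hw2⟩ := hWl
      have hWne : W ≠ [] := by
        rintro rfl
        exact hne hw2.symm
      have hperm : (v :: Sum.inr c :: Sum.inr d :: W).Perm (letters q p) := by
        refine List.Perm.trans ?_ hWp
        rw [List.cons_append]
        exact List.Perm.cons _ (List.perm_append_comm (l₁ := [Sum.inr c, Sum.inr d]) (l₂ := W))
      have hlc : xx q ⊗ₜ[ℚ] ξ c = lab ξ (Sum.inr c) := rfl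
      have hld : xx q ⊗ₜ[ℚ] ξ d = lab ξ (Sum.inr d) := rfl
      have hins : y * ins2 (xx q ⊗ₜ[ℚ] ξ c) (xx q ⊗ₜ[ℚ] ξ d) w =
          ∑ j ∈ range (W.length + 1), ∑ k ∈ range (j + 1),
            ((v :: ((W.insertIdx j (Sum.inr d)).insertIdx k (Sum.inr c))).map (lab ξ)).prod := by
        rw [ins2, ← hw2, List.length_map, Finset.mul_sum]
        refine Finset.sum_congr rfl fun j _ => ?_
        rw [Finset.mul_sum]
        refine Finset.sum_congr rfl fun k _ => ?_
        rw [List.map_cons, List.prod_cons, hy, List.map_insertIdx, List.map_insertIdx, hlc, hld]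
      have hval : ∀ j ∈ range (W.length + 1), ∀ k ∈ range (j + 1),
          τ ((v :: ((W.insertIdx j (Sum.inr d)).insertIdx k (Sum.inr c))).map (lab ξ)).prod =
          if v = Sum.inl i₀ then F (v :: ((W.insertIdx j (Sum.inr d)).insertIdx k (Sum.inr c)))
            else 0 := by
        intro j hj k hk
        rw [Finset.mem_range] at hj hk
        rw [hkey]
        · simp only [List.head?_cons, Option.some.injEq]
        · refine List.Perm.trans ?_ hperm
          refine List.Perm.cons _ ?_
          have h1 : (W.insertIdx j (Sum.inr d)).Perm (Sum.inr d :: W) :=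
            List.perm_insertIdx _ _ (by omega)
          have h2 : ((W.insertIdx j (Sum.inr d)).insertIdx k (Sum.inr c)).Perm
              (Sum.inr c :: W.insertIdx j (Sum.inr d)) := by
            refine List.perm_insertIdx _ _ ?_
            rw [List.length_insertIdx, if_pos (by omega)]
            omega
          exact h2.trans (h1.cons _)
      rw [hins, map_sum]
      have h3 : ∑ j ∈ range (W.length + 1), τ (∑ k ∈ range (j + 1),
            ((v :: ((W.insertIdx j (Sum.inr d)).insertIdx k (Sum.inr c))).map (lab ξ)).prod) =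
          ∑ j ∈ range (W.length + 1), ∑ k ∈ range (j + 1),
          if v = Sum.inl i₀ then F (v :: ((W.insertIdx j (Sum.inr d)).insertIdx k (Sum.inr c)))
            else 0 := by
        refine Finset.sum_congr rfl fun j hj => ?_
        rw [map_sum]
        exact Finset.sum_congr rfl fun k hk => hval j hj k hk
      rw [h3]
      by_cases hv : v = Sum.inl i₀
      · subst hv
        have h4 := hF.ins (Sum.inr c) (Sum.inr d) W hWne hperm
        rw [← h4]
        refine Finset.sum_congr rfl fun j _ => Finset.sum_congr rfl fun k _ => ?_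
        rw [if_pos rfl]
      · refine Finset.sum_eq_zero fun j _ => Finset.sum_eq_zero fun k _ => ?_
        rw [if_neg hv]
  · intro hpat w hw
    have h1 := hkey (Sum.inl i₀ :: w) hw
    rw [List.head?_cons, if_pos rfl] at h1
    rw [← h1, prod_lab, hτv]
    have h2 : f (mon ℚ (pt (Sum.inl i₀ :: w))) = 0 := by
      obtain ⟨N, L, hL⟩ := ex_decomp (pt (Sum.inl i₀ :: w))
      have hN : N = 0 := by
        cases N with
        | zero => rfl
        | succ N =>
          have h3 : pt (Sum.inl i₀ :: w) = some i₀ :: pt w := rfl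
          rw [h3, List.replicate_succ, List.cons_append, List.cons.injEq] at hL
          simp at hL
      subst hN
      rw [List.replicate_zero, List.nil_append] at hL
      have h4 : (L.map Prod.fst).Perm (List.finRange q) := by
        rw [← decomp_fst, ← hL, pt_filter, ← lf_letters q p]
        exact hw.filterMap _
      have h5 : L.length = q := by
        have := h4.length_eq
        rwa [List.length_map, List.length_finRange] at this
      obtain ⟨e, rfl⟩ := ex_ofFn L q h5
      have h6 : (List.ofFn e).map Prod.fst = List.ofFn (Prod.fst ∘ e) := List.map_ofFn ..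
      rw [h6] at h4
      have h7 : Function.Injective (Prod.fst ∘ e) :=
        List.nodup_ofFn.1 (h4.nodup_iff.2 (List.nodup_finRange q))
      have h8 := hpat (Equiv.ofBijective (Prod.fst ∘ e) (Finite.injective_iff_bijective.1 h7))
        (fun g => (e g).2) (by
          have h9 := congrArg List.length hL
          have h10 : (pt (Sum.inl i₀ :: w)).length = q + p := by
            rw [pt, List.length_map, hw.length_eq, letters, List.length_append, List.length_map,
              List.length_map, List.length_finRange, List.length_finRange]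
          rw [h10, List.length_flatten, List.map_map, List.map_ofFn, List.sum_ofFn] at h9
          simp only [Function.comp_apply, List.length_cons, List.length_replicate,
            Finset.sum_add_distrib, Finset.sum_const, Finset.card_univ, Fintype.card_fin,
            smul_eq_mul, mul_one] at h9
          omega)
      rw [hL, mon_decomp]
      rw [pat] at h8
      rw [List.map_ofFn]
      exact h8
    rw [h2, zero_mul]

end Pool.Agent.Helper43.LN
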