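import Mathlib
import Pool.Agent.LieLow.Contract
import Pool.Agent.Helper43.LN.Grass
import Pool.Agent.Helper43.LN.Straight
import Pool.Agent.Helper43.LN.EvalC
import Pool.Agent.Helper43.LN.Init

/-!
# LN: the top sector vanishes (module T)

PROOF (complete). `Del_eq_dl`, `vl_eq_dv`: `Del c L a = LieLow.dl L c a`, `vl L = LieLow.dv L` (by
induction on `L`, both are the same recursion). `xi ξ l`, `l.Perm (finRange p)`: `l = (finRange p).map σ`, so
`β (xi ξ l) = sign σ ≠ 0`.
`pat_zero`: fix the order `π` and suppose that `f (pat m) ≠ 0` for some `m` with `∑ m = p`; take such an `m` with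
`∑ m g % 2` maximal, `ε g = m g % 2`, `b = ∑ ε`, `D = ∑ m g / 2`, so `p = 2 D + b`, and
`c a = f (pat (2 a + ε))`. It is enough to show `c = 0` on `∑ a = D`.
 If `q + D ≤ n`: `RVL_mono` to `q + D` and `evalC` with `L = []` (`Z = ofFn (fun g => (g, y_{π g}, []))`,
 `rest = finRange p`, `NCi (finRange q) []` from `ncr_nci`).
 Otherwise `κ = q + D - n`; `LieLow.contract_nc` with `K = κ`: (TI) is `TI` (for `D = 0` there is nothing to
 show; `D ≥ 1` gives `2 ≤ p`); `3 κ + q ≤ D + 2` follows from `4 q + p ≤ 3 n + 2` and `2 D ≤ p`; (M): for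
 `L` noncrossing of length `κ` and `a` with `∑ a + κ = D`, `dv L ≤ a`, put `P = a - vl L`; `ncr_nci` gives `L'` with
 `NCi (finRange q) L'`, and `evalC` applies with
 `n = ∑ (P g + 1) + 2 κ`, `p = ∑ (2 P g + ε g) + 6 κ`.
-/

set_option autoImplicit false

namespace Pool.Agent.Helper43.LN

open scoped TensorProduct
open Finset Pool.Agent.Helper22.LB

theorem Del_eq_dl {q : ℕ} (c : (Fin q → ℕ) → ℚ) (L : List (Fin q × Fin q)) (a : Fin q → ℕ) :
    Del c L a = LieLow.dl L c a := by
  induction L generalizing a with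
  | nil => rfl
  | cons p L ih => rw [Del, LieLow.dl_cons, ih, ih]

theorem vl_eq_dv {q : ℕ} (L : List (Fin q × Fin q)) : vl L = LieLow.dv L := by
  induction L with
  | nil => rfl
  | cons p L ih => rw [vl, LieLow.dv_cons, ih]

private theorem perm_ne_top {p : ℕ} {Λ : Type} [Ring Λ] [Algebra ℚ Λ] (ξ : Fin p → Λ)
    (β : Λ →ₗ[ℚ] ℚ)
    (hβ : ∀ σ : Equiv.Perm (Fin p), β (((List.finRange p).map fun i => ξ (σ i)).prod) =
        ((Equiv.Perm.sign σ : ℤ) : ℚ)) (l : List (Fin p)) (hl : l.Perm (List.finRange p)) :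
    β (xi ξ l) ≠ 0 := by
  have hlen : l.length = p := by
    have := hl.length_eq
    simpa using this
  have hnd : l.Nodup := hl.nodup_iff.2 (List.nodup_finRange p)
  let σ : Equiv.Perm (Fin p) := Equiv.ofBijective (fun i => l.get (i.cast hlen.symm)) (by
    rw [Finite.injective_iff_bijective.symm]
    intro i j hij
    have := (List.nodup_iff_injective_get.1 hnd) hij
    simpa using this)
  have e : l = (List.finRange p).map fun i => σ i := by
    apply List.ext_get
    · simp [hlen]
    · intro k h1 h2
      simp [σ]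
  have e2 : xi ξ l = ((List.finRange p).map fun i => ξ (σ i)).prod := by
    rw [xi, e, List.map_map]
    rfl
  rw [e2, hβ]
  rcases Int.units_eq_one_or (Equiv.Perm.sign σ) with h | h <;> rw [h] <;> simp

/-- evaluation on a noncrossing list -/
private theorem ev_top {q p n N : ℕ} {Λ : Type} [Ring Λ] [Algebra ℚ Λ] (ξ : Fin p → Λ)
    (β : Λ →ₗ[ℚ] ℚ) (hξ : ∀ s t, ξ s * ξ t = - (ξ t * ξ s))
    (hβ : ∀ σ : Equiv.Perm (Fin p), β (((List.finRange p).map fun i => ξ (σ i)).prod) =
        ((Equiv.Perm.sign σ : ℤ) : ℚ))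
    (f : NC ℚ (Option (Fin q)) →ₗ[ℚ] ℚ) (τ : NC ℚ (Option (Fin q)) ⊗[ℚ] Λ →ₗ[ℚ] ℚ)
    (hτ : ∀ k w, τ (k ⊗ₜ[ℚ] w) = f k * β w) (hkill : ∀ k, f (xx q * k) = 0)
    (π : Equiv.Perm (Fin q))
    (hR : RVL (fun z => τ z) n ((List.ofFn fun g => yy (π g) ⊗ₜ[ℚ] (1 : Λ)) ++
          (List.finRange p).map (fun s => xx q ⊗ₜ[ℚ] ξ s)))
    (ε : Fin q → ℕ) (hε : ∀ g, ε g ≤ 1) (P : Fin q → ℕ)
    (L : List (Fin q × Fin q)) (hL : NCi (List.finRange q) L)
    (hN : N = ∑ g, (P g + 1) + 2 * L.length)
    (hNn : N ≤ n) (hp : p = ∑ g, (2 * P g + ε g) + 6 * L.length) :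
    Del (fun a => f (pat (xx q) (fun h => yy (π h)) fun g => 2 * a g + ε g)) L (P + vl L) = 0 := by
  have hpat : ∀ a : Fin q → ℕ, cZ f (xx q) ε
      (List.ofFn fun g : Fin q => (g, (yy (π g) : NC ℚ (Option (Fin q))), ([] : List (Fin p)))) a =
      f (pat (xx q) (fun h => yy (π h)) fun g => 2 * a g + ε g) := by
    intro a
    unfold cZ pat
    rw [List.map_ofFn]
    rfl
  have hZ : (List.ofFn fun g : Fin q => (g, (yy (π g) : NC ℚ (Option (Fin q))),
      ([] : List (Fin p)))).map (fun z => z.1) = List.finRange q := by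
    rw [List.map_ofFn]
    exact List.ofFn_id q
  have hsum : ∀ h : Fin q → ℕ, ((List.finRange q).map h).sum = ∑ g, h g := by
    intro h
    rw [← List.ofFn_eq_map, List.sum_ofFn]
  have h := evalC ξ hξ (xx q) f β τ hτ hkill ε hε (List.finRange p)
    (perm_ne_top ξ β hβ) (List.finRange q) L hL (List.nodup_finRange q)
    (List.ofFn fun g : Fin q => (g, (yy (π g) : NC ℚ (Option (Fin q))), ([] : List (Fin p))))
    P (List.finRange p) N hZ (by rw [hsum, hN]) (by rw [hsum, List.length_finRange, ← hp]) (by
      have : ((List.ofFn fun g : Fin q => (g, (yy (π g) : NC ℚ (Option (Fin q))),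
          ([] : List (Fin p)))).map fun z => z.2.2).flatten = [] := by
        rw [List.flatten_eq_nil_iff]
        intro l hl
        rw [List.map_ofFn, List.mem_ofFn] at hl
        obtain ⟨g, hg⟩ := hl
        exact hg.symm
      rw [this, List.nil_append]) (by
      refine RVL_mono hNn ?_
      have e : (List.ofFn fun g : Fin q => (g, (yy (π g) : NC ℚ (Option (Fin q))),
          ([] : List (Fin p)))).map (fun z => z.2.1 ⊗ₜ[ℚ] xi ξ z.2.2) =
          List.ofFn fun g : Fin q => yy (π g) ⊗ₜ[ℚ] (1 : Λ) := by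
        rw [List.map_ofFn]
        congr 1
      rw [e]
      exact hR)
  have e : cZ f (xx q) ε
      (List.ofFn fun g : Fin q => (g, (yy (π g) : NC ℚ (Option (Fin q))), ([] : List (Fin p)))) =
      fun a => f (pat (xx q) (fun h => yy (π h)) fun g => 2 * a g + ε g) := funext hpat
  rw [e] at h
  exact h

/-- An alternating functional with `q` other letters, `4 q + p ≤ 3 n + 2`, is zero. -/
theorem top {q p n : ℕ} (hq : 2 ≤ q) (h : 4 * q + p ≤ 3 * n + 2)
    (F : List (Fin q ⊕ Fin p) → ℚ) (z : Fin q ⊕ Fin p) (hF : AltF q p n F z)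
    (w : List (Fin q ⊕ Fin p)) (hw : (z :: w).Perm (letters q p)) : F (z :: w) = 0 := by
  obtain ⟨Λ, hΛ1, hΛ2, ξ, β, hξ, hβ⟩ := exists_grassmann p
  obtain ⟨f, τ, hτ, hkill, hRV, hIns, hFin⟩ := init F z hF ξ β hξ hβ
  refine hFin (fun π => ?_) w hw
  -- induction on the number of odd exponents
  have key : ∀ (b : ℕ) (m : Fin q → ℕ), ∑ g, m g = p → q - ∑ g, m g % 2 = b →
      f (pat (xx q) (fun g => yy (π g)) m) = 0 := by
    intro b
    induction b using Nat.strong_induction_on with
    | _ b ih =>
      intro m hm hb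
      have hbound : ∀ n : Fin q → ℕ, ∑ g, n g % 2 ≤ q := by
        intro n
        calc ∑ g, n g % 2 ≤ ∑ _g : Fin q, 1 := Finset.sum_le_sum fun g _ => by omega
          _ = q := by simp
      have hmax : ∀ n : Fin q → ℕ, ∑ g, n g = p → ∑ g, m g % 2 < ∑ g, n g % 2 →
          f (pat (xx q) (fun g => yy (π g)) n) = 0 := by
        intro n hn hlt
        have := hbound n
        exact ih (q - ∑ g, n g % 2) (by omega) n hn rfl
      obtain ⟨ε, hεdef⟩ : ∃ ε : Fin q → ℕ, ε = fun g => m g % 2 := ⟨_, rfl⟩
      have hε : ∀ g, ε g ≤ 1 := fun g => by rw [hεdef]; dsimp only; omega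
      obtain ⟨c, hc⟩ : ∃ c : (Fin q → ℕ) → ℚ, c = fun a =>
        f (pat (xx q) (fun g => yy (π g)) fun g => 2 * a g + ε g) := ⟨_, rfl⟩
      obtain ⟨D, hD⟩ : ∃ D, D = ∑ g, m g / 2 := ⟨_, rfl⟩
      have hpD : p = 2 * D + ∑ g, ε g := by
        rw [← hm, hD, Finset.mul_sum, ← Finset.sum_add_distrib]
        refine Finset.sum_congr rfl fun g _ => ?_
        rw [hεdef]
        dsimp only
        omega
      have hmc : f (pat (xx q) (fun g => yy (π g)) m) = c fun g => m g / 2 := by
        rw [hc]
        dsimp only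
        congr 2
        funext g
        rw [hεdef]
        dsimp only
        omega
      rw [hmc]
      have hpw : (List.finRange q).Pairwise (· < ·) := List.pairwise_lt_finRange q
      have hne : List.finRange q ≠ [] := by
        intro h0
        have := congrArg List.length h0
        simp at this
        omega
      -- evaluation
      have hev : ∀ (P : Fin q → ℕ) (L : List (Fin q × Fin q)), NCi (List.finRange q) L →
          ∑ g, P g + 3 * L.length = D → q + D ≤ n + L.length → Del c L (P + vl L) = 0 := by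
        intro P L hL h1 h2
        rw [hc]
        exact ev_top (N := ∑ g, (P g + 1) + 2 * L.length) ξ β hξ hβ f τ hτ hkill π (hRV π) ε hε P L
          hL rfl (by
            rw [Finset.sum_add_distrib]
            simp
            omega) (by
            rw [Finset.sum_add_distrib, ← Finset.mul_sum]
            omega)
      have hall : ∀ a : Fin q → ℕ, ∑ g, a g = D → c a = 0 := by
        by_cases hcase : q + D ≤ n
        · intro a ha
          obtain ⟨L', hL', hN⟩ := ncr_nci (List.finRange q) hpw hne [] (by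
            refine ⟨?_, ?_⟩ <;> simp) (by simp)
          rw [List.perm_nil] at hL'
          subst hL'
          have := hev a [] hN (by simpa using ha) (by simpa using hcase)
          simpa [Del, vl] using this
        · obtain ⟨κ, hκ⟩ : ∃ κ, κ = q + D - n := ⟨_, rfl⟩
          refine LieLow.contract_nc c D κ ?_ ?_ ?_
          · intro a ha
            have hlen : (List.finRange p).length = p := List.length_finRange
            have hTI := TI hq ξ hξ (xx q) (fun g => yy (π g)) f β τ hτ
              (List.finRange p) (by rw [hlen]; omega) (perm_ne_top ξ β hβ)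
              (fun r c d hr w y hwy hw0 => hIns π r c d hr w y hwy hw0) ε hε
              (by
                rw [hlen, hεdef]
                exact hmax) a (by
                rw [hlen, Finset.sum_add_distrib, ← Finset.mul_sum]
                omega)
            rw [hc]
            exact hTI
          · omega
          · intro L hLlen hLlt hLnc a ha hdv
            have hNCr : NCr L := ⟨hLlt, hLnc⟩
            obtain ⟨L', hL', hN⟩ := ncr_nci (List.finRange q) hpw hne L hNCr
              (fun p _ => ⟨List.mem_finRange _, List.mem_finRange _⟩)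
            have hlen' : L'.length = κ := by rw [hL'.length_eq, hLlen]
            have hvl : vl L' ≤ a := by
              rw [vl_perm hL', vl_eq_dv]
              exact hdv
            obtain ⟨P, hP⟩ : ∃ P : Fin q → ℕ, a = P + vl L' :=
              ⟨a - vl L', (tsub_add_cancel_of_le hvl).symm⟩
            subst hP
            rw [← Del_eq_dl, ← Del_perm c hL']
            have hs : ∑ g, (P + vl L' : Fin q → ℕ) g = ∑ g, P g + 2 * L'.length := by
              simp only [Pi.add_apply]
              rw [Finset.sum_add_distrib, sum_vl]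
            rw [hs] at ha
            exact hev P L' hN (by omega) (by omega)
      exact hall _ hD.symm
  exact fun m hm => key _ m hm rfl

end Pool.Agent.Helper43.LN
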