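import Mathlib
import Pool.Agent.Helper43.LN.Cactus
import Pool.Agent.Helper43.LN.Top

/-!
# LN: there is no functional, `V(2n+e, n) = 0` (module F.1)

PROOF (complete) of `V_zero`: suppose `F w₀ ≠ 0`. `cactus_main` (`7 e ≤ n + 8`, `e ≥ 2` give `n ≥ 6` and
`7 e < 2 n + 4`) gives `T`, put `p = T.card`, `q = 2 (e - 1) ≥ 2`, `G w = ∑_{σ ∈ P_T} sign σ * F (w.map σ)`,
`P_T` the permutations that fix all `x ∉ T` (a subgroup). Choose `z ∉ T` (`q ≥ 1`) and a bijection
`φ : Fin q ⊕ Fin p ≃ Fin N` that maps `inr` onto `T` and (some) `inl i` to `z`. `F' w = G (w.map φ)`. Then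
`AltF q p n F' (φ.symm z)`:
 `alt`: for `σ : Perm (Fin p)`, `ρ = φ ∘ (id ⊕ σ) ∘ φ⁻¹ ∈ P_T` has the same sign, and `G (w.map ρ) = sign ρ * G w` (reindex
 the sum by `σ' ↦ σ' * ρ`, `(w.map ρ).map σ' = w.map (σ' * ρ)`).
 `van`: for each `σ ∈ P_T` (`σ z = z`) the function `l ↦ F (z :: l.map (σ ∘ φ))` on words in the letters of
 `univ.erase (φ.symm z)`: `evr` with renamed letters: `evr x k S (fun l => c (l.map ψ)) = evr (x ∘ ψ⁻¹) k (S.map ψ) c` for
 an equivalence `ψ` (induction on `k`), here `ψ = σ ∘ φ`, then `hvan z`; the sum over `σ` with signs: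
 `evr_add`, `evr_smul` (induction over the Finset).
 `ins`: for each `σ`: `hins z (σ φ c) (σ φ d) (l.map (σ ∘ φ))` (`List.map_insertIdx`).
 `top` (`4 q + p ≤ 3 n + 2` is `7 e ≤ n + 8` as `q + p = 2 n + e`) gives `G (z :: w) = 0` for all permutations `z :: w` of
 all letters; `G` is cyclic (`hcyc`), so `G w = 0` for all `w.Perm (finRange N)`, a contradiction.
-/

set_option autoImplicit false

namespace Pool.Agent.Helper43.LN

open Finset Pool.Agent.Helper22.LB

theorem evr_equiv {K : Type*} [Field K] {V V' : Type*} [DecidableEq V] [DecidableEq V'] {n : ℕ}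
    (ψ : V ≃ V') (k : ℕ) (S : Finset V) (x : V → Matrix (Fin n) (Fin n) K) (c : List V' → K) :
    evr x k S (fun l => c (l.map ψ)) = evr (fun v => x (ψ.symm v)) k (S.map ψ.toEmbedding) c := by
  induction k generalizing S c with
  | zero => simp [evr]
  | succ k ih =>
    simp only [evr]
    rw [Finset.sum_map]
    refine Finset.sum_congr rfl fun q _ => ?_
    have h := ih (S.erase q) (fun l => c (ψ q :: l))
    simp only [List.map_cons]
    rw [h, Finset.map_erase, Equiv.coe_toEmbedding, Equiv.symm_apply_apply]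

private theorem evr_sum {K : Type*} [Field K] {V : Type*} [DecidableEq V] {n : ℕ} {ι : Type*}
    (x : V → Matrix (Fin n) (Fin n) K) (k : ℕ) (S : Finset V) (P : Finset ι) (r : ι → K)
    (c : ι → List V → K) (h : ∀ i ∈ P, evr x k S (c i) = 0) :
    evr x k S (fun l => ∑ i ∈ P, r i * c i l) = 0 := by
  classical
  induction P using Finset.induction_on with
  | empty => simpa using evr_zero x k S
  | insert i P hi ih =>
    have e : (fun l => ∑ j ∈ insert i P, r j * c j l) =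
        fun l => (r i • c i l) + ∑ j ∈ P, r j * c j l := by
      funext l
      rw [Finset.sum_insert hi, smul_eq_mul]
    rw [e, evr_add x k S (fun l => r i • c i l) (fun l => ∑ j ∈ P, r j * c j l), evr_smul,
      h i (mem_insert_self ..), smul_zero, zero_add]
    exact ih fun j hj => h j (mem_insert_of_mem hj)

private theorem letters_nodup (q p : ℕ) : (letters q p).Nodup := by
  rw [letters, List.nodup_append]
  refine ⟨(List.nodup_finRange q).map Sum.inl_injective,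
    (List.nodup_finRange p).map Sum.inr_injective, ?_⟩
  intro a ha b hb
  obtain ⟨i, _, rfl⟩ := List.mem_map.1 ha
  obtain ⟨s, _, rfl⟩ := List.mem_map.1 hb
  simp

private theorem mem_letters {q p : ℕ} (a : Fin q ⊕ Fin p) : a ∈ letters q p := by
  cases a <;> simp [letters]

private theorem letters_map {q p N : ℕ} (ψ : Fin q ⊕ Fin p ≃ Fin N) :
    ((letters q p).map ψ).Perm (List.finRange N) := by
  refine (List.perm_ext_iff_of_nodup ((letters_nodup q p).map ψ.injective)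
    (List.nodup_finRange N)).2 fun a => ?_
  constructor
  · intro _
    exact List.mem_finRange a
  · intro _
    exact List.mem_map.2 ⟨ψ.symm a, mem_letters _, ψ.apply_symm_apply a⟩

private theorem map_symm {q p N : ℕ} (φ : Fin q ⊕ Fin p ≃ Fin N) (w : List (Fin N))
    (hw : w.Perm (List.finRange N)) : (w.map φ.symm).Perm (letters q p) := by
  have h := (hw.trans (letters_map φ).symm).map φ.symm
  rw [List.map_map] at h
  have e : (φ.symm ∘ φ : Fin q ⊕ Fin p → Fin q ⊕ Fin p) = id := by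
    funext a
    simp
  rwa [e, List.map_id] at h

private def PT {N : ℕ} (T : Finset (Fin N)) : Finset (Equiv.Perm (Fin N)) :=
  univ.filter (fun σ : Equiv.Perm (Fin N) => ∀ x, x ∉ T → σ x = x)

private def GG {N : ℕ} (T : Finset (Fin N)) (F : List (Fin N) → ℚ) (w : List (Fin N)) : ℚ :=
  ∑ σ ∈ PT T, ((Equiv.Perm.sign σ : ℤ) : ℚ) * F (w.map σ)

private theorem sgn_sq {N : ℕ} (ρ : Equiv.Perm (Fin N)) :
    ((Equiv.Perm.sign ρ : ℤ) : ℚ) * ((Equiv.Perm.sign ρ : ℤ) : ℚ) = 1 := by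
  rcases Int.units_eq_one_or (Equiv.Perm.sign ρ) with h | h <;> simp [h]

private theorem GG_alt {N : ℕ} (T : Finset (Fin N)) (F : List (Fin N) → ℚ) (w : List (Fin N))
    (ρ : Equiv.Perm (Fin N)) (hρ : ρ ∈ PT T) :
    GG T F (w.map ρ) = ((Equiv.Perm.sign ρ : ℤ) : ℚ) * GG T F w := by
  have hr : ∀ x, x ∉ T → ρ x = x := (mem_filter.1 hρ).2
  have hr' : ∀ x, x ∉ T → ρ⁻¹ x = x := by
    intro x hx
    rw [Equiv.Perm.inv_eq_iff_eq]
    exact (hr x hx).symm
  rw [GG, GG, Finset.mul_sum]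
  refine Finset.sum_nbij' (fun σ => σ * ρ) (fun σ => σ * ρ⁻¹) ?_ ?_ ?_ ?_ ?_
  · intro σ hσ
    refine mem_filter.2 ⟨mem_univ _, fun x hx => ?_⟩
    rw [Equiv.Perm.mul_apply, hr x hx]
    exact (mem_filter.1 hσ).2 x hx
  · intro σ hσ
    refine mem_filter.2 ⟨mem_univ _, fun x hx => ?_⟩
    rw [Equiv.Perm.mul_apply, hr' x hx]
    exact (mem_filter.1 hσ).2 x hx
  · intro σ _
    exact mul_inv_cancel_right σ ρ
  · intro σ _
    exact inv_mul_cancel_right σ ρ
  · intro σ _
    have e : (σ ∘ ρ : Fin N → Fin N) = ⇑(σ * ρ) := rfl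
    rw [List.map_map, Equiv.Perm.sign_mul, e]
    have h := sgn_sq ρ
    push_cast
    linear_combination (-((Equiv.Perm.sign σ : ℤ) : ℚ) * F (w.map (σ ∘ ρ))) * h

private theorem GG_cyc {N : ℕ} (T : Finset (Fin N)) (F : List (Fin N) → ℚ)
    (hcyc : ∀ l l', F (l ++ l') = F (l' ++ l)) (l l' : List (Fin N)) :
    GG T F (l ++ l') = GG T F (l' ++ l) := by
  rw [GG, GG]
  refine Finset.sum_congr rfl fun σ _ => ?_
  rw [List.map_append, List.map_append, hcyc]

/-- The functional of the words in `Fin q ⊕ Fin p`. -/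
private theorem GG_cons {q p N : ℕ} (T : Finset (Fin N)) (F : List (Fin N) → ℚ)
    (φ : Fin q ⊕ Fin p ≃ Fin N) (z : Fin q ⊕ Fin p) (hz : φ z ∉ T) (l : List (Fin q ⊕ Fin p)) :
    GG T F ((z :: l).map φ) =
      ∑ σ ∈ PT T, ((Equiv.Perm.sign σ : ℤ) : ℚ) * F (φ z :: l.map (φ.trans σ)) := by
  rw [GG]
  refine Finset.sum_congr rfl fun σ hσ => ?_
  rw [List.map_cons, List.map_cons, (mem_filter.1 hσ).2 _ hz, List.map_map]
  rfl

private theorem altF {q p N n : ℕ} (T : Finset (Fin N)) (F : List (Fin N) → ℚ)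
    (hvan : ∀ z, ∀ x : Fin N → Matrix (Fin n) (Fin n) ℚ,
      evr x (univ.erase z).card (univ.erase z) (fun l => F (z :: l)) = 0)
    (hins : ∀ (z c d : Fin N) (l : List (Fin N)), l ≠ [] →
      (z :: c :: d :: l).Perm (List.finRange N) →
      ∑ j ∈ range (l.length + 1), ∑ k ∈ range (j + 1),
        F (z :: ((l.insertIdx j d).insertIdx k c)) = 0)
    (φ : Fin q ⊕ Fin p ≃ Fin N) (h1 : ∀ i, φ (Sum.inl i) ∉ T) (h0 : ∀ s, φ (Sum.inr s) ∈ T)
    (i₀ : Fin q) :
    AltF q p n (fun w => GG T F (w.map φ)) (Sum.inl i₀) := by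
  have hψz : ∀ σ ∈ PT T, (φ.trans σ) (Sum.inl i₀) = φ (Sum.inl i₀) := by
    intro σ hσ
    rw [Equiv.trans_apply]
    exact (mem_filter.1 hσ).2 _ (h1 i₀)
  refine ⟨⟨i₀, rfl⟩, ?_, ?_, ?_⟩
  · intro σ w _
    obtain ⟨ρ, hρ⟩ : ∃ ρ : Equiv.Perm (Fin N), ρ =
        (φ.symm.trans (Equiv.Perm.sumCongr 1 σ)).trans φ := ⟨_, rfl⟩
    have hs : Equiv.Perm.sign ρ = Equiv.Perm.sign σ := by
      rw [hρ, Equiv.Perm.sign_symm_trans_trans, Equiv.Perm.sign_sumCongr, Equiv.Perm.sign_one,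
        one_mul]
    have hm : ρ ∈ PT T := by
      refine mem_filter.2 ⟨mem_univ _, fun x hx => ?_⟩
      obtain ⟨a, rfl⟩ := φ.surjective x
      rw [hρ, Equiv.trans_apply, Equiv.trans_apply, Equiv.symm_apply_apply]
      cases a with
      | inl i => rfl
      | inr s =>
        exact absurd (h0 s) hx
    have hw : (w.map (Sum.map id σ)).map φ = (w.map φ).map ρ := by
      rw [List.map_map, List.map_map]
      refine List.map_congr_left fun a _ => ?_
      rw [Function.comp_apply, Function.comp_apply, hρ, Equiv.trans_apply, Equiv.trans_apply,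
        Equiv.symm_apply_apply]
      cases a <;> rfl
    change GG T F ((w.map (Sum.map id σ)).map φ) = _ * GG T F (w.map φ)
    rw [hw, GG_alt T F _ ρ hm, hs]
  · intro x
    have e : (fun l => (fun w => GG T F (w.map φ)) (Sum.inl i₀ :: l)) =
        fun l => ∑ σ ∈ PT T, ((Equiv.Perm.sign σ : ℤ) : ℚ) *
          F (φ (Sum.inl i₀) :: l.map (φ.trans σ)) := by
      funext l
      exact GG_cons T F φ _ (h1 i₀) l
    rw [e]
    refine evr_sum x _ _ (PT T) (fun σ => ((Equiv.Perm.sign σ : ℤ) : ℚ))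
      (fun σ l => F (φ (Sum.inl i₀) :: l.map (φ.trans σ))) fun σ hσ => ?_
    have h2 := evr_equiv (φ.trans σ) (univ.erase (Sum.inl i₀ : Fin q ⊕ Fin p)).card
      (univ.erase (Sum.inl i₀ : Fin q ⊕ Fin p)) x (fun l => F (φ (Sum.inl i₀) :: l))
    have h3 : (univ.erase (Sum.inl i₀ : Fin q ⊕ Fin p)).map (φ.trans σ).toEmbedding =
        univ.erase (φ (Sum.inl i₀)) := by
      rw [Finset.map_erase, Finset.map_univ_equiv, Equiv.coe_toEmbedding, hψz σ hσ]
    have h4 : (univ.erase (Sum.inl i₀ : Fin q ⊕ Fin p)).card =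
        (univ.erase (φ (Sum.inl i₀))).card := by
      rw [← h3, Finset.card_map]
    rw [h3] at h2
    rw [h2, h4]
    exact hvan _ _
  · intro c d l hl hp
    have e : ∀ j k, (fun w => GG T F (w.map φ)) (Sum.inl i₀ :: ((l.insertIdx j d).insertIdx k c)) =
        ∑ σ ∈ PT T, ((Equiv.Perm.sign σ : ℤ) : ℚ) *
          F (φ (Sum.inl i₀) :: (((l.map (φ.trans σ)).insertIdx j (φ.trans σ d)).insertIdx k
            (φ.trans σ c))) := by
      intro j k
      refine (GG_cons T F φ _ (h1 i₀) _).trans ?_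
      refine Finset.sum_congr rfl fun σ _ => ?_
      rw [List.map_insertIdx, List.map_insertIdx]
    simp only [e]
    have h2 : ∀ j ∈ range (l.length + 1),
        (∑ k ∈ range (j + 1), ∑ σ ∈ PT T, ((Equiv.Perm.sign σ : ℤ) : ℚ) *
          F (φ (Sum.inl i₀) :: (((l.map (φ.trans σ)).insertIdx j (φ.trans σ d)).insertIdx k
            (φ.trans σ c)))) =
        ∑ σ ∈ PT T, ∑ k ∈ range (j + 1), ((Equiv.Perm.sign σ : ℤ) : ℚ) *
          F (φ (Sum.inl i₀) :: (((l.map (φ.trans σ)).insertIdx j (φ.trans σ d)).insertIdx k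
            (φ.trans σ c))) := fun j _ => Finset.sum_comm
    rw [Finset.sum_congr rfl h2, Finset.sum_comm]
    refine Finset.sum_eq_zero fun σ hσ => ?_
    have h3 := hins (φ (Sum.inl i₀)) (φ.trans σ c) (φ.trans σ d) (l.map (φ.trans σ))
      (by simpa using hl) (by
        have h4 := (hp.map (φ.trans σ)).trans (letters_map (φ.trans σ))
        rw [List.map_cons, List.map_cons, List.map_cons, hψz σ hσ] at h4
        exact h4)
    rw [List.length_map] at h3
    rw [← mul_zero ((Equiv.Perm.sign σ : ℤ) : ℚ), ← h3, Finset.mul_sum]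
    refine Finset.sum_congr rfl fun j _ => ?_
    rw [Finset.mul_sum]

theorem V_zero {N n e : ℕ} (hN : N = 2 * n + e) (he : 2 ≤ e) (h7 : 7 * e ≤ n + 8)
    (F : List (Fin N) → ℚ) (hcyc : ∀ l l', F (l ++ l') = F (l' ++ l))
    (hvan : ∀ z, ∀ x : Fin N → Matrix (Fin n) (Fin n) ℚ,
      evr x (univ.erase z).card (univ.erase z) (fun l => F (z :: l)) = 0)
    (hins : ∀ (z c d : Fin N) (l : List (Fin N)), l ≠ [] →
      (z :: c :: d :: l).Perm (List.finRange N) →
      ∑ j ∈ range (l.length + 1), ∑ k ∈ range (j + 1),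
        F (z :: ((l.insertIdx j d).insertIdx k c)) = 0)
    (w : List (Fin N)) (hw : w.Perm (List.finRange N)) : F w = 0 := by
  by_contra hF
  obtain ⟨T, hT, w₁, hw₁, hne⟩ := cactus_main hN he (by omega) F hcyc hvan w hw hF
  apply hne
  change GG T F w₁ = 0
  obtain ⟨q, hq⟩ : ∃ q, q = 2 * (e - 1) := ⟨_, rfl⟩
  obtain ⟨p, hp⟩ : ∃ p, p = T.card := ⟨_, rfl⟩
  have hcT : Fintype.card {x // x ∈ T} = Fintype.card (Fin p) := by
    rw [Fintype.card_coe, Fintype.card_fin, hp]
  have hcT' : Fintype.card {x // x ∉ T} = Fintype.card (Fin q) := by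
    rw [Fintype.card_subtype_compl, Fintype.card_coe, Fintype.card_fin, Fintype.card_fin]
    omega
  obtain ⟨e1⟩ : Nonempty (Fin p ≃ {x // x ∈ T}) := ⟨(Fintype.equivOfCardEq hcT).symm⟩
  obtain ⟨e2⟩ : Nonempty (Fin q ≃ {x // x ∉ T}) := ⟨(Fintype.equivOfCardEq hcT').symm⟩
  obtain ⟨φ, hφ⟩ : ∃ φ : Fin q ⊕ Fin p ≃ Fin N, φ =
      (Equiv.sumComm (Fin q) (Fin p)).trans ((Equiv.sumCongr e1 e2).trans
        (Equiv.sumCompl (fun x => x ∈ T))) := ⟨_, rfl⟩
  have h1 : ∀ i, φ (Sum.inl i) ∉ T := by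
    intro i
    rw [hφ]
    exact (e2 i).2
  have h2 : ∀ s, φ (Sum.inr s) ∈ T := by
    intro s
    rw [hφ]
    exact (e1 s).2
  obtain ⟨i₀⟩ : Nonempty (Fin q) := ⟨⟨0, by omega⟩⟩
  have hA : AltF q p n (fun w => GG T F (w.map φ)) (Sum.inl i₀) :=
    altF T F hvan hins φ h1 h2 i₀
  have hz : φ (Sum.inl i₀) ∈ w₁ := hw₁.mem_iff.2 (List.mem_finRange _)
  obtain ⟨l, l', rfl⟩ := List.append_of_mem hz
  rw [GG_cyc T F hcyc, List.cons_append]
  have h3 : (φ (Sum.inl i₀) :: (l' ++ l)).Perm (List.finRange N) := by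
    refine List.Perm.trans ?_ hw₁
    rw [← List.cons_append]
    exact List.perm_append_comm
  have h4 := map_symm φ _ h3
  rw [List.map_cons, Equiv.symm_apply_apply] at h4
  have h5 := top (by omega) (by omega) _ _ hA _ h4
  have h6 : (Sum.inl i₀ :: (l' ++ l).map φ.symm).map φ = φ (Sum.inl i₀) :: (l' ++ l) := by
    rw [List.map_cons, List.map_map]
    have e : (φ ∘ φ.symm : Fin N → Fin N) = id := by
      funext a
      simp
    rw [e, List.map_id]
  rw [← h6]
  exact h5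

end Pool.Agent.Helper43.LN
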