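import Mathlib
import Pool.Agent.Helper22.LB.Final
import Pool.Agent.Helper43.LN.VZero

/-!
# LN: injectivity (module F.2)

PROOF (complete) of `inj_low`: as `inj_main` in Pool/Agent/Helper22/LB/Final.lean with `k = 2 n + e - 2` in
place of `2 n` (`exists_cycData n k a hid` gives `D : CycData K (k+1) n` and the coefficients `a τ` are
values `D.F (z :: l)`; copy the proof). It remains that all `D.F (l : Cycle _)`, `l.Perm (finRange N)`,
`N = k + 2 = 2 n + e`, vanish. If `D.F (w₀ : Cycle _) ≠ 0` choose a `ℚ`-linear map `ℓ : K → ℚ` with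
`ℓ (D.F w₀) ≠ 0` (`K` is a `ℚ`-vector space: `Module.exists_dual_forall_apply_eq_zero_iff` or
`Module.forall_dual_apply_eq_zero_iff`), `F l = ℓ (D.F (l : Cycle _))`; this is cyclic
(`Cycle.coe_eq_coe`, `List.isRotated_append`).
 `hvan`: for `x : Fin N → Matrix (Fin n) (Fin n) ℚ` and its image `x'` over `K`
 (`(x v).map (algebraMap ℚ K)`), `(evr x' k S c) i j` is mapped by `ℓ` to `(evr x k S (ℓ ∘ c)) i j`
 (`evr_alg`, induction on `k`), and `evr x' _ _ (fun l => D.F (z :: l)) = evr x' _ _ (fun l => cf l (D.g z)) = ev x' (D.g z)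
 = 0` (`D.root`, `ev_eq_evr`, `D.deg`, `D.idn`; the words `l` in `evr` for the set `univ.erase z` do not contain `z`, prove a
 congruence lemma for `evr`: only the words without duplicates in the set matter).
 `hins`: `IsLie.insert2` for `D.lie z` and `D.root`.
 Then `V_zero` gives a contradiction.
-/

set_option autoImplicit false

namespace Pool.Agent.Helper43.LN

open Finset Pool.Agent.Helper22.LB Pool.Agent.Helper49.SL

attribute [local instance 100] LieRing.ofAssociativeRing

theorem evr_alg {K : Type*} [Field K] [CharZero K] {V : Type*} [DecidableEq V] {n : ℕ}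
    (ℓ : K →ₗ[ℚ] ℚ) (x : V → Matrix (Fin n) (Fin n) ℚ) (k : ℕ) (S : Finset V) (c : List V → K)
    (i j : Fin n) :
    ℓ (evr (fun v => (x v).map (algebraMap ℚ K)) k S c i j) =
      evr x k S (fun l => ℓ (c l)) i j := by
  induction k generalizing S c i j with
  | zero =>
    simp only [evr, Matrix.smul_apply, smul_eq_mul]
    by_cases h : i = j
    · subst h
      rw [Matrix.one_apply_eq, Matrix.one_apply_eq, mul_one, mul_one]
    · rw [Matrix.one_apply_ne h, Matrix.one_apply_ne h, mul_zero, mul_zero, map_zero]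
  | succ k ih =>
    simp only [evr]
    rw [Matrix.sum_apply, Matrix.sum_apply, map_sum]
    refine Finset.sum_congr rfl fun q _ => ?_
    rw [Matrix.mul_apply, Matrix.mul_apply, map_sum]
    refine Finset.sum_congr rfl fun r _ => ?_
    rw [Matrix.map_apply, ← Algebra.smul_def, map_smul, ih, smul_eq_mul]

private theorem evr_congr {K : Type*} [Field K] {V : Type*} [DecidableEq V] {n : ℕ}
    (x : V → Matrix (Fin n) (Fin n) K) (k : ℕ) :
    ∀ (S : Finset V) (c c' : List V → K), (∀ l, (∀ v ∈ l, v ∈ S) → c l = c' l) →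
      evr x k S c = evr x k S c' := by
  induction k with
  | zero =>
    intro S c c' h
    simp only [evr]
    rw [h [] (fun v hv => absurd hv List.not_mem_nil)]
  | succ k ih =>
    intro S c c' h
    simp only [evr]
    refine Finset.sum_congr rfl fun q hq => ?_
    rw [ih (S.erase q) (fun l => c (q :: l)) (fun l => c' (q :: l))]
    intro l hl
    refine h (q :: l) fun v hv => ?_
    rcases List.mem_cons.mp hv with rfl | hv
    · exact hq
    · exact Finset.mem_of_mem_erase (hl v hv)

private theorem F_zero {K : Type*} [Field K] [CharZero K] {m n e : ℕ} (hN : m + 1 = 2 * n + e)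
    (he : 2 ≤ e) (h7 : 7 * e ≤ n + 8) (D : CycData K m n) (w : List (Fin (m + 1)))
    (hw : w.Perm (List.finRange (m + 1))) : D.F (w : Cycle _) = 0 := by
  refine (Module.forall_dual_apply_eq_zero_iff ℚ (D.F (w : Cycle _))).mp fun ℓ => ?_
  refine V_zero hN he h7 (fun l => ℓ (D.F (l : Cycle _))) ?_ ?_ ?_ w hw
  · intro l l'
    have h : ((l ++ l' : List (Fin (m + 1))) : Cycle (Fin (m + 1))) =
        ((l' ++ l : List (Fin (m + 1))) : Cycle (Fin (m + 1))) := by
      rw [Cycle.coe_eq_coe]
      exact List.isRotated_append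
    change ℓ (D.F _) = ℓ (D.F _)
    rw [h]
  · intro z x
    ext i j
    rw [← evr_alg ℓ x _ _ (fun l => D.F ((z :: l : List (Fin (m + 1))) : Cycle _)) i j]
    have h1 : evr (fun v => (x v).map (algebraMap ℚ K)) (univ.erase z).card (univ.erase z)
        (fun l => D.F ((z :: l : List (Fin (m + 1))) : Cycle _)) = 0 := by
      rw [evr_congr _ _ (univ.erase z) _ (fun l => cf l (D.g z)) (fun l hl => D.root z l
        (fun hz => (Finset.mem_erase.mp (hl z hz)).1 rfl)), ← ev_eq_evr _ _ (D.deg z)]
      exact D.idn z _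
    rw [h1]
    simp
  · intro z c d l hl hp
    have hnd : (z :: c :: d :: l).Nodup := hp.nodup_iff.mpr (List.nodup_finRange _)
    rw [List.nodup_cons] at hnd
    have hz := hnd.1
    rw [List.mem_cons, List.mem_cons, not_or, not_or] at hz
    have key := (D.lie z).insert2 c d l hl
    have key2 := congrArg ℓ key
    rw [map_zero] at key2
    rw [← key2, map_sum]
    refine Finset.sum_congr rfl fun j _ => ?_
    rw [map_sum]
    refine Finset.sum_congr rfl fun k _ => ?_
    rw [D.root z]
    intro h
    rcases List.eq_or_mem_of_mem_insertIdx h with h | h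
    · exact hz.1 h
    rcases List.eq_or_mem_of_mem_insertIdx h with h | h
    · exact hz.2.1 h
    · exact hz.2.2 h

theorem inj_low {K : Type*} [Field K] [CharZero K] (n e : ℕ) (he : 2 ≤ e) (h7 : 7 * e ≤ n + 8) :
    Inj K (Matrix (Fin n) (Fin n) K) (2 * n + e - 2) := by
  obtain ⟨k, hk⟩ : ∃ k, 2 * n + e - 2 = k := ⟨_, rfl⟩
  rw [hk]
  intro a ha
  have hid : ∀ x : Fin (k + 1 + 1) → Matrix (Fin n) (Fin n) K, ev x (gpoly k a) = 0 := by
    intro x
    rw [gpoly, map_sum, ← ha (fun i => x (pos (k + 1) i)) (x (pos (k + 1) k))]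
    refine Finset.sum_congr rfl fun τ _ => ?_
    rw [map_smul, ev_rn, adp_foldr, List.map_ofFn]
    rfl
  obtain ⟨D, hD⟩ := exists_cycData n k a hid
  funext τ
  set z := pos (k + 1) (k + 1) with hz
  set y := pos (k + 1) k with hy
  set l := List.ofFn fun i => pos (k + 1) (τ i) with hl
  have hfull := full_multiset k τ
  rw [← hz, ← hy, ← hl] at hfull
  have hnd : (z :: (l ++ [y])).Nodup := by
    have := Finset.nodup (univ : Finset (Fin (k + 1 + 1)))
    rw [← hfull] at this
    exact this
  have hall : ∀ x, x ∈ z :: (l ++ [y]) := by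
    intro x
    have h1 : x ∈ (univ : Finset (Fin (k + 1 + 1))).val := Finset.mem_univ x
    rw [← hfull] at h1
    exact h1
  have hperm : (z :: (l ++ [y])).Perm (List.finRange (k + 1 + 1)) :=
    (List.perm_ext_iff_of_nodup hnd (List.nodup_finRange _)).mpr
      (fun x => ⟨fun _ => List.mem_finRange x, fun _ => hall x⟩)
  have h0 := F_zero (e := e) (by omega) he h7 D (z :: (l ++ [y])) hperm
  rw [hD _ (List.nodup_cons.mp hnd).1, gpoly, map_sum] at h0
  rw [Finset.sum_eq_single τ] at h0
  · have hyl : y ∉ l := by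
      have h1 := (List.nodup_cons.mp hnd).2
      rw [List.nodup_append] at h1
      intro h2
      exact h1.2.2 y h2 y (List.mem_singleton_self _) rfl
    rw [map_smul, cf_rn y _ _ hyl, if_pos rfl, smul_eq_mul, mul_one] at h0
    exact h0
  · intro σ _ hσ
    rw [map_smul, cf_rn, if_neg, smul_zero]
    · intro h1
      apply hσ
      have h2 := List.ofFn_injective h1
      ext i
      have h3 := congrFun h2 i
      have := (pos_inj (by omega) (by omega)).mp h3
      exact this.symm
    · intro h1
      rw [List.mem_ofFn] at h1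
      obtain ⟨i, hi⟩ := h1
      rw [hy, pos_inj (by omega) (by omega)] at hi
      omega
  · intro h1; exact absurd (Finset.mem_univ _) h1

end Pool.Agent.Helper43.LN
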