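import Mathlib
import Pool.Agent.Helper43.LN.Init

/-!
# LN sharp version: merged letters, definitions

`fb f β` is the functional `k ⊗ w ↦ f k * β w`. `Good q p n f`: for every Grassmann family `ξ : Fin p → Λ` and
EVERY linear functional `β` on `Λ` the functional `fb f β` vanishes on the walk sums of all digraphs on `n` vertices
with the labels `y_i ⊗ 1` (all `i`) and `x ⊗ ξ s` (all `s`).
`mrg i f` is the functional `f'` with `f'(u y_i x v) = (-1)^(number of x in u) f(u y_i v)`, and `0` on words in which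
`y_i` is not followed by `x` (`u` does not contain `y_i`).
PROOF of `mrg_word`, `mrg_word_zero`: `lext_mon` and induction on the unread part, for `mw i f u' (u ++ ..)`.
-/

set_option autoImplicit false

namespace Pool.Agent.Helper43.LN

open scoped TensorProduct
open Finset Pool.Agent.Helper22.LB

/-- the functional `k ⊗ w ↦ f k * β w` -/
noncomputable def fb {A Λ : Type*} [Ring A] [Algebra ℚ A] [Ring Λ] [Algebra ℚ Λ]
    (f : A →ₗ[ℚ] ℚ) (β : Λ →ₗ[ℚ] ℚ) : A ⊗[ℚ] Λ →ₗ[ℚ] ℚ :=
  (LinearMap.mul' ℚ ℚ) ∘ₗ TensorProduct.map f β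

theorem fb_tmul {A Λ : Type*} [Ring A] [Algebra ℚ A] [Ring Λ] [Algebra ℚ Λ]
    (f : A →ₗ[ℚ] ℚ) (β : Λ →ₗ[ℚ] ℚ) (k : A) (w : Λ) : fb f β (k ⊗ₜ[ℚ] w) = f k * β w := by
  rw [fb, LinearMap.comp_apply, TensorProduct.map_tmul, LinearMap.mul'_apply]

/-- vanishing on `gl_n` for all Grassmann families and all functionals -/
def Good (q p n : ℕ) (f : NC ℚ (Option (Fin q)) →ₗ[ℚ] ℚ) : Prop :=
  ∀ (Λ : Type) [Ring Λ] [Algebra ℚ Λ] (ξ : Fin p → Λ) (β : Λ →ₗ[ℚ] ℚ),
    (∀ s t, ξ s * ξ t = - (ξ t * ξ s)) →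
    RVL (fun z => fb f β z) n ((List.ofFn fun g : Fin q => yy g ⊗ₜ[ℚ] (1 : Λ)) ++
      (List.finRange p).map (fun s => xx q ⊗ₜ[ℚ] ξ s))

/-- the function on words of the merged functional: `u` is the part already read -/
noncomputable def mw {q : ℕ} (i : Fin q) (f : NC ℚ (Option (Fin q)) →ₗ[ℚ] ℚ) :
    List (Option (Fin q)) → List (Option (Fin q)) → ℚ
  | _, [] => 0
  | u, some j :: none :: v =>
      if j = i then (-1) ^ (u.count none) * f (mon ℚ (u ++ some i :: v))
      else mw i f (u ++ [some j]) (none :: v)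
  | u, a :: v => if a = some i then 0 else mw i f (u ++ [a]) v
termination_by _ l => l.length

/-- the merged functional -/
noncomputable def mrg {q : ℕ} (i : Fin q) (f : NC ℚ (Option (Fin q)) →ₗ[ℚ] ℚ) :
    NC ℚ (Option (Fin q)) →ₗ[ℚ] ℚ := lext (mw i f [])

private theorem mw_step {q : ℕ} (i : Fin q) (f : NC ℚ (Option (Fin q)) →ₗ[ℚ] ℚ)
    (u : List (Option (Fin q))) (a : Option (Fin q)) (l : List (Option (Fin q)))
    (ha : a ≠ some i) : mw i f u (a :: l) = mw i f (u ++ [a]) l := by
  cases a with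
  | none => cases l <;> simp [mw]
  | some j =>
    have hj : j ≠ i := fun h => ha (by rw [h])
    cases l with
    | nil => simp [mw, hj]
    | cons b l =>
      cases b with
      | none => rw [mw, if_neg hj]
      | some k => simp [mw, hj]

private theorem mw_skip {q : ℕ} (i : Fin q) (f : NC ℚ (Option (Fin q)) →ₗ[ℚ] ℚ)
    (u : List (Option (Fin q))) (hu : some i ∉ u) : ∀ (u' l : List (Option (Fin q))),
    mw i f u' (u ++ l) = mw i f (u' ++ u) l := by
  induction u with
  | nil => intro u' l; simp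
  | cons a u ih =>
    intro u' l
    have ha : a ≠ some i := fun h => hu (by simp [h])
    have hu' : some i ∉ u := fun h => hu (List.mem_cons_of_mem _ h)
    rw [List.cons_append, mw_step i f u' a _ ha, ih hu']
    simp

theorem mrg_word {q : ℕ} (i : Fin q) (f : NC ℚ (Option (Fin q)) →ₗ[ℚ] ℚ)
    (u v : List (Option (Fin q))) (hu : some i ∉ u) :
    mrg i f (mon ℚ (u ++ some i :: none :: v)) =
      (-1) ^ (u.count none) * f (mon ℚ (u ++ some i :: v)) := by
  rw [mrg, lext_mon, mw_skip i f u hu, List.nil_append, mw, if_pos rfl]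

theorem mrg_word_zero {q : ℕ} (i : Fin q) (f : NC ℚ (Option (Fin q)) →ₗ[ℚ] ℚ)
    (u v : List (Option (Fin q))) (hu : some i ∉ u) (hv : v.head? ≠ some none) :
    mrg i f (mon ℚ (u ++ some i :: v)) = 0 := by
  rw [mrg, lext_mon, mw_skip i f u hu, List.nil_append]
  cases v with
  | nil => simp [mw]
  | cons b v =>
    cases b with
    | none => exact absurd rfl hv
    | some k => simp [mw]

end Pool.Agent.Helper43.LN
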