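import Mathlib
import Pool.Agent.Helper43.LN.MergeDef

/-!
# LN sharp version: the sharp form of `init`

PROOF: as `init` in Init.lean (the private lemmas can be copied), with the same `f`. The only change: `β` is now an ARBITRARY
linear functional and `Λ, ξ` an arbitrary anticommuting family; instead of `hβ` use
`β (xi ξ ((finRange p).map σ)) = sign σ * β (xi ξ (finRange p))` (from the anticommutation, induction on `σ` as a product of
adjacent transpositions or `Equiv.Perm.mclosure_swap_castSucc_succ`/`swap_induction_on`; best: for all lists `l`, swapping two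
adjacent entries changes the sign of `xi ξ l`, then `Equiv.Perm` induction). So for `w.Perm letters`
`fb f β (∏ lab w) = (if w.head? = some z then F w else 0) * β (xi ξ (finRange p))`, and everything is the old
proof multiplied by the constant `β (xi ξ (finRange p))`. For the last clause (`f` zero on all patterns implies `F = 0`) use the old
proof with the Grassmann algebra of `exists_grassmann` (Grass.lean), or directly `f (mon (pt w)) = ± F w`.
-/

set_option autoImplicit false

namespace Pool.Agent.Helper43.LN

open scoped TensorProduct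
open Finset Pool.Agent.Helper22.LB

private def pt {q p : ℕ} (w : List (Fin q ⊕ Fin p)) : List (Option (Fin q)) :=
  w.map (Sum.elim some (fun _ => none))

private def od {q p : ℕ} (w : List (Fin q ⊕ Fin p)) : List (Fin p) := w.filterMap Sum.getRight?

private def fill {q p : ℕ} : List (Option (Fin q)) → List (Fin p) → List (Fin q ⊕ Fin p)
  | [], _ => []
  | some i :: P, l => Sum.inl i :: fill P l
  | none :: P, [] => fill P []
  | none :: P, s :: l => Sum.inr s :: fill P l

private theorem fill_pt {q p : ℕ} (w : List (Fin q ⊕ Fin p)) : fill (pt w) (od w) = w := by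
  induction w with
  | nil => rfl
  | cons a w ih =>
    cases a with
    | inl i =>
      have h1 : pt (Sum.inl i :: w) = some i :: pt w := rfl
      have h2 : od (Sum.inl i :: w) = od w := rfl
      rw [h1, h2, fill, ih]
    | inr s =>
      have h1 : pt (Sum.inr s :: w) = none :: pt w := rfl
      have h2 : od (Sum.inr s :: w) = s :: od w := rfl
      rw [h1, h2, fill, ih]

private theorem fill_map {q p : ℕ} (σ : Equiv.Perm (Fin p)) (P : List (Option (Fin q))) :
    ∀ l : List (Fin p), fill P (l.map σ) = (fill P l).map (Sum.map id σ) := by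
  induction P with
  | nil => intro l; rfl
  | cons a P ih =>
    intro l
    cases a with
    | none =>
      cases l with
      | nil =>
        have := ih []
        simpa only [List.map_nil, fill] using this
      | cons s l => simp only [List.map_cons, fill, ih, Sum.map_inr]
    | some i => simp only [fill, List.map_cons, ih, Sum.map_inl, id]

private noncomputable def lab {q p : ℕ} {Λ : Type} [Ring Λ] [Algebra ℚ Λ] (ξ : Fin p → Λ) :
    Fin q ⊕ Fin p → NC ℚ (Option (Fin q)) ⊗[ℚ] Λ :=
  Sum.elim (fun i => yy i ⊗ₜ[ℚ] (1 : Λ)) (fun s => xx q ⊗ₜ[ℚ] ξ s)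

private theorem prod_lab {q p : ℕ} {Λ : Type} [Ring Λ] [Algebra ℚ Λ] (ξ : Fin p → Λ)
    (w : List (Fin q ⊕ Fin p)) :
    (w.map (lab ξ)).prod = mon ℚ (pt w) ⊗ₜ[ℚ] xi ξ (od w) := by
  induction w with
  | nil =>
    have h1 : pt ([] : List (Fin q ⊕ Fin p)) = [] := rfl
    have h2 : od ([] : List (Fin q ⊕ Fin p)) = [] := rfl
    rw [h1, h2, mon_nil, xi, List.map_nil, List.map_nil, List.prod_nil, List.prod_nil,
      Algebra.TensorProduct.one_def]
  | cons a w ih =>
    rw [List.map_cons, List.prod_cons, ih]
    cases a with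
    | inl i =>
      have h1 : pt (Sum.inl i :: w) = some i :: pt w := rfl
      have h2 : od (Sum.inl i :: w) = od w := rfl
      rw [h1, h2, mon_cons]
      simp only [lab, Sum.elim_inl, yy, Algebra.TensorProduct.tmul_mul_tmul, one_mul]
    | inr s =>
      have h1 : pt (Sum.inr s :: w) = none :: pt w := rfl
      have h2 : od (Sum.inr s :: w) = s :: od w := rfl
      rw [h1, h2, mon_cons]
      simp only [lab, Sum.elim_inr, xx, xi, Algebra.TensorProduct.tmul_mul_tmul, List.map_cons,
        List.prod_cons]

private theorem ex_ofFn {α : Type*} (L : List α) (n : ℕ) (h : L.length = n) :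
    ∃ f : Fin n → α, L = List.ofFn f := by
  subst h
  exact ⟨L.get, (List.ofFn_get L).symm⟩

private theorem ex_perm {p : ℕ} (l : List (Fin p)) (hl : l.Perm (List.finRange p)) :
    ∃ σ : Equiv.Perm (Fin p), l = (List.finRange p).map σ := by
  obtain ⟨f, rfl⟩ := ex_ofFn l p (by rw [hl.length_eq, List.length_finRange])
  have h1 : Function.Injective f := List.nodup_ofFn.1 (hl.nodup_iff.2 (List.nodup_finRange p))
  refine ⟨Equiv.ofBijective f (Finite.injective_iff_bijective.1 h1), ?_⟩
  rw [List.ofFn_eq_map]
  rfl

private theorem od_letters (q p : ℕ) : od (letters q p) = List.finRange p := by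
  rw [od, letters, List.filterMap_append, List.filterMap_map, List.filterMap_map]
  have h1 : Sum.getRight? ∘ (Sum.inl : Fin q → Fin q ⊕ Fin p) = fun _ => none := rfl
  have h2 : Sum.getRight? ∘ (Sum.inr : Fin p → Fin q ⊕ Fin p) = some := rfl
  rw [h1, h2, List.filterMap_some]
  simp

private theorem od_perm {q p : ℕ} {w : List (Fin q ⊕ Fin p)} (hw : w.Perm (letters q p)) :
    (od w).Perm (List.finRange p) := by
  rw [← od_letters q p]
  exact hw.filterMap _

private theorem map_letters {q p : ℕ} (σ : Equiv.Perm (Fin p)) :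
    ((letters q p).map (Sum.map id σ)).Perm (letters q p) := by
  rw [letters, List.map_append, List.map_map, List.map_map]
  refine List.Perm.append ?_ ?_
  · exact List.Perm.refl _
  · have h : (Sum.map id σ ∘ Sum.inr : Fin p → Fin q ⊕ Fin p) = Sum.inr ∘ σ := rfl
    rw [h, ← List.map_map]
    exact List.Perm.map _ (Equiv.Perm.map_finRange_perm σ)

open Classical in
private noncomputable def phi {q p : ℕ} (F : List (Fin q ⊕ Fin p) → ℚ) (i₀ : Fin q)
    (P : List (Option (Fin q))) : ℚ :=
  if P.head? = some (some i₀) ∧ (fill P (List.finRange p)).Perm (letters q p) then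
    F (fill P (List.finRange p)) else 0

private theorem xi_perm {p : ℕ} {Λ : Type} [Ring Λ] [Algebra ℚ Λ] (ξ : Fin p → Λ)
    (hξ : ∀ s t, ξ s * ξ t = - (ξ t * ξ s)) (σ : Equiv.Perm (Fin p)) :
    xi ξ ((List.finRange p).map σ) = ((Equiv.Perm.sign σ : ℤ) : ℚ) • xi ξ (List.finRange p) := by
  classical
  obtain ⟨g, hg⟩ : ∃ g : (Fin p → ℚ) →ₗ[ℚ] Λ, ∀ m, g m = ∑ s, m s • ξ s :=
    ⟨Fintype.linearCombination ℚ ξ, fun m => Fintype.linearCombination_apply ℚ ξ m⟩
  have hgg : ∀ m, g m * g m = 0 := by
    intro m
    have h1 : g m * g m = ∑ s, ∑ t, (m s * m t) • (ξ s * ξ t) := by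
      rw [hg, Finset.sum_mul_sum]
      refine Finset.sum_congr rfl fun s _ => Finset.sum_congr rfl fun t _ => ?_
      rw [smul_mul_smul_comm]
    have h2 : g m * g m = - (g m * g m) := by
      conv_lhs => rw [h1, Finset.sum_comm]
      rw [h1, ← Finset.sum_neg_distrib]
      refine Finset.sum_congr rfl fun t _ => ?_
      rw [← Finset.sum_neg_distrib]
      refine Finset.sum_congr rfl fun s _ => ?_
      rw [hξ s t, smul_neg, mul_comm (m s)]
    have h3 : (2 : ℚ) • (g m * g m) = 0 := by
      rw [two_smul]
      nth_rewrite 2 [h2]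
      exact add_neg_cancel _
    exact (smul_eq_zero.1 h3).resolve_left (by norm_num)
  obtain ⟨L, hL⟩ : ∃ L : ExteriorAlgebra ℚ (Fin p → ℚ) →ₐ[ℚ] Λ,
      ∀ m, L (ExteriorAlgebra.ι ℚ m) = g m :=
    ⟨ExteriorAlgebra.lift ℚ ⟨g, hgg⟩, fun m => ExteriorAlgebra.lift_ι_apply ℚ g hgg m⟩
  have hs : ∀ s, g (Pi.single s 1) = ξ s := by
    intro s
    rw [hg, Finset.sum_eq_single s]
    · rw [Pi.single_eq_same, one_smul]
    · intro t _ ht
      rw [Pi.single_eq_of_ne ht, zero_smul]
    · intro h
      exact absurd (mem_univ s) h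
  have hM : ∀ τ : Fin p → Fin p, L (ExteriorAlgebra.ιMulti ℚ p
      (fun i => (Pi.single (τ i) (1 : ℚ) : Fin p → ℚ))) = xi ξ ((List.finRange p).map τ) := by
    intro τ
    rw [ExteriorAlgebra.ιMulti_apply, map_list_prod, List.ofFn_eq_map, xi, List.map_map,
      List.map_map]
    congr 1
    refine List.map_congr_left fun i _ => ?_
    simp only [Function.comp_apply]
    rw [hL, hs]
  have h0 := (ExteriorAlgebra.ιMulti ℚ p (M := Fin p → ℚ)).map_perm
    (fun i => (Pi.single i (1 : ℚ) : Fin p → ℚ)) σ
  have h1 := congrArg L h0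
  have h2 : (fun i => (Pi.single i (1 : ℚ) : Fin p → ℚ)) ∘ σ =
      fun i => (Pi.single (σ i) (1 : ℚ) : Fin p → ℚ) := rfl
  have h3 := hM id
  rw [List.map_id] at h3
  rw [h2, hM σ, Units.smul_def, map_zsmul] at h1
  simp only [id] at h3
  rw [h3] at h1
  rw [h1, Int.cast_smul_eq_zsmul]

private theorem phi_key {q p n : ℕ} (F : List (Fin q ⊕ Fin p) → ℚ) (i₀ : Fin q)
    (hF : AltF q p n F (Sum.inl i₀))
    (w : List (Fin q ⊕ Fin p)) (hw : w.Perm (letters q p)) :
    ∃ σ : Equiv.Perm (Fin p), od w = (List.finRange p).map σ ∧ phi F i₀ (pt w) =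
      if w.head? = some (Sum.inl i₀) then ((Equiv.Perm.sign σ : ℤ) : ℚ) * F w else 0 := by
  obtain ⟨σ, hσ⟩ := ex_perm (od w) (od_perm hw)
  refine ⟨σ, hσ, ?_⟩
  obtain ⟨w₀, hw0⟩ : ∃ w₀, w₀ = fill (pt w) (List.finRange p) := ⟨_, rfl⟩
  have h1 : w = w₀.map (Sum.map id σ) := by
    rw [hw0, ← fill_map, ← hσ, fill_pt]
  have hp : w₀.Perm (letters q p) := by
    have h2 : w.map (Sum.map id σ.symm) = w₀ := by
      rw [h1, List.map_map]
      have h3 : (Sum.map id σ.symm ∘ Sum.map id σ : Fin q ⊕ Fin p → Fin q ⊕ Fin p) = id := by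
        funext a
        cases a <;> simp
      rw [h3, List.map_id]
    rw [← h2]
    exact (hw.map _).trans (map_letters σ.symm)
  have hFw : F w = ((Equiv.Perm.sign σ : ℤ) : ℚ) * F w₀ := by
    rw [← hF.alt σ w₀ hp, ← h1]
  have hss : (((Equiv.Perm.sign σ : ℤ) : ℚ)) * ((Equiv.Perm.sign σ : ℤ) : ℚ) = 1 := by
    rcases Int.units_eq_one_or (Equiv.Perm.sign σ) with h | h <;> rw [h] <;> simp
  have hh : (pt w).head? = some (some i₀) ↔ w.head? = some (Sum.inl i₀) := by
    cases w with
    | nil => simp [pt]
    | cons a w => cases a <;> simp [pt]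
  rw [phi, ← hw0]
  by_cases h : w.head? = some (Sum.inl i₀)
  · rw [if_pos h, if_pos ⟨hh.2 h, hp⟩, hFw, ← mul_assoc, hss, one_mul]
  · rw [if_neg h, if_neg (fun h' => h (hh.1 h'.1))]

private theorem evr_mulr {V : Type*} [DecidableEq V] {n : ℕ}
    (x : V → Matrix (Fin n) (Fin n) ℚ) (k : ℕ) : ∀ (S : Finset V) (c : List V → ℚ) (B : ℚ),
    evr x k S (fun l => c l * B) = B • evr x k S c := by
  induction k with
  | zero =>
    intro S c B
    simp only [evr]
    rw [smul_smul, mul_comm]
  | succ k ih =>
    intro S c B
    simp only [evr]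
    rw [Finset.smul_sum]
    refine Finset.sum_congr rfl fun a _ => ?_
    rw [ih, mul_smul_comm]

private theorem flat_perm {α β : Type*} (a : α → β) (b : α → List β) (L : List α) :
    ((L.map fun g => a g :: b g).flatten).Perm (L.map a ++ (L.map b).flatten) := by
  induction L with
  | nil => exact List.Perm.refl _
  | cons g L ih =>
    simp only [List.map_cons, List.flatten_cons, List.cons_append]
    refine List.Perm.cons _ ?_
    refine (ih.append_left (b g)).trans ?_
    rw [← List.append_assoc, ← List.append_assoc]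
    exact List.Perm.append_right _ List.perm_append_comm

private theorem ex_decomp {α : Type*} (P : List (Option α)) :
    ∃ (n : ℕ) (L : List (α × ℕ)), P = List.replicate n none ++
      (L.map fun e => some e.1 :: List.replicate e.2 none).flatten := by
  induction P with
  | nil => exact ⟨0, [], rfl⟩
  | cons a P ih =>
    obtain ⟨n, L, h⟩ := ih
    cases a with
    | none =>
      refine ⟨n + 1, L, ?_⟩
      rw [h, List.replicate_succ, List.cons_append]
    | some i =>
      refine ⟨0, (i, n) :: L, ?_⟩
      rw [h]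
      simp

private theorem decomp_fst {α : Type*} (L : List (α × ℕ)) :
    ((L.map fun e => some e.1 :: List.replicate e.2 none).flatten).filterMap id =
      L.map Prod.fst := by
  induction L with
  | nil => rfl
  | cons e L ih =>
    simp only [List.map_cons, List.flatten_cons, List.filterMap_append, ih]
    have h : (some e.1 :: List.replicate e.2 (none : Option α)).filterMap id = [e.1] := by
      simp
    rw [h]
    rfl

private theorem mon_decomp {q : ℕ} (L : List (Fin q × ℕ)) :
    mon ℚ ((L.map fun e => some e.1 :: List.replicate e.2 none).flatten) =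
      (L.map fun e => yy e.1 * xx q ^ e.2).prod := by
  induction L with
  | nil => exact mon_nil ℚ
  | cons e L ih =>
    rw [List.map_cons, List.flatten_cons, mon_append, ih, List.map_cons, List.prod_cons, mon_cons]
    congr 2
    generalize e.2 = m
    induction m with
    | zero => rw [pow_zero]; exact mon_nil ℚ
    | succ m ihm => rw [List.replicate_succ, mon_cons, ihm, pow_succ']; rfl

private theorem lf_letters (q p : ℕ) :
    (letters q p).filterMap Sum.getLeft? = List.finRange q := by
  rw [letters, List.filterMap_append, List.filterMap_map, List.filterMap_map]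
  have h1 : Sum.getLeft? ∘ (Sum.inr : Fin p → Fin q ⊕ Fin p) = fun _ => none := rfl
  have h2 : Sum.getLeft? ∘ (Sum.inl : Fin q → Fin q ⊕ Fin p) = some := rfl
  rw [h1, h2, List.filterMap_some]
  simp

private theorem pt_filter {q p : ℕ} (w : List (Fin q ⊕ Fin p)) :
    (pt w).filterMap id = w.filterMap Sum.getLeft? := by
  rw [pt, List.filterMap_map]
  congr 1
  funext a
  cases a <;> rfl

private theorem nodup_letters (q p : ℕ) : (letters q p).Nodup := by
  rw [letters, List.nodup_append]
  refine ⟨(List.nodup_finRange q).map Sum.inl_injective,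
    (List.nodup_finRange p).map Sum.inr_injective, ?_⟩
  intro a ha b hb
  obtain ⟨i, _, rfl⟩ := List.mem_map.1 ha
  obtain ⟨s, _, rfl⟩ := List.mem_map.1 hb
  simp

private theorem toFinset_letters (q p : ℕ) : (letters q p).toFinset = univ := by
  ext a
  cases a <;> simp [letters]

/-- the sharp form of `init` -/
theorem init_good {q p n : ℕ} (F : List (Fin q ⊕ Fin p) → ℚ) (z : Fin q ⊕ Fin p)
    (hF : AltF q p n F z) :
    ∃ f : NC ℚ (Option (Fin q)) →ₗ[ℚ] ℚ, Good q p n f ∧ (∀ k, f (xx q * k) = 0) ∧
      (∀ (Λ : Type) [Ring Λ] [Algebra ℚ Λ] (ξ : Fin p → Λ) (β : Λ →ₗ[ℚ] ℚ),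
        (∀ s t, ξ s * ξ t = - (ξ t * ξ s)) →
        ∀ π : Equiv.Perm (Fin q), ∀ (r : Fin q → List (Fin p)) (c d : Fin p),
        ((List.ofFn r).flatten ++ [c, d]).Perm (List.finRange p) →
        ∀ (w : List (NC ℚ (Option (Fin q)) ⊗[ℚ] Λ)) (y : NC ℚ (Option (Fin q)) ⊗[ℚ] Λ),
        (List.ofFn fun g => (yy (π g) ⊗ₜ[ℚ] (1 : Λ)) ::
          (r g).map fun s => xx q ⊗ₜ[ℚ] ξ s).flatten = y :: w →
        w ≠ [] → fb f β (y * ins2 (xx q ⊗ₜ[ℚ] ξ c) (xx q ⊗ₜ[ℚ] ξ d) w) = 0) ∧
      ((∀ (π : Equiv.Perm (Fin q)) (m : Fin q → ℕ), ∑ g, m g = p →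
          f (pat (xx q) (fun g => yy (π g)) m) = 0) →
        ∀ w : List (Fin q ⊕ Fin p), (z :: w).Perm (letters q p) → F (z :: w) = 0) := by
  obtain ⟨i₀, rfl⟩ := hF.hz
  obtain ⟨f, hf⟩ : ∃ f : NC ℚ (Option (Fin q)) →ₗ[ℚ] ℚ, f = lext (phi F i₀) := ⟨_, rfl⟩
  have hfm : ∀ P, f (mon ℚ P) = phi F i₀ P := by
    intro P
    rw [hf, lext_mon]
  have hkey : ∀ (Λ : Type) [Ring Λ] [Algebra ℚ Λ] (ξ : Fin p → Λ) (β : Λ →ₗ[ℚ] ℚ),
      (∀ s t, ξ s * ξ t = - (ξ t * ξ s)) →
      ∀ w : List (Fin q ⊕ Fin p), w.Perm (letters q p) →
      fb f β ((w.map (lab ξ)).prod) =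
        (if w.head? = some (Sum.inl i₀) then F w else 0) * β (xi ξ (List.finRange p)) := by
    intro Λ _ _ ξ β hξ w hw
    obtain ⟨σ, hσ, hphi⟩ := phi_key F i₀ hF w hw
    have hss : (((Equiv.Perm.sign σ : ℤ) : ℚ)) * ((Equiv.Perm.sign σ : ℤ) : ℚ) = 1 := by
      rcases Int.units_eq_one_or (Equiv.Perm.sign σ) with h | h <;> rw [h] <;> simp
    rw [prod_lab, fb_tmul, hfm, hphi, hσ, xi_perm ξ hξ σ, map_smul, smul_eq_mul]
    split_ifs with h
    · rw [mul_comm ((Equiv.Perm.sign σ : ℤ) : ℚ) (F w), mul_assoc, ← mul_assoc _ _ (β _), hss,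
        one_mul]
    · rw [zero_mul, zero_mul]
  refine ⟨f, ?_, ?_, ?_, ?_⟩
  · intro Λ _ _ ξ β hξ
    have h1 : RVL (fun z => fb f β z) n ((letters q p).map (lab ξ)) := by
      refine RVL_of_evr (univ : Finset (Fin q ⊕ Fin p))
        (fun w => (if w.head? = some (Sum.inl i₀) then F w else 0) * β (xi ξ (List.finRange p)))
        ?_ (lab ξ) (fb f β) ?_ (letters q p) (nodup_letters q p) (toFinset_letters q p)
      · intro x
        rw [evr_mulr x _ _ (fun w => if w.head? = some (Sum.inl i₀) then F w else 0)]
        have hc : (univ : Finset (Fin q ⊕ Fin p)).card =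
            ((univ : Finset (Fin q ⊕ Fin p)).erase (Sum.inl i₀)).card + 1 :=
          (Finset.card_erase_add_one (mem_univ _)).symm
        rw [hc, evr]
        have h0 : ∑ a ∈ (univ : Finset (Fin q ⊕ Fin p)),
            x a * evr x ((univ : Finset (Fin q ⊕ Fin p)).erase (Sum.inl i₀)).card
              ((univ : Finset (Fin q ⊕ Fin p)).erase a) (fun l : List (Fin q ⊕ Fin p) =>
              if (a :: l).head? = some (Sum.inl i₀) then F (a :: l) else 0) = 0 := by
          refine Finset.sum_eq_zero fun a _ => ?_
          by_cases ha : a = Sum.inl i₀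
          · subst ha
            have h2 : (fun l : List (Fin q ⊕ Fin p) =>
                if (Sum.inl i₀ :: l).head? = some (Sum.inl i₀) then F (Sum.inl i₀ :: l) else 0) =
                fun l => F (Sum.inl i₀ :: l) := by
              funext l
              simp
            rw [h2, hF.van x, mul_zero]
          · have h2 : (fun l : List (Fin q ⊕ Fin p) =>
                if (a :: l).head? = some (Sum.inl i₀) then F (a :: l) else 0) =
                fun _ => 0 := by
              funext l
              simp [ha]
            rw [h2, evr_zero, mul_zero]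
        rw [h0, smul_zero]
      · intro l hl hl2
        refine hkey Λ ξ β hξ l ?_
        refine List.perm_of_nodup_nodup_toFinset_eq hl (nodup_letters q p) ?_
        rw [hl2, toFinset_letters]
    rw [letters, List.map_append, List.map_map, List.map_map, ← List.ofFn_eq_map] at h1
    exact h1
  · intro k
    induction k using nc_ind with
    | zero => simp
    | add g h hg hh => rw [mul_add, map_add, hg, hh, add_zero]
    | smul r l =>
      rw [mul_smul_comm, map_smul, xx, ← mon_append, hfm, phi, if_neg, smul_zero]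
      rintro ⟨h, _⟩
      simp at h
  · intro Λ _ _ ξ β hξ π r c d hp w y hw hne
    obtain ⟨W, hW⟩ : ∃ W : List (Fin q ⊕ Fin p), W =
        ((List.finRange q).map fun g => Sum.inl (π g) :: (r g).map Sum.inr).flatten := ⟨_, rfl⟩
    have hWl : W.map (lab ξ) = y :: w := by
      rw [← hw, hW, List.map_flatten, List.map_map, List.ofFn_eq_map]
      congr 1
      refine List.map_congr_left fun g _ => ?_
      simp only [Function.comp_apply, List.map_cons, List.map_map]
      rfl
    have hWp : (W ++ [Sum.inr c, Sum.inr d]).Perm (letters q p) := by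
      have h1 := flat_perm (fun g => (Sum.inl (π g) : Fin q ⊕ Fin p)) (fun g => (r g).map Sum.inr)
        (List.finRange q)
      rw [← hW] at h1
      refine (h1.append_right _).trans ?_
      rw [List.append_assoc, letters]
      refine List.Perm.append ?_ ?_
      · have h2 : (List.finRange q).map (fun g => (Sum.inl (π g) : Fin q ⊕ Fin p)) =
            ((List.finRange q).map π).map Sum.inl := by
          rw [List.map_map]
          rfl
        rw [h2]
        exact List.Perm.map _ (Equiv.Perm.map_finRange_perm π)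
      · have h2 := hp.map (Sum.inr : Fin p → Fin q ⊕ Fin p)
        rw [List.map_append, List.map_flatten, List.ofFn_eq_map, List.map_map] at h2
        exact h2
    cases W with
    | nil => simp at hWl
    | cons v W =>
      rw [List.map_cons, List.cons.injEq] at hWl
      obtain ⟨hy, hw2⟩ := hWl
      have hWne : W ≠ [] := by
        rintro rfl
        exact hne hw2.symm
      have hperm : (v :: Sum.inr c :: Sum.inr d :: W).Perm (letters q p) := by
        refine List.Perm.trans ?_ hWp
        rw [List.cons_append]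
        exact List.Perm.cons _ (List.perm_append_comm (l₁ := [Sum.inr c, Sum.inr d]) (l₂ := W))
      have hlc : xx q ⊗ₜ[ℚ] ξ c = lab ξ (Sum.inr c) := rfl
      have hld : xx q ⊗ₜ[ℚ] ξ d = lab ξ (Sum.inr d) := rfl
      have hins : y * ins2 (xx q ⊗ₜ[ℚ] ξ c) (xx q ⊗ₜ[ℚ] ξ d) w =
          ∑ j ∈ range (W.length + 1), ∑ k ∈ range (j + 1),
            ((v :: ((W.insertIdx j (Sum.inr d)).insertIdx k (Sum.inr c))).map (lab ξ)).prod := by
        rw [ins2, ← hw2, List.length_map, Finset.mul_sum]
        refine Finset.sum_congr rfl fun j _ => ?_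
        rw [Finset.mul_sum]
        refine Finset.sum_congr rfl fun k _ => ?_
        rw [List.map_cons, List.prod_cons, hy, List.map_insertIdx, List.map_insertIdx, hlc, hld]
      have hval : ∀ j ∈ range (W.length + 1), ∀ k ∈ range (j + 1),
          fb f β ((v :: ((W.insertIdx j (Sum.inr d)).insertIdx k (Sum.inr c))).map (lab ξ)).prod =
          (if v = Sum.inl i₀ then F (v :: ((W.insertIdx j (Sum.inr d)).insertIdx k (Sum.inr c)))
            else 0) * β (xi ξ (List.finRange p)) := by
        intro j hj k hk
        rw [Finset.mem_range] at hj hk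
        rw [hkey Λ ξ β hξ]
        · simp only [List.head?_cons, Option.some.injEq]
        · refine List.Perm.trans ?_ hperm
          refine List.Perm.cons _ ?_
          have h1 : (W.insertIdx j (Sum.inr d)).Perm (Sum.inr d :: W) :=
            List.perm_insertIdx _ _ (by omega)
          have h2 : ((W.insertIdx j (Sum.inr d)).insertIdx k (Sum.inr c)).Perm
              (Sum.inr c :: W.insertIdx j (Sum.inr d)) := by
            refine List.perm_insertIdx _ _ ?_
            rw [List.length_insertIdx, if_pos (by omega)]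
            omega
          exact h2.trans (h1.cons _)
      rw [hins, map_sum]
      have h3 : ∑ j ∈ range (W.length + 1), fb f β (∑ k ∈ range (j + 1),
            ((v :: ((W.insertIdx j (Sum.inr d)).insertIdx k (Sum.inr c))).map (lab ξ)).prod) =
          ∑ j ∈ range (W.length + 1), ∑ k ∈ range (j + 1),
          (if v = Sum.inl i₀ then F (v :: ((W.insertIdx j (Sum.inr d)).insertIdx k (Sum.inr c)))
            else 0) * β (xi ξ (List.finRange p)) := by
        refine Finset.sum_congr rfl fun j hj => ?_
        rw [map_sum]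
        exact Finset.sum_congr rfl fun k hk => hval j hj k hk
      rw [h3]
      by_cases hv : v = Sum.inl i₀
      · subst hv
        have h4 := hF.ins (Sum.inr c) (Sum.inr d) W hWne hperm
        rw [← zero_mul (β (xi ξ (List.finRange p))), ← h4, Finset.sum_mul]
        refine Finset.sum_congr rfl fun j _ => ?_
        rw [Finset.sum_mul]
        refine Finset.sum_congr rfl fun k _ => ?_
        rw [if_pos rfl]
      · refine Finset.sum_eq_zero fun j _ => Finset.sum_eq_zero fun k _ => ?_
        rw [if_neg hv, zero_mul]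
  · intro hpat w hw
    obtain ⟨σ, _, h1⟩ := phi_key F i₀ hF (Sum.inl i₀ :: w) hw
    rw [List.head?_cons, if_pos rfl, ← hfm] at h1
    have h2 : f (mon ℚ (pt (Sum.inl i₀ :: w))) = 0 := by
      obtain ⟨N, L, hL⟩ := ex_decomp (pt (Sum.inl i₀ :: w))
      have hN : N = 0 := by
        cases N with
        | zero => rfl
        | succ N =>
          have h3 : pt (Sum.inl i₀ :: w) = some i₀ :: pt w := rfl
          rw [h3, List.replicate_succ, List.cons_append, List.cons.injEq] at hL
          simp at hL
      subst hN
      rw [List.replicate_zero, List.nil_append] at hL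
      have h4 : (L.map Prod.fst).Perm (List.finRange q) := by
        rw [← decomp_fst, ← hL, pt_filter, ← lf_letters q p]
        exact hw.filterMap _
      have h5 : L.length = q := by
        have := h4.length_eq
        rwa [List.length_map, List.length_finRange] at this
      obtain ⟨e, rfl⟩ := ex_ofFn L q h5
      have h6 : (List.ofFn e).map Prod.fst = List.ofFn (Prod.fst ∘ e) := List.map_ofFn ..
      rw [h6] at h4
      have h7 : Function.Injective (Prod.fst ∘ e) :=
        List.nodup_ofFn.1 (h4.nodup_iff.2 (List.nodup_finRange q))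
      have h8 := hpat (Equiv.ofBijective (Prod.fst ∘ e) (Finite.injective_iff_bijective.1 h7))
        (fun g => (e g).2) (by
          have h9 := congrArg List.length hL
          have h10 : (pt (Sum.inl i₀ :: w)).length = q + p := by
            rw [pt, List.length_map, hw.length_eq, letters, List.length_append, List.length_map,
              List.length_map, List.length_finRange, List.length_finRange]
          rw [h10, List.length_flatten, List.map_map, List.map_ofFn, List.sum_ofFn] at h9
          simp only [Function.comp_apply, List.length_cons, List.length_replicate,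
            Finset.sum_add_distrib, Finset.sum_const, Finset.card_univ, Fintype.card_fin,
            smul_eq_mul, mul_one] at h9
          omega)
      rw [hL, mon_decomp]
      rw [pat] at h8
      rw [List.map_ofFn]
      exact h8
    rw [h2] at h1
    rcases Int.units_eq_one_or (Equiv.Perm.sign σ) with h | h <;> rw [h] at h1 <;>
      simpa using h1.symm

end Pool.Agent.Helper43.LN
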