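import Mathlib
import Pool.Agent.Helper43.LN.MergeDef

/-!
# LN sharp version: merged letters, `merge_good`

PROOF (complete) of `merge_good`. Let `ξ' : Fin (p+1) → Λ` be anticommuting and `β' : Λ → ℚ` linear. For `s : Fin (p+1)` put
`ξ_s = ξ' ∘ s.succAbove : Fin p → Λ` and `β_s w = β' (ξ' s * w)`, `τ_s = fb f β_s`, `τ' = fb (mrg i f) β'`. For a product `P` of
letters (a list of letters `y_j ⊗ 1`, `j ≠ i`, and `x ⊗ ξ' t`) and any element `Q = k ⊗ w`:
 (i) `τ' (P * (y_i ⊗ 1) * (x ⊗ ξ' s) * Q) = τ_s (P * (y_i ⊗ 1) * Q)`: with `P = mon u ⊗ xi l`, `l.length` = number of `x` in `u`,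
     the left side is `(-1)^(l.length) f(u y_i k) * β'(xi l * ξ' s * w)` and `xi l * ξ' s = (-1)^(l.length) ξ' s * xi l`;
 (ii) `τ' (P * (y_i ⊗ 1) * (y_j ⊗ 1) * Q) = 0`;  (iii) `τ' (P * (y_i ⊗ 1)) = 0`.
Let `E` be the list of the other edges (those with the labels `y_j ⊗ 1`, `j ≠ i`, and `x ⊗ ξ' s`; `e_s` the edge of
`s`) and `(c, d, y_i ⊗ 1)` the edge of `y_i`. CLAIM: for every product `P` of letters and every list `E'` of such edges (a
sublist of `E` up to permutation; induction on its length)
 `τ' (P * walkL _ ((c,d,y_i ⊗ 1) :: E') a b) = ∑_{e_s ∈ E', source e_s = d} τ_s (P * walkL _ ((c, target e_s, y_i ⊗ 1) :: E'.erase e_s) a b)`.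
 (First letter `e ∈ E'`, source `a`: put `P * label e` in place of `P`; the terms match those on the right
 whose first letter is `e ≠ e_s`. First letter `y_i` (`a = c`): left `τ' (P * (y_i ⊗ 1) * walkL _ E' d b)`, whose first letter must
 be an `e_s` with source `d` by (ii), (iii), and by (i) this is the part of the right hand side whose first letter is `y_i`.)
 For `P = 1`, `E' = E` every term on the right is `0` by `Good q p n f` for `ξ_s`, `β_s`: the labels of
 `(c, target e_s, y_i ⊗ 1) :: E.erase e_s` are all `y_j ⊗ 1` and the `x ⊗ ξ' t`, `t ≠ s`, i.e. `x ⊗ ξ_s r`, `r : Fin p` (`RVL_perm`).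
-/

set_option autoImplicit false

namespace Pool.Agent.Helper43.LN

open scoped TensorProduct
open Finset Pool.Agent.Helper22.LB

/-- sums over all ways to pick an element -/
private def psMG {α M : Type*} [AddCommMonoid M] (l : List α) (f : α → List α → M) : M :=
  ((picks l).map fun p => f p.1 p.2).sum

private theorem psMG_nil {α M : Type*} [AddCommMonoid M] (f : α → List α → M) :
    psMG [] f = 0 := rfl

private theorem psMG_cons {α M : Type*} [AddCommMonoid M] (x : α) (l : List α)
    (f : α → List α → M) : psMG (x :: l) f = f x l + psMG l (fun e r => f e (x :: r)) := by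
  simp only [psMG, picks, List.map_cons, List.map_map, List.sum_cons]
  rfl

private theorem psMG_congr {α M : Type*} [AddCommMonoid M] {l : List α} {f g : α → List α → M}
    (h : ∀ e r, (e :: r).Perm l → f e r = g e r) : psMG l f = psMG l g := by
  apply congrArg List.sum
  apply List.map_congr_left
  intro p hp
  exact h p.1 p.2 (picks_perm hp)

private theorem psMG_add {α M : Type*} [AddCommMonoid M] (l : List α) (f g : α → List α → M) :
    psMG l (fun e r => f e r + g e r) = psMG l f + psMG l g := by
  unfold psMG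
  exact List.sum_map_add

private theorem psMG_zero {α M : Type*} [AddCommMonoid M] (l : List α) :
    psMG l (fun _ _ => (0 : M)) = 0 := by
  unfold psMG
  apply List.sum_eq_zero
  intro y hy
  obtain ⟨p, -, rfl⟩ := List.mem_map.1 hy
  rfl

private theorem psMG_hom {α M N : Type*} [AddCommMonoid M] [AddCommMonoid N] (φ : M →+ N)
    (l : List α) (f : α → List α → M) : φ (psMG l f) = psMG l (fun e r => φ (f e r)) := by
  unfold psMG
  rw [map_list_sum, List.map_map]
  rfl

private theorem psMG_comm {α M : Type*} [AddCommMonoid M] (l : List α)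
    (F : α → α → List α → M) :
    psMG l (fun e r => psMG r (fun e' r' => F e e' r')) =
      psMG l (fun e' r' => psMG r' (fun e r => F e e' r)) := by
  induction l generalizing F with
  | nil => rfl
  | cons x l ih =>
    rw [psMG_cons, psMG_cons]
    simp only [psMG_cons]
    rw [psMG_add, psMG_add, ih (fun e e' r => F e e' (x :: r))]
    exact add_left_comm _ _ _

private theorem psMG_map {α β M : Type*} [AddCommMonoid M] (g : α → β) (l : List α)
    (f : β → List β → M) : psMG (l.map g) f = psMG l (fun e r => f (g e) (r.map g)) := by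
  unfold psMG
  rw [picks_map, List.map_map]
  rfl

private theorem psMG_ite {α M : Type*} [AddCommMonoid M] (c : Prop) [Decidable c] (l : List α)
    (f : α → List α → M) :
    (if c then psMG l f else 0) = psMG l (fun e r => if c then f e r else 0) := by
  split_ifs
  · rfl
  · exact (psMG_zero l).symm

private theorem walkL_psMG {ι B : Type*} [DecidableEq ι] [Ring B] (k : ℕ)
    (E : List (ι × ι × B)) (a b : ι) :
    walkL (k + 1) E a b =
      psMG E (fun e r => if e.1 = a then e.2.2 * walkL k r e.2.1 b else 0) := rfl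

private theorem claimMG {V ι B : Type*} [DecidableEq ι] [Ring B] (u : V → B) (Y : B)
    (τ : B →+ ℚ) (τs : V → B →+ ℚ) (ok : V → Prop)
    (h1 : ∀ pl : List V, (∀ v ∈ pl, ok v) → ∀ v, ok v → ∀ Q,
      τ ((pl.map u).prod * Y * (u v * Q)) = τs v ((pl.map u).prod * Y * Q))
    (h2 : ∀ pl : List V, (∀ v ∈ pl, ok v) → τ ((pl.map u).prod * Y) = 0) (c d b : ι) (n : ℕ) :
    ∀ (L : List (ι × ι × V)) (pl : List V) (a : ι), L.length = n → (∀ e ∈ L, ok e.2.2) →
      (∀ v ∈ pl, ok v) →
      τ ((pl.map u).prod *
        walkL (n + 1) ((c, d, Y) :: L.map (fun e => (e.1, e.2.1, u e.2.2))) a b) =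
      psMG L (fun e r => if e.1 = d then
        τs e.2.2 ((pl.map u).prod *
          walkL n ((c, e.2.1, Y) :: r.map (fun e => (e.1, e.2.1, u e.2.2))) a b) else 0) := by
  induction n with
  | zero =>
    intro L pl a hL _ hpl
    rw [List.length_eq_zero_iff] at hL
    subst hL
    rw [psMG_nil, walkL_psMG, psMG_cons, List.map_nil, psMG_nil, add_zero]
    simp only [walkL]
    split_ifs
    · rw [mul_one]
      exact h2 pl hpl
    · rw [mul_zero, mul_zero, map_zero]
    · rw [mul_zero, map_zero]
  | succ n ih =>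
    intro L pl a hL hok hpl
    -- the left hand side
    have e1 : τ ((pl.map u).prod *
        walkL (n + 1 + 1) ((c, d, Y) :: L.map (fun e => (e.1, e.2.1, u e.2.2))) a b) =
        psMG L (fun e' r' => if e'.1 = d then (if c = a then
          τs e'.2.2 ((pl.map u).prod * Y *
            walkL n (r'.map (fun e => (e.1, e.2.1, u e.2.2))) e'.2.1 b) else 0) else 0) +
        psMG L (fun e r => psMG r (fun e' r' => if e'.1 = d then (if e.1 = a then
          τs e'.2.2 ((pl.map u).prod * (u e.2.2 * walkL n
            ((c, e'.2.1, Y) :: r'.map (fun e => (e.1, e.2.1, u e.2.2))) e.2.1 b)) else 0)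
          else 0)) := by
      rw [walkL_psMG, psMG_cons, mul_add, map_add, psMG_map]
      congr 1
      · by_cases hc : c = a
        · simp only [hc, if_true]
          rw [walkL_psMG, psMG_map, ← mul_assoc]
          have e2 := psMG_hom (τ.comp (AddMonoidHom.mulLeft ((pl.map u).prod * Y))) L
            (fun e r => if e.1 = d then u e.2.2 * walkL n
              (r.map (fun e => (e.1, e.2.1, u e.2.2))) e.2.1 b else 0)
          simp only [AddMonoidHom.comp_apply, AddMonoidHom.coe_mulLeft] at e2
          rw [e2]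
          refine psMG_congr fun e r her => ?_
          split_ifs
          · exact h1 pl hpl e.2.2 (hok e (her.subset List.mem_cons_self)) _
          · rw [mul_zero, map_zero]
        · simp only [hc, if_false, mul_zero, map_zero, ite_self]
          exact (psMG_zero L).symm
      · have e2 := psMG_hom (τ.comp (AddMonoidHom.mulLeft ((pl.map u).prod))) L
            (fun e r => if e.1 = a then u e.2.2 * walkL (n + 1)
              ((c, d, Y) :: r.map (fun e => (e.1, e.2.1, u e.2.2))) e.2.1 b else 0)
        simp only [AddMonoidHom.comp_apply, AddMonoidHom.coe_mulLeft] at e2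
        rw [e2]
        refine psMG_congr fun e r her => ?_
        by_cases ha : e.1 = a
        · simp only [ha, if_true]
          have hlen : r.length = n := by
            have := her.length_eq
            simp only [List.length_cons] at this
            omega
          have hoke : ok e.2.2 := hok e (her.subset List.mem_cons_self)
          have h3 := ih r (pl ++ [e.2.2]) e.2.1 hlen
            (fun e' he' => hok e' (her.subset (List.mem_cons_of_mem _ he')))
            (by
              intro v hv
              rcases List.mem_append.1 hv with hv | hv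
              · exact hpl v hv
              · rw [List.mem_singleton.1 hv]; exact hoke)
          have e3 : ((pl ++ [e.2.2]).map u).prod = (pl.map u).prod * u e.2.2 := by simp
          rw [e3, mul_assoc] at h3
          rw [h3]
          refine psMG_congr fun e' r' _ => ?_
          rw [mul_assoc]
        · simp only [ha, if_false, mul_zero, map_zero, ite_self]
          exact (psMG_zero r).symm
    rw [e1, psMG_comm, ← psMG_add]
    refine psMG_congr fun e' r' _ => ?_
    by_cases hd : e'.1 = d
    · simp only [hd, if_true]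
      rw [walkL_psMG, psMG_cons, mul_add, map_add, psMG_map]
      congr 1
      · by_cases hc : c = a
        · simp only [hc, if_true]
          rw [mul_assoc]
        · simp only [hc, if_false, mul_zero, map_zero]
      · have e2 := psMG_hom ((τs e'.2.2).comp (AddMonoidHom.mulLeft ((pl.map u).prod))) r'
            (fun e r => if e.1 = a then u e.2.2 * walkL n
              ((c, e'.2.1, Y) :: r.map (fun e => (e.1, e.2.1, u e.2.2))) e.2.1 b else 0)
        simp only [AddMonoidHom.comp_apply, AddMonoidHom.coe_mulLeft] at e2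
        rw [e2]
        refine psMG_congr fun e r _ => ?_
        split_ifs
        · rfl
        · rw [mul_zero, map_zero]
    · simp only [hd, if_false]
      rw [psMG_zero, add_zero]

private theorem ex_tagMG {V ι B : Type*} (u : V → B) (ls : List V) :
    ∀ E : List (ι × ι × B), E.map (fun e => e.2.2) = ls.map u →
      ∃ L : List (ι × ι × V), L.map (fun e => e.2.2) = ls ∧
        L.map (fun e => (e.1, e.2.1, u e.2.2)) = E := by
  induction ls with
  | nil =>
    intro E hE
    refine ⟨[], rfl, ?_⟩
    simpa using hE.symm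
  | cons v ls ih =>
    intro E hE
    cases E with
    | nil => simp at hE
    | cons e E =>
      simp only [List.map_cons, List.cons.injEq] at hE
      obtain ⟨L, h1, h2⟩ := ih E hE.2
      refine ⟨(e.1, e.2.1, v) :: L, by simp [h1], ?_⟩
      rw [List.map_cons, h2, ← hE.1]

/-- the letters: `inl j` is `y_j`, `inr s` is `x ⊗ ξ s` -/
private noncomputable def uMG {q r : ℕ} {Λ : Type} [Ring Λ] [Algebra ℚ Λ] (ξ : Fin r → Λ) :
    Fin q ⊕ Fin r → NC ℚ (Option (Fin q)) ⊗[ℚ] Λ
  | Sum.inl j => yy j ⊗ₜ[ℚ] 1
  | Sum.inr s => xx q ⊗ₜ[ℚ] ξ s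

/-- the Grassmann part -/
private def gMG {q r : ℕ} {Λ : Type} [Ring Λ] (ξ : Fin r → Λ) : Fin q ⊕ Fin r → Λ
  | Sum.inl _ => 1
  | Sum.inr s => ξ s

/-- the word part -/
private def wMG {q r : ℕ} : Fin q ⊕ Fin r → Option (Fin q)
  | Sum.inl j => some j
  | Sum.inr _ => none

private theorem prod_uMG {q r : ℕ} {Λ : Type} [Ring Λ] [Algebra ℚ Λ] (ξ : Fin r → Λ)
    (pl : List (Fin q ⊕ Fin r)) :
    (pl.map (uMG ξ)).prod = mon ℚ (pl.map wMG) ⊗ₜ[ℚ] (pl.map (gMG ξ)).prod := by
  induction pl with
  | nil =>
    rw [List.map_nil, List.map_nil, List.map_nil, mon_nil]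
    rfl
  | cons v pl ih =>
    rw [List.map_cons, List.map_cons, List.map_cons, List.prod_cons, List.prod_cons, ih,
      mon_cons]
    cases v with
    | inl j => exact Algebra.TensorProduct.tmul_mul_tmul _ _ _ _
    | inr s => exact Algebra.TensorProduct.tmul_mul_tmul _ _ _ _

private theorem anti_MG {q r : ℕ} {Λ : Type} [Ring Λ] [Algebra ℚ Λ] (ξ : Fin r → Λ)
    (hξ : ∀ s t, ξ s * ξ t = - (ξ t * ξ s)) (s : Fin r) (pl : List (Fin q ⊕ Fin r)) :
    (pl.map (gMG ξ)).prod * ξ s =
      ((-1 : ℚ) ^ (pl.map (wMG (q := q))).count none) • (ξ s * (pl.map (gMG ξ)).prod) := by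
  induction pl with
  | nil => simp
  | cons v pl ih =>
    rw [List.map_cons, List.map_cons, List.prod_cons, mul_assoc, ih]
    cases v with
    | inl j =>
      have h1 : gMG (q := q) ξ (Sum.inl j) = 1 := rfl
      have h2 : wMG (q := q) (r := r) (Sum.inl j) = some j := rfl
      rw [h1, h2, one_mul, one_mul, List.count_cons_of_ne (by simp)]
    | inr t =>
      have h1 : gMG (q := q) ξ (Sum.inr t) = ξ t := rfl
      have h2 : wMG (q := q) (r := r) (Sum.inr t) = none := rfl
      rw [h1, h2, List.count_cons_self, pow_succ, mul_smul_comm, ← mul_assoc, hξ t s, neg_mul,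
        mul_assoc, smul_neg, mul_neg_one, neg_smul]

private theorem lin_MG {q : ℕ} {Λ : Type} [Ring Λ] [Algebra ℚ Λ]
    (τ₁ τ₂ : NC ℚ (Option (Fin q)) ⊗[ℚ] Λ →ₗ[ℚ] ℚ) (X₁ X₂ : NC ℚ (Option (Fin q)) ⊗[ℚ] Λ)
    (h : ∀ (v : List (Option (Fin q))) (w : Λ), τ₁ (X₁ * (mon ℚ v ⊗ₜ[ℚ] w)) =
      τ₂ (X₂ * (mon ℚ v ⊗ₜ[ℚ] w))) (Q : NC ℚ (Option (Fin q)) ⊗[ℚ] Λ) :
    τ₁ (X₁ * Q) = τ₂ (X₂ * Q) := by
  induction Q using TensorProduct.induction_on with
  | zero => rw [mul_zero, mul_zero, map_zero, map_zero]
  | tmul k w =>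
    induction k using MonoidAlgebra.induction_linear with
    | zero => rw [TensorProduct.zero_tmul, mul_zero, mul_zero, map_zero, map_zero]
    | add k₁ k₂ h1 h2 => rw [TensorProduct.add_tmul, mul_add, mul_add, map_add, map_add, h1, h2]
    | single m c =>
      have e : (MonoidAlgebra.single m c : NC ℚ (Option (Fin q))) = c • mon ℚ (FreeMonoid.toList m) := by
        rw [mon, MonoidAlgebra.smul_single, smul_eq_mul, mul_one]
        rfl
      rw [e, ← TensorProduct.smul_tmul', mul_smul_comm, mul_smul_comm, map_smul, map_smul, h]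
  | add k₁ k₂ h1 h2 => rw [mul_add, mul_add, map_add, map_add, h1, h2]

private theorem permMG (q p : ℕ) (s : Fin (p + 1)) :
    (Sum.inr s :: ((List.finRange q).map Sum.inl ++
      (List.finRange p).map (fun r => (Sum.inr (s.succAbove r) : Fin q ⊕ Fin (p + 1))))).Perm
      ((List.finRange q).map Sum.inl ++ (List.finRange (p + 1)).map Sum.inr) := by
  have h0 : ∀ {m : ℕ} (g : Fin m → Fin q ⊕ Fin (p + 1)), Function.Injective g →
      ((List.finRange m).map g).Nodup := fun g hg => (List.nodup_finRange _).map hg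
  refine (List.perm_ext_iff_of_nodup ?_ ?_).2 ?_
  · rw [List.nodup_cons]
    refine ⟨?_, ?_⟩
    · simp [Fin.succAbove_ne]
    · rw [List.nodup_append']
      refine ⟨h0 _ Sum.inl_injective, h0 _ (Sum.inr_injective.comp Fin.succAbove_right_injective), ?_⟩
      intro x hx hy
      simp only [List.mem_map] at hx hy
      obtain ⟨a, -, rfl⟩ := hx
      obtain ⟨b, -, hb⟩ := hy
      exact absurd hb (by simp)
  · rw [List.nodup_append']
    refine ⟨h0 _ Sum.inl_injective, h0 _ Sum.inr_injective, ?_⟩
    intro x hx hy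
    simp only [List.mem_map] at hx hy
    obtain ⟨a, -, rfl⟩ := hx
    obtain ⟨b, -, hb⟩ := hy
    exact absurd hb (by simp)
  · intro x
    cases x with
    | inl j => simp
    | inr t =>
      simp only [List.mem_cons, List.mem_append, List.mem_map, List.mem_finRange, true_and]
      constructor
      · intro _
        exact Or.inr ⟨t, rfl⟩
      · intro _
        by_cases hts : t = s
        · exact Or.inl (by rw [hts])
        · obtain ⟨r, hr⟩ := Fin.exists_succAbove_eq hts
          exact Or.inr (Or.inr ⟨r, by rw [hr]⟩)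

theorem merge_good {q p n : ℕ} (i : Fin q) (f : NC ℚ (Option (Fin q)) →ₗ[ℚ] ℚ)
    (hf : Good q p n f) : Good q (p + 1) n (mrg i f) := by
  intro Λ _ _ ξ β hξ
  intro ι _ _ hc E hE a b
  set ls : List (Fin q ⊕ Fin (p + 1)) :=
    (List.finRange q).map Sum.inl ++ (List.finRange (p + 1)).map Sum.inr with hls
  have hE' : E.map (fun e => e.2.2) = ls.map (uMG ξ) := by
    rw [hE, hls, List.map_append, List.map_map, List.map_map, List.ofFn_eq_map]
    rfl
  obtain ⟨L, hL1, hL2⟩ := ex_tagMG (uMG ξ) ls E hE'
  have hmem : Sum.inl i ∈ L.map (fun e => e.2.2) := by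
    rw [hL1, hls]
    simp
  obtain ⟨e, he, hei⟩ := List.mem_map.1 hmem
  obtain ⟨c, d, v⟩ := e
  simp only at hei
  subst hei
  obtain ⟨S, T, hST⟩ := List.append_of_mem he
  have hLp : L.Perm ((c, d, Sum.inl i) :: (S ++ T)) := by
    rw [hST]; exact List.perm_middle
  have hlsnd : ls.Nodup := by
    refine (List.Perm.nodup_iff (permMG q p 0)).1 ?_
    exact (List.Perm.nodup_iff (permMG q p 0)).2 (by
      rw [← hls]
      rw [hls, List.nodup_append']
      refine ⟨(List.nodup_finRange _).map Sum.inl_injective,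
        (List.nodup_finRange _).map Sum.inr_injective, ?_⟩
      intro x hx hy
      simp only [List.mem_map] at hx hy
      obtain ⟨a, -, rfl⟩ := hx
      obtain ⟨b, -, hb⟩ := hy
      exact absurd hb (by simp))
  have htags : ls.Perm (Sum.inl i :: (S ++ T).map (fun e => e.2.2)) := by
    rw [← hL1]
    exact hLp.map _
  have hnot : Sum.inl i ∉ (S ++ T).map (fun e => e.2.2) :=
    (List.nodup_cons.1 ((htags.nodup_iff).1 hlsnd)).1
  -- the letters other than `y_i`
  have hok : ∀ e ∈ S ++ T, e.2.2 ≠ Sum.inl i := by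
    intro e he h
    exact hnot (List.mem_map.2 ⟨e, he, h⟩)
  set βs : Fin q ⊕ Fin (p + 1) → (Λ →ₗ[ℚ] ℚ) := fun v => match v with
    | Sum.inl _ => 0
    | Sum.inr s => β.comp (LinearMap.mulLeft ℚ (ξ s)) with hβs
  have key1 : ∀ pl : List (Fin q ⊕ Fin (p + 1)), (∀ v ∈ pl, v ≠ Sum.inl i) → ∀ v,
      v ≠ Sum.inl i → ∀ Q, fb (mrg i f) β ((pl.map (uMG ξ)).prod * (yy i ⊗ₜ[ℚ] 1) * (uMG ξ v * Q)) =
        fb f (βs v) ((pl.map (uMG ξ)).prod * (yy i ⊗ₜ[ℚ] 1) * Q) := by
    intro pl hpl v hv Q
    rw [← mul_assoc]
    refine lin_MG (fb (mrg i f) β) (fb f (βs v)) _ _ ?_ Q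
    intro v' w
    have hno : some i ∉ pl.map (wMG (q := q)) := by
      intro h
      obtain ⟨x, hx, hxi⟩ := List.mem_map.1 h
      cases x with
      | inl j =>
        have : some j = some i := hxi
        rw [Option.some.injEq] at this
        exact hpl _ hx (by rw [this])
      | inr t => exact absurd hxi (by simp [wMG])
    rw [prod_uMG, Algebra.TensorProduct.tmul_mul_tmul, mul_one]
    have e1 : mon ℚ (pl.map wMG) * yy i = mon ℚ (pl.map wMG ++ [some i]) := by
      rw [mon_append]; rfl
    rw [e1]
    cases v with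
    | inl j =>
      have h2 : uMG (q := q) ξ (Sum.inl j) = mon ℚ [some j] ⊗ₜ[ℚ] (1 : Λ) := rfl
      have h3 : βs (Sum.inl j) = 0 := rfl
      rw [h2, h3, Algebra.TensorProduct.tmul_mul_tmul, Algebra.TensorProduct.tmul_mul_tmul,
        ← mon_append, ← mon_append, fb_tmul, Algebra.TensorProduct.tmul_mul_tmul, fb_tmul,
        LinearMap.zero_apply, mul_zero]
      have e2 : pl.map wMG ++ [some i] ++ [some j] ++ v' =
          pl.map wMG ++ some i :: (some j :: v') := by simp
      rw [e2, mrg_word_zero i f _ _ hno (by simp), zero_mul]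
    | inr s =>
      have h2 : uMG (q := q) ξ (Sum.inr s) = mon ℚ [none] ⊗ₜ[ℚ] ξ s := rfl
      have h3 : βs (Sum.inr s) = β.comp (LinearMap.mulLeft ℚ (ξ s)) := rfl
      rw [h2, h3, Algebra.TensorProduct.tmul_mul_tmul, Algebra.TensorProduct.tmul_mul_tmul,
        ← mon_append, ← mon_append, fb_tmul, Algebra.TensorProduct.tmul_mul_tmul, fb_tmul,
        LinearMap.comp_apply, LinearMap.mulLeft_apply, ← mon_append]
      have e2 : pl.map wMG ++ [some i] ++ [none] ++ v' =
          pl.map wMG ++ some i :: none :: v' := by simp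
      have e3 : pl.map wMG ++ [some i] ++ v' = pl.map wMG ++ some i :: v' := by simp
      rw [e2, e3, mrg_word i f _ _ hno, anti_MG ξ hξ s pl, smul_mul_assoc, map_smul, smul_eq_mul,
        mul_assoc (ξ s)]
      have e4 : ((-1 : ℚ) ^ (pl.map (wMG (q := q))).count none) *
          ((-1 : ℚ) ^ (pl.map (wMG (q := q))).count none) = 1 := by
        rw [← mul_pow]; simp
      linear_combination (f (mon ℚ (pl.map wMG ++ some i :: v')) *
        β (ξ s * ((pl.map (gMG ξ)).prod * w))) * e4
  have key2 : ∀ pl : List (Fin q ⊕ Fin (p + 1)), (∀ v ∈ pl, v ≠ Sum.inl i) →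
      fb (mrg i f) β ((pl.map (uMG ξ)).prod * (yy i ⊗ₜ[ℚ] 1)) = 0 := by
    intro pl hpl
    have hno : some i ∉ pl.map (wMG (q := q)) := by
      intro h
      obtain ⟨x, hx, hxi⟩ := List.mem_map.1 h
      cases x with
      | inl j =>
        have : some j = some i := hxi
        rw [Option.some.injEq] at this
        exact hpl _ hx (by rw [this])
      | inr t => exact absurd hxi (by simp [wMG])
    have e1 : mon ℚ (pl.map wMG) * yy i = mon ℚ (pl.map wMG ++ some i :: []) := by
      rw [mon_append]; rfl
    rw [prod_uMG, Algebra.TensorProduct.tmul_mul_tmul, e1, fb_tmul,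
      mrg_word_zero i f _ _ hno (by simp), zero_mul]
  have hcl := claimMG (uMG ξ) (yy i ⊗ₜ[ℚ] (1 : Λ)) (fb (mrg i f) β).toAddMonoidHom
    (fun v => (fb f (βs v)).toAddMonoidHom) (fun v => v ≠ Sum.inl i) key1 key2 c d b
    (S ++ T).length (S ++ T) [] a rfl hok (by simp)
  have hE2 : E.Perm ((c, d, yy i ⊗ₜ[ℚ] (1 : Λ)) ::
      (S ++ T).map (fun e => (e.1, e.2.1, uMG ξ e.2.2))) := by
    rw [← hL2]
    exact hLp.map _
  rw [hE2.length_eq, walkL_perm _ hE2, List.length_cons, List.length_map]
  rw [List.map_nil, List.prod_nil, one_mul] at hcl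
  refine hcl.trans ?_
  refine (psMG_congr (g := fun _ _ => (0 : ℚ)) fun e r her => ?_).trans (psMG_zero (S ++ T))
  split_ifs with hed
  · rw [one_mul]
    cases hv : e.2.2 with
    | inl j =>
      have h3 : βs (Sum.inl j) = 0 := rfl
      show fb f (βs (Sum.inl j)) _ = 0
      rw [h3]
      have h4 : fb f (0 : Λ →ₗ[ℚ] ℚ) = 0 := by
        ext
        simp [fb]
      rw [h4, LinearMap.zero_apply]
    | inr s =>
      have h3 : βs (Sum.inr s) = β.comp (LinearMap.mulLeft ℚ (ξ s)) := rfl
      show fb f (βs (Sum.inr s)) _ = 0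
      rw [h3]
      have hg := hf Λ (fun r => ξ (s.succAbove r)) (β.comp (LinearMap.mulLeft ℚ (ξ s)))
        (fun t t' => hξ _ _)
      have hp1 : (Sum.inl i :: r.map (fun e => e.2.2)).Perm ((List.finRange q).map Sum.inl ++
          (List.finRange p).map (fun r => (Sum.inr (s.succAbove r) : Fin q ⊕ Fin (p + 1)))) := by
        have h5 : (Sum.inr s :: r.map (fun e => e.2.2)).Perm ((S ++ T).map (fun e => e.2.2)) := by
          have h6 := her.map (fun e : ι × ι × (Fin q ⊕ Fin (p + 1)) => e.2.2)
          rw [List.map_cons, hv] at h6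
          exact h6
        have h7 : (Sum.inr s :: Sum.inl i :: r.map (fun e => e.2.2)).Perm ls :=
          ((List.Perm.swap _ _ _).trans (h5.cons _)).trans htags.symm
        exact (h7.trans (permMG q p s).symm).cons_inv
      have hp2 := hp1.map (uMG (q := q) ξ)
      rw [List.map_cons, List.map_map, List.map_append, List.map_map, List.map_map] at hp2
      have hg2 : RVL (fun z => fb f (β.comp (LinearMap.mulLeft ℚ (ξ s))) z) n
          (uMG ξ (Sum.inl i) :: r.map (fun e => uMG ξ e.2.2)) := by
        refine RVL_perm hp2.symm ?_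
        rw [List.ofFn_eq_map] at hg
        exact hg
      have h8 := hg2 ι hc ((c, e.2.1, yy i ⊗ₜ[ℚ] (1 : Λ)) ::
        r.map (fun e => (e.1, e.2.1, uMG ξ e.2.2))) (by
          rw [List.map_cons, List.map_map]
          rfl) a b
      have h9 : (S ++ T).length = ((c, e.2.1, yy i ⊗ₜ[ℚ] (1 : Λ)) ::
        r.map (fun e => (e.1, e.2.1, uMG ξ e.2.2))).length := by
        have := her.length_eq
        simp only [List.length_cons, List.length_map] at this ⊢
        omega
      rw [h9]
      exact h8
  · rfl

end Pool.Agent.Helper43.LN
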