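import Mathlib
import Pool.Agent.Helper43.LN.MergeGood

/-!
# LN sharp version: merged letters, assembly

PROOFS. `merge_pat`: the word of `pat x (y ∘ π) (m + e_g)` has the letter `y_{π g}` followed by an `x`; the number of `x` before it is
`∑_{h < g} m h`.
`merge_all`: induction on the Finset `I` (`merge_good`, `merge_kill`, `merge_pat`; the sign `(-1)^(∑_{h<g} m h)` with
`m h = 2 a h + ε' h` does not depend on `a`).
`merge_kill`: a word that starts with `x`: `mrg_word`, `mrg_word_zero` (or by the recursion of `mw`), `f` vanishes on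
words that start with `x`.
-/

set_option autoImplicit false

namespace Pool.Agent.Helper43.LN

open scoped TensorProduct
open Finset Pool.Agent.Helper22.LB

private theorem mw_none_MA {q : ℕ} (i : Fin q) (f : NC ℚ (Option (Fin q)) →ₗ[ℚ] ℚ)
    (hk : ∀ k, f (xx q * k) = 0) (n : ℕ) : ∀ u v : List (Option (Fin q)), v.length = n →
      mw i f (none :: u) v = 0 := by
  induction n with
  | zero =>
    intro u v hv
    rw [List.length_eq_zero_iff] at hv
    subst hv
    rw [mw]
  | succ n ih =>
    intro u v hv
    cases v with
    | nil => simp at hv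
    | cons a v =>
      rw [List.length_cons, Nat.add_right_cancel_iff] at hv
      by_cases hc : ∃ j v', a = some j ∧ v = none :: v'
      · obtain ⟨j, v', rfl, rfl⟩ := hc
        rw [mw]
        split_ifs with h
        · have h1 : mon ℚ (none :: u ++ some i :: v') = xx q * mon ℚ (u ++ some i :: v') := by
            rw [List.cons_append, mon_cons, xx]
          rw [h1, hk, mul_zero]
        · rw [List.cons_append]
          exact ih _ _ hv
      · rw [mw]
        · split_ifs with h
          · rfl
          · rw [List.cons_append]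
            exact ih _ _ hv
        · intro j v' h1 h2
          exact hc ⟨j, v', h1, h2⟩

theorem merge_kill {q : ℕ} (i : Fin q) (f : NC ℚ (Option (Fin q)) →ₗ[ℚ] ℚ)
    (hk : ∀ k, f (xx q * k) = 0) (k : NC ℚ (Option (Fin q))) : mrg i f (xx q * k) = 0 := by
  induction k using nc_ind with
  | zero => simp
  | add g h hg hh => rw [mul_add, map_add, hg, hh, add_zero]
  | smul r l =>
    rw [mul_smul_comm, map_smul, xx, ← mon_append, mrg, lext_mon]
    have h1 : mw i f [] ([none] ++ l) = 0 := by
      rw [List.singleton_append, mw]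
      · rw [if_neg (by simp)]
        exact mw_none_MA i f hk l.length [] l rfl
      · intro j v' h1 h2
        simp at h1
    rw [h1, smul_zero]

/-- the word of the pattern on a list of gaps -/
private def wd_MA {q : ℕ} (π : Equiv.Perm (Fin q)) (m : Fin q → ℕ) (L : List (Fin q)) :
    List (Option (Fin q)) :=
  (L.map fun h => some (π h) :: List.replicate (m h) none).flatten

private theorem wd_append_MA {q : ℕ} (π : Equiv.Perm (Fin q)) (m : Fin q → ℕ)
    (L L' : List (Fin q)) : wd_MA π m (L ++ L') = wd_MA π m L ++ wd_MA π m L' := by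
  simp [wd_MA]

private theorem wd_congr_MA {q : ℕ} (π : Equiv.Perm (Fin q)) (m m' : Fin q → ℕ)
    (L : List (Fin q)) (h : ∀ g ∈ L, m g = m' g) : wd_MA π m L = wd_MA π m' L := by
  unfold wd_MA
  congr 1
  apply List.map_congr_left
  intro g hg
  rw [h g hg]

private theorem mon_rep_MA {q : ℕ} (n : ℕ) :
    mon ℚ (List.replicate n (none : Option (Fin q))) = xx q ^ n := by
  induction n with
  | zero => exact mon_nil ℚ
  | succ n ih => rw [List.replicate_succ, mon_cons, ih, pow_succ', xx]

private theorem pat_wd_MA {q : ℕ} (π : Equiv.Perm (Fin q)) (m : Fin q → ℕ) :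
    pat (xx q) (fun h => yy (π h)) m = mon ℚ (wd_MA π m (List.finRange q)) := by
  have h : ∀ L : List (Fin q), mon ℚ (wd_MA π m L) =
      (L.map fun h => yy (π h) * xx q ^ (m h)).prod := by
    intro L
    induction L with
    | nil => exact mon_nil ℚ
    | cons a L ih =>
      rw [List.map_cons, List.prod_cons, ← ih]
      have h1 : wd_MA π m (a :: L) = (some (π a) :: List.replicate (m a) none) ++ wd_MA π m L := by
        simp [wd_MA]
      rw [h1, mon_append, mon_cons, mon_rep_MA]
      rfl
  rw [h, pat, List.ofFn_eq_map]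

private theorem mem_take_MA {q : ℕ} (g h : Fin q) :
    h ∈ (List.finRange q).take g ↔ h < g := by
  rw [List.mem_take_iff_getElem]
  constructor
  · rintro ⟨i, hi, rfl⟩
    rw [lt_min_iff] at hi
    rw [List.getElem_finRange, Fin.lt_def]
    exact hi.1
  · intro hlt
    refine ⟨h.1, ?_, ?_⟩
    · rw [lt_min_iff, List.length_finRange]
      exact ⟨hlt, h.2⟩
    · rw [List.getElem_finRange]
      rfl

private theorem split_MA {q : ℕ} (g : Fin q) :
    List.finRange q = (List.finRange q).take g ++ g :: (List.finRange q).drop (g + 1) := by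
  have h1 : (g : ℕ) < (List.finRange q).length := by rw [List.length_finRange]; exact g.2
  have h2 := List.drop_eq_getElem_cons h1
  rw [List.getElem_finRange] at h2
  have h3 := List.take_append_drop (g : ℕ) (List.finRange q)
  rw [h2] at h3
  exact h3.symm

private theorem mem_drop_MA {q : ℕ} (g h : Fin q) (hh : h ∈ (List.finRange q).drop (g + 1)) :
    h ≠ g := by
  rintro rfl
  have h1 := List.nodup_finRange q
  rw [split_MA h] at h1
  have h2 := (List.nodup_append.1 h1).2.1
  exact (List.nodup_cons.1 h2).1 hh

theorem merge_pat {q : ℕ} (f : NC ℚ (Option (Fin q)) →ₗ[ℚ] ℚ) (π : Equiv.Perm (Fin q))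
    (g : Fin q) (m : Fin q → ℕ) :
    mrg (π g) f (pat (xx q) (fun h => yy (π h)) (m + Pi.single g 1)) =
      (-1) ^ (∑ h ∈ univ.filter (fun h => h < g), m h) *
        f (pat (xx q) (fun h => yy (π h)) m) := by
  have hm' : ∀ h, h ≠ g → (m + Pi.single g 1 : Fin q → ℕ) h = m h := by
    intro h hh
    rw [Pi.add_apply, Pi.single_eq_of_ne hh, add_zero]
  have hg' : (m + Pi.single g 1 : Fin q → ℕ) g = m g + 1 := by
    rw [Pi.add_apply, Pi.single_eq_same]
  have e1 : wd_MA π (m + Pi.single g 1) (List.finRange q) =
      wd_MA π m ((List.finRange q).take g) ++ some (π g) :: none ::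
        (List.replicate (m g) none ++ wd_MA π m ((List.finRange q).drop (g + 1))) := by
    conv_lhs => rw [split_MA g]
    rw [wd_append_MA, wd_congr_MA π _ m ((List.finRange q).take g) (fun h hh =>
      hm' h ((mem_take_MA g h).1 hh).ne)]
    congr 1
    have h1 : ∀ m'' : Fin q → ℕ, wd_MA π m'' (g :: (List.finRange q).drop (g + 1)) =
        (some (π g) :: List.replicate (m'' g) none) ++
          wd_MA π m'' ((List.finRange q).drop (g + 1)) := by
      intro m''
      simp [wd_MA]
    rw [h1, hg', wd_congr_MA π _ m ((List.finRange q).drop (g + 1)) (fun h hh =>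
      hm' h (mem_drop_MA g h hh))]
    simp [List.replicate_succ]
  have e2 : wd_MA π m (List.finRange q) =
      wd_MA π m ((List.finRange q).take g) ++ some (π g) ::
        (List.replicate (m g) none ++ wd_MA π m ((List.finRange q).drop (g + 1))) := by
    conv_lhs => rw [split_MA g]
    rw [wd_append_MA]
    congr 1
  rw [pat_wd_MA, pat_wd_MA, e1, e2, mrg_word]
  · congr 2
    have h1 : ∀ L : List (Fin q), (wd_MA π m L).count none = (L.map m).sum := by
      intro L
      induction L with
      | nil => rfl
      | cons a L ih =>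
        have h2 : wd_MA π m (a :: L) = (some (π a) :: List.replicate (m a) none) ++
            wd_MA π m L := by
          simp [wd_MA]
        rw [h2, List.count_append, ih, List.map_cons, List.sum_cons, List.count_cons,
          List.count_replicate_self]
        simp
    rw [h1, ← List.sum_toFinset m ((List.nodup_finRange q).sublist (List.take_sublist _ _))]
    apply Finset.sum_congr _ (fun _ _ => rfl)
    ext h
    rw [List.mem_toFinset, mem_take_MA]
    simp
  · intro h
    unfold wd_MA at h
    rw [List.mem_flatten] at h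
    obtain ⟨l, hl, hgl⟩ := h
    rw [List.mem_map] at hl
    obtain ⟨h, hh, rfl⟩ := hl
    rw [mem_take_MA] at hh
    rcases List.mem_cons.1 hgl with h1 | h1
    · rw [Option.some.injEq] at h1
      exact hh.ne (π.injective h1).symm
    · have := List.eq_of_mem_replicate h1
      simp at this

theorem merge_all {q p n : ℕ} (f : NC ℚ (Option (Fin q)) →ₗ[ℚ] ℚ) (hf : Good q p n f)
    (hk : ∀ k, f (xx q * k) = 0) (π : Equiv.Perm (Fin q)) (ε : Fin q → ℕ) (I : Finset (Fin q)) :
    ∃ f' : NC ℚ (Option (Fin q)) →ₗ[ℚ] ℚ, Good q (p + I.card) n f' ∧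
      (∀ k, f' (xx q * k) = 0) ∧ ∃ s : ℚ, s ≠ 0 ∧ ∀ a : Fin q → ℕ,
        f' (pat (xx q) (fun h => yy (π h)) fun g => 2 * a g + ε g + if g ∈ I then 1 else 0) =
          s * f (pat (xx q) (fun h => yy (π h)) fun g => 2 * a g + ε g) := by
  induction I using Finset.induction_on with
  | empty =>
    refine ⟨f, by simpa using hf, hk, 1, one_ne_zero, fun a => ?_⟩
    simp
  | insert g I hg ih =>
    obtain ⟨f', h1, h2, s, hs, h3⟩ := ih
    refine ⟨mrg (π g) f', ?_, merge_kill _ _ h2,
      (-1) ^ (∑ h ∈ univ.filter (fun h => h < g), (ε h + if h ∈ I then 1 else 0)) * s,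
      mul_ne_zero (pow_ne_zero _ (by norm_num)) hs, fun a => ?_⟩
    · rw [Finset.card_insert_of_notMem hg, ← add_assoc]
      exact merge_good (π g) f' h1
    · have e1 : (fun h => 2 * a h + ε h + if h ∈ insert g I then 1 else 0) =
          (fun h => 2 * a h + ε h + if h ∈ I then 1 else 0) + Pi.single g 1 := by
        funext h
        rw [Pi.add_apply]
        by_cases hhg : h = g
        · subst hhg
          rw [Pi.single_eq_same, if_neg hg, if_pos (Finset.mem_insert_self _ _)]
        · rw [Pi.single_eq_of_ne hhg, add_zero]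
          simp [Finset.mem_insert, hhg]
      rw [e1, merge_pat, h3]
      have e2 : ((-1 : ℚ)) ^ (∑ h ∈ univ.filter (fun h => h < g),
            (2 * a h + ε h + if h ∈ I then 1 else 0)) =
          (-1) ^ (∑ h ∈ univ.filter (fun h => h < g), (ε h + if h ∈ I then 1 else 0)) := by
        have e3 : (∑ h ∈ univ.filter (fun h => h < g),
            (2 * a h + ε h + if h ∈ I then 1 else 0)) =
            2 * (∑ h ∈ univ.filter (fun h => h < g), a h) +
              ∑ h ∈ univ.filter (fun h => h < g), (ε h + if h ∈ I then 1 else 0) := by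
          rw [Finset.mul_sum, ← Finset.sum_add_distrib]
          apply Finset.sum_congr rfl
          intro h _
          ring
        rw [e3, pow_add, pow_mul]
        norm_num
      rw [e2, mul_assoc]

end Pool.Agent.Helper43.LN
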