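import Mathlib
import Pool.Agent.LieLow.ContractMix
import Pool.Agent.Helper43.LN.Grass
import Pool.Agent.Helper43.LN.EvalS
import Pool.Agent.Helper43.LN.MergeAll
import Pool.Agent.Helper43.LN.InitS
import Pool.Agent.Helper43.LN.Top

/-!
# LN sharp version: the top sector vanishes

PROOF (complete) of `topS`: as `top` in Top.lean, with `init_good` in place of `init` (and `exists_grassmann`). Fix the order
`π`, take `m` with `∑ m = p`, `f (pat m) ≠ 0` and `∑ m g % 2` maximal, `ε g = m g % 2`, `b = ∑ ε`,
`D = ∑ m g / 2`, `p = 2 D + b`, `c a = f (pat (2 a + ε))`; show `c = 0` on `∑ a = D`. `last = q - 1`.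
 `I` = the set of the `g ≠ last` with `ε g = 0`; `merge_all` gives `f'`, `s ≠ 0` with `c a = s⁻¹ * f' (pat (2 a + ε'))`,
 `ε' g = ε g + [g ∈ I]`, so `ε' g = 1` for `g ≠ last`, `ε' last ≤ 1`, and `Good q (p + I.card) n f'`.
 If `q + D ≤ n`: `κ = 0`, `RVL_mono` to `q + D`, `evalS` with `L = []`. Otherwise `κ = q + D - n`;
 `LieLow.contract_nc_mix` with `K = κ`, `N = {last}`: `3 κ + 1 ≤ D + 2` follows from `3 q + p ≤ 3 n + 1` and `2 D ≤ p`.
 (TI) as in Top.lean (for `f`). (M): for `L` noncrossing of length `κ`, `∑ a + κ = D`, `dv L g ≤ a g + 1` for all `g` and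
 `dv L last ≤ a last`: `ncr_ncs` with `Γ = finRange q`, `P = a`, then `evalS` for `f'` with
 `Z = ofFn (fun g => (g, y_{π g}, []))`, `rest = finRange (p + I.card)`: `n = ∑ (a g + 1) = D - κ + q`, and
 `p + I.card = ∑ (2 a g + ε' g) + 2 κ` since `∑ ε' = b + I.card`.
-/

set_option autoImplicit false

namespace Pool.Agent.Helper43.LN

open scoped TensorProduct
open Finset Pool.Agent.Helper22.LB

private theorem perm_ne_aux {p : ℕ} {Λ : Type} [Ring Λ] [Algebra ℚ Λ] (ξ : Fin p → Λ)
    (β : Λ →ₗ[ℚ] ℚ)
    (hβ : ∀ σ : Equiv.Perm (Fin p), β (((List.finRange p).map fun i => ξ (σ i)).prod) =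
        ((Equiv.Perm.sign σ : ℤ) : ℚ)) (l : List (Fin p)) (hl : l.Perm (List.finRange p)) :
    β (xi ξ l) ≠ 0 := by
  have hlen : l.length = p := by
    have := hl.length_eq
    simpa using this
  have hnd : l.Nodup := hl.nodup_iff.2 (List.nodup_finRange p)
  have hmem : ∀ x, x ∈ l := fun x => hl.mem_iff.2 (List.mem_finRange x)
  let σ : Equiv.Perm (Fin p) := Equiv.ofBijective (fun i => l.get (i.cast hlen.symm)) (by
    rw [Finite.injective_iff_bijective.symm]
    intro i j hij
    have := (List.nodup_iff_injective_get.1 hnd) hij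
    simpa using this)
  have e : l = (List.finRange p).map fun i => σ i := by
    apply List.ext_get
    · simp [hlen]
    · intro k h1 h2
      simp [σ]
  have e2 : xi ξ l = ((List.finRange p).map fun i => ξ (σ i)).prod := by
    rw [xi, e, List.map_map]
    rfl
  rw [e2, hβ]
  rcases Int.units_eq_one_or (Equiv.Perm.sign σ) with h | h <;> rw [h] <;> simp

private theorem Del_smul_aux {q : ℕ} (s : ℚ) (c : (Fin q → ℕ) → ℚ) (L : List (Fin q × Fin q))
    (a : Fin q → ℕ) : Del (fun a => s * c a) L a = s * Del c L a := by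
  induction L generalizing a with
  | nil => rfl
  | cons p L ih => rw [Del, Del, ih, ih, mul_sub]

/-- evaluation for the functional `f'` -/
private theorem ev_aux {q p' n N : ℕ} (f' : NC ℚ (Option (Fin q)) →ₗ[ℚ] ℚ) (hf' : Good q p' n f')
    (hk' : ∀ k, f' (xx q * k) = 0) (π : Equiv.Perm (Fin q)) (ε' : Fin q → ℕ)
    (hε : ∀ g, ε' g ≤ 1) (hε1 : ∀ g h : Fin q, g < h → ε' g = 1) (P : Fin q → ℕ)
    (L : List (Fin q × Fin q)) (hL : NCs (List.finRange q) P L) (hN : N = ∑ g, (P g + 1))
    (hNn : N ≤ n) (hp' : p' = ∑ g, (2 * P g + ε' g) + 2 * L.length) :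
    Del (fun a => f' (pat (xx q) (fun h => yy (π h)) fun g => 2 * a g + ε' g)) L P = 0 := by
  obtain ⟨Λ, hΛ1, hΛ2, ξ, β, hξ, hβ⟩ := exists_grassmann p'
  have hpat : ∀ a : Fin q → ℕ, cZ f' (xx q) ε'
      (List.ofFn fun g : Fin q => (g, (yy (π g) : NC ℚ (Option (Fin q))), ([] : List (Fin p')))) a =
      f' (pat (xx q) (fun h => yy (π h)) fun g => 2 * a g + ε' g) := by
    intro a
    unfold cZ pat
    rw [List.map_ofFn]
    rfl
  have hZ : (List.ofFn fun g : Fin q => (g, (yy (π g) : NC ℚ (Option (Fin q))),
      ([] : List (Fin p')))).map (fun z => z.1) = List.finRange q := by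
    rw [List.map_ofFn]
    exact List.ofFn_id q
  have hsum : ∀ h : Fin q → ℕ, ((List.finRange q).map h).sum = ∑ g, h g := by
    intro h
    rw [← List.ofFn_eq_map, List.sum_ofFn]
  have hperm : RVL (fun z => fb f' β z) n
      ((List.ofFn fun g : Fin q => yy (π g) ⊗ₜ[ℚ] (1 : Λ)) ++
        (List.finRange p').map (fun s => xx q ⊗ₜ[ℚ] ξ s)) := by
    refine RVL_perm ?_ (hf' Λ ξ β hξ)
    refine List.Perm.append_right _ ?_
    exact (Equiv.Perm.ofFn_comp_perm π (fun g : Fin q =>
      (yy g : NC ℚ (Option (Fin q))) ⊗ₜ[ℚ] (1 : Λ))).symm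
  have h := evalS ξ hξ (xx q) f' β (fb f' β) (fb_tmul f' β) hk' ε' hε (List.finRange p')
    (perm_ne_aux ξ β hβ) (List.finRange q) P L hL (List.nodup_finRange q) (by
      intro Γ₁ g h Γ₂ hΓ
      refine hε1 g h ?_
      have hpw : (List.finRange q).Pairwise (· < ·) := List.pairwise_lt_finRange q
      rw [hΓ, List.pairwise_append] at hpw
      exact (List.pairwise_cons.1 hpw.2.1).1 h List.mem_cons_self)
    (List.ofFn fun g : Fin q => (g, (yy (π g) : NC ℚ (Option (Fin q))), ([] : List (Fin p'))))
    (List.finRange p') N hZ (by rw [hsum, hN]) (by rw [hsum, List.length_finRange, hp']) (by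
      have : ((List.ofFn fun g : Fin q => (g, (yy (π g) : NC ℚ (Option (Fin q))),
          ([] : List (Fin p')))).map fun z => z.2.2).flatten = [] := by
        rw [List.flatten_eq_nil_iff]
        intro l hl
        rw [List.map_ofFn, List.mem_ofFn] at hl
        obtain ⟨g, hg⟩ := hl
        exact hg.symm
      rw [this, List.nil_append]) (by
      refine RVL_mono hNn ?_
      have e : (List.ofFn fun g : Fin q => (g, (yy (π g) : NC ℚ (Option (Fin q))),
          ([] : List (Fin p')))).map (fun z => z.2.1 ⊗ₜ[ℚ] xi ξ z.2.2) =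
          List.ofFn fun g : Fin q => yy (π g) ⊗ₜ[ℚ] (1 : Λ) := by
        rw [List.map_ofFn]
        congr 1
      rw [e]
      exact hperm)
  have e : cZ f' (xx q) ε'
      (List.ofFn fun g : Fin q => (g, (yy (π g) : NC ℚ (Option (Fin q))), ([] : List (Fin p')))) =
      fun a => f' (pat (xx q) (fun h => yy (π h)) fun g => 2 * a g + ε' g) := funext hpat
  rw [e] at h
  exact h

/-- An alternating functional with `q` other letters, `3 q + p ≤ 3 n + 1`, is zero. -/
theorem topS {q p n : ℕ} (hq : 2 ≤ q) (h : 3 * q + p ≤ 3 * n + 1)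
    (F : List (Fin q ⊕ Fin p) → ℚ) (z : Fin q ⊕ Fin p) (hF : AltF q p n F z)
    (w : List (Fin q ⊕ Fin p)) (hw : (z :: w).Perm (letters q p)) : F (z :: w) = 0 := by
  obtain ⟨f, hGood, hkill, hIns, hFin⟩ := init_good F z hF
  refine hFin (fun π => ?_) w hw
  -- induction on the number of odd exponents
  have key : ∀ (b : ℕ) (m : Fin q → ℕ), ∑ g, m g = p → q - ∑ g, m g % 2 = b →
      f (pat (xx q) (fun g => yy (π g)) m) = 0 := by
    intro b
    induction b using Nat.strong_induction_on with
    | _ b ih =>
      intro m hm hb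
      have hbound : ∀ n : Fin q → ℕ, ∑ g, n g % 2 ≤ q := by
        intro n
        calc ∑ g, n g % 2 ≤ ∑ _g : Fin q, 1 := Finset.sum_le_sum fun g _ => by omega
          _ = q := by simp
      have hmax : ∀ n : Fin q → ℕ, ∑ g, n g = p → ∑ g, m g % 2 < ∑ g, n g % 2 →
          f (pat (xx q) (fun g => yy (π g)) n) = 0 := by
        intro n hn hlt
        have := hbound n
        exact ih (q - ∑ g, n g % 2) (by omega) n hn rfl
      obtain ⟨ε, hεdef⟩ : ∃ ε : Fin q → ℕ, ε = fun g => m g % 2 := ⟨_, rfl⟩
      have hε : ∀ g, ε g ≤ 1 := fun g => by rw [hεdef]; dsimp only; omega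
      obtain ⟨c, hc⟩ : ∃ c : (Fin q → ℕ) → ℚ, c = fun a =>
        f (pat (xx q) (fun g => yy (π g)) fun g => 2 * a g + ε g) := ⟨_, rfl⟩
      obtain ⟨D, hD⟩ : ∃ D, D = ∑ g, m g / 2 := ⟨_, rfl⟩
      have hpD : p = 2 * D + ∑ g, ε g := by
        rw [← hm, hD, Finset.mul_sum, ← Finset.sum_add_distrib]
        refine Finset.sum_congr rfl fun g _ => ?_
        rw [hεdef]
        dsimp only
        omega
      have hmc : f (pat (xx q) (fun g => yy (π g)) m) = c fun g => m g / 2 := by
        rw [hc]
        dsimp only
        congr 2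
        funext g
        rw [hεdef]
        dsimp only
        omega
      rw [hmc]
      -- the merged functional
      have hq0 : 0 < q := by omega
      obtain ⟨last, hlast⟩ : ∃ last : Fin q, last = ⟨q - 1, by omega⟩ := ⟨_, rfl⟩
      have hle_last : ∀ g : Fin q, g ≤ last := by
        intro g
        rw [hlast, Fin.le_def]
        have := g.2
        dsimp only
        omega
      obtain ⟨I, hI⟩ : ∃ I : Finset (Fin q), I = univ.filter fun g => g ≠ last ∧ ε g = 0 :=
        ⟨_, rfl⟩
      obtain ⟨f', hGood', hkill', s, hs, hf'⟩ := merge_all f hGood hkill π ε I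
      obtain ⟨ε', hε'def⟩ : ∃ ε' : Fin q → ℕ, ε' = fun g => ε g + if g ∈ I then 1 else 0 :=
        ⟨_, rfl⟩
      have hε' : ∀ g, ε' g ≤ 1 := by
        intro g
        rw [hε'def, hI]
        dsimp only
        have := hε g
        split_ifs with h1
        · have := (Finset.mem_filter.1 h1).2.2
          omega
        · omega
      have hε'1 : ∀ g h : Fin q, g < h → ε' g = 1 := by
        intro g h hgh
        have hne : g ≠ last := ne_of_lt (lt_of_lt_of_le hgh (hle_last h))
        rw [hε'def, hI]
        dsimp only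
        have := hε g
        split_ifs with h1
        · have := (Finset.mem_filter.1 h1).2.2
          omega
        · by_contra h2
          exact h1 (Finset.mem_filter.2 ⟨Finset.mem_univ _, hne, by omega⟩)
      have hsumI : ∑ g, ε' g = ∑ g, ε g + I.card := by
        rw [hε'def]
        dsimp only
        rw [Finset.sum_add_distrib]
        congr 1
        simp
      have hcs : (fun a : Fin q → ℕ => f' (pat (xx q) (fun h => yy (π h))
          fun g => 2 * a g + ε' g)) = fun a => s * c a := by
        funext a
        rw [hc, hε'def]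
        dsimp only
        rw [← hf' a]
        congr 2
        funext g
        ring
      -- evaluation
      have hev : ∀ (P : Fin q → ℕ) (L : List (Fin q × Fin q)), NCs (List.finRange q) P L →
          ∑ g, P g + L.length = D → q + ∑ g, P g ≤ n → Del c L P = 0 := by
        intro P L hL h1 h2
        have h3 := ev_aux (N := ∑ g, (P g + 1)) f' hGood' hkill' π ε' hε' hε'1 P L hL rfl (by
          rw [Finset.sum_add_distrib]
          simp
          omega) (by
          rw [Finset.sum_add_distrib, hsumI, ← Finset.mul_sum]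
          omega)
        rw [hcs, Del_smul_aux] at h3
        exact (mul_eq_zero.1 h3).resolve_left hs
      have hpw : (List.finRange q).Pairwise (· < ·) := List.pairwise_lt_finRange q
      have hne : List.finRange q ≠ [] := by
        intro h0
        have := congrArg List.length h0
        simp at this
        omega
      have hgl : (List.finRange q).getLast hne = last := by
        rw [List.getLast_eq_getElem]
        simp [hlast]
      have hall : ∀ a : Fin q → ℕ, ∑ g, a g = D → c a = 0 := by
        by_cases hcase : q + D ≤ n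
        · intro a ha
          obtain ⟨L', hL', hN⟩ := ncr_ncs (List.finRange q) hpw hne [] (by
            refine ⟨?_, ?_⟩ <;> simp) (by simp) a (by simp [vl]) (by simp [vl])
          rw [List.perm_nil] at hL'
          subst hL'
          exact hev a [] hN (by simpa using ha) (by omega)
        · obtain ⟨κ, hκ⟩ : ∃ κ, κ = q + D - n := ⟨_, rfl⟩
          obtain ⟨Λ, hΛ1, hΛ2, ξ, β, hξ, hβ⟩ := exists_grassmann p
          refine LieLow.contract_nc_mix c D κ {last} ?_ ?_ ?_
          · intro a ha
            have hlen : (List.finRange p).length = p := List.length_finRange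
            have hTI := TI hq ξ hξ (xx q) (fun g => yy (π g)) f β (fb f β) (fb_tmul f β)
              (List.finRange p) (by rw [hlen]; omega) (perm_ne_aux ξ β hβ)
              (fun r c d hr w y hwy hw0 => hIns Λ ξ β hξ π r c d hr w y hwy hw0) ε hε
              (by
                rw [hlen, hεdef]
                exact hmax) a (by
                rw [hlen, Finset.sum_add_distrib, ← Finset.mul_sum]
                omega)
            rw [hc]
            exact hTI
          · simp only [Finset.card_singleton]
            omega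
          · intro L hLlen hLlt hLnc a ha hdv hdvl
            have hNCr : NCr L := ⟨hLlt, hLnc⟩
            obtain ⟨L', hL', hN⟩ := ncr_ncs (List.finRange q) hpw hne L hNCr
              (fun p _ => ⟨List.mem_finRange _, List.mem_finRange _⟩) a
              (fun g _ => by rw [vl_eq_dv]; exact hdv g)
              (by rw [hgl, vl_eq_dv]; exact hdvl last (Finset.mem_singleton_self _))
            rw [← Del_eq_dl, ← Del_perm c hL']
            have hlen' : L'.length = κ := by rw [hL'.length_eq, hLlen]
            exact hev a L' hN (by rw [hlen']; exact ha) (by omega)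
      exact hall _ hD.symm
  exact fun m hm => key _ m hm rfl

end Pool.Agent.Helper43.LN
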